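import Pool.Agent.HEP.Targets

/-!
# HEP-ALGID: the algebraic identity behind the connection
-/

set_option autoImplicit false

namespace Pool.Agent.HEP

open Finset Pool.Agent.LEG
open scoped BigOperators Topology

namespace ALGID_

/-- the coefficient of `h_k x ^ i` in the second part of the connection -/
def G {R : Type} [CommRing R] (z : R) (α k i : ℕ) : R :=
  if i < α then (if k ≤ i then z ^ (α - 1 - i + k) else 0)
  else (if i + 1 ≤ k then -z ^ (α + k - 1 - i) else 0)

theorem G_sum {R : Type} [CommRing R] (x z : R) (α k m : ℕ) (hα : α < m) (hk : k ≤ m) :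
    ∑ i ∈ range m, G z α k i * x ^ i * (x - z) = z ^ k * x ^ α - z ^ α * x ^ k := by
  rcases le_total k α with h | h
  · have h1 : ∑ i ∈ range m, G z α k i * x ^ i * (x - z) =
        ∑ i ∈ Ico k α, z ^ k * ((x - z) * (x ^ i * z ^ (α - 1 - i))) := by
      symm
      rw [← Finset.sum_subset (s₁ := Ico k α) (s₂ := range m)]
      · refine Finset.sum_congr rfl fun i hi => ?_
        rw [Finset.mem_Ico] at hi
        rw [G, if_pos hi.2, if_pos hi.1, pow_add]
        ring
      · intro i hi
        rw [Finset.mem_Ico] at hi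
        exact Finset.mem_range.2 (by omega)
      · intro i hi hi2
        rw [Finset.mem_Ico] at hi2
        rw [G]
        by_cases h3 : i < α
        · rw [if_pos h3, if_neg (by omega)]
          ring
        · rw [if_neg h3, if_neg (by omega)]
          ring
    rw [h1, ← Finset.mul_sum, ← Finset.mul_sum, mul_geom_sum₂_Ico x z h, mul_sub,
      ← mul_assoc, mul_comm (z ^ k) (x ^ k), mul_assoc (x ^ k), ← pow_add,
      Nat.add_sub_cancel' h]
    ring
  · have h1 : ∑ i ∈ range m, G z α k i * x ^ i * (x - z) =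
        ∑ i ∈ Ico α k, -z ^ α * ((x - z) * (x ^ i * z ^ (k - 1 - i))) := by
      symm
      rw [← Finset.sum_subset (s₁ := Ico α k) (s₂ := range m)]
      · refine Finset.sum_congr rfl fun i hi => ?_
        rw [Finset.mem_Ico] at hi
        rw [G, if_neg (by omega), if_pos (by omega),
          show α + k - 1 - i = α + (k - 1 - i) by omega, pow_add]
        ring
      · intro i hi
        rw [Finset.mem_Ico] at hi
        exact Finset.mem_range.2 (by omega)
      · intro i hi hi2
        rw [Finset.mem_Ico] at hi2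
        rw [G]
        by_cases h3 : i < α
        · rw [if_pos h3, if_neg (by omega)]
          ring
        · rw [if_neg h3, if_neg (by omega)]
          ring
    rw [h1, ← Finset.mul_sum, ← Finset.mul_sum, mul_geom_sum₂_Ico x z h, mul_sub,
      neg_mul, neg_mul, sub_neg_eq_add, ← mul_assoc (z ^ α), mul_comm (z ^ α) (x ^ α),
      mul_assoc (x ^ α), ← pow_add, Nat.add_sub_cancel' h]
    ring

theorem aeval_AA (h : Polynomial ℚ) (m α i : ℕ) (hi : i < m) {R : Type} [CommRing R]
    [Algebra ℚ R] (z : R) :
    Polynomial.aeval z (AA h m α i) = algebraMap ℚ R (1 / 2) *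
      (algebraMap ℚ R (((i : ℚ) + 1) * h.coeff (i + 1)) * z ^ α +
        ∑ k ∈ range (m + 1), algebraMap ℚ R (h.coeff k) * G z α k i) := by
  rw [AA, map_mul, Polynomial.aeval_C, map_add, map_mul, Polynomial.aeval_C, map_pow,
    Polynomial.aeval_X]
  congr 2
  by_cases h1 : i < α
  · rw [if_pos h1, map_sum]
    rw [← Finset.sum_subset (s₁ := range (i + 1)) (s₂ := range (m + 1))]
    · refine Finset.sum_congr rfl fun k hk => ?_
      rw [Finset.mem_range] at hk
      rw [map_mul, Polynomial.aeval_C, map_pow, Polynomial.aeval_X, G, if_pos h1,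
        if_pos (by omega)]
    · intro k hk
      rw [Finset.mem_range] at hk ⊢
      omega
    · intro k hk hk2
      rw [Finset.mem_range] at hk2
      rw [G, if_pos h1, if_neg (by omega), mul_zero]
  · rw [if_neg h1, map_neg, map_sum, ← Finset.sum_neg_distrib]
    rw [← Finset.sum_subset (s₁ := Icc (i + 1) m) (s₂ := range (m + 1))]
    · refine Finset.sum_congr rfl fun k hk => ?_
      rw [Finset.mem_Icc] at hk
      rw [map_mul, Polynomial.aeval_C, map_pow, Polynomial.aeval_X, G, if_neg h1,
        if_pos (by omega)]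
      ring
    · intro k hk
      rw [Finset.mem_Icc] at hk
      rw [Finset.mem_range]
      omega
    · intro k hk hk2
      rw [Finset.mem_range] at hk
      rw [Finset.mem_Icc] at hk2
      rw [G, if_neg h1, if_neg (by omega), mul_zero]

theorem deg (h : Polynomial ℚ) (m α i : ℕ) (hα : α < m) (hi : i < m) :
    (AA h m α i).degree < m := by
  have hm : ∀ (c : ℚ) (n : ℕ), n < m →
      Polynomial.C c * Polynomial.X ^ n ∈ Polynomial.degreeLT ℚ m := by
    intro c n hn
    rw [Polynomial.mem_degreeLT]
    exact lt_of_le_of_lt (Polynomial.degree_C_mul_X_pow_le n c) (by exact_mod_cast hn)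
  rw [← Polynomial.mem_degreeLT, AA, ← Polynomial.smul_eq_C_mul]
  refine Submodule.smul_mem _ _ (Submodule.add_mem _ (hm _ _ hα) ?_)
  by_cases h1 : i < α
  · rw [if_pos h1]
    refine Submodule.sum_mem _ fun k hk => hm _ _ ?_
    rw [Finset.mem_range] at hk
    omega
  · rw [if_neg h1]
    refine Submodule.neg_mem _ (Submodule.sum_mem _ fun k hk => hm _ _ ?_)
    rw [Finset.mem_Icc] at hk
    omega

end ALGID_

open ALGID_ in
theorem p_ALGID : T_ALGID := by
  intro h m α hm hα
  refine ⟨?_, fun i hi => deg h m α i hα hi⟩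
  intro R _ _ x z
  have e1 : Polynomial.aeval z h = ∑ k ∈ range (m + 1), algebraMap ℚ R (h.coeff k) * z ^ k := by
    rw [Polynomial.aeval_eq_sum_range, hm]
    exact Finset.sum_congr rfl fun k _ => Algebra.smul_def _ _
  have e2 : Polynomial.aeval x h = ∑ k ∈ range (m + 1), algebraMap ℚ R (h.coeff k) * x ^ k := by
    rw [Polynomial.aeval_eq_sum_range, hm]
    exact Finset.sum_congr rfl fun k _ => Algebra.smul_def _ _
  have e3 : Polynomial.aeval x (Polynomial.derivative h) =
      ∑ i ∈ range m, algebraMap ℚ R (((i : ℚ) + 1) * h.coeff (i + 1)) * x ^ i := by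
    rw [Polynomial.aeval_eq_sum_range' (n := m)
      (by rw [← hm]; exact Polynomial.natDegree_derivative_lt (by omega))]
    refine Finset.sum_congr rfl fun k _ => ?_
    rw [Algebra.smul_def, Polynomial.coeff_derivative, mul_comm (h.coeff (k + 1))]
  have e4 : ∀ i ∈ range m, Polynomial.aeval z (AA h m α i) * x ^ i * (x - z) =
      algebraMap ℚ R (1 / 2) * (z ^ α * (x - z) *
        (algebraMap ℚ R (((i : ℚ) + 1) * h.coeff (i + 1)) * x ^ i) +
        ∑ k ∈ range (m + 1), algebraMap ℚ R (h.coeff k) * (G z α k i * x ^ i * (x - z))) := by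
    intro i hi
    rw [aeval_AA h m α i (Finset.mem_range.1 hi)]
    have : ∑ k ∈ range (m + 1), algebraMap ℚ R (h.coeff k) * (G z α k i * x ^ i * (x - z)) =
        (∑ k ∈ range (m + 1), algebraMap ℚ R (h.coeff k) * G z α k i) * (x ^ i * (x - z)) := by
      rw [Finset.sum_mul]
      exact Finset.sum_congr rfl fun k _ => by ring
    rw [this]
    ring
  rw [Finset.sum_congr rfl e4, ← Finset.mul_sum, Finset.sum_add_distrib, ← Finset.mul_sum, ← e3,
    Finset.sum_comm]
  have e5 : ∀ k ∈ range (m + 1),
      ∑ i ∈ range m, algebraMap ℚ R (h.coeff k) * (G z α k i * x ^ i * (x - z)) =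
      (algebraMap ℚ R (h.coeff k) * z ^ k) * x ^ α -
        z ^ α * (algebraMap ℚ R (h.coeff k) * x ^ k) := by
    intro k hk
    rw [← Finset.mul_sum, G_sum x z α k m hα (by rw [Finset.mem_range] at hk; omega)]
    ring
  rw [Finset.sum_congr rfl e5, Finset.sum_sub_distrib, ← Finset.sum_mul, ← Finset.mul_sum,
    ← e1, ← e2]
  ring

end Pool.Agent.HEP
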