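import Pool.Agent.HEP.Targets

/-!
# HEP-BETA: the beta integrals
-/

set_option autoImplicit false

namespace Pool.Agent.HEP

open Finset Pool.Agent.LEG
open scoped BigOperators Topology

namespace BETA_

theorem bm_succ (n : ℕ) : (bm (n + 1) : ℝ) * ((n : ℝ) + 1) = (bm n : ℝ) * ((n : ℝ) + 1 / 2) := by
  have h1 := Nat.succ_mul_centralBinom_succ n
  have h2 : ((n : ℝ) + 1) * (Nat.centralBinom (n + 1) : ℝ) =
      2 * (2 * (n : ℝ) + 1) * (Nat.centralBinom n : ℝ) := by exact_mod_cast h1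
  rw [bm, bm]
  push_cast
  rw [pow_succ]
  have h4 : (4 : ℝ) ^ n ≠ 0 := by positivity
  field_simp
  linear_combination 2 * h2

theorem gam (n : ℕ) : Real.Gamma ((n : ℝ) + 1 / 2) * Real.Gamma (1 / 2) /
    Real.Gamma ((n : ℝ) + 1) = Real.pi * (bm n : ℝ) := by
  induction n with
  | zero =>
    rw [Nat.cast_zero, zero_add, zero_add, Real.Gamma_one, Real.Gamma_one_half_eq, div_one,
      Real.mul_self_sqrt Real.pi_pos.le, bm]
    simp
  | succ n ih =>
    have h1 : Real.Gamma (((n + 1 : ℕ) : ℝ) + 1 / 2) =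
        ((n : ℝ) + 1 / 2) * Real.Gamma ((n : ℝ) + 1 / 2) := by
      rw [← Real.Gamma_add_one (by positivity)]
      congr 1
      push_cast
      ring
    have h2 : Real.Gamma (((n + 1 : ℕ) : ℝ) + 1) =
        ((n : ℝ) + 1) * Real.Gamma ((n : ℝ) + 1) := by
      rw [← Real.Gamma_add_one (by positivity)]
      congr 1
      push_cast
      ring
    have h3 : Real.Gamma ((n : ℝ) + 1) ≠ 0 := (Real.Gamma_pos_of_pos (by positivity)).ne'
    have h4 : (n : ℝ) + 1 ≠ 0 := by positivity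
    have h5 := bm_succ n
    rw [h1, h2]
    rw [div_eq_iff h3] at ih
    rw [div_eq_iff (mul_ne_zero h4 h3)]
    linear_combination ((n : ℝ) + 1 / 2) * ih - Real.pi * Real.Gamma ((n : ℝ) + 1) * h5

theorem ae_Ioo : ∀ᵐ t : ℝ ∂(MeasureTheory.volume.restrict (Set.Ioc (0 : ℝ) 1)),
    t ∈ Set.Ioo (0 : ℝ) 1 := by
  rw [MeasureTheory.ae_restrict_iff' measurableSet_Ioc]
  have h : ∀ᵐ t : ℝ ∂MeasureTheory.volume, t ∈ ({1} : Set ℝ)ᶜ :=
    MeasureTheory.compl_mem_ae_iff.mpr (MeasureTheory.measure_singleton 1)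
  filter_upwards [h] with t ht h1
  exact ⟨h1.1, lt_of_le_of_ne h1.2 ht⟩

theorem integrand (n : ℕ) (x : ℝ) (hx : x ∈ Set.Ioo (0 : ℝ) 1) :
    (x : ℂ) ^ (((n : ℂ) + 1 / 2) - 1) * (1 - (x : ℂ)) ^ ((1 / 2 : ℂ) - 1) =
      ((x ^ n / Real.sqrt (x * (1 - x)) : ℝ) : ℂ) := by
  have h0 : 0 < x := hx.1
  have h1 : 0 < 1 - x := by linarith [hx.2]
  have e1 : (x : ℂ) ^ (((n : ℂ) + 1 / 2) - 1) = ((x ^ ((n : ℝ) - 1 / 2) : ℝ) : ℂ) := by
    rw [Complex.ofReal_cpow h0.le]
    congr 1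
    push_cast
    ring
  have e2 : (1 - (x : ℂ)) ^ ((1 / 2 : ℂ) - 1) = (((1 - x) ^ (-(1 / 2) : ℝ) : ℝ) : ℂ) := by
    rw [Complex.ofReal_cpow h1.le]
    congr 1
    · push_cast
      ring
    · push_cast
      ring
  rw [e1, e2, ← Complex.ofReal_mul, Real.sqrt_mul h0.le, Real.sqrt_eq_rpow, Real.sqrt_eq_rpow,
    Real.rpow_sub h0, Real.rpow_natCast, Real.rpow_neg h1.le]
  congr 1
  field_simp

end BETA_

open BETA_ in
theorem p_BETA : T_BETA := by
  intro n
  have hu : 0 < ((n : ℂ) + 1 / 2).re := by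
    rw [Complex.add_re, Complex.natCast_re]
    norm_num
    positivity
  have hv : 0 < (1 / 2 : ℂ).re := by norm_num
  have hg := Complex.betaIntegral_convergent hu hv
  have hae : (fun x : ℝ => (x : ℂ) ^ (((n : ℂ) + 1 / 2) - 1) * (1 - (x : ℂ)) ^ ((1 / 2 : ℂ) - 1))
      =ᵐ[MeasureTheory.volume.restrict (Set.Ioc (0 : ℝ) 1)]
      fun x => ((x ^ n / Real.sqrt (x * (1 - x)) : ℝ) : ℂ) := by
    filter_upwards [ae_Ioo] with x hx
    exact integrand n x hx
  have hfC : MeasureTheory.IntegrableOn (fun x : ℝ => ((x ^ n / Real.sqrt (x * (1 - x)) : ℝ) : ℂ))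
      (Set.Ioc (0 : ℝ) 1) MeasureTheory.volume := by
    rw [intervalIntegrable_iff_integrableOn_Ioc_of_le zero_le_one] at hg
    exact MeasureTheory.Integrable.congr hg hae
  have hint : IntervalIntegrable (fun s : ℝ => s ^ n / Real.sqrt (s * (1 - s)))
      MeasureTheory.volume 0 1 := by
    rw [intervalIntegrable_iff_integrableOn_Ioc_of_le zero_le_one]
    exact MeasureTheory.Integrable.re hfC
  refine ⟨hint, ?_⟩
  have h1 : ((∫ s in (0 : ℝ)..1, s ^ n / Real.sqrt (s * (1 - s)) : ℝ) : ℂ) =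
      Complex.betaIntegral ((n : ℂ) + 1 / 2) (1 / 2) := by
    rw [← intervalIntegral.integral_ofReal, Complex.betaIntegral,
      intervalIntegral.integral_of_le zero_le_one, intervalIntegral.integral_of_le zero_le_one]
    exact MeasureTheory.integral_congr_ae hae.symm
  have h2 : Complex.betaIntegral ((n : ℂ) + 1 / 2) (1 / 2) =
      ((Real.Gamma ((n : ℝ) + 1 / 2) * Real.Gamma (1 / 2) / Real.Gamma ((n : ℝ) + 1) : ℝ) : ℂ) := by
    rw [Complex.betaIntegral_eq_Gamma_mul_div _ _ hu hv]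
    push_cast
    rw [← Complex.Gamma_ofReal, ← Complex.Gamma_ofReal, ← Complex.Gamma_ofReal]
    push_cast
    congr 2
    ring
  rw [h2, gam] at h1
  exact_mod_cast h1

end Pool.Agent.HEP
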