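import Pool.Agent.HEP.Targets

set_option autoImplicit false

/-! BI: a branch of the square root of the product over `k ≠ i` near `e i`. -/

namespace Pool.Agent.HEP

open Finset Pool.Agent.LEG
open scoped BigOperators Topology

namespace BI_

/-- near `e i` the differences have positive real parts -/
lemma near {m : ℕ} (e : Fin m → ℝ) (i : Fin m) (he : StrictMono e) :
    ∃ ρ : ℝ, 0 < ρ ∧ ∀ x ∈ Metric.ball (e i : ℂ) ρ, ∀ k : Fin m,
      (k < i → 0 < (x - e k).re) ∧ (i < k → 0 < ((e k : ℂ) - x).re) := by
  have h : Filter.Eventually (fun x : ℂ => ∀ k : Fin m,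
      (k < i → 0 < (x - e k).re) ∧ (i < k → 0 < ((e k : ℂ) - x).re)) (𝓝 (e i : ℂ)) := by
    rw [Filter.eventually_all]
    intro k
    refine Filter.Eventually.and ?_ ?_
    · by_cases hk : k < i
      · have h1 : Continuous (fun x : ℂ => (x - e k).re) := by fun_prop
        have h2 : 0 < ((e i : ℂ) - e k).re := by
          have := he hk
          simp only [Complex.sub_re, Complex.ofReal_re]
          linarith
        filter_upwards [h1.continuousAt.eventually (lt_mem_nhds h2)] with x hx _
        exact hx
      · exact Filter.Eventually.of_forall fun x h => absurd h hk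
    · by_cases hk : i < k
      · have h1 : Continuous (fun x : ℂ => ((e k : ℂ) - x).re) := by fun_prop
        have h2 : 0 < ((e k : ℂ) - e i).re := by
          have := he hk
          simp only [Complex.sub_re, Complex.ofReal_re]
          linarith
        filter_upwards [h1.continuousAt.eventually (lt_mem_nhds h2)] with x hx _
        exact hx
      · exact Filter.Eventually.of_forall fun x h => absurd h hk
  rw [Metric.eventually_nhds_iff_ball] at h
  obtain ⟨ρ, hρ, h⟩ := h
  exact ⟨ρ, hρ, h⟩

/-- the factors -/
noncomputable def g {m : ℕ} (e : Fin m → ℝ) (i k : Fin m) (x : ℂ) : ℂ :=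
  if k < i then sq (x - e k) else Complex.I * sq ((e k : ℂ) - x)

lemma slit {w : ℂ} (h : 0 < w.re) : w ∈ Complex.slitPlane := Or.inl h

lemma ne_zero_of_re {w : ℂ} (h : 0 < w.re) : w ≠ 0 := by
  rintro rfl
  simp at h

end BI_

open BI_ in
/-- BI -/
theorem p_BI (h1 : T_SQP) : T_BI := by
  obtain ⟨-, hder, hneg, -, -, -, -, -, hne⟩ := h1
  intro m e i he
  obtain ⟨ρ, hρ, hx⟩ := near e i he
  refine ⟨ρ, fun x => ∏ k ∈ univ.erase i, g e i k x, hρ, ?_, ?_⟩
  · refine DifferentiableOn.fun_finsetProd fun k hk => ?_
    have hki : k ≠ i := (mem_erase.1 hk).1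
    intro x hxB
    apply DifferentiableAt.differentiableWithinAt
    rcases lt_or_gt_of_ne hki with h | h
    · have e1 : g e i k = fun x => sq (x - e k) := by
        funext y
        simp [g, h]
      rw [e1]
      have h2 := (hder (x - e k) (slit ((hx x hxB k).1 h))).1
      have h3 : HasDerivAt (fun x : ℂ => x - e k) 1 x := (hasDerivAt_id x).sub_const _
      exact (h2.comp x h3).differentiableAt
    · have e1 : g e i k = fun x => Complex.I * sq ((e k : ℂ) - x) := by
        funext y
        simp [g, not_lt.2 h.le]
      rw [e1]
      have h2 := (hder ((e k : ℂ) - x) (slit ((hx x hxB k).2 h))).1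
      have h3 : HasDerivAt (fun x : ℂ => (e k : ℂ) - x) (-1) x := (hasDerivAt_id x).const_sub _
      exact (h2.comp x h3).differentiableAt.const_mul _
  · intro x hxB
    constructor
    · rw [Finset.prod_ne_zero_iff]
      intro k hk
      have hki : k ≠ i := (mem_erase.1 hk).1
      rcases lt_or_gt_of_ne hki with h | h
      · simp only [g, h, if_true]
        exact hne _ (ne_zero_of_re ((hx x hxB k).1 h))
      · simp only [g, not_lt.2 h.le, if_false]
        exact mul_ne_zero Complex.I_ne_zero (hne _ (ne_zero_of_re ((hx x hxB k).2 h)))
    · intro him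
      refine Finset.prod_congr rfl fun k hk => ?_
      have hki : k ≠ i := (mem_erase.1 hk).1
      rcases lt_or_gt_of_ne hki with h | h
      · simp only [g, h, if_true]
      · simp only [g, not_lt.2 h.le, if_false]
        have h2 := (hx x hxB k).2 h
        have h3 := hneg (x - e k) (by
          rcases him.lt_or_eq with h4 | h4
          · left
            simpa using h4
          · right
            constructor
            · simpa using h4.symm
            · simp only [Complex.sub_re, Complex.ofReal_re] at h2 ⊢
              linarith)
        rw [h3, neg_sub]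

end Pool.Agent.HEP
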