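import Pool.Agent.HEP.Targets

set_option autoImplicit false

/-!
# HEP, target BIL: Riemann's bilinear relations in matrix form
-/

namespace Pool.Agent.HEP

open Finset Pool.Agent.LEG
open scoped BigOperators Topology

namespace BIL_

/-- the pairing of two periods -/
noncomputable def SS {m : ℕ} (b : Fin (m + 1) → ℝ) (j k : Fin m) : ℝ :=
  ∑ a : Fin m, ∑ c : Fin m, (((a : ℕ) : ℝ) - ((c : ℕ) : ℝ)) / 2 *
    (∏ i, (Polynomial.X - Polynomial.C (b i))).coeff ((a : ℕ) + c + 2) *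
      per b a j * per b c k

theorem SS_anti {m : ℕ} (b : Fin (m + 1) → ℝ) (j k : Fin m) : SS b j k = -SS b k j := by
  unfold SS
  rw [Finset.sum_comm, ← Finset.sum_neg_distrib]
  refine Finset.sum_congr rfl fun a _ => ?_
  rw [← Finset.sum_neg_distrib]
  refine Finset.sum_congr rfl fun c _ => ?_
  rw [add_comm (c : ℕ) (a : ℕ)]
  ring

theorem SS_val (h1 : T_RNA) (h2 : T_RAD) {m : ℕ} (hm : Even m) (b : Fin (m + 1) → ℝ)
    (hb : StrictMono b) (j k : Fin m) (hjk : j < k) :
    SS b j k = if (k : ℕ) = j + 1 then (-1) ^ ((j : ℕ) + 1) * Real.pi else 0 := by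
  rw [Fin.lt_def] at hjk
  split_ifs with h
  · have h3 := h2 m b hb j k h
    unfold SS
    rw [h3]
    have h4 : (-1 : ℝ) ^ (m - (j : ℕ)) = (-1) ^ (j : ℕ) := by
      have h5 : (-1 : ℝ) ^ (m - (j : ℕ)) * (-1) ^ (j : ℕ) = 1 := by
        rw [← pow_add, Nat.sub_add_cancel (le_of_lt j.2)]
        exact hm.neg_one_pow
      have h6 : (-1 : ℝ) ^ (j : ℕ) * (-1) ^ (j : ℕ) = 1 := by
        rw [← mul_pow]
        norm_num
      have h7 : (-1 : ℝ) ^ (j : ℕ) ≠ 0 := pow_ne_zero _ (by norm_num)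
      exact mul_right_cancel₀ h7 (h5.trans h6.symm)
    rw [h4, pow_succ]
    ring
  · exact h1 m b hb j k (by omega)

theorem coeff_insert {m : ℕ} (h : Polynomial ℚ) (e : Fin m → ℝ) (r : Fin (m + 1)) (x : ℝ)
    (hh : h.map (algebraMap ℚ ℝ) = ∏ k, (Polynomial.X - Polynomial.C (e k))) (n : ℕ) :
    (∏ i, (Polynomial.X - Polynomial.C (Fin.insertNth (α := fun _ => ℝ) r x e i))).coeff
      (n + 2) = (h.coeff (n + 1) : ℝ) - x * (h.coeff (n + 2) : ℝ) := by
  rw [Fin.prod_univ_succAbove _ r]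
  simp only [Fin.insertNth_apply_same, Fin.insertNth_apply_succAbove]
  rw [← hh, sub_mul, Polynomial.coeff_sub, Polynomial.coeff_X_mul, Polynomial.coeff_C_mul,
    Polynomial.coeff_map, Polynomial.coeff_map]
  rfl

end BIL_

open BIL_ in
theorem p_BIL (h1 : T_RNA) (h2 : T_RAD) : T_BIL := by
  intro m h e r x hm hh hb
  obtain ⟨b, hbd⟩ : ∃ b : Fin (m + 1) → ℝ, b = Fin.insertNth (α := fun _ => ℝ) r x e :=
    ⟨_, rfl⟩
  rw [← hbd] at hb ⊢
  ext j k
  have h3 : ((Pm b).transpose * pz h m x * Pm b) j k = (SS b j k : ℂ) := by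
    rw [Matrix.mul_apply]
    unfold SS
    push_cast
    rw [Finset.sum_comm]
    refine Finset.sum_congr rfl fun c _ => ?_
    rw [Matrix.mul_apply, Finset.sum_mul]
    refine Finset.sum_congr rfl fun a _ => ?_
    rw [Matrix.transpose_apply]
    unfold Pm pz
    rw [Matrix.of_apply, Matrix.of_apply, Matrix.of_apply, hbd,
      coeff_insert h e r x hh ((a : ℕ) + c)]
    push_cast
    ring
  rw [h3, Matrix.smul_apply, smul_eq_mul]
  unfold Ch
  rw [Matrix.of_apply]
  rcases lt_trichotomy j k with hjk | hjk | hjk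
  · rw [SS_val h1 h2 hm b hb j k hjk]
    rw [Fin.lt_def] at hjk
    by_cases h4 : (k : ℕ) = j + 1
    · rw [if_pos h4, if_pos h4]
      push_cast
      ring
    · rw [if_neg h4, if_neg h4, if_neg (by omega)]
      simp
  · subst hjk
    have h4 := SS_anti b j j
    have h5 : SS b j j = 0 := by linarith
    rw [h5, if_neg (by omega), if_neg (by omega)]
    simp
  · rw [SS_anti, SS_val h1 h2 hm b hb k j hjk]
    rw [Fin.lt_def] at hjk
    rw [if_neg (by omega : ¬ (k : ℕ) = j + 1)]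
    by_cases h4 : (j : ℕ) = k + 1
    · rw [if_pos h4, if_pos h4]
      push_cast
      ring
    · rw [if_neg h4, if_neg h4]
      simp

end Pool.Agent.HEP
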