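import Pool.Agent.HEP.Targets

set_option autoImplicit false

/-!
# HEP, target CHD: the chain matrix is invertible
-/

namespace Pool.Agent.HEP

open Finset Pool.Agent.LEG
open scoped BigOperators Topology

namespace CHD_

/-- extension by zero -/
noncomputable def ext {m : ℕ} (v : Fin m → ℂ) (n : ℕ) : ℂ := if h : n < m then v ⟨n, h⟩ else 0

theorem ext_coe {m : ℕ} (v : Fin m → ℂ) (k : Fin m) : ext v (k : ℕ) = v k := by
  unfold ext
  rw [dif_pos k.2]

theorem ext_ge {m : ℕ} (v : Fin m → ℂ) (n : ℕ) (h : m ≤ n) : ext v n = 0 := by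
  unfold ext
  rw [dif_neg (by omega)]

theorem row {m : ℕ} (v : Fin m → ℂ) (j : Fin m) :
    (Matrix.mulVec (Ch m) v) j = (-1) ^ ((j : ℕ) + 1) * ext v (j + 1) +
      ∑ k ∈ range m, if (j : ℕ) = k + 1 then -(-1) ^ (k + 1) * ext v k else 0 := by
  unfold Matrix.mulVec dotProduct
  have h1 : ∀ k : Fin m, (Ch m) j k * v k =
      (if (k : ℕ) = j + 1 then (-1) ^ ((j : ℕ) + 1) * ext v k else 0) +
        (if (j : ℕ) = k + 1 then -(-1) ^ ((k : ℕ) + 1) * ext v k else 0) := by
    intro k
    unfold Ch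
    rw [Matrix.of_apply, ext_coe]
    by_cases h2 : (k : ℕ) = j + 1
    · rw [if_pos h2, if_pos h2, if_neg (by omega), add_zero]
    · rw [if_neg h2, if_neg h2, zero_add]
      split_ifs <;> simp
  rw [Finset.sum_congr rfl fun k _ => h1 k, Finset.sum_add_distrib]
  rw [Fin.sum_univ_eq_sum_range
    (fun k => if k = (j : ℕ) + 1 then (-1) ^ ((j : ℕ) + 1) * ext v k else 0) m,
    Fin.sum_univ_eq_sum_range
    (fun k => if (j : ℕ) = k + 1 then -(-1) ^ (k + 1) * ext v k else 0) m,
    Finset.sum_ite_eq']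
  congr 1
  split_ifs with h3
  · rfl
  · rw [Finset.mem_range] at h3
    rw [ext_ge v _ (by omega), mul_zero]

theorem odd_zero {m : ℕ} (v : Fin m → ℂ) (h : Matrix.mulVec (Ch m) v = 0) (t : ℕ) :
    ext v (2 * t + 1) = 0 := by
  induction t with
  | zero =>
    rcases Nat.eq_zero_or_pos m with h0 | h0
    · exact ext_ge v _ (by omega)
    · have h1 := row v ⟨0, h0⟩
      rw [h] at h1
      simp only [Pi.zero_apply] at h1
      have h2 : ∑ k ∈ range m, (if (0 : ℕ) = k + 1 then -(-1 : ℂ) ^ (k + 1) * ext v k else 0) =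
          0 := Finset.sum_eq_zero fun k _ => if_neg (by omega)
      rw [h2, add_zero] at h1
      have h3 : ext v (0 + 1) = 0 := by
        have := h1.symm
        rcases mul_eq_zero.mp this with h4 | h4
        · exact absurd h4 (pow_ne_zero _ (by norm_num))
        · exact h4
      simpa using h3
  | succ t ih =>
    by_cases hm : 2 * t + 2 < m
    · have h1 := row v ⟨2 * t + 2, hm⟩
      rw [h] at h1
      simp only [Pi.zero_apply] at h1
      have h2 : ∑ k ∈ range m, (if (2 * t + 2 : ℕ) = k + 1 then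
          -(-1 : ℂ) ^ (k + 1) * ext v k else 0) = 0 := by
        refine Finset.sum_eq_zero fun k _ => ?_
        split_ifs with h5
        · have h6 : k = 2 * t + 1 := by omega
          rw [h6, ih, mul_zero]
        · rfl
      rw [h2, add_zero] at h1
      rcases mul_eq_zero.mp h1.symm with h4 | h4
      · exact absurd h4 (pow_ne_zero _ (by norm_num))
      · exact h4
    · exact ext_ge v _ (by omega)

theorem even_step {m : ℕ} (v : Fin m → ℂ) (h : Matrix.mulVec (Ch m) v = 0) (t : ℕ)
    (ht : 2 * t + 1 < m) (h0 : ext v (2 * t + 2) = 0) : ext v (2 * t) = 0 := by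
  have h1 := row v ⟨2 * t + 1, ht⟩
  rw [h] at h1
  simp only [Pi.zero_apply] at h1
  have h2 : ∑ k ∈ range m, (if (2 * t + 1 : ℕ) = k + 1 then
      -(-1 : ℂ) ^ (k + 1) * ext v k else 0) = -(-1 : ℂ) ^ (2 * t + 1) * ext v (2 * t) := by
    rw [Finset.sum_eq_single (2 * t)]
    · rw [if_pos rfl]
    · intro k _ hk
      rw [if_neg (by omega)]
    · intro h5
      exact absurd (Finset.mem_range.mpr (by omega)) h5
  rw [h2, h0, mul_zero, zero_add] at h1
  rcases mul_eq_zero.mp h1.symm with h4 | h4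
  · exact absurd h4 (neg_ne_zero.mpr (pow_ne_zero _ (by norm_num)))
  · exact h4

theorem even_zero {m : ℕ} (v : Fin m → ℂ) (h : Matrix.mulVec (Ch m) v = 0) (n s : ℕ)
    (hm : m = 2 * n) (hs : s ≤ n) : ext v (2 * (n - s)) = 0 := by
  induction s with
  | zero => exact ext_ge v _ (by omega)
  | succ s ih =>
    have h1 := ih (by omega)
    have h2 : 2 * (n - s) = 2 * (n - (s + 1)) + 2 := by omega
    rw [h2] at h1
    exact even_step v h _ (by omega) h1

end CHD_

open CHD_ in
theorem p_CHD : T_CHD := by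
  intro m hm hdet
  obtain ⟨v, hv, hv0⟩ := Matrix.exists_mulVec_eq_zero_iff.mpr hdet
  refine hv ?_
  obtain ⟨n, hn⟩ := hm
  funext k
  rw [← ext_coe v k, Pi.zero_apply]
  rcases Nat.even_or_odd' (k : ℕ) with ⟨t, ht | ht⟩
  · have h1 := even_zero v hv0 n (n - t) (by omega) (by omega)
    have h2 : 2 * (n - (n - t)) = (k : ℕ) := by
      have := k.2
      omega
    rwa [h2] at h1
  · rw [ht]
    exact odd_zero v hv0 t

end Pool.Agent.HEP
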