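import Pool.Agent.HEP.Targets

set_option autoImplicit false

/-!
# Boundary values of the period matrix (job HEP-DBV)
-/

namespace Pool.Agent.HEP.DBVx

open Finset Pool.Agent.LEG Pool.Agent.HEP MeasureTheory Filter
open scoped BigOperators Topology

theorem sqrt_abs_prod {ι : Type} (S : Finset ι) (f : ι → ℝ) :
    ∏ k ∈ S, Real.sqrt |f k| = Real.sqrt |∏ k ∈ S, f k| := by
  classical
  induction S using Finset.induction_on with
  | empty => simp
  | insert a S ha ih =>
    rw [Finset.prod_insert ha, Finset.prod_insert ha, ih, abs_mul, Real.sqrt_mul (abs_nonneg _)]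

theorem sq_real (h1 : T_SQP) (x : ℝ) :
    sq (x : ℂ) = (if x < 0 then Complex.I else 1) * (Real.sqrt |x| : ℂ) := by
  obtain ⟨s1, s2, s3, s4, s5, s6, s7, s8, s9⟩ := h1
  split_ifs with h
  · rw [s8 x h.le, abs_of_neg h]
  · push Not at h
    rw [s7 x h, abs_of_nonneg h, one_mul]

theorem prodsq (h1 : T_SQP) {m : ℕ} (e : Fin m → ℝ) (S : Finset (Fin m)) (t : ℝ) :
    ∏ k ∈ S, sq ((t : ℂ) - e k) =
      Complex.I ^ (#{k ∈ S | t < e k}) * (Real.sqrt |∏ k ∈ S, (t - e k)| : ℂ) := by
  have h : ∀ k ∈ S, sq ((t : ℂ) - e k) =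
      (if t < e k then Complex.I else 1) * (Real.sqrt |t - e k| : ℂ) := by
    intro k _
    have := sq_real h1 (t - e k)
    rw [Complex.ofReal_sub] at this
    rw [this]
    congr 1
    simp only [sub_neg]
  rw [Finset.prod_congr rfl h, Finset.prod_mul_distrib, Finset.prod_ite, Finset.prod_const,
    Finset.prod_const_one, mul_one, ← Complex.ofReal_prod, sqrt_abs_prod]

theorem sqlim (h1 : T_SQP) (c σ : ℝ) (hσ : 0 ≤ σ) :
    Tendsto (fun y : ℝ => sq ((c : ℂ) + σ * (y * Complex.I))) (𝓝[>] 0) (𝓝 (sq c)) := by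
  obtain ⟨s1, s2, s3, s4, s5, s6, s7, s8, s9⟩ := h1
  have hcont := s5 (c : ℂ) (by simp)
  refine hcont.tendsto.comp (tendsto_nhdsWithin_iff.2 ⟨?_, ?_⟩)
  · have hc : Continuous (fun y : ℝ => (c : ℂ) + σ * (y * Complex.I)) := by fun_prop
    have := hc.tendsto 0
    simp only [Complex.ofReal_zero, zero_mul, mul_zero, add_zero] at this
    exact this.mono_left nhdsWithin_le_nhds
  · have hpos : ∀ᶠ y : ℝ in 𝓝[>] 0, 0 < y := self_mem_nhdsWithin
    filter_upwards [hpos] with y hy
    simp only [Complex.add_im, Complex.ofReal_im, Complex.mul_im,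
      Complex.ofReal_re, Complex.I_im, Complex.I_re, Complex.mul_re]
    ring_nf
    positivity

theorem UIlim (h1 : T_SQP) (h3 : T_UINT) {m : ℕ} (e : Fin m → ℝ) (he : StrictMono e) (a : ℕ)
    (p q x c : ℝ) (hc : 0 < c) (hpq : ∀ t ∈ Set.uIcc p q, c ≤ |x - t|) :
    Tendsto (fun y : ℝ => UI e a p q (x + y * Complex.I)) (𝓝[>] 0)
      (𝓝 (∫ t in p..q, (t : ℂ) ^ a / (∏ k, sq ((t : ℂ) - e k)) / sq ((x : ℂ) - t))) := by
  have h1' := h1
  obtain ⟨s1, s2, s3, s4, s5, s6, s7, s8, s9⟩ := h1
  unfold UI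
  have hpos : ∀ᶠ y : ℝ in 𝓝[>] 0, 0 < y := self_mem_nhdsWithin
  refine intervalIntegral.tendsto_integral_filter_of_dominated_convergence
    (fun t => ‖(t : ℂ) ^ a / (∏ k, sq ((t : ℂ) - e k))‖ * (1 / Real.sqrt c)) ?_ ?_ ?_ ?_
  · filter_upwards [hpos] with y hy
    have h5 := (h3 m e a p q (x + y * Complex.I) he (by simp [hy])).2
    exact h5.def'.aestronglyMeasurable
  · filter_upwards [hpos] with y hy
    refine Eventually.of_forall fun t ht => ?_
    have ht' := hpq t (Set.uIoc_subset_uIcc ht)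
    rw [← div_div, norm_div (_ / _), s6, div_eq_mul_one_div]
    have h6 : c ≤ ‖(x : ℂ) + y * Complex.I - t‖ := by
      refine ht'.trans ?_
      have := Complex.abs_re_le_norm ((x : ℂ) + y * Complex.I - t)
      simpa using this
    have h7 : 0 < Real.sqrt c := Real.sqrt_pos.2 hc
    have h8 : Real.sqrt c ≤ Real.sqrt ‖(x : ℂ) + y * Complex.I - t‖ := Real.sqrt_le_sqrt h6
    exact mul_le_mul_of_nonneg_left (one_div_le_one_div_of_le h7 h8) (norm_nonneg _)
  · exact (h3 m e a p q Complex.I he (by simp)).1.norm.mul_const _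
  · refine Eventually.of_forall fun t ht => ?_
    have ht' := hpq t (Set.uIoc_subset_uIcc ht)
    have hne : sq ((x : ℂ) - t) ≠ 0 := by
      apply s9
      intro h
      have : x - t = 0 := by
        have := congrArg Complex.re h
        simpa using this
      rw [this, abs_zero] at ht'
      linarith
    have hl := sqlim h1' (x - t) 1 zero_le_one
    have hl' : Tendsto (fun y : ℝ => sq ((x : ℂ) + y * Complex.I - t)) (𝓝[>] 0)
        (𝓝 (sq ((x : ℂ) - t))) := by
      rw [Complex.ofReal_sub] at hl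
      refine hl.congr fun y => ?_
      congr 1
      push_cast
      ring
    have := (tendsto_const_nhds (x := (t : ℂ) ^ a / (∏ k, sq ((t : ℂ) - e k)))
      (f := 𝓝[>] (0 : ℝ))).div hl' hne
    refine this.congr fun y => ?_
    simp only [Pi.div_apply]
    rw [div_div]

theorem DDlim (h1 : T_SQP) (h4 : T_INTB) {m : ℕ} (e : Fin m → ℝ) (a : ℕ) (i : Fin m) (x c : ℝ)
    (hc : 0 < c)
    (h : ∀ k, k ≠ i → ∀ s ∈ Set.Icc (0 : ℝ) 1, c ≤ |e i - e k + s * (x - e i)|) :
    Tendsto (fun y : ℝ => DD e a i (x + y * Complex.I)) (𝓝[>] 0)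
      (𝓝 (∫ s in (0 : ℝ)..1, ((e i : ℂ) + s * (x - e i)) ^ a /
        (∏ k ∈ univ.erase i, sq ((e i : ℂ) - e k + s * (x - e i))) /
          (Real.sqrt (s * (1 - s)) : ℂ))) := by
  have h1' := h1
  obtain ⟨s1, s2, s3, s4, s5, s6, s7, s8, s9⟩ := h1
  unfold DD
  have hpos : ∀ᶠ y : ℝ in 𝓝[>] 0, 0 < y := self_mem_nhdsWithin
  have hlt : ∀ᶠ y : ℝ in 𝓝[>] 0, y < 1 :=
    mem_nhdsWithin_of_mem_nhds (Iio_mem_nhds (by norm_num))
  have hsm : Measurable sq := by
    unfold sq
    exact measurable_id.pow_const _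
  have hsc : 0 < Real.sqrt c := Real.sqrt_pos.2 hc
  set K : ℝ := (|e i| + (|x - e i| + 1)) ^ a * ((1 / Real.sqrt c) ^ (#(univ.erase i))) with hK
  have hint : IntervalIntegrable (fun s : ℝ => K * (1 / Real.sqrt |s * (s - 1)|)) volume 0 1 := by
    have h5 := h4 2 ![0, 1] (by
      intro u v huv
      fin_cases u <;> fin_cases v <;> simp_all) 0 1 0
    have h6 : (fun s : ℝ => s ^ 0 / Real.sqrt |∏ i : Fin 2, (s - ![(0 : ℝ), 1] i)|) =
        fun s : ℝ => 1 / Real.sqrt |s * (s - 1)| := by
      funext s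
      simp [Fin.prod_univ_two]
    rw [h6] at h5
    exact h5.const_mul K
  refine intervalIntegral.tendsto_integral_filter_of_dominated_convergence
    (fun s : ℝ => K * (1 / Real.sqrt |s * (s - 1)|)) ?_ ?_ hint ?_
  · refine Eventually.of_forall fun y => ?_
    refine Measurable.aestronglyMeasurable ?_
    refine Measurable.div (by fun_prop) (Measurable.mul (by fun_prop) ?_)
    refine Finset.measurable_prod _ fun k _ => hsm.comp (by fun_prop)
  · filter_upwards [hpos, hlt] with y hy hy1
    refine Eventually.of_forall fun s hs => ?_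
    rw [Set.uIoc_of_le zero_le_one] at hs
    have hs' : s ∈ Set.Icc (0 : ℝ) 1 := ⟨hs.1.le, hs.2⟩
    have hn1 : ‖((e i : ℂ) + s * ((x : ℂ) + y * Complex.I - e i)) ^ a‖ ≤
        (|e i| + (|x - e i| + 1)) ^ a := by
      rw [norm_pow]
      refine pow_le_pow_left₀ (norm_nonneg _) ?_ a
      refine (norm_add_le _ _).trans ?_
      have e1 : ‖(e i : ℂ)‖ = |e i| := by simp
      have e2 : ‖(s : ℂ) * ((x : ℂ) + y * Complex.I - e i)‖ ≤ |x - e i| + 1 := by
        rw [norm_mul]
        have e3 : ‖(s : ℂ)‖ ≤ 1 := by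
          rw [Complex.norm_real, Real.norm_eq_abs, abs_le]
          constructor <;> linarith [hs.1, hs.2]
        have e4 : ‖(x : ℂ) + y * Complex.I - e i‖ ≤ |x - e i| + 1 := by
          have e5 : (x : ℂ) + y * Complex.I - e i = ((x - e i : ℝ) : ℂ) + ((y : ℝ) : ℂ) * Complex.I := by
            push_cast; ring
          rw [e5]
          refine (norm_add_le _ _).trans ?_
          rw [norm_mul, Complex.norm_I, mul_one, Complex.norm_real, Complex.norm_real,
            Real.norm_eq_abs, Real.norm_eq_abs, abs_of_pos hy]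
          linarith
        calc ‖(s : ℂ)‖ * ‖(x : ℂ) + y * Complex.I - e i‖ ≤ 1 * (|x - e i| + 1) :=
              mul_le_mul e3 e4 (norm_nonneg _) zero_le_one
          _ = |x - e i| + 1 := one_mul _
      rw [e1]
      linarith
    have hn2 : Real.sqrt c ^ (#(univ.erase i)) ≤
        ‖∏ k ∈ univ.erase i, sq ((e i : ℂ) - e k + s * ((x : ℂ) + y * Complex.I - e i))‖ := by
      rw [norm_prod, ← Finset.prod_const]
      refine Finset.prod_le_prod (fun k _ => hsc.le) (fun k hk => ?_)
      rw [s6]
      refine Real.sqrt_le_sqrt ?_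
      have h7 := h k (Finset.ne_of_mem_erase hk) s hs'
      refine h7.trans ?_
      have h8 := Complex.abs_re_le_norm ((e i : ℂ) - e k + s * ((x : ℂ) + y * Complex.I - e i))
      have h9 : ((e i : ℂ) - e k + s * ((x : ℂ) + y * Complex.I - e i)).re =
          e i - e k + s * (x - e i) := by simp
      rwa [h9] at h8
    have hn3 : ‖(Real.sqrt (s * (1 - s)) : ℂ)‖ = Real.sqrt |s * (s - 1)| := by
      rw [Complex.norm_real, Real.norm_eq_abs, abs_of_nonneg (Real.sqrt_nonneg _)]
      congr 1
      rw [abs_mul, abs_of_nonneg hs'.1, abs_of_nonpos (by linarith [hs'.2])]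
      ring
    rw [norm_div, norm_mul, hn3, hK, mul_comm (Real.sqrt |s * (s - 1)|), ← div_div,
      div_eq_mul_one_div]
    refine mul_le_mul_of_nonneg_right ?_ (by positivity)
    rw [one_div_pow, mul_one_div]
    exact div_le_div₀ (by positivity) hn1 (by positivity) hn2
  · refine Eventually.of_forall fun s hs => ?_
    rw [Set.uIoc_of_le zero_le_one] at hs
    have hs' : s ∈ Set.Icc (0 : ℝ) 1 := ⟨hs.1.le, hs.2⟩
    have hk : ∀ k ∈ univ.erase i, Tendsto
        (fun y : ℝ => sq ((e i : ℂ) - e k + s * ((x : ℂ) + y * Complex.I - e i))) (𝓝[>] 0)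
        (𝓝 (sq ((e i : ℂ) - e k + s * (x - e i)))) := by
      intro k _
      have hl := sqlim h1' (e i - e k + s * (x - e i)) s hs'.1
      have e1 : ((e i - e k + s * (x - e i) : ℝ) : ℂ) = (e i : ℂ) - e k + s * (x - e i) := by
        push_cast; ring
      rw [e1] at hl
      refine hl.congr fun y => ?_
      congr 1
      ring
    have hprod := tendsto_finsetProd (univ.erase i) hk
    have hne : ∏ k ∈ univ.erase i, sq ((e i : ℂ) - e k + s * (x - e i)) ≠ 0 := by
      refine Finset.prod_ne_zero_iff.2 fun k hk => s9 _ ?_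
      intro h0
      have h7 := h k (Finset.ne_of_mem_erase hk) s hs'
      have h8 : e i - e k + s * (x - e i) = 0 := by
        have := congrArg Complex.re h0
        simpa using this
      rw [h8, abs_zero] at h7
      linarith
    have hnum : Tendsto (fun y : ℝ => ((e i : ℂ) + s * ((x : ℂ) + y * Complex.I - e i)) ^ a)
        (𝓝[>] 0) (𝓝 (((e i : ℂ) + s * (x - e i)) ^ a)) := by
      have hcn : Continuous (fun y : ℝ => ((e i : ℂ) + s * ((x : ℂ) + y * Complex.I - e i)) ^ a) := by
        fun_prop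
      have := hcn.tendsto 0
      simp only [Complex.ofReal_zero, zero_mul, add_zero] at this
      exact this.mono_left nhdsWithin_le_nhds
    have := (hnum.div hprod hne).div_const (Real.sqrt (s * (1 - s)) : ℂ)
    refine this.congr fun y => ?_
    simp only [Pi.div_apply]
    rw [div_div, mul_comm (∏ k ∈ univ.erase i, _)]

theorem int_congr {f g : ℝ → ℂ} {p q : ℝ} (hpq : p ≤ q) (h : ∀ t ∈ Set.Ioo p q, f t = g t) :
    ∫ t in p..q, f t = ∫ t in p..q, g t := by
  rw [intervalIntegral.integral_of_le hpq, intervalIntegral.integral_of_le hpq,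
    integral_Ioc_eq_integral_Ioo, integral_Ioc_eq_integral_Ioo]
  exact setIntegral_congr_fun measurableSet_Ioo h

theorem card_gt {m : ℕ} (e : Fin m → ℝ) (i : Fin m) (t : ℝ) (h : ∀ k, t < e k ↔ i < k) :
    #{k ∈ univ | t < e k} = m - 1 - i := by
  have : ({k ∈ univ | t < e k} : Finset (Fin m)) = Finset.Ioi i := by
    ext k
    simp [h k]
  rw [this, Fin.card_Ioi]

theorem card_gt' {m : ℕ} (e : Fin m → ℝ) (i : Fin m) (t : ℝ) (h : ∀ k, k ≠ i → (t < e k ↔ i < k)) :
    #{k ∈ univ.erase i | t < e k} = m - 1 - i := by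
  have : ({k ∈ univ.erase i | t < e k} : Finset (Fin m)) = Finset.Ioi i := by
    ext k
    simp only [Finset.mem_filter, Finset.mem_erase, Finset.mem_univ, and_true, Finset.mem_Ioi]
    constructor
    · rintro ⟨h1, h2⟩
      exact (h k h1).1 h2
    · intro h1
      exact ⟨h1.ne', (h k h1.ne').2 h1⟩
  rw [this, Fin.card_Ioi]

theorem exists_c {ι : Type} [Finite ι] (f : ι → ℝ) (hf : ∀ k, 0 < f k) :
    ∃ c : ℝ, 0 < c ∧ ∀ k, c ≤ f k := by
  have h1 : ∀ k, ∀ᶠ c : ℝ in 𝓝[>] 0, c ≤ f k := fun k =>
    mem_nhdsWithin_of_mem_nhds (Iic_mem_nhds (hf k))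
  have h2 : ∀ᶠ c : ℝ in 𝓝[>] 0, ∀ k, c ≤ f k := Filter.eventually_all.2 h1
  have h3 : ∀ᶠ c : ℝ in 𝓝[>] 0, 0 < c := self_mem_nhdsWithin
  obtain ⟨c, hc⟩ := (h3.and h2).exists
  exact ⟨c, hc⟩

theorem UIfin (h1 : T_SQP) (h3 : T_UINT) {m : ℕ} (e : Fin m → ℝ) (he : StrictMono e) (a : ℕ)
    (i i' : Fin m) (hi : (i' : ℕ) = i + 1) (x : ℝ) (N : ℕ)
    (hx : (x < e i ∧ N = m - 1 - i + 1) ∨ (e i' < x ∧ N = m - 1 - i)) :
    Tendsto (fun y : ℝ => Complex.I ^ N * UI e a (e i) (e i') (x + y * Complex.I)) (𝓝[>] 0)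
      (𝓝 ((∫ t in (e i)..(e i'), t ^ a / Real.sqrt |(t - x) * ∏ k, (t - e k)| : ℝ) : ℂ)) := by
  have hii : i < i' := by
    rw [Fin.lt_def]; omega
  have hlt : e i < e i' := he hii
  have hcex : ∃ c : ℝ, 0 < c ∧ ∀ t ∈ Set.uIcc (e i) (e i'), c ≤ |x - t| := by
    rcases hx with ⟨h, _⟩ | ⟨h, _⟩
    · refine ⟨e i - x, by linarith, fun t ht => ?_⟩
      rw [Set.uIcc_of_le hlt.le] at ht
      rw [abs_sub_comm]
      exact (by linarith [ht.1] : e i - x ≤ t - x).trans (le_abs_self _)
    · refine ⟨x - e i', by linarith, fun t ht => ?_⟩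
      rw [Set.uIcc_of_le hlt.le] at ht
      exact (by linarith [ht.2] : x - e i' ≤ x - t).trans (le_abs_self _)
  obtain ⟨c, hc, hpq⟩ := hcex
  have hl := UIlim h1 h3 e he a (e i) (e i') x c hc hpq
  have hl2 := hl.const_mul (Complex.I ^ N)
  have hI : Complex.I ^ N ≠ 0 := pow_ne_zero _ Complex.I_ne_zero
  have heq : (∫ t in (e i)..(e i'), (t : ℂ) ^ a / (∏ k, sq ((t : ℂ) - e k)) / sq ((x : ℂ) - t)) =
      ∫ t in (e i)..(e i'), (Complex.I ^ N)⁻¹ *
        ((t ^ a / Real.sqrt |(t - x) * ∏ k, (t - e k)| : ℝ) : ℂ) := by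
    refine int_congr hlt.le fun t ht => ?_
    have hcard := card_gt e i t (fun k => by
      constructor
      · intro h
        by_contra hk
        push Not at hk
        have := he.monotone hk
        linarith [ht.1]
      · intro h
        have : i' ≤ k := by
          rw [Fin.lt_def] at h
          rw [Fin.le_def]; omega
        have := he.monotone this
        linarith [ht.2])
    have hsx := sq_real h1 (x - t)
    rw [Complex.ofReal_sub] at hsx
    have hN : Complex.I ^ N = Complex.I ^ (m - 1 - (i : ℕ)) * (if x - t < 0 then Complex.I else 1) := by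
      rcases hx with ⟨h, h'⟩ | ⟨h, h'⟩
      · rw [if_pos (by linarith [ht.1]), h', pow_succ]
      · rw [if_neg (by linarith [ht.2]), h', mul_one]
    rw [prodsq h1, hcard, hsx, hN, abs_mul, Real.sqrt_mul (abs_nonneg _), abs_sub_comm t x]
    push_cast
    simp only [div_eq_mul_inv, mul_inv]
    ring
  rw [heq, intervalIntegral.integral_const_mul, intervalIntegral.integral_ofReal, ← mul_assoc,
    mul_inv_cancel₀ hI, one_mul] at hl2
  exact hl2

theorem DDfin (h1 : T_SQP) (h4 : T_INTB) {m : ℕ} (e : Fin m → ℝ) (he : StrictMono e) (a : ℕ)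
    (i : Fin m) (x : ℝ)
    (hx : (e i < x ∧ ∀ k, i < k → x < e k) ∨ (x < e i ∧ ∀ k, k < i → e k < x)) :
    Tendsto (fun y : ℝ => Complex.I ^ (m - 1 - (i : ℕ)) * DD e a i (x + y * Complex.I)) (𝓝[>] 0)
      (𝓝 ((∫ t in (min x (e i))..(max x (e i)),
        t ^ a / Real.sqrt |(t - x) * ∏ k, (t - e k)| : ℝ) : ℂ)) := by
  have hxi : x ≠ e i := by
    rcases hx with h | h
    · exact h.1.ne'
    · exact h.1.ne
  have hxk : ∀ k, k ≠ i → x ≠ e k := by
    intro k hk
    rcases lt_or_gt_of_ne hk with h | h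
    · rcases hx with h' | h'
      · exact ((he h).trans h'.1).ne'
      · exact (h'.2 k h).ne'
    · rcases hx with h' | h'
      · exact (h'.2 k h).ne
      · exact (h'.1.trans (he h)).ne
  obtain ⟨c, hc, hck⟩ := exists_c
    (fun k : Fin m => if k = i then (1 : ℝ) else min |e k - x| |e k - e i|) (by
      intro k
      split_ifs with hk
      · exact one_pos
      · exact lt_min (abs_pos.2 (sub_ne_zero.2 (hxk k hk).symm))
          (abs_pos.2 (sub_ne_zero.2 (he.injective.ne hk))))
  have hcc : ∀ k, k ≠ i → c ≤ |e k - x| ∧ c ≤ |e k - e i| := by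
    intro k hk
    have := hck k
    rw [if_neg hk] at this
    exact ⟨this.trans (min_le_left _ _), this.trans (min_le_right _ _)⟩
  have hside : ∀ k, k ≠ i → (e k < x ∧ e k < e i) ∨ (x < e k ∧ e i < e k) := by
    intro k hk
    rcases lt_or_gt_of_ne hk with h | h
    · left
      rcases hx with h' | h'
      · exact ⟨(he h).trans h'.1, he h⟩
      · exact ⟨h'.2 k h, he h⟩
    · right
      rcases hx with h' | h'
      · exact ⟨h'.2 k h, he h⟩
      · exact ⟨h'.1.trans (he h), he h⟩
  have hcs : ∀ k, k ≠ i → ∀ s ∈ Set.Icc (0 : ℝ) 1, c ≤ |e i - e k + s * (x - e i)| := by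
    intro k hk s hs
    obtain ⟨h5, h6⟩ := hcc k hk
    have e1 : e i - e k + s * (x - e i) = (1 - s) * (e i - e k) + s * (x - e k) := by ring
    rw [e1]
    rcases hside k hk with ⟨h7, h8⟩ | ⟨h7, h8⟩
    · rw [abs_of_neg (by linarith)] at h5 h6
      refine le_trans ?_ (le_abs_self _)
      nlinarith [hs.1, hs.2]
    · rw [abs_of_pos (by linarith)] at h5 h6
      refine le_trans ?_ (neg_le_abs _)
      nlinarith [hs.1, hs.2]
  have hl := DDlim h1 h4 e a i x c hc hcs
  have hl2 := hl.const_mul (Complex.I ^ (m - 1 - (i : ℕ)))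
  have hI : Complex.I ^ (m - 1 - (i : ℕ)) ≠ 0 := pow_ne_zero _ Complex.I_ne_zero
  set G : ℝ → ℂ := fun t => ((|x - e i| : ℝ) : ℂ) * ((Complex.I ^ (m - 1 - (i : ℕ)))⁻¹ *
    ((t ^ a / Real.sqrt |(t - x) * ∏ k, (t - e k)| : ℝ) : ℂ)) with hG
  have heq : (∫ s in (0 : ℝ)..1, ((e i : ℂ) + s * (x - e i)) ^ a /
        (∏ k ∈ univ.erase i, sq ((e i : ℂ) - e k + s * (x - e i))) /
          (Real.sqrt (s * (1 - s)) : ℂ)) = ∫ s in (0 : ℝ)..1, G ((x - e i) * s + e i) := by
    refine int_congr zero_le_one fun s hs => ?_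
    simp only [hG]
    set t : ℝ := (x - e i) * s + e i with ht
    have htx : t - x = -((x - e i) * (1 - s)) := by rw [ht]; ring
    have hti : t - e i = (x - e i) * s := by rw [ht]; ring
    have e1 : ∀ k ∈ univ.erase i, sq ((e i : ℂ) - e k + s * (x - e i)) = sq ((t : ℂ) - e k) := by
      intro k _
      congr 1
      rw [ht]; push_cast; ring
    have e2 : ((e i : ℂ) + s * (x - e i)) = (t : ℂ) := by
      rw [ht]; push_cast; ring
    have hcard := card_gt' e i t (fun k hk => by
      have e3 : t = (1 - s) * e i + s * x := by rw [ht]; ring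
      rcases hside k hk with ⟨h7, h8⟩ | ⟨h7, h8⟩
      · have : ¬ i < k := fun h => absurd (he h) (not_lt.2 h8.le)
        have h9 : ¬ t < e k := by
          rw [e3]; nlinarith [hs.1, hs.2]
        simp [this, h9]
      · have : i < k := by
          by_contra h
          push Not at h
          exact absurd (he.monotone h) (not_le.2 h8)
        have h9 : t < e k := by
          rw [e3]; nlinarith [hs.1, hs.2]
        simp [this, h9])
    rw [Finset.prod_congr rfl e1, e2, prodsq h1, hcard]
    have hprod : ∏ k, (t - e k) = (t - e i) * ∏ k ∈ univ.erase i, (t - e k) :=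
      (Finset.mul_prod_erase univ _ (Finset.mem_univ i)).symm
    have hsq : Real.sqrt |(t - x) * ∏ k, (t - e k)| =
        |x - e i| * Real.sqrt (s * (1 - s)) * Real.sqrt |∏ k ∈ univ.erase i, (t - e k)| := by
      rw [hprod, ← mul_assoc, abs_mul, Real.sqrt_mul (abs_nonneg _)]
      congr 1
      have e4 : |(t - x) * (t - e i)| = |x - e i| ^ 2 * (s * (1 - s)) := by
        rw [htx, hti]
        have e5 : -((x - e i) * (1 - s)) * ((x - e i) * s) = -((x - e i) ^ 2 * (s * (1 - s))) := by
          ring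
        rw [e5, abs_neg, abs_of_nonneg, sq_abs]
        have := hs.1
        have := hs.2
        have : 0 ≤ s * (1 - s) := mul_nonneg (by linarith) (by linarith)
        positivity
      rw [e4, Real.sqrt_mul (by positivity), Real.sqrt_sq (abs_nonneg _)]
    rw [hsq]
    have hne : ((|x - e i| : ℝ) : ℂ) ≠ 0 := by
      rw [Complex.ofReal_ne_zero]
      exact (abs_pos.2 (sub_ne_zero.2 hxi)).ne'
    push_cast
    simp only [div_eq_mul_inv, mul_inv]
    field_simp
  have hx0 : x - e i ≠ 0 := sub_ne_zero.2 hxi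
  have hsub := intervalIntegral.integral_comp_mul_add (a := 0) (b := 1) G hx0 (e i)
  rw [mul_zero, zero_add, mul_one, sub_add_cancel] at hsub
  rw [heq, hsub] at hl2
  simp only [hG] at hl2
  rw [intervalIntegral.integral_const_mul, intervalIntegral.integral_const_mul,
    intervalIntegral.integral_ofReal] at hl2
  convert hl2 using 2
  rcases hx with h | h
  · rw [min_eq_right h.1.le, max_eq_left h.1.le, abs_of_pos (by linarith), Complex.real_smul]
    push_cast
    have h7 : (x : ℂ) - e i ≠ 0 := by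
      rw [← Complex.ofReal_sub, Complex.ofReal_ne_zero]; exact hx0
    field_simp
  · rw [min_eq_left h.1.le, max_eq_right h.1.le, abs_of_neg (by linarith), Complex.real_smul,
      intervalIntegral.integral_symm (e i) x]
    push_cast
    have h7 : (x : ℂ) - e i ≠ 0 := by
      rw [← Complex.ofReal_sub, Complex.ofReal_ne_zero]; exact hx0
    field_simp

end Pool.Agent.HEP.DBVx

namespace Pool.Agent.HEP

open Finset Pool.Agent.LEG MeasureTheory Filter DBVx
open scoped BigOperators Topology

theorem p_DBV (h1 : T_SQP) (h2 : T_DU) (h3 : T_UINT) (h4 : T_INTB) : T_DBV := by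
  intro m e he h0
  obtain ⟨r, hr⟩ : ∃ r : Fin (m + 1), ∀ k : Fin m, e k < 0 ↔ (k : ℕ) < r := by
    by_cases hall : ∀ k, e k < 0
    · exact ⟨Fin.last m, fun k => by simp [hall k]⟩
    · push Not at hall
      have hwf := Finset.exists_min_image (univ.filter fun k : Fin m => 0 ≤ e k) id
        (by obtain ⟨k, hk⟩ := hall; exact ⟨k, by simp [hk]⟩)
      obtain ⟨k0, hk0, hmin⟩ := hwf
      simp only [Finset.mem_filter, Finset.mem_univ, true_and, id_eq] at hk0 hmin
      refine ⟨k0.castSucc, fun k => ?_⟩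
      rw [Fin.val_castSucc, ← Fin.lt_def]
      constructor
      · intro h
        by_contra hk
        push Not at hk
        have := he.monotone hk
        linarith
      · intro h
        by_contra hk
        push Not at hk
        exact absurd (hmin k hk) (not_le.2 h)
  obtain ⟨δ, hδ, hδe⟩ := exists_c (fun k : Fin m => |e k|) (fun k => abs_pos.2 (h0 k))
  have hlo : ∀ x : ℝ, |x| < δ → ∀ k : Fin m, (k : ℕ) < r → e k < x := by
    intro x hx k hk
    have h5 := (hr k).2 hk
    have h6 := hδe k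
    rw [abs_of_neg h5] at h6
    linarith [(abs_lt.1 hx).1]
  have hhi : ∀ x : ℝ, |x| < δ → ∀ k : Fin m, ¬ (k : ℕ) < r → x < e k := by
    intro x hx k hk
    have h5 : 0 ≤ e k := by
      by_contra h
      push Not at h
      exact hk ((hr k).1 h)
    have h6 := hδe k
    rw [abs_of_nonneg h5] at h6
    linarith [(abs_lt.1 hx).2]
  have hper : ∀ (x : ℝ) (a j : Fin m), per (Fin.insertNth (α := fun _ => ℝ) r x e) a j =
      ∫ t in (Fin.insertNth (α := fun _ => ℝ) r x e j.castSucc)..
        (Fin.insertNth (α := fun _ => ℝ) r x e j.succ),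
        t ^ (a : ℕ) / Real.sqrt |(t - x) * ∏ k, (t - e k)| := by
    intro x a j
    unfold per
    congr 1
    funext t
    rw [Fin.prod_univ_succAbove _ r, Fin.insertNth_apply_same]
    simp only [Fin.insertNth_apply_succAbove]
  have key : ∀ j : Fin m, ∃ w : Fin m → ℂ, ∀ x : ℝ, |x| < δ →
      Fin.insertNth (α := fun _ => ℝ) r x e j.castSucc <
        Fin.insertNth (α := fun _ => ℝ) r x e j.succ ∧
      ∀ a : Fin m, Tendsto (fun y : ℝ => ∑ i, DD e a i (x + y * Complex.I) * w i) (𝓝[>] 0)
        (𝓝 (per (Fin.insertNth (α := fun _ => ℝ) r x e) a j : ℂ)) := by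
    intro j
    have hpos : ∀ᶠ y : ℝ in 𝓝[>] 0, 0 < y := self_mem_nhdsWithin
    have hrm : (r : ℕ) ≤ m := Nat.lt_succ_iff.1 r.2
    by_cases hjr : (j : ℕ) < r
    · have hc1 : j.castSucc = r.succAbove j :=
        (Fin.succAbove_of_castSucc_lt r j (by rw [Fin.lt_def]; simpa using hjr)).symm
      by_cases hj1 : (j : ℕ) + 1 < r
      · -- two negative points
        set j' : Fin m := ⟨(j : ℕ) + 1, by omega⟩ with hj'
        have hc2 : j.succ = r.succAbove j' := by
          rw [Fin.succAbove_of_castSucc_lt r j' (by rw [Fin.lt_def]; simpa using hj1)]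
          ext; simp [hj']
        refine ⟨fun i => (if i = j then Complex.I ^ (m - 1 - (j : ℕ)) else 0) -
          (if i = j' then Complex.I ^ (m - 1 - (j : ℕ)) else 0), fun x hx => ?_⟩
        have v1 : Fin.insertNth (α := fun _ => ℝ) r x e j.castSucc = e j := by
          rw [hc1, Fin.insertNth_apply_succAbove]
        have v2 : Fin.insertNth (α := fun _ => ℝ) r x e j.succ = e j' := by
          rw [hc2, Fin.insertNth_apply_succAbove]
        refine ⟨by rw [v1, v2]; exact he (by rw [Fin.lt_def]; simp [hj']), fun a => ?_⟩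
        rw [hper, v1, v2]
        have hU := UIfin h1 h3 e he a j j' rfl x (m - 1 - j) (Or.inr ⟨hlo x hx j' hj1, rfl⟩)
        refine hU.congr' ?_
        filter_upwards [hpos] with y hy
        have h5 := h2 m e a j j' (x + y * Complex.I) he (by simp [hy])
        rw [← h5]
        simp only [mul_sub, Finset.sum_sub_distrib, mul_ite, mul_zero, Finset.sum_ite_eq',
          Finset.mem_univ, if_true]
        ring
      · -- the last negative point
        have hjr1 : (j : ℕ) + 1 = r := by omega
        have hc2 : j.succ = r := by ext; simpa using hjr1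
        refine ⟨fun i => (if i = j then Complex.I ^ (m - 1 - (j : ℕ)) else 0), fun x hx => ?_⟩
        have v1 : Fin.insertNth (α := fun _ => ℝ) r x e j.castSucc = e j := by
          rw [hc1, Fin.insertNth_apply_succAbove]
        have v2 : Fin.insertNth (α := fun _ => ℝ) r x e j.succ = x := by
          rw [hc2, Fin.insertNth_apply_same]
        have hjx := hlo x hx j hjr
        refine ⟨by rw [v1, v2]; exact hjx, fun a => ?_⟩
        rw [hper, v1, v2]
        have hD := DDfin h1 h4 e he a j x (Or.inl ⟨hjx, fun k hk => hhi x hx k (by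
          rw [Fin.lt_def] at hk; omega)⟩)
        rw [min_eq_right hjx.le, max_eq_left hjx.le] at hD
        refine hD.congr fun y => ?_
        simp only [mul_ite, mul_zero, Finset.sum_ite_eq', Finset.mem_univ, if_true]
        ring
    · have hc2 : j.succ = r.succAbove j :=
        (Fin.succAbove_of_le_castSucc r j (by rw [Fin.le_def]; simpa using hjr)).symm
      by_cases hj1 : (j : ℕ) = r
      · -- the first positive point
        have hc1 : j.castSucc = r := by ext; simpa using hj1
        refine ⟨fun i => (if i = j then Complex.I ^ (m - 1 - (j : ℕ)) else 0), fun x hx => ?_⟩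
        have v1 : Fin.insertNth (α := fun _ => ℝ) r x e j.castSucc = x := by
          rw [hc1, Fin.insertNth_apply_same]
        have v2 : Fin.insertNth (α := fun _ => ℝ) r x e j.succ = e j := by
          rw [hc2, Fin.insertNth_apply_succAbove]
        have hjx := hhi x hx j hjr
        refine ⟨by rw [v1, v2]; exact hjx, fun a => ?_⟩
        rw [hper, v1, v2]
        have hD := DDfin h1 h4 e he a j x (Or.inr ⟨hjx, fun k hk => hlo x hx k (by
          rw [Fin.lt_def] at hk; omega)⟩)
        rw [min_eq_left hjx.le, max_eq_right hjx.le] at hD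
        refine hD.congr fun y => ?_
        simp only [mul_ite, mul_zero, Finset.sum_ite_eq', Finset.mem_univ, if_true]
        ring
      · -- two positive points
        have hjr2 : (r : ℕ) < j := by omega
        set j' : Fin m := ⟨(j : ℕ) - 1, by omega⟩ with hj'
        have hjj : (j : ℕ) = j' + 1 := by simp only [hj']; omega
        have hc1 : j.castSucc = r.succAbove j' := by
          rw [Fin.succAbove_of_le_castSucc r j' (by
            rw [Fin.le_def, Fin.val_castSucc]; omega)]
          ext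
          rw [Fin.val_castSucc, Fin.val_succ, hjj]
        refine ⟨fun i => (if i = j' then Complex.I ^ (m - 1 - (j' : ℕ) + 1) else 0) -
          (if i = j then Complex.I ^ (m - 1 - (j' : ℕ) + 1) else 0), fun x hx => ?_⟩
        have v1 : Fin.insertNth (α := fun _ => ℝ) r x e j.castSucc = e j' := by
          rw [hc1, Fin.insertNth_apply_succAbove]
        have v2 : Fin.insertNth (α := fun _ => ℝ) r x e j.succ = e j := by
          rw [hc2, Fin.insertNth_apply_succAbove]
        refine ⟨by rw [v1, v2]; exact he (by rw [Fin.lt_def]; omega), fun a => ?_⟩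
        rw [hper, v1, v2]
        have hU := UIfin h1 h3 e he a j' j hjj x (m - 1 - j' + 1)
          (Or.inl ⟨hhi x hx j' (by omega), rfl⟩)
        refine hU.congr' ?_
        filter_upwards [hpos] with y hy
        have h5 := h2 m e a j' j (x + y * Complex.I) he (by simp [hy])
        rw [← h5]
        simp only [mul_sub, Finset.sum_sub_distrib, mul_ite, mul_zero, Finset.sum_ite_eq',
          Finset.mem_univ, if_true]
        ring
  choose w hw using key
  exact ⟨r, Matrix.of (fun i j => w j i), δ, hδ, fun x hx =>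
    ⟨Fin.strictMono_iff_lt_succ.2 (fun j => (hw j x hx).1), fun a j => (hw j x hx).2 a⟩⟩

end Pool.Agent.HEP
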