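import Pool.Agent.HEP.Targets

set_option autoImplicit false

/-!
# HEP, DER: properties of the derivations
-/

namespace Pool.Agent.HEP

namespace DER_

open MvPolynomial

variable {m : ℕ}

lemma dM_X (M : Matrix (Fin m) (Fin m) ℂ) (p : Fin m × Fin m) :
    dM M (X p) = ∑ i, C (Polynomial.C (M i p.2)) * X (p.1, i) := by
  unfold dM
  rw [mkDerivation_X]

lemma dM_dM_X (A B : Matrix (Fin m) (Fin m) ℂ) (p : Fin m × Fin m) :
    dM A (dM B (X p)) = ∑ j, C (Polynomial.C ((A * B) j p.2)) * X (p.1, j) := by
  rw [dM_X, map_sum]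
  have h1 : ∀ i : Fin m, dM A (C (Polynomial.C (B i p.2)) * X (p.1, i)) =
      ∑ j, C (Polynomial.C (A j i * B i p.2)) * X (p.1, j) := by
    intro i
    rw [← smul_eq_C_mul, (dM A).map_smul, dM_X, smul_eq_C_mul, Finset.mul_sum]
    refine Finset.sum_congr rfl fun j _ => ?_
    rw [← mul_assoc, ← C_mul, ← Polynomial.C_mul, mul_comm (B i p.2)]
  rw [Finset.sum_congr rfl fun i _ => h1 i, Finset.sum_comm]
  refine Finset.sum_congr rfl fun j _ => ?_
  rw [← Finset.sum_mul, Matrix.mul_apply, map_sum, map_sum]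

end DER_

open MvPolynomial DER_ in
theorem p_DER : T_DER := by
  intro m A B c Ψ
  refine ⟨?_, ?_, ?_⟩
  · have h : dM (A + B) = dM A + dM B := by
      refine derivation_ext fun p => ?_
      rw [Derivation.add_apply, dM_X, dM_X, dM_X, ← Finset.sum_add_distrib]
      refine Finset.sum_congr rfl fun i _ => ?_
      rw [Matrix.add_apply, Polynomial.C_add, C_add, add_mul]
    rw [h, Derivation.add_apply]
  · have h : dM (c • A) = (Polynomial.C c) • dM A := by
      refine derivation_ext fun p => ?_
      rw [Derivation.smul_apply, dM_X, dM_X, Finset.smul_sum]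
      refine Finset.sum_congr rfl fun i _ => ?_
      rw [Matrix.smul_apply, smul_eq_C_mul, ← mul_assoc, ← C_mul, smul_eq_mul, Polynomial.C_mul]
    rw [h, Derivation.smul_apply, smul_eq_C_mul]
  · have h : dM (A * B - B * A) = ⁅dM A, dM B⁆ := by
      refine derivation_ext fun p => ?_
      rw [Derivation.commutator_apply, dM_X, dM_dM_X, dM_dM_X, ← Finset.sum_sub_distrib]
      refine Finset.sum_congr rfl fun i _ => ?_
      rw [Matrix.sub_apply, Polynomial.C_sub, C_sub, sub_mul]
    rw [h, Derivation.commutator_apply]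

end Pool.Agent.HEP
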