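import Pool.Agent.HEP.Targets

set_option autoImplicit false

namespace Pool.Agent.HEP
namespace DODE_

open Finset Pool.Agent.LEG
open scoped BigOperators Topology

theorem isOpen_HH : IsOpen HH := isOpen_lt continuous_const Complex.continuous_im

theorem cc_ne {m : ℕ} (i j : Fin m) (h : j ≠ i) : cc i j ≠ 0 := by
  unfold cc
  have hpi : (Real.pi : ℂ) ≠ 0 := by exact_mod_cast Real.pi_ne_zero
  rcases lt_or_gt_of_ne h with h1 | h1
  · rw [if_pos h1]; exact div_ne_zero Complex.I_ne_zero hpi
  · rw [if_neg (not_lt.2 h1.le), if_pos h1]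
    exact neg_ne_zero.2 (div_ne_zero Complex.I_ne_zero hpi)

theorem h_ne {m : ℕ} (h : Polynomial ℚ) (e : Fin m → ℝ)
    (hprod : h.map (algebraMap ℚ ℝ) = ∏ k, (Polynomial.X - Polynomial.C (e k))) (z : ℂ)
    (hz : 0 < z.im) : Polynomial.aeval z h ≠ 0 := by
  have h1 : Polynomial.aeval z h = ∏ k, (z - (e k : ℂ)) := by
    have h2 : Polynomial.aeval z h = Polynomial.aeval z (h.map (algebraMap ℚ ℝ)) := by
      rw [Polynomial.aeval_map_algebraMap]
    rw [h2, hprod, map_prod]
    refine Finset.prod_congr rfl ?_
    intro k _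
    simp
  rw [h1, Finset.prod_ne_zero_iff]
  intro k _ h0
  have : z = (e k : ℂ) := sub_eq_zero.1 h0
  rw [this] at hz
  simp at hz

end DODE_

open Finset Pool.Agent.LEG in
open scoped BigOperators Topology in
theorem p_DODE (h1 : T_DAN) (h2 : T_DU) (h3 : T_UODE) (h4 : T_LOCX) (h5 : T_LOGT)
    (h6 : T_IDT) : T_DODE := by
  intro m h e he hm hprod i α
  have hopen := DODE_.isOpen_HH
  -- the defect
  set L : Fin m → ℂ → ℂ := fun i z => Polynomial.aeval z h * deriv (DD e α i) z -
    ∑ l : Fin m, Polynomial.aeval z (AA h m α l) * DD e l i z with hL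
  have hdiff : ∀ (a : ℕ) (i : Fin m), DifferentiableOn ℂ (DD e a i) HH := fun a i => h1 m e a i he
  have hda : ∀ (a : ℕ) (i : Fin m) (z : ℂ), 0 < z.im →
      HasDerivAt (DD e a i) (deriv (DD e a i) z) z := by
    intro a i z hz
    exact ((hdiff a i).differentiableAt (hopen.mem_nhds hz)).hasDerivAt
  have hLeq : ∀ (i j : Fin m) (z : ℂ), 0 < z.im → L i z = L j z := by
    intro i j z hz
    have e1 : HasDerivAt (UI e α (e i) (e j)) (deriv (DD e α i) z - deriv (DD e α j) z) z := by
      refine ((hda α i z hz).sub (hda α j z hz)).congr_of_eventuallyEq ?_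
      filter_upwards [hopen.mem_nhds hz] with w hw
      exact (h2 m e α i j w he hw).symm
    have e2 := h3 m h e i j α z he hprod hz
    have e3 := e1.unique e2
    have hz0 := DODE_.h_ne h e hprod z hz
    rw [eq_div_iff hz0] at e3
    have e4 : ∀ l : Fin m, UI e l (e i) (e j) z = DD e l i z - DD e l j z := fun l =>
      (h2 m e l i j z he hz).symm
    simp only [e4] at e3
    have e5 : ∑ l : Fin m, Polynomial.aeval z (AA h m α l) * (DD e l i z - DD e l j z) =
        ∑ l : Fin m, Polynomial.aeval z (AA h m α l) * DD e l i z -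
          ∑ l : Fin m, Polynomial.aeval z (AA h m α l) * DD e l j z := by
      rw [← Finset.sum_sub_distrib]
      exact Finset.sum_congr rfl fun l _ => by ring
    rw [e5] at e3
    simp only [hL]
    linear_combination e3
  have hLd : ∀ i : Fin m, DifferentiableOn ℂ (L i) HH := by
    intro i
    simp only [hL]
    refine DifferentiableOn.sub ?_ ?_
    · refine DifferentiableOn.mul ?_ ((hdiff α i).deriv hopen)
      exact (Polynomial.differentiable_aeval h).differentiableOn
    · refine DifferentiableOn.fun_sum ?_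
      intro l _
      exact ((Polynomial.differentiable_aeval _).differentiableOn).mul (hdiff l i)
  have hL0 : ∀ z : ℂ, 0 < z.im → L i z = 0 := by
    -- another index
    obtain ⟨j, hj⟩ : ∃ j : Fin m, j ≠ i := by
      have : Nontrivial (Fin m) := Fin.nontrivial_iff_two_le.2 hm
      exact exists_ne i
    obtain ⟨ρ, Ah, Gh, hρ, hAh, hGh, hloc⟩ := h4 m e i he
    have hc := DODE_.cc_ne i j hj
    set c : ℂ := cc i j with hcdef
    set E : ℂ := (e i : ℂ) with hE
    have hballnhds : Metric.ball E ρ ∈ 𝓝 E := Metric.ball_mem_nhds E hρ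
    have hpan : ∀ P : Polynomial ℚ, AnalyticAt ℂ (fun z : ℂ => Polynomial.aeval z P) E := by
      intro P
      exact (Polynomial.differentiable_aeval P).analyticAt E
    have hAan : ∀ a j, AnalyticAt ℂ (Ah a j) E := fun a j => (hAh a j).analyticAt hballnhds
    have hGan : ∀ a, AnalyticAt ℂ (Gh a) E := fun a => (hGh a).analyticAt hballnhds
    set g0 : ℂ → ℂ := fun z => (z - E) * (Polynomial.aeval z h * deriv (Ah α j) z -
      ∑ l : Fin m, Polynomial.aeval z (AA h m α l) * Ah l j z - Polynomial.aeval z h *
        deriv (Gh α) z + ∑ l : Fin m, Polynomial.aeval z (AA h m α l) * Gh l z) +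
        c * Polynomial.aeval z h * Gh α z with hg0
    set g1 : ℂ → ℂ := fun z => (z - E) * (c * (Polynomial.aeval z h * deriv (Gh α) z -
      ∑ l : Fin m, Polynomial.aeval z (AA h m α l) * Gh l z)) with hg1
    set g : ℕ → ℂ → ℂ := fun k => if k = 0 then g0 else if k = 1 then g1 else 0 with hg
    have hsumAn : ∀ (F : ℕ → ℂ → ℂ), (∀ a, AnalyticAt ℂ (F a) E) →
        AnalyticAt ℂ (fun z => ∑ l : Fin m, Polynomial.aeval z (AA h m α l) * F l z) E := by
      intro F hF
      refine Finset.analyticAt_fun_sum _ ?_
      intro l _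
      exact (hpan _).mul (hF l)
    have hidE : AnalyticAt ℂ (fun z : ℂ => z - E) E := by fun_prop
    have hg0an : AnalyticAt ℂ g0 E := by
      simp only [hg0]
      refine AnalyticAt.add (AnalyticAt.mul hidE (AnalyticAt.add (AnalyticAt.sub (AnalyticAt.sub
        ((hpan h).mul (hAan α j).deriv) (hsumAn (fun a => Ah a j) fun a => hAan a j))
        ((hpan h).mul (hGan α).deriv)) (hsumAn Gh hGan))) ?_
      exact AnalyticAt.mul (analyticAt_const.mul (hpan h)) (hGan α)
    have hg1an : AnalyticAt ℂ g1 E := by
      simp only [hg1]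
      refine AnalyticAt.mul hidE (AnalyticAt.mul analyticAt_const (AnalyticAt.sub
        ((hpan h).mul (hGan α).deriv) (hsumAn Gh hGan)))
    have hgan : ∀ k, AnalyticAt ℂ (g k) E := by
      intro k
      simp only [hg]
      split_ifs
      · exact hg0an
      · exact hg1an
      · exact analyticAt_const
    -- the relation on the half disc
    have hrel : ∀ z ∈ Metric.ball E ρ, 0 < z.im → g0 z + g1 z * Complex.log (z - E) = 0 := by
      intro z hzb hz
      have hnb : Metric.ball E ρ ∩ HH ∈ 𝓝 z :=
        (Metric.isOpen_ball.inter hopen).mem_nhds ⟨hzb, hz⟩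
      have hzE : z - E ∈ Complex.slitPlane := by
        right
        simp only [Complex.sub_im, hE, Complex.ofReal_im, sub_zero]
        exact hz.ne'
      have hzE0 : z - E ≠ 0 := Complex.slitPlane_ne_zero hzE
      have hdG : HasDerivAt (Gh α) (deriv (Gh α) z) z :=
        ((hGh α).differentiableAt (Metric.isOpen_ball.mem_nhds hzb)).hasDerivAt
      have hdA : HasDerivAt (Ah α j) (deriv (Ah α j) z) z :=
        ((hAh α j).differentiableAt (Metric.isOpen_ball.mem_nhds hzb)).hasDerivAt
      have d1 : deriv (DD e α i) z = deriv (Gh α) z := by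
        refine Filter.EventuallyEq.deriv_eq ?_
        filter_upwards [hnb] with w hw
        exact (hloc w hw.1 hw.2 α).1
      have hlog : HasDerivAt (fun w : ℂ => Complex.log (w - E)) (1 / (z - E)) z := by
        have := (hasDerivAt_id z).sub_const E
        exact this.clog hzE
      have d2 : deriv (DD e α j) z = deriv (Ah α j) z + c * (1 / (z - E) * Gh α z +
          Complex.log (z - E) * deriv (Gh α) z) := by
        have h7 : HasDerivAt (fun w => Ah α j w + c * (Complex.log (w - E) * Gh α w))
            (deriv (Ah α j) z + c * (1 / (z - E) * Gh α z +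
              Complex.log (z - E) * deriv (Gh α) z)) z :=
          hdA.add ((hlog.mul hdG).const_mul c)
        have h8 : DD e α j =ᶠ[𝓝 z] fun w => Ah α j w + c * (Complex.log (w - E) * Gh α w) := by
          filter_upwards [hnb] with w hw
          rw [(hloc w hw.1 hw.2 α).2 j, ← hcdef]
          ring
        exact (h7.congr_of_eventuallyEq h8).deriv
      have e1 := hLeq i j z hz
      simp only [hL] at e1
      rw [d1, d2] at e1
      have e2 : ∑ l : Fin m, Polynomial.aeval z (AA h m α l) * DD e l i z =
          ∑ l : Fin m, Polynomial.aeval z (AA h m α l) * Gh l z := by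
        refine Finset.sum_congr rfl fun l _ => ?_
        rw [(hloc z hzb hz l).1]
      have e3 : ∑ l : Fin m, Polynomial.aeval z (AA h m α l) * DD e l j z =
          ∑ l : Fin m, Polynomial.aeval z (AA h m α l) * Ah l j z +
          c * Complex.log (z - E) * ∑ l : Fin m, Polynomial.aeval z (AA h m α l) * Gh l z := by
        rw [Finset.mul_sum, ← Finset.sum_add_distrib]
        refine Finset.sum_congr rfl fun l _ => ?_
        rw [(hloc z hzb hz l).2 j, ← hcdef]
        ring
      rw [e2, e3] at e1
      simp only [hg0, hg1]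
      field_simp at e1
      linear_combination (-1 : ℂ) * e1
    have hev : ∀ᶠ y : ℝ in 𝓝[>] (0 : ℝ), ∑ k ∈ range 2, g k (E + (y : ℂ) * Complex.I) *
        Complex.log ((y : ℂ) * Complex.I) ^ k = 0 := by
      have hI : Set.Ioo (0 : ℝ) ρ ∈ 𝓝[>] (0 : ℝ) := Ioo_mem_nhdsGT hρ
      filter_upwards [hI] with y hy
      have hzb : E + (y : ℂ) * Complex.I ∈ Metric.ball E ρ := by
        rw [Metric.mem_ball, dist_eq_norm]
        have : E + (y : ℂ) * Complex.I - E = (y : ℂ) * Complex.I := by ring
        rw [this, norm_mul, Complex.norm_I, mul_one, Complex.norm_real, Real.norm_eq_abs,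
          abs_of_pos hy.1]
        exact hy.2
      have hz : 0 < (E + (y : ℂ) * Complex.I).im := by
        simp [hE, hy.1]
      have := hrel _ hzb hz
      have h9 : E + (y : ℂ) * Complex.I - E = (y : ℂ) * Complex.I := by ring
      rw [h9] at this
      simp only [Finset.sum_range_succ, Finset.sum_range_zero, hg]
      simpa using this
    have hres := h5 2 g E hgan hev 1 (by norm_num)
    have hres' : ∀ᶠ z in 𝓝 E, g1 z = 0 := by
      filter_upwards [hres] with z hz
      simpa [hg] using hz
    obtain ⟨ρ₁, hρ₁, hball⟩ := Metric.eventually_nhds_iff_ball.1 hres'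
    set ρ' : ℝ := min ρ ρ₁ with hρ'
    have hρ'0 : 0 < ρ' := lt_min hρ hρ₁
    refine h6.1 (L i) (e i) ρ' hρ'0 (hLd i) ?_
    intro z hzb hz
    have hzb1 : z ∈ Metric.ball E ρ := Metric.ball_subset_ball (min_le_left _ _) hzb
    have hzb2 : z ∈ Metric.ball E ρ₁ := Metric.ball_subset_ball (min_le_right _ _) hzb
    have hg1z := hball z hzb2
    have hzE0 : z - E ≠ 0 := by
      intro h0
      have : z = E := sub_eq_zero.1 h0
      rw [this, hE] at hz
      simp at hz
    simp only [hg1] at hg1z
    have h10 := (mul_eq_zero.1 hg1z).resolve_left hzE0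
    have h11 := (mul_eq_zero.1 h10).resolve_left hc
    have hnb : Metric.ball E ρ ∩ HH ∈ 𝓝 z :=
      (Metric.isOpen_ball.inter hopen).mem_nhds ⟨hzb1, hz⟩
    have d1 : deriv (DD e α i) z = deriv (Gh α) z := by
      refine Filter.EventuallyEq.deriv_eq ?_
      filter_upwards [hnb] with w hw
      exact (hloc w hw.1 hw.2 α).1
    have e2 : ∑ l : Fin m, Polynomial.aeval z (AA h m α l) * DD e l i z =
        ∑ l : Fin m, Polynomial.aeval z (AA h m α l) * Gh l z := by
      refine Finset.sum_congr rfl fun l _ => ?_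
      rw [(hloc z hzb1 hz l).1]
    simp only [hL]
    rw [d1, e2]
    exact h11
  intro z hz
  have hz0 := DODE_.h_ne h e hprod z hz
  have h12 := hL0 z hz
  simp only [hL] at h12
  have h13 : deriv (DD e α i) z = (∑ l : Fin m, Polynomial.aeval z (AA h m α l) * DD e l i z) /
      Polynomial.aeval z h := by
    rw [eq_div_iff hz0]
    linear_combination h12
  rw [← h13]
  exact hda α i z hz

end Pool.Agent.HEP
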