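import Pool.Agent.HEP.Targets

set_option autoImplicit false

namespace Pool.Agent.HEP

open Finset Pool.Agent.LEG MeasureTheory
open scoped BigOperators Topology

namespace DU_

variable {m : ℕ}

/-- the integrand without the root of `z - x` -/
noncomputable def psi (e : Fin m → ℝ) (α : ℕ) (x : ℂ) : ℂ := x ^ α / ∏ k, sq (x - e k)

lemma isOpen_HH : IsOpen HH := isOpen_lt continuous_const Complex.continuous_im

lemma mem_slit {w : ℂ} (h : 0 < w.im) : w ∈ Complex.slitPlane :=
  Complex.mem_slitPlane_iff.2 (Or.inr h.ne')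

lemma ne_zero_of_im {w : ℂ} (h : 0 < w.im) : w ≠ 0 := by
  rintro rfl
  simp at h

lemma im_sub_real (x : ℂ) (r : ℝ) : (x - (r : ℂ)).im = x.im := by simp

lemma psi_diff (h1 : T_SQP) (e : Fin m → ℝ) (α : ℕ) : DifferentiableOn ℂ (psi e α) HH := by
  intro x hx
  have hx' : 0 < x.im := hx
  apply DifferentiableAt.differentiableWithinAt
  unfold psi
  apply DifferentiableAt.div
  · fun_prop
  · apply DifferentiableAt.fun_finsetProd
    intro k _
    have h2 : 0 < (x - (e k : ℂ)).im := by rw [im_sub_real]; exact hx'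
    have h3 := (h1.2.1 _ (mem_slit h2)).1.differentiableAt
    exact DifferentiableAt.comp (g := sq) (f := fun x : ℂ => x - (e k : ℂ)) x h3 (by fun_prop)
  · rw [prod_ne_zero_iff]
    intro k _
    apply h1.2.2.2.2.2.2.2.2
    apply ne_zero_of_im
    rw [im_sub_real]
    exact hx'

lemma psi_cont (h1 : T_SQP) (e : Fin m → ℝ) (α : ℕ) : ContinuousOn (psi e α) HH :=
  (psi_diff h1 e α).continuousOn

lemma dpsi_cont (h1 : T_SQP) (e : Fin m → ℝ) (α : ℕ) : ContinuousOn (deriv (psi e α)) HH :=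
  ((psi_diff h1 e α).deriv isOpen_HH).continuousOn

lemma psi_hd (h1 : T_SQP) (e : Fin m → ℝ) (α : ℕ) (x : ℂ) (hx : 0 < x.im) :
    HasDerivAt (psi e α) (deriv (psi e α) x) x :=
  ((psi_diff h1 e α).differentiableAt (isOpen_HH.mem_nhds hx)).hasDerivAt

/-- the weight -/
noncomputable def wt (s : ℝ) : ℂ := ((1 / Real.sqrt (1 - s) : ℝ) : ℂ)

lemma wt_real : IntervalIntegrable (fun s : ℝ => 1 / Real.sqrt (1 - s)) volume 0 1 := by
  have h := (intervalIntegral.intervalIntegrable_rpow' (a := 1) (b := 0)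
    (by norm_num : (-1 : ℝ) < -(1 / 2))).comp_sub_left 1
  simp only [sub_self, sub_zero] at h
  refine h.congr ?_
  intro s hs
  rw [Set.uIoc_of_le zero_le_one] at hs
  have h0 : 0 ≤ 1 - s := by linarith [hs.2]
  simp only
  rw [Real.rpow_neg h0, ← Real.sqrt_eq_rpow, one_div]

lemma wt_int : IntervalIntegrable wt volume 0 1 := by
  have := wt_real
  exact ⟨this.1.ofReal, this.2.ofReal⟩

/-- the point on the segment -/
def seg (z w : ℂ) (s : ℝ) : ℂ := w + (s : ℂ) * (z - w)

lemma seg_im (z w : ℂ) (s : ℝ) : (seg z w s).im = (1 - s) * w.im + s * z.im := by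
  simp [seg]
  ring

lemma seg_re (z w : ℂ) (s : ℝ) : (seg z w s).re = (1 - s) * w.re + s * z.re := by
  simp [seg]
  ring

lemma seg_im_pos {z w : ℂ} (hz : 0 < z.im) (hw : 0 < w.im) {s : ℝ} (h0 : 0 ≤ s) (h1 : s ≤ 1) :
    0 < (seg z w s).im := by
  rw [seg_im]
  rcases h0.eq_or_lt with rfl | h
  · simpa using hw
  · have : 0 ≤ (1 - s) * w.im := mul_nonneg (by linarith) hw.le
    have : 0 < s * z.im := mul_pos h hz
    linarith

lemma seg_cont (z w : ℂ) : Continuous (seg z w) := by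
  unfold seg
  fun_prop

/-- the inner integral -/
noncomputable def GI (e : Fin m → ℝ) (α : ℕ) (z w : ℂ) : ℂ :=
  ∫ s in (0 : ℝ)..1, psi e α (seg z w s) * wt s

/-- its derivative -/
noncomputable def GD (e : Fin m → ℝ) (α : ℕ) (z w : ℂ) : ℂ :=
  ∫ s in (0 : ℝ)..1, deriv (psi e α) (seg z w s) * (1 - (s : ℂ)) * wt s

lemma cont_seg_comp (f : ℂ → ℂ) (hf : ContinuousOn f HH) {z w : ℂ} (hz : 0 < z.im)
    (hw : 0 < w.im) : ContinuousOn (fun s : ℝ => f (seg z w s)) (Set.uIcc 0 1) := by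
  rw [Set.uIcc_of_le zero_le_one]
  apply hf.comp (seg_cont z w).continuousOn
  intro s hs
  exact seg_im_pos hz hw hs.1 hs.2

lemma gi_int (h1 : T_SQP) (e : Fin m → ℝ) (α : ℕ) {z w : ℂ} (hz : 0 < z.im) (hw : 0 < w.im) :
    IntervalIntegrable (fun s => psi e α (seg z w s) * wt s) volume 0 1 :=
  wt_int.continuousOn_mul (cont_seg_comp _ (psi_cont h1 e α) hz hw)

lemma gd_int (h1 : T_SQP) (e : Fin m → ℝ) (α : ℕ) {z w : ℂ} (hz : 0 < z.im) (hw : 0 < w.im) :
    IntervalIntegrable (fun s : ℝ => deriv (psi e α) (seg z w s) * (1 - (s : ℂ)) * wt s)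
      volume 0 1 := by
  apply wt_int.continuousOn_mul
  apply (cont_seg_comp _ (dpsi_cont h1 e α) hz hw).mul
  fun_prop

lemma gi_deriv (h1 : T_SQP) (e : Fin m → ℝ) (α : ℕ) {z w : ℂ} (hz : 0 < z.im) (hw : 0 < w.im) :
    HasDerivAt (GI e α z) (GD e α z w) w := by
  set r : ℝ := w.im / 2 with hr
  have hr0 : 0 < r := by positivity
  set K : Set ℂ := (fun p : ℂ × ℝ => seg z p.1 p.2) ''
    (Metric.closedBall w r ×ˢ Set.Icc (0 : ℝ) 1) with hK
  have hKc : IsCompact K := by
    apply ((isCompact_closedBall w r).prod isCompact_Icc).image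
    unfold seg
    fun_prop
  have him : ∀ x ∈ Metric.closedBall w r, 0 < x.im := by
    intro x hx
    have h2 : |(x - w).im| ≤ ‖x - w‖ := Complex.abs_im_le_norm _
    have h3 : ‖x - w‖ ≤ r := by simpa [dist_eq_norm] using hx
    rw [Complex.sub_im] at h2
    have h4 := abs_le.1 (h2.trans h3)
    linarith [h4.1]
  have hKH : K ⊆ HH := by
    rintro _ ⟨⟨x, s⟩, ⟨hx, hs⟩, rfl⟩
    exact seg_im_pos hz (him x hx) hs.1 hs.2
  obtain ⟨C, hC⟩ := hKc.exists_bound_of_continuousOn ((dpsi_cont h1 e α).mono hKH)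
  have key := intervalIntegral.hasDerivAt_integral_of_dominated_loc_of_deriv_le
    (F := fun w s => psi e α (seg z w s) * wt s)
    (F' := fun w s => deriv (psi e α) (seg z w s) * (1 - (s : ℂ)) * wt s)
    (x₀ := w) (s := Metric.closedBall w r) (a := 0) (b := 1) (μ := volume)
    (bound := fun s => C * (1 / Real.sqrt (1 - s)))
    (Metric.closedBall_mem_nhds w hr0) ?_ (gi_int h1 e α hz hw)
    ?_ ?_ (wt_real.const_mul C) ?_
  · exact key.2
  · filter_upwards [Metric.closedBall_mem_nhds w hr0] with x hx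
    exact (intervalIntegrable_iff.1 (gi_int h1 e α hz (him x hx))).aestronglyMeasurable
  · exact (intervalIntegrable_iff.1 (gd_int h1 e α hz hw)).aestronglyMeasurable
  · refine Filter.Eventually.of_forall fun s hs x hx => ?_
    rw [Set.uIoc_of_le zero_le_one] at hs
    have hx2 : seg z x s ∈ K := ⟨(x, s), ⟨hx, ⟨hs.1.le, hs.2⟩⟩, rfl⟩
    have h3 : ‖(1 - (s : ℂ))‖ ≤ 1 := by
      have : (1 - (s : ℂ)) = ((1 - s : ℝ) : ℂ) := by push_cast; ring
      rw [this, Complex.norm_real, Real.norm_eq_abs, abs_of_nonneg (by linarith [hs.2])]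
      linarith [hs.1]
    have h4 : ‖wt s‖ = 1 / Real.sqrt (1 - s) := by
      rw [wt, Complex.norm_real, Real.norm_eq_abs, abs_of_nonneg (by positivity)]
    rw [norm_mul, norm_mul, h4]
    apply mul_le_mul_of_nonneg_right _ (by positivity)
    calc ‖deriv (psi e α) (seg z x s)‖ * ‖(1 - (s : ℂ))‖
        ≤ ‖deriv (psi e α) (seg z x s)‖ * 1 :=
          mul_le_mul_of_nonneg_left h3 (norm_nonneg _)
      _ ≤ C := by rw [mul_one]; exact hC _ hx2
  · refine Filter.Eventually.of_forall fun s hs x hx => ?_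
    rw [Set.uIoc_of_le zero_le_one] at hs
    have h3 : HasDerivAt (fun x => seg z x s) (1 - (s : ℂ)) x := by
      unfold seg
      have h5 : HasDerivAt (fun x : ℂ => x + (s : ℂ) * (z - x)) (1 + (s : ℂ) * (0 - 1)) x :=
        (hasDerivAt_id x).add (((hasDerivAt_const x z).sub (hasDerivAt_id x)).const_mul (s : ℂ))
      convert h5 using 1
      ring
    have h4 := psi_hd h1 e α (seg z x s) (seg_im_pos hz (him x hx) hs.1.le hs.2)
    exact (h4.comp x h3).mul_const (wt s)

/-- the relation between the two integrals -/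
lemma relation (h1 : T_SQP) (e : Fin m → ℝ) (α : ℕ) {z w : ℂ} (hz : 0 < z.im) (hw : 0 < w.im) :
    (z - w) * GD e α z w - GI e α z w / 2 = - psi e α w := by
  have hcs : ContinuousOn (fun s : ℝ => ((Real.sqrt (1 - s) : ℝ) : ℂ)) (Set.Icc 0 1) := by
    apply Continuous.continuousOn
    fun_prop
  have hf : ∀ s ∈ Set.Ioo (0 : ℝ) 1, HasDerivAt
      (fun s : ℝ => psi e α (seg z w s) * ((Real.sqrt (1 - s) : ℝ) : ℂ))
      ((z - w) * (deriv (psi e α) (seg z w s) * (1 - (s : ℂ)) * wt s) -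
        (1 / 2) * (psi e α (seg z w s) * wt s)) s := by
    intro s hs
    have hs1 : 0 < 1 - s := by linarith [hs.2]
    have h3 : HasDerivAt (fun s : ℝ => seg z w s) (z - w) s := by
      unfold seg
      have h5 : HasDerivAt (fun s : ℝ => w + (s : ℂ) * (z - w)) (0 + 1 * (z - w)) s :=
        (hasDerivAt_const s w).add ((Complex.ofRealCLM.hasDerivAt (x := s)).mul_const (z - w))
      convert h5 using 1
      ring
    have h4 := psi_hd h1 e α (seg z w s) (seg_im_pos hz hw hs.1.le hs.2.le)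
    have h5 : HasDerivAt (fun s : ℝ => psi e α (seg z w s))
        (deriv (psi e α) (seg z w s) * (z - w)) s := h4.comp s h3
    have h6 : HasDerivAt (fun s : ℝ => Real.sqrt (1 - s)) ((0 - 1) / (2 * Real.sqrt (1 - s))) s :=
      ((hasDerivAt_const s (1 : ℝ)).sub (hasDerivAt_id s)).sqrt hs1.ne'
    have h7 := h5.mul h6.ofReal_comp
    refine h7.congr_deriv ?_
    have h8 : (Real.sqrt (1 - s) : ℂ) ≠ 0 := by
      exact_mod_cast (Real.sqrt_pos.2 hs1).ne'
    have h9 : (1 - (s : ℂ)) = (Real.sqrt (1 - s) : ℂ) * (Real.sqrt (1 - s) : ℂ) := by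
      rw [← Complex.ofReal_mul, Real.mul_self_sqrt hs1.le]
      push_cast
      ring
    unfold wt
    rw [h9]
    push_cast
    field_simp
    ring
  have hint : IntervalIntegrable (fun s : ℝ => (z - w) *
      (deriv (psi e α) (seg z w s) * (1 - (s : ℂ)) * wt s) -
        (1 / 2) * (psi e α (seg z w s) * wt s)) volume 0 1 :=
    ((gd_int h1 e α hz hw).const_mul _).sub ((gi_int h1 e α hz hw).const_mul _)
  have hc : ContinuousOn (fun s : ℝ => psi e α (seg z w s) * ((Real.sqrt (1 - s) : ℝ) : ℂ))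
      (Set.Icc 0 1) := by
    have := cont_seg_comp _ (psi_cont h1 e α) hz hw
    rw [Set.uIcc_of_le zero_le_one] at this
    exact this.mul hcs
  have key := intervalIntegral.integral_eq_sub_of_hasDerivAt_of_le zero_le_one hc hf hint
  rw [intervalIntegral.integral_sub ((gd_int h1 e α hz hw).const_mul _)
    ((gi_int h1 e α hz hw).const_mul _), intervalIntegral.integral_const_mul,
    intervalIntegral.integral_const_mul] at key
  have e1 : seg z w 0 = w := by simp [seg]
  rw [e1] at key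
  simp only [sub_self, Real.sqrt_zero, Complex.ofReal_zero, mul_zero, sub_zero, Real.sqrt_one,
    Complex.ofReal_one, mul_one, zero_sub] at key
  rw [← key, GD, GI]
  ring

/-- the integral from `w` to `z` -/
noncomputable def FI (e : Fin m → ℝ) (α : ℕ) (z w : ℂ) : ℂ := sq (z - w) * GI e α z w

lemma fi_deriv (h1 : T_SQP) (e : Fin m → ℝ) (α : ℕ) {z w : ℂ} (hz : 0 < z.im) (hw : 0 < w.im)
    (hwz : w.im < z.im) : HasDerivAt (FI e α z) (-(psi e α w / sq (z - w))) w := by
  have h2 : 0 < (z - w).im := by rw [Complex.sub_im]; linarith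
  have h3 : HasDerivAt (fun w => sq (z - w)) (1 / (2 * sq (z - w)) * (0 - 1)) w :=
    (h1.2.1 _ (mem_slit h2)).1.comp w ((hasDerivAt_const w z).sub (hasDerivAt_id w))
  have h4 := h3.mul (gi_deriv h1 e α hz hw)
  have h5 : sq (z - w) ≠ 0 := h1.2.2.2.2.2.2.2.2 _ (ne_zero_of_im h2)
  have h6 := relation h1 e α hz hw
  have h7 := h1.1 (z - w)
  refine h4.congr_deriv ?_
  rw [← neg_div, ← h6]
  field_simp
  linear_combination (2 * GD e α z w) * h7

/-- a point above the real axis -/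
noncomputable def up (x ε : ℝ) : ℂ := (x : ℂ) + (ε : ℂ) * Complex.I

lemma up_im (x ε : ℝ) : (up x ε).im = ε := by simp [up]

lemma up_re (x ε : ℝ) : (up x ε).re = x := by simp [up]

lemma up_zero (x : ℝ) : up x 0 = (x : ℂ) := by simp [up]

lemma sq_z_cont (h1 : T_SQP) {z w : ℂ} (hwz : w.im < z.im) :
    ContinuousAt (fun w => sq (z - w)) w := by
  have h2 : 0 < (z - w).im := by rw [Complex.sub_im]; linarith
  have h3 : ContinuousAt sq (z - w) := (h1.2.1 _ (mem_slit h2)).1.continuousAt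
  exact ContinuousAt.comp (g := sq) (f := fun w => z - w) h3 (by fun_prop)

lemma horiz_int (h1 : T_SQP) (e : Fin m → ℝ) (α : ℕ) {z : ℂ} {ε : ℝ} (hε : 0 < ε)
    (hεz : ε < z.im) (a b : ℝ) :
    IntervalIntegrable (fun x : ℝ => psi e α (up x ε) / sq (z - up x ε)) volume a b := by
  apply ContinuousOn.intervalIntegrable
  have hup : Continuous (fun x : ℝ => up x ε) := by unfold up; fun_prop
  intro x _
  apply ContinuousAt.continuousWithinAt
  have hx : 0 < (up x ε).im := by rw [up_im]; exact hε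
  have hx2 : (up x ε).im < z.im := by rw [up_im]; exact hεz
  have h2 : 0 < (z - up x ε).im := by rw [Complex.sub_im]; linarith
  apply ContinuousAt.div
  · exact ContinuousAt.comp (g := psi e α) (f := fun x : ℝ => up x ε)
      (psi_hd h1 e α _ hx).continuousAt hup.continuousAt
  · exact ContinuousAt.comp (g := fun w => sq (z - w)) (f := fun x : ℝ => up x ε)
      (sq_z_cont h1 hx2) hup.continuousAt
  · exact h1.2.2.2.2.2.2.2.2 _ (ne_zero_of_im h2)

lemma horiz (h1 : T_SQP) (e : Fin m → ℝ) (α : ℕ) {z : ℂ} (hz : 0 < z.im) {ε : ℝ} (hε : 0 < ε)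
    (hεz : ε < z.im) (a b : ℝ) :
    ∫ x in a..b, psi e α (up x ε) / sq (z - up x ε) =
      FI e α z (up a ε) - FI e α z (up b ε) := by
  have h2 : ∀ x ∈ Set.uIcc a b, HasDerivAt (fun x : ℝ => -FI e α z (up x ε))
      (psi e α (up x ε) / sq (z - up x ε)) x := by
    intro x _
    have hx : 0 < (up x ε).im := by rw [up_im]; exact hε
    have hx2 : (up x ε).im < z.im := by rw [up_im]; exact hεz
    have h3 : HasDerivAt (fun x : ℝ => up x ε) (1 + 0) x :=
      (Complex.ofRealCLM.hasDerivAt (x := x)).add (hasDerivAt_const x _)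
    have h4 := (fi_deriv h1 e α hz hx hx2).comp x h3
    refine h4.neg.congr_deriv ?_
    ring
  rw [intervalIntegral.integral_eq_sub_of_hasDerivAt h2 (horiz_int h1 e α hε hεz a b)]
  ring

lemma norm_sub_le' (x y : ℂ) (r : ℝ) (hre : x.re = y.re) (h0 : 0 ≤ x.im) (h : x.im ≤ y.im) :
    ‖x - r‖ ≤ ‖y - r‖ := by
  rw [← sq_le_sq₀ (norm_nonneg _) (norm_nonneg _), Complex.sq_norm, Complex.sq_norm,
    Complex.normSq_apply, Complex.normSq_apply]
  simp only [Complex.sub_re, Complex.ofReal_re, Complex.sub_im, Complex.ofReal_im, sub_zero, hre]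
  nlinarith

lemma prod_norm_le (h1 : T_SQP) (e : Fin m → ℝ) (x y : ℂ) (hre : x.re = y.re) (h0 : 0 ≤ x.im)
    (h : x.im ≤ y.im) : ‖∏ k, sq (x - e k)‖ ≤ ‖∏ k, sq (y - e k)‖ := by
  rw [norm_prod, norm_prod]
  apply prod_le_prod
  · intro k _
    exact norm_nonneg _
  · intro k _
    rw [h1.2.2.2.2.2.1, h1.2.2.2.2.2.1]
    exact Real.sqrt_le_sqrt (norm_sub_le' x y (e k) hre h0 h)

lemma psi_bound (h1 : T_SQP) (e : Fin m → ℝ) (α : ℕ) (x y : ℂ) (M : ℝ) (hre : x.re = y.re)
    (h0 : 0 ≤ x.im) (h : x.im ≤ y.im) (hne : ∏ k, sq (x - e k) ≠ 0) (hM : ‖y‖ ≤ M) :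
    ‖psi e α y‖ ≤ M ^ α * ‖1 / ∏ k, sq (x - e k)‖ := by
  rw [psi, norm_div, norm_div, norm_pow, norm_one, div_eq_mul_one_div]
  have hp : 0 < ‖∏ k, sq (x - e k)‖ := norm_pos_iff.2 hne
  have h2 := prod_norm_le h1 e x y hre h0 h
  apply mul_le_mul
  · exact pow_le_pow_left₀ (norm_nonneg _) hM α
  · exact one_div_le_one_div_of_le hp h2
  · positivity
  · exact pow_nonneg ((norm_nonneg _).trans hM) α

lemma w2_int : IntervalIntegrable (fun s : ℝ => ((Real.sqrt (s * (1 - s)) : ℝ) : ℂ)⁻¹)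
    volume 0 1 := by
  have h := Complex.betaIntegral_convergent (u := 1 / 2) (v := 1 / 2) (by norm_num) (by norm_num)
  refine h.congr ?_
  intro s hs
  rw [Set.uIoc_of_le zero_le_one] at hs
  have h0 : 0 ≤ 1 - s := by linarith [hs.2]
  have e1 : (1 / 2 - 1 : ℂ) = ((-(1 / 2) : ℝ) : ℂ) := by push_cast; ring
  have e2 : (1 - (s : ℂ)) = ((1 - s : ℝ) : ℂ) := by push_cast; ring
  simp only
  rw [e1, e2, ← Complex.ofReal_cpow hs.1.le, ← Complex.ofReal_cpow h0, Real.rpow_neg hs.1.le,
    Real.rpow_neg h0, ← Real.sqrt_eq_rpow, ← Real.sqrt_eq_rpow, Real.sqrt_mul hs.1.le]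
  push_cast
  rw [mul_inv]

/-- the product without `i` on the segment -/
noncomputable def pr (e : Fin m → ℝ) (i : Fin m) (z : ℂ) (s : ℝ) : ℂ :=
  ∏ k ∈ univ.erase i, sq ((e i : ℂ) - e k + s * (z - e i))

lemma prod_seg (h1 : T_SQP) (e : Fin m → ℝ) (i : Fin m) (z : ℂ) (s : ℝ) (hs : 0 ≤ s) :
    ∏ k, sq (seg z (e i) s - e k) = (Real.sqrt s : ℂ) * sq (z - e i) * pr e i z s := by
  rw [← mul_prod_erase univ _ (mem_univ i)]
  congr 1
  · rw [← h1.2.2.2.1 s _ hs]
    congr 1
    unfold seg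
    ring
  · apply prod_congr rfl
    intro k _
    congr 1
    unfold seg
    ring

lemma pr_ne (h1 : T_SQP) (e : Fin m → ℝ) (he : StrictMono e) (i : Fin m) {z : ℂ} (hz : 0 < z.im)
    (s : ℝ) (hs : 0 ≤ s) : pr e i z s ≠ 0 := by
  rw [pr, prod_ne_zero_iff]
  intro k hk
  apply h1.2.2.2.2.2.2.2.2
  rcases hs.eq_or_lt with rfl | h
  · simp only [Complex.ofReal_zero, zero_mul, add_zero]
    have : e i ≠ e k := fun h => (mem_erase.1 hk).1 (he.injective h).symm
    intro h2
    apply this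
    have h3 := sub_eq_zero.1 h2
    exact_mod_cast h3
  · apply ne_zero_of_im
    simp only [Complex.add_im, Complex.sub_im, Complex.ofReal_im, sub_zero, Complex.mul_im,
      Complex.ofReal_re, zero_mul, add_zero, zero_add, sub_self]
    positivity

lemma pr_cont (h1 : T_SQP) (e : Fin m → ℝ) (i : Fin m) {z : ℂ} (hz : 0 < z.im) :
    ContinuousOn (pr e i z) (Set.uIcc 0 1) := by
  unfold pr
  apply continuousOn_finsetProd
  intro k _
  apply h1.2.2.2.2.1.comp (f := fun s : ℝ => (e i : ℂ) - e k + s * (z - e i)) (by fun_prop)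
  intro s hs
  rw [Set.uIcc_of_le zero_le_one] at hs
  simp only [Set.mem_ofPred_eq, Complex.add_im, Complex.sub_im, Complex.ofReal_im, sub_zero,
    Complex.mul_im, Complex.ofReal_re, zero_mul, add_zero, zero_add, sub_self]
  exact mul_nonneg hs.1 hz.le

lemma z_ne {z : ℂ} (hz : 0 < z.im) (r : ℝ) : z - (r : ℂ) ≠ 0 := by
  apply ne_zero_of_im
  rw [im_sub_real]
  exact hz

lemma bound_int (h1 : T_SQP) (e : Fin m → ℝ) (he : StrictMono e) (i : Fin m) {z : ℂ}
    (hz : 0 < z.im) : IntervalIntegrable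
      (fun s : ℝ => 1 / (∏ k, sq (seg z (e i) s - e k)) * wt s) volume 0 1 := by
  have hc : ContinuousOn (fun s : ℝ => 1 / (sq (z - e i) * pr e i z s)) (Set.uIcc 0 1) := by
    apply ContinuousOn.div continuousOn_const (continuousOn_const.mul (pr_cont h1 e i hz))
    intro s hs
    rw [Set.uIcc_of_le zero_le_one] at hs
    exact mul_ne_zero (h1.2.2.2.2.2.2.2.2 _ (z_ne hz _)) (pr_ne h1 e he i hz s hs.1)
  refine (w2_int.continuousOn_mul hc).congr ?_
  intro s hs
  rw [Set.uIoc_of_le zero_le_one] at hs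
  simp only
  rw [prod_seg h1 e i z s hs.1.le, wt, Real.sqrt_mul hs.1.le]
  push_cast
  rw [mul_inv, one_div, one_div, one_div, mul_inv, mul_inv, mul_inv]
  ring

lemma fi_eq_dd (h1 : T_SQP) (e : Fin m → ℝ) (α : ℕ) (i : Fin m) {z : ℂ} (hz : 0 < z.im) :
    FI e α z (e i) = DD e α i z := by
  rw [FI, GI, DD, ← intervalIntegral.integral_const_mul]
  apply intervalIntegral.integral_congr_ae
  refine Filter.Eventually.of_forall fun s hs => ?_
  rw [Set.uIoc_of_le zero_le_one] at hs
  have h2 : sq (z - e i) ≠ 0 := h1.2.2.2.2.2.2.2.2 _ (z_ne hz _)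
  have h3 : (Real.sqrt s : ℂ) ≠ 0 := by
    exact_mod_cast (Real.sqrt_pos.2 hs.1).ne'
  rw [psi, prod_seg h1 e i z s hs.1.le, wt, Real.sqrt_mul hs.1.le, pr]
  push_cast
  have h4 : sq (z - e i) * (sq (z - e i))⁻¹ = 1 := mul_inv_cancel₀ h2
  have h5 : seg z (e i) s = (e i : ℂ) + s * (z - e i) := rfl
  rw [h5]
  simp only [div_eq_mul_inv, mul_inv, one_mul]
  linear_combination (((e i : ℂ) + s * (z - e i)) ^ α * ((Real.sqrt s : ℂ))⁻¹ *
    (∏ k ∈ univ.erase i, sq ((e i : ℂ) - e k + s * (z - e i)))⁻¹ *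
    ((Real.sqrt (1 - s) : ℂ))⁻¹) * h4

lemma tendsto_up (x : ℝ) : Filter.Tendsto (fun ε : ℝ => up x ε) (𝓝[>] 0) (𝓝 (x : ℂ)) := by
  have h : Continuous (fun ε : ℝ => up x ε) := by unfold up; fun_prop
  have h2 := (h.tendsto 0).mono_left (nhdsWithin_le_nhds (s := Set.Ioi 0))
  rw [up_zero] at h2
  exact h2

lemma lim_fi (h1 : T_SQP) (e : Fin m → ℝ) (he : StrictMono e) (α : ℕ) (i : Fin m) {z : ℂ}
    (hz : 0 < z.im) :
    Filter.Tendsto (fun ε : ℝ => FI e α z (up (e i) ε)) (𝓝[>] 0) (𝓝 (FI e α z (e i))) := by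
  unfold FI
  apply Filter.Tendsto.mul
  · have h2 : ContinuousAt (fun w => sq (z - w)) (e i : ℂ) := sq_z_cont h1 (by simpa using hz)
    exact h2.tendsto.comp (tendsto_up (e i))
  · unfold GI
    set M : ℝ := |e i| + 1 + (‖z‖ + |e i| + 1) with hM
    have h01 : ∀ᶠ ε : ℝ in 𝓝[>] 0, 0 < ε ∧ ε < 1 := by
      have : Set.Ioo (0 : ℝ) 1 ∈ 𝓝[>] (0 : ℝ) := Ioo_mem_nhdsGT one_pos
      filter_upwards [this] with ε h using h
    apply intervalIntegral.tendsto_integral_filter_of_dominated_convergence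
      (fun s => M ^ α * ‖1 / (∏ k, sq (seg z (e i) s - e k)) * wt s‖)
    · filter_upwards [h01] with ε hε
      have : 0 < (up (e i) ε).im := by rw [up_im]; exact hε.1
      exact (intervalIntegrable_iff.1 (gi_int h1 e α hz this)).aestronglyMeasurable
    · filter_upwards [h01] with ε hε
      refine Filter.Eventually.of_forall fun s hs => ?_
      rw [Set.uIoc_of_le zero_le_one] at hs
      rw [norm_mul, norm_mul, ← mul_assoc]
      apply mul_le_mul_of_nonneg_right _ (norm_nonneg _)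
      have hw : ‖up (e i) ε‖ ≤ |e i| + 1 := by
        unfold up
        refine (norm_add_le _ _).trans ?_
        rw [norm_mul, Complex.norm_I, Complex.norm_real, Complex.norm_real, Real.norm_eq_abs,
          Real.norm_eq_abs, abs_of_pos hε.1]
        linarith [hε.2]
      apply psi_bound h1
      · rw [seg_re, seg_re, up_re]
        simp
      · rw [seg_im]
        have := mul_nonneg hs.1.le hz.le
        simpa using this
      · rw [seg_im, seg_im, up_im]
        have := mul_nonneg (by linarith [hs.2] : 0 ≤ 1 - s) hε.1.le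
        simp only [Complex.ofReal_im, mul_zero]
        linarith
      · rw [prod_seg h1 e i z s hs.1.le]
        have h3 : (Real.sqrt s : ℂ) ≠ 0 := by
          exact_mod_cast (Real.sqrt_pos.2 hs.1).ne'
        exact mul_ne_zero (mul_ne_zero h3 (h1.2.2.2.2.2.2.2.2 _ (z_ne hz _)))
          (pr_ne h1 e he i hz s hs.1.le)
      · unfold seg
        refine (norm_add_le _ _).trans ?_
        rw [norm_mul, Complex.norm_real, Real.norm_eq_abs, abs_of_pos hs.1]
        have h5 : ‖z - up (e i) ε‖ ≤ ‖z‖ + |e i| + 1 := by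
          refine (norm_sub_le _ _).trans ?_
          linarith
        have h6 : s * ‖z - up (e i) ε‖ ≤ 1 * ‖z - up (e i) ε‖ :=
          mul_le_mul_of_nonneg_right hs.2 (norm_nonneg _)
        linarith
    · exact (bound_int h1 e he i hz).norm.const_mul _
    · refine Filter.Eventually.of_forall fun s hs => ?_
      rw [Set.uIoc_of_le zero_le_one] at hs
      apply Filter.Tendsto.mul_const
      have h3 : 0 < (seg z (e i) s).im := by
        rw [seg_im]
        have := mul_pos hs.1 hz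
        simpa using this
      have h4 : ContinuousAt (psi e α) (seg z (e i) s) := (psi_hd h1 e α _ h3).continuousAt
      have h5 : Continuous (fun w : ℂ => seg z w s) := by unfold seg; fun_prop
      exact h4.tendsto.comp ((h5.tendsto (e i : ℂ)).comp (tendsto_up (e i)))

lemma lim_horiz (h1 : T_SQP) (h2 : T_UINT) (e : Fin m → ℝ) (he : StrictMono e) (α : ℕ) {z : ℂ}
    (hz : 0 < z.im) (a b : ℝ) :
    Filter.Tendsto (fun ε : ℝ => ∫ x in a..b, psi e α (up x ε) / sq (z - up x ε)) (𝓝[>] 0)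
      (𝓝 (UI e α a b z)) := by
  have e1 : UI e α a b z = ∫ x in a..b, psi e α (x : ℂ) / sq (z - x) := by
    unfold UI psi
    congr 1
    funext x
    rw [div_div]
  rw [e1]
  set M : ℝ := |a| + |b| + 1 with hM
  set y : ℝ := z.im / 2 with hy
  have hy0 : 0 < y := by positivity
  have h01 : ∀ᶠ ε : ℝ in 𝓝[>] 0, 0 < ε ∧ ε < min 1 y := by
    have : Set.Ioo (0 : ℝ) (min 1 y) ∈ 𝓝[>] (0 : ℝ) := Ioo_mem_nhdsGT (lt_min one_pos hy0)
    filter_upwards [this] with ε h using h
  have hroots : ∀ᵐ x : ℝ, x ∉ Set.range e := by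
    rw [← measure_eq_zero_iff_ae_notMem]
    exact (Set.finite_range e).measure_zero volume
  have hne : ∀ x : ℝ, x ∉ Set.range e → ∏ k, sq ((x : ℂ) - e k) ≠ 0 := by
    intro x hx
    rw [prod_ne_zero_iff]
    intro k _
    apply h1.2.2.2.2.2.2.2.2
    intro h
    apply hx
    refine ⟨k, ?_⟩
    have h3 := sub_eq_zero.1 h
    exact_mod_cast h3.symm
  apply intervalIntegral.tendsto_integral_filter_of_dominated_convergence
    (fun x => M ^ α * ‖(x : ℂ) ^ 0 / ∏ k, sq ((x : ℂ) - e k)‖ * (1 / Real.sqrt y))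
  · filter_upwards [h01] with ε hε
    have : ε < z.im := by
      have := lt_of_lt_of_le hε.2 (min_le_right _ _)
      linarith
    exact (intervalIntegrable_iff.1 (horiz_int h1 e α hε.1 this a b)).aestronglyMeasurable
  · filter_upwards [h01] with ε hε
    filter_upwards [hroots] with x hx hxI
    have hε1 : ε < 1 := lt_of_lt_of_le hε.2 (min_le_left _ _)
    have hεy : ε < y := lt_of_lt_of_le hε.2 (min_le_right _ _)
    have hxM : |x| ≤ |a| + |b| := by
      rw [Set.uIoc_eq_union, Set.mem_union, Set.mem_Ioc, Set.mem_Ioc] at hxI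
      have ha := abs_nonneg a
      have hb := abs_nonneg b
      have ha1 := le_abs_self a
      have ha2 := neg_abs_le a
      have hb1 := le_abs_self b
      have hb2 := neg_abs_le b
      rw [abs_le]
      rcases hxI with h | h <;> constructor <;> linarith [h.1, h.2]
    rw [norm_div, div_eq_mul_one_div]
    apply mul_le_mul
    · rw [pow_zero]
      apply psi_bound h1
      · rw [up_re]; simp
      · simp
      · rw [up_im]; simpa using hε.1.le
      · exact hne x hx
      · unfold up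
        refine (norm_add_le _ _).trans ?_
        rw [norm_mul, Complex.norm_I, Complex.norm_real, Complex.norm_real, Real.norm_eq_abs,
          Real.norm_eq_abs, abs_of_pos hε.1]
        linarith
    · rw [h1.2.2.2.2.2.1]
      apply one_div_le_one_div_of_le (Real.sqrt_pos.2 hy0)
      apply Real.sqrt_le_sqrt
      have h5 : |(z - up x ε).im| ≤ ‖z - up x ε‖ := Complex.abs_im_le_norm _
      rw [Complex.sub_im, up_im] at h5
      have h6 := le_abs_self (z.im - ε)
      linarith
    · positivity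
    · apply mul_nonneg _ (norm_nonneg _)
      positivity
  · exact ((h2 m e 0 a b z he hz).1.norm.const_mul _).mul_const _
  · filter_upwards [hroots] with x hx _
    have hin : ∀ k, Filter.Tendsto (fun ε : ℝ => sq (up x ε - e k)) (𝓝[>] 0)
        (𝓝 (sq ((x : ℂ) - e k))) := by
      intro k
      have h3 : ((x : ℂ) - e k) ∈ {w : ℂ | 0 ≤ w.im} := by simp
      have h4 := (h1.2.2.2.2.1 _ h3).tendsto
      refine h4.comp (tendsto_nhdsWithin_iff.2 ⟨(tendsto_up x).sub_const _, ?_⟩)
      filter_upwards [h01] with ε hε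
      simp only [Complex.sub_im, up_im, Complex.ofReal_im, sub_zero]
      exact hε.1.le
    apply Filter.Tendsto.div
    · unfold psi
      apply Filter.Tendsto.div
      · exact (tendsto_up x).pow α
      · exact tendsto_finsetProd _ fun k _ => hin k
      · exact hne x hx
    · have h3 : ContinuousAt (fun w => sq (z - w)) (x : ℂ) := sq_z_cont h1 (by simpa using hz)
      exact h3.tendsto.comp (tendsto_up x)
    · exact h1.2.2.2.2.2.2.2.2 _ (z_ne hz _)

end DU_

open DU_

theorem p_DU (h1 : T_SQP) (h2 : T_UINT) : T_DU := by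
  intro m e α i j z he hz
  have h3 := lim_horiz h1 h2 e he α hz (e i) (e j)
  have h4 := (lim_fi h1 e he α i hz).sub (lim_fi h1 e he α j hz)
  have h5 : (fun ε : ℝ => FI e α z (up (e i) ε) - FI e α z (up (e j) ε)) =ᶠ[𝓝[>] 0]
      (fun ε : ℝ => ∫ x in (e i)..(e j), psi e α (up x ε) / sq (z - up x ε)) := by
    have : Set.Ioo (0 : ℝ) z.im ∈ 𝓝[>] (0 : ℝ) := Ioo_mem_nhdsGT hz
    filter_upwards [this] with ε hε
    rw [horiz h1 e α hz hε.1 hε.2]
  rw [← fi_eq_dd h1 e α i hz, ← fi_eq_dd h1 e α j hz]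
  exact tendsto_nhds_unique (h4.congr' h5) h3

end Pool.Agent.HEP
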