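import Pool.Agent.HEP.Targets

set_option autoImplicit false

/-! HEP-EVCC: complex evaluation of power series. -/

namespace Pool.Agent.HEP

open Finset Pool.Agent.LEG
open scoped BigOperators Topology NNReal ENNReal

namespace EVCC_

/-- complex coefficients -/
noncomputable def co (f : PowerSeries ℚ) (n : ℕ) : ℂ := ((PowerSeries.coeff n f : ℚ) : ℂ)

lemma ev_eq (f : PowerSeries ℚ) (z : ℂ) : evC f z = ∑' n, co f n * z ^ n := rfl

/-- absolute convergence -/
def CV (f : PowerSeries ℚ) (z : ℂ) : Prop := Summable fun n => ‖co f n * z ^ n‖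

lemma cv_mono {f : PowerSeries ℚ} {x y : ℂ} (h : CV f x) (hxy : ‖y‖ ≤ ‖x‖) : CV f y := by
  unfold CV at *
  refine Summable.of_nonneg_of_le (fun n => by positivity) (fun n => ?_) h
  rw [norm_mul, norm_mul, norm_pow, norm_pow]
  gcongr

lemma co_add (f g : PowerSeries ℚ) (n : ℕ) : co (f + g) n = co f n + co g n := by
  unfold co
  rw [map_add]
  push_cast
  rfl

lemma co_mul (f g : PowerSeries ℚ) (n : ℕ) :
    co (f * g) n = ∑ p ∈ antidiagonal n, co f p.1 * co g p.2 := by
  unfold co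
  rw [PowerSeries.coeff_mul]
  push_cast
  rfl

lemma add_case {f g : PowerSeries ℚ} {x : ℂ} (hf : CV f x) (hg : CV g x) :
    evC (f + g) x = evC f x + evC g x := by
  unfold CV at *
  have e : ∀ n, co (f + g) n * x ^ n = co f n * x ^ n + co g n * x ^ n := fun n => by
    rw [co_add, add_mul]
  rw [ev_eq, ev_eq, ev_eq, ← hf.of_norm.tsum_add hg.of_norm]
  exact tsum_congr e

lemma mul_case {f g : PowerSeries ℚ} {x : ℂ} (hf : CV f x) (hg : CV g x) :
    evC (f * g) x = evC f x * evC g x := by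
  unfold CV at *
  have e : ∀ n, co (f * g) n * x ^ n =
      ∑ p ∈ antidiagonal n, (co f p.1 * x ^ p.1) * (co g p.2 * x ^ p.2) := fun n => by
    rw [co_mul, sum_mul]
    refine sum_congr rfl fun p hp => ?_
    rw [← mem_antidiagonal.1 hp, pow_add]
    ring
  rw [ev_eq, ev_eq, ev_eq, tsum_mul_tsum_eq_tsum_sum_antidiagonal_of_summable_norm hf hg]
  exact tsum_congr e

lemma poly_case (p : Polynomial ℚ) (x : ℂ) :
    evC (p : PowerSeries ℚ) x = Polynomial.aeval x p := by
  have hz : ∀ n, n ∉ range (p.natDegree + 1) → co (p : PowerSeries ℚ) n = 0 := by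
    intro n hn
    unfold co
    rw [Polynomial.coeff_coe, Polynomial.coeff_eq_zero_of_natDegree_lt, Rat.cast_zero]
    simpa [mem_range, not_lt] using hn
  rw [ev_eq, tsum_eq_sum (s := range (p.natDegree + 1)) fun n hn => by rw [hz n hn, zero_mul],
    Polynomial.aeval_eq_sum_range]
  refine sum_congr rfl fun n _ => ?_
  unfold co
  rw [Polynomial.coeff_coe, Rat.smul_def]

lemma isG_case {f : PowerSeries ℚ} (hf : IsG f) :
    ∃ δ : ℝ, 0 < δ ∧ ∀ x : ℂ, ‖x‖ < δ → CV f x := by
  obtain ⟨C, hC⟩ := hf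
  refine ⟨1 / ((C : ℝ) + 1), by positivity, fun x hx => ?_⟩
  have h1 : (C : ℝ) * ‖x‖ < 1 := by
    have h2 : ((C : ℝ) + 1) * ‖x‖ < 1 := by
      rw [lt_div_iff₀ (by positivity)] at hx
      linarith
    have := norm_nonneg x
    nlinarith
  have h0 : 0 ≤ (C : ℝ) * ‖x‖ := by positivity
  have hs : Summable fun n : ℕ => (C : ℝ) * ((C : ℝ) * ‖x‖) ^ n :=
    (summable_geometric_of_lt_one h0 h1).mul_left _
  unfold CV
  refine Summable.of_nonneg_of_le (fun n => by positivity) (fun n => ?_) hs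
  have h3 : ‖co f n‖ ≤ (C : ℝ) ^ (n + 1) := by
    have h4 := (hC n).1
    have h5 : |((PowerSeries.coeff n f : ℚ) : ℝ)| ≤ (C : ℝ) ^ (n + 1) := by exact_mod_cast h4
    unfold co
    have h6 : ((PowerSeries.coeff n f : ℚ) : ℂ) = (((PowerSeries.coeff n f : ℚ) : ℝ) : ℂ) := by
      push_cast
      rfl
    rw [h6, Complex.norm_real, Real.norm_eq_abs]
    exact h5
  rw [norm_mul, norm_pow]
  calc ‖co f n‖ * ‖x‖ ^ n ≤ (C : ℝ) ^ (n + 1) * ‖x‖ ^ n := by gcongr
    _ = (C : ℝ) * ((C : ℝ) * ‖x‖) ^ n := by rw [mul_pow]; ring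

lemma co_deriv (f : PowerSeries ℚ) (n : ℕ) :
    co (PowerSeries.derivative ℚ f) n = co f (n + 1) * (n + 1) := by
  unfold co
  rw [PowerSeries.coeff_derivative]
  push_cast
  ring

/-- the derived series converges -/
lemma summ_deriv {f : PowerSeries ℚ} {δ : ℝ} (hc : ∀ x : ℂ, ‖x‖ < δ → CV f x)
    {r : ℝ} (hr0 : 0 < r) (hr : r < δ) : Summable fun n : ℕ => ‖co f n‖ * (n * r ^ (n - 1)) := by
  obtain ⟨s, hs1, hs2⟩ := exists_between hr
  have hs0 : 0 < s := hr0.trans hs1
  have h1 : Summable fun n : ℕ => ‖co f n‖ * s ^ n := by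
    have := hc (s : ℂ) (by rw [Complex.norm_real, Real.norm_eq_abs, abs_of_pos hs0]; exact hs2)
    unfold CV at this
    refine this.congr fun n => ?_
    rw [norm_mul, norm_pow, Complex.norm_real, Real.norm_eq_abs, abs_of_pos hs0]
  have hlo := (isLittleO_coe_const_pow_of_one_lt (R := ℝ) (r := s / r)
    ((one_lt_div hr0).2 hs1)).isBigO
  obtain ⟨C, hC0, hC⟩ := hlo.exists_pos
  have hC' := hC.bound
  refine Summable.of_norm_bounded_eventually_nat (g := fun n => C / r * (‖co f n‖ * s ^ n))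
    (h1.mul_left _) ?_
  filter_upwards [hC', Filter.eventually_ge_atTop 1] with n hn hn1
  rw [Real.norm_eq_abs, abs_mul, abs_norm, abs_of_nonneg (by positivity : (0 : ℝ) ≤ n * r ^ (n - 1))]
  have h2 : (n : ℝ) ≤ C * (s / r) ^ n := by
    have e1 : ‖(n : ℝ)‖ = n := by simp
    have e2 : ‖(s / r) ^ n‖ = (s / r) ^ n := by
      rw [Real.norm_eq_abs, abs_of_nonneg (by positivity)]
    rw [e1, e2] at hn
    exact hn
  have h3 : (n : ℝ) * r ^ (n - 1) ≤ C / r * s ^ n := by
    calc (n : ℝ) * r ^ (n - 1) ≤ C * (s / r) ^ n * r ^ (n - 1) := by gcongr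
      _ = C / r * s ^ n := by
        obtain ⟨k, rfl⟩ : ∃ k, n = k + 1 := ⟨n - 1, by omega⟩
        rw [Nat.add_sub_cancel, div_pow, pow_succ r k]
        field_simp
  calc ‖co f n‖ * (n * r ^ (n - 1)) ≤ ‖co f n‖ * (C / r * s ^ n) := by gcongr
    _ = C / r * (‖co f n‖ * s ^ n) := by ring

lemma deriv_has {f : PowerSeries ℚ} {δ : ℝ} (hc : ∀ x : ℂ, ‖x‖ < δ → CV f x) {x : ℂ}
    (hx : ‖x‖ < δ) : HasDerivAt (evC f) (evC (PowerSeries.derivative ℚ f) x) x := by
  obtain ⟨r, hr1, hr2⟩ := exists_between hx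
  have hr0 : 0 < r := lt_of_le_of_lt (norm_nonneg _) hr1
  have h1 := summ_deriv hc hr0 hr2
  have key := hasDerivAt_tsum_of_isPreconnected (𝕜 := ℂ)
    (u := fun n : ℕ => ‖co f n‖ * (n * r ^ (n - 1)))
    (t := Metric.ball (0 : ℂ) r) (g := fun n y => co f n * y ^ n)
    (g' := fun n y => co f n * (n * y ^ (n - 1))) (y₀ := 0) (y := x) h1 Metric.isOpen_ball
    (convex_ball _ _).isPreconnected
    (fun n y _ => (hasDerivAt_pow n y).const_mul _)
    (fun n y hy => by
      rw [norm_mul, norm_mul, norm_pow, Complex.norm_natCast]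
      have : ‖y‖ ≤ r := by
        rw [mem_ball_zero_iff] at hy
        exact hy.le
      gcongr)
    (by simpa using hr0)
    (by
      refine summable_of_ne_finset_zero (s := {0}) fun n hn => ?_
      have : n ≠ 0 := by simpa using hn
      simp [this])
    (by rw [mem_ball_zero_iff]; exact hr1)
  have e : (∑' n : ℕ, co f n * ((n : ℂ) * x ^ (n - 1))) = evC (PowerSeries.derivative ℚ f) x := by
    have hsum : Summable fun n : ℕ => co f n * ((n : ℂ) * x ^ (n - 1)) := by
      refine Summable.of_norm_bounded h1 fun n => ?_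
      rw [norm_mul, norm_mul, norm_pow, Complex.norm_natCast]
      gcongr
    rw [hsum.tsum_eq_zero_add, ev_eq]
    simp only [Nat.cast_zero, zero_mul, mul_zero, zero_add]
    refine tsum_congr fun n => ?_
    rw [co_deriv, Nat.add_sub_cancel]
    push_cast
    ring
  rw [← e]
  exact key

lemma real_case (f : PowerSeries ℚ) (x : ℝ) : evC f x = (ev f x : ℂ) := by
  rw [ev_eq]
  unfold ev
  rw [Complex.ofReal_tsum]
  refine tsum_congr fun n => ?_
  unfold co
  push_cast
  rfl

end EVCC_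

open EVCC_ in
theorem p_EVCC : T_EVCC := by
  intro f hf
  obtain ⟨δ, hδ, hc⟩ := isG_case hf
  refine ⟨δ, hδ, ?_, ?_, fun x _ => real_case f x, ?_⟩
  · intro z hz
    rw [mem_ball_zero_iff] at hz
    exact (deriv_has hc hz).differentiableAt.differentiableWithinAt
  · intro z hz
    rw [mem_ball_zero_iff] at hz
    exact deriv_has hc hz
  · intro g p hg
    obtain ⟨δ', hδ', hc'⟩ := isG_case hg
    filter_upwards [Metric.ball_mem_nhds (0 : ℂ) hδ, Metric.ball_mem_nhds (0 : ℂ) hδ'] with z h1 h2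
    rw [mem_ball_zero_iff] at h1 h2
    exact ⟨add_case (hc z h1) (hc' z h2), mul_case (hc z h1) (hc' z h2), poly_case p z⟩

end Pool.Agent.HEP
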