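import Pool.Agent.HEP.Targets

set_option autoImplicit false

/-!
# HEP, target FG: the fundamental solution consists of G-functions
-/

namespace Pool.Agent.HEP

open Finset Pool.Agent.LEG
open scoped BigOperators Topology

namespace FG_

theorem bm_abs (n : ℕ) : |bm n| ≤ 1 := by
  unfold bm
  rw [abs_of_nonneg (by positivity), div_le_one (by positivity)]
  have h := Nat.choose_le_two_pow (2 * n) n
  have h2 : Nat.centralBinom n ≤ 4 ^ n := by
    rw [Nat.centralBinom]
    refine h.trans (le_of_eq ?_)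
    rw [pow_mul]
    norm_num
  exact_mod_cast h2

theorem bm_int (n s : ℕ) (hs : s ≤ n) : ∃ x : ℤ, (4 : ℚ) ^ n * bm s = x := by
  refine ⟨4 ^ (n - s) * (Nat.centralBinom s : ℤ), ?_⟩
  unfold bm
  obtain ⟨k, rfl⟩ := Nat.exists_eq_add_of_le hs
  rw [Nat.add_sub_cancel_left, pow_add]
  push_cast
  have h : (4 : ℚ) ^ s ≠ 0 := by positivity
  field_simp

end FG_

open FG_ in
theorem p_FG (h1 : T_RB) : T_FG := by
  intro h a C hsq α l
  obtain ⟨K, hK, hsize, hden⟩ := h1 h a C hsq
  have hK1 : (1 : ℚ) ≤ K := by exact_mod_cast hK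
  refine ⟨4 * K, fun n => ⟨?_, ?_⟩⟩
  · have hrho : |rho h a l ((α : ℤ) - n)| ≤ (K : ℚ) ^ (n + 1) := by
      unfold rho
      have hone : (1 : ℚ) ≤ (K : ℚ) ^ (n + 1) := one_le_pow₀ hK1
      split_ifs with h2 h3
      · simpa using hone
      · simp only [abs_zero]
        linarith
      · refine (hsize _ _).trans (pow_le_pow_right₀ hK1 ?_)
        omega
    unfold fS
    rw [PowerSeries.coeff_mk, abs_mul]
    have h5 : |bm n| * |rho h a l ((α : ℤ) - n)| ≤ 1 * (K : ℚ) ^ (n + 1) :=
      mul_le_mul (bm_abs n) hrho (abs_nonneg _) (by norm_num)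
    refine h5.trans ?_
    rw [one_mul]
    refine pow_le_pow_left₀ (by positivity) ?_ _
    push_cast
    linarith
  · obtain ⟨d, hd0, hd1, hd2⟩ := hden n
    refine ⟨4 ^ n * d, Nat.mul_pos (by positivity) hd0, ?_, fun s hs => ?_⟩
    · rw [mul_pow]
      refine Nat.mul_le_mul ?_ hd1
      exact Nat.pow_le_pow_right (by norm_num) (by omega)
    · obtain ⟨x, hx⟩ := bm_int n s hs
      have hy : ∃ y : ℤ, (d : ℚ) * rho h a l ((α : ℤ) - s) = y := by
        unfold rho
        split_ifs with h2 h3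
        · exact ⟨d, by simp⟩
        · exact ⟨0, by simp⟩
        · exact hd2 _ (by omega) l
      obtain ⟨y, hy⟩ := hy
      refine ⟨x * y, ?_⟩
      unfold fS
      rw [PowerSeries.coeff_mk]
      push_cast
      rw [← hx, ← hy]
      ring

end Pool.Agent.HEP
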