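import Pool.Agent.HEP.Targets
import Pool.Agent.GFam.GFIN

/-!
# FINH: the main theorem (from FUN and the general G-function theorem)
-/

set_option autoImplicit false

namespace Pool.Agent.HEP

open Finset Pool.Agent.LEG
open scoped BigOperators Topology

namespace FINH_

/-- total degree of a substitution -/
theorem totalDegree_aeval_le {σ τ : Type} (f : σ → MvPolynomial τ ℤ) (c : ℕ)
    (hf : ∀ i, (f i).totalDegree ≤ c) (P : MvPolynomial σ ℤ) :
    (MvPolynomial.aeval f P).totalDegree ≤ c * P.totalDegree := by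
  classical
  rw [MvPolynomial.aeval_def, MvPolynomial.eval₂_eq]
  refine MvPolynomial.totalDegree_finsetSum_le fun d hd => ?_
  refine (MvPolynomial.totalDegree_mul _ _).trans ?_
  have h1 : (algebraMap ℤ (MvPolynomial τ ℤ) (MvPolynomial.coeff d P)).totalDegree = 0 :=
    MvPolynomial.totalDegree_C _
  rw [h1, zero_add]
  refine (MvPolynomial.totalDegree_finsetProd _ _).trans ?_
  have h2 : ∑ i ∈ d.support, (f i ^ d i).totalDegree ≤ ∑ i ∈ d.support, d i * c :=
    Finset.sum_le_sum fun i _ =>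
      (MvPolynomial.totalDegree_pow _ _).trans (Nat.mul_le_mul_left _ (hf i))
  refine h2.trans ?_
  rw [← Finset.sum_mul, mul_comm]
  refine Nat.mul_le_mul_left _ ?_
  have := MvPolynomial.le_totalDegree hd
  simpa [Finsupp.sum] using this

/-- the degree -/
theorem natDegree_h {m : ℕ} (h : Polynomial ℚ) (e : Fin m → ℝ)
    (hp : h.map (algebraMap ℚ ℝ) = ∏ k, (Polynomial.X - Polynomial.C (e k))) :
    h.natDegree = m := by
  rw [← Polynomial.natDegree_map (algebraMap ℚ ℝ), hp,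
    Polynomial.natDegree_finsetProd_X_sub_C_eq_card]
  simp

/-- squarefree -/
theorem squarefree_h {m : ℕ} (h : Polynomial ℚ) (e : Fin m → ℝ) (he : StrictMono e)
    (hp : h.map (algebraMap ℚ ℝ) = ∏ k, (Polynomial.X - Polynomial.C (e k))) :
    Squarefree h := by
  have h1 : (h.map (algebraMap ℚ ℝ)).Separable := by
    rw [hp]
    exact Polynomial.separable_prod_X_sub_C_iff.2 he.injective
  exact ((Polynomial.separable_map (algebraMap ℚ ℝ)).1 h1).squarefree

/-- the functions -/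
noncomputable def ff {m : ℕ} (h : Polynomial ℚ) (a : ℕ → ℚ) (p : Fin (m * m)) : PowerSeries ℚ :=
  fS h a (finProdFinEquiv.symm p).1 (finProdFinEquiv.symm p).2

theorem ff_apply {m : ℕ} (h : Polynomial ℚ) (a : ℕ → ℚ) (i l : Fin m) :
    ff h a (finProdFinEquiv (i, l)) = fS h a i l := by
  unfold ff
  rw [Equiv.symm_apply_apply]

/-- the system for the matrix of functions -/
theorem sys (h5 : T_FODE) (h6 : T_ALGID) {m : ℕ} (h : Polynomial ℚ) (e : Fin m → ℝ)
    (a : ℕ → ℚ) (C : ℕ)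
    (he : StrictMono e) (hp : h.map (algebraMap ℚ ℝ) = ∏ k, (Polynomial.X - Polynomial.C (e k)))
    (hS : SqI h a C) :
    ∃ (T : Polynomial ℚ) (A : Fin (m * m) → Fin (m * m) → Polynomial ℚ), Squarefree T ∧
    (∀ j j', (A j j').degree < T.degree) ∧ Hor T A (ff h a) := by
  classical
  have hd := natDegree_h h e hp
  have hsq := squarefree_h h e he hp
  have hdeg : h.degree = m := by
    rw [Polynomial.degree_eq_natDegree hsq.ne_zero, hd]
  refine ⟨h, fun p q => if (finProdFinEquiv.symm p).2 = (finProdFinEquiv.symm q).2 then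
    AA h m (finProdFinEquiv.symm p).1 (finProdFinEquiv.symm q).1 else 0, hsq, ?_, ?_⟩
  · intro p q
    dsimp only
    split_ifs
    · rw [hdeg]
      exact (h6 h m _ hd (finProdFinEquiv.symm p).1.2).2 _ (finProdFinEquiv.symm q).1.2
    · rw [Polynomial.degree_zero, hdeg]
      exact WithBot.bot_lt_coe _
  · intro p
    have h := h5 h a C m hS hd (finProdFinEquiv.symm p).2 (finProdFinEquiv.symm p).2.2
      (finProdFinEquiv.symm p).1
    unfold ff
    rw [h, ← Equiv.sum_comp finProdFinEquiv, Fintype.sum_prod_type]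
    refine Finset.sum_congr rfl fun i _ => ?_
    simp only [Equiv.symm_apply_apply]
    rw [Finset.sum_eq_single (finProdFinEquiv.symm p).2]
    · simp
    · intro b _ hb
      rw [if_neg (fun hh => hb hh.symm)]
      simp
    · simp

/-- the count -/
theorem count (n N0 K0 T : ℕ) (hK0 : 1 ≤ K0) (hT : 1 ≤ T) (S S' : Set (Fin n → ℕ))
    (hS : S ⊆ {N | ∀ i, 1 ≤ N i ∧ N i ≤ T}) (hS' : S' ⊆ {N | ∀ i, 1 ≤ N i ∧ N i ≤ T})
    (h : ∀ N ∈ S, (∀ i, N0 ≤ N i) → N ∈ S')
    (hc : (S'.ncard : ℝ) ≤ K0 * (T : ℝ) ^ ((n : ℝ) - 1 / (K0 : ℝ))) :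
    (S.ncard : ℝ) ≤ ((K0 + n * N0 : ℕ) : ℝ) *
      (T : ℝ) ^ ((n : ℝ) - 1 / ((K0 + n * N0 : ℕ) : ℝ)) := by
  classical
  have hT1 : (1 : ℝ) ≤ T := by exact_mod_cast hT
  have hsub : S ⊆ S' ∪
      ((Finset.univ.biUnion fun i : Fin n =>
        (GFam.GFIN_.box n T).filter fun N => N i < N0 :
        Finset (Fin n → ℕ)) : Set (Fin n → ℕ)) := by
    intro N hN
    by_cases h' : ∀ i, N0 ≤ N i
    · exact Or.inl (h N hN h')
    · right
      push Not at h'
      obtain ⟨i, hi⟩ := h'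
      simp only [Finset.coe_biUnion, Set.mem_iUnion, Finset.mem_coe, Finset.mem_filter,
        Finset.mem_univ, true_and, exists_prop]
      exact ⟨i, GFam.GFIN_.mem_box.2 (hS hN), hi⟩
  have hfin : (S' ∪
      ((Finset.univ.biUnion fun i : Fin n =>
        (GFam.GFIN_.box n T).filter fun N => N i < N0 :
        Finset (Fin n → ℕ)) : Set (Fin n → ℕ))).Finite := by
    refine Set.Finite.union ?_ (Finset.finite_toSet _)
    refine (Finset.finite_toSet (GFam.GFIN_.box n T)).subset ?_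
    intro N hN
    exact GFam.GFIN_.mem_box.2 (hS' hN)
  have hcard : S.ncard ≤ S'.ncard + n * (N0 * T ^ (n - 1)) := by
    refine (Set.ncard_le_ncard hsub hfin).trans ((Set.ncard_union_le _ _).trans ?_)
    apply Nat.add_le_add_left
    rw [Set.ncard_coe_finset]
    refine Finset.card_biUnion_le.trans ?_
    calc ∑ i : Fin n, ((GFam.GFIN_.box n T).filter fun N => N i < N0).card
        ≤ ∑ _i : Fin n, N0 * T ^ (n - 1) :=
          Finset.sum_le_sum fun i _ => GFam.GFIN_.card_small n T N0 i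
      _ = n * (N0 * T ^ (n - 1)) := by simp
  have hK1pos : (0 : ℝ) < K0 := by exact_mod_cast hK0
  have hKpos : (0 : ℝ) < ((K0 + n * N0 : ℕ) : ℝ) := by
    exact_mod_cast (by omega : 0 < K0 + n * N0)
  have hKle : (K0 : ℝ) ≤ ((K0 + n * N0 : ℕ) : ℝ) := by
    exact_mod_cast (by omega : K0 ≤ K0 + n * N0)
  have he1 : (T : ℝ) ^ ((n : ℝ) - 1 / (K0 : ℝ)) ≤
      (T : ℝ) ^ ((n : ℝ) - 1 / ((K0 + n * N0 : ℕ) : ℝ)) := by
    apply Real.rpow_le_rpow_of_exponent_le hT1
    have := one_div_le_one_div_of_le hK1pos hKle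
    linarith
  have he2 : (n : ℝ) * (T : ℝ) ^ (n - 1) ≤
      n * (T : ℝ) ^ ((n : ℝ) - 1 / ((K0 + n * N0 : ℕ) : ℝ)) := by
    rcases Nat.eq_zero_or_pos n with hn | hn
    · subst hn
      simp
    · apply mul_le_mul_of_nonneg_left _ (Nat.cast_nonneg _)
      rw [← Real.rpow_natCast]
      apply Real.rpow_le_rpow_of_exponent_le hT1
      rw [Nat.cast_sub hn]
      have h4 : 1 / ((K0 + n * N0 : ℕ) : ℝ) ≤ 1 := by
        rw [div_le_one hKpos]
        exact_mod_cast (by omega : 1 ≤ K0 + n * N0)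
      push_cast at h4 ⊢
      linarith
  calc (S.ncard : ℝ) ≤ (S'.ncard : ℝ) + n * (N0 * (T : ℝ) ^ (n - 1)) := by
        exact_mod_cast hcard
    _ ≤ K0 * (T : ℝ) ^ ((n : ℝ) - 1 / (K0 : ℝ)) + n * (N0 * (T : ℝ) ^ (n - 1)) := by
        linarith
    _ ≤ K0 * (T : ℝ) ^ ((n : ℝ) - 1 / ((K0 + n * N0 : ℕ) : ℝ)) +
        N0 * (n * (T : ℝ) ^ ((n : ℝ) - 1 / ((K0 + n * N0 : ℕ) : ℝ))) := by
        have h5 := mul_le_mul_of_nonneg_left he1 hK1pos.le
        have h6 := mul_le_mul_of_nonneg_left he2 (Nat.cast_nonneg (α := ℝ) N0)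
        linarith
    _ = ((K0 + n * N0 : ℕ) : ℝ) * (T : ℝ) ^ ((n : ℝ) - 1 / ((K0 + n * N0 : ℕ) : ℝ)) := by
        push_cast
        ring

/-- the substitution -/
noncomputable def FF {n k : ℕ} {g : Fin n → ℕ} {k' : ℕ} (E : Fin k ⊕ Var g ≃ Fin k') :
    Fin k ⊕ Var g → MvPolynomial (Fin k' ⊕ GFam.Vr fun i => (2 * g i) * (2 * g i)) ℤ
  | .inl j => MvPolynomial.X (.inl (E (.inl j)))
  | .inr p => ∑ l, MvPolynomial.X (.inr ⟨p.1, some (finProdFinEquiv (p.2.1, l))⟩) *
      MvPolynomial.X (.inl (E (.inr ⟨p.1, (l, p.2.2)⟩)))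

theorem FF_deg {n k : ℕ} {g : Fin n → ℕ} {k' : ℕ} (E : Fin k ⊕ Var g ≃ Fin k')
    (x : Fin k ⊕ Var g) : (FF E x).totalDegree ≤ 2 := by
  rcases x with j | p
  · simp [FF]
  · refine MvPolynomial.totalDegree_finsetSum_le fun l _ => ?_
    refine (MvPolynomial.totalDegree_mul _ _).trans ?_
    simp

/-- evaluation of the substitution -/
theorem FF_eval {n k : ℕ} {g : Fin n → ℕ} {k' : ℕ} (E : Fin k ⊕ Var g ≃ Fin k')
    (θ : Fin k → ℂ) (w0 : ∀ i, Matrix (Fin (2 * g i)) (Fin (2 * g i)) ℂ)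
    (v : GFam.Vr (fun i => (2 * g i) * (2 * g i)) → ℂ) (w : Var g → ℂ)
    (hw : ∀ p : Var g, w p = ∑ l, v ⟨p.1, some (finProdFinEquiv (p.2.1, l))⟩ *
      w0 p.1 l p.2.2) (P : MvPolynomial (Fin k ⊕ Var g) ℤ) :
    MvPolynomial.aeval (Sum.elim (fun j => Sum.elim θ
      (fun p : Var g => w0 p.1 p.2.1 p.2.2) (E.symm j)) v) (MvPolynomial.aeval (FF E) P) =
      MvPolynomial.aeval (Sum.elim θ w) P := by
  have h1 : ((MvPolynomial.aeval (R := ℤ) (Sum.elim (fun j => Sum.elim θ
      (fun p : Var g => w0 p.1 p.2.1 p.2.2) (E.symm j)) v)).comp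
      (MvPolynomial.aeval (FF E))) = MvPolynomial.aeval (Sum.elim θ w) := by
    apply MvPolynomial.algHom_ext
    intro x
    rcases x with j | p
    · simp [FF]
    · simp [FF, hw]
  rw [← h1]
  rfl

end FINH_

open FINH_ in
theorem p_FINH (h1 : T_FUN) (h2 : T_UNI) (h3 : T_SQI) (h4 : T_FG) (h5 : T_FODE) (h6 : T_ALGID)
    (h7 : GFam.T_GFIN) : T_FINH := by
  classical
  intro n k D g h hg h0 he
  choose e hmono hprod using he
  choose a C hS using fun l => h3 (h l) (h0 l)
  have hHD : ∀ l, HD (2 * g l) (h l) (e l) (a l) (C l) := fun l =>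
    ⟨by have := hg l; omega, even_two_mul _, hmono l, hprod l, hS l⟩
  choose w0 N0 hdet hN0 hmain using fun l => h1 (2 * g l) (h l) (e l) (a l) (C l) (hHD l)
  obtain ⟨K0, hK0, hcount⟩ := h7 n (Fintype.card (Fin k ⊕ Var g)) (2 * D)
    (fun i => (2 * g i) * (2 * g i)) (fun i => ff (h i) (a i))
    (fun i l => h4 (h i) (a i) (C i) (hS i) _ _)
    (fun i => sys h5 h6 (h i) (e i) (a i) (C i) (hmono i) (hprod i) (hS i))
  set E : Fin k ⊕ Var g ≃ Fin (Fintype.card (Fin k ⊕ Var g)) := Fintype.equivFin _ with hE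
  refine ⟨K0 + n * (∑ l, N0 l), by omega, fun T θ hT => ?_⟩
  refine count n (∑ l, N0 l) K0 T hK0 hT _ _ (fun N hN => hN.1) (fun N hN => hN.1) ?_
    (hcount T hT (fun j => Sum.elim θ (fun p : Var g => w0 p.1 p.2.1 p.2.2) (E.symm j)))
  rintro N ⟨hN, w, P, ⟨b, hb, hwb⟩, hPD, hP0, X, hX, hPX⟩ hbig
  refine ⟨hN, MvPolynomial.aeval (FF E) P, ?_, ?_, ?_⟩
  · refine (totalDegree_aeval_le _ 2 (FF_deg E) P).trans (Nat.mul_le_mul_left _ hPD)
  · rw [FF_eval E θ w0 _ w _ P, hP0]
    intro p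
    have hNl : N0 p.1 ≤ N p.1 :=
      (Finset.single_le_sum (f := N0) (fun i _ => Nat.zero_le _) (Finset.mem_univ p.1)).trans
        (hbig p.1)
    obtain ⟨b', hb'mono, hb'prod, hb'per, -⟩ := hmain p.1 (N p.1) hNl
    have hbb : b p.1 = b' := h2 _ _ _ (hb p.1).1 hb'mono ((hb p.1).2.symm.trans hb'prod)
    rw [hwb p, hbb, hb'per]
    refine Finset.sum_congr rfl fun l _ => ?_
    change _ = (ev (ff (h p.1) (a p.1) (finProdFinEquiv (p.2.1, l))) (1 / (N p.1 : ℝ)) : ℂ) * _
    rw [ff_apply]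
  · intro hmem
    apply hPX
    set v : GFam.Vr (fun i => (2 * g i) * (2 * g i)) → ℂ := fun p =>
      p.2.elim 0 (fun l => (X p.1 * (w0 p.1)⁻¹) (finProdFinEquiv.symm l).1
        (finProdFinEquiv.symm l).2) with hv
    have hvan : ∀ Q ∈ Ideal.span (GFam.FRel (fun i => ff (h i) (a i)) N),
        MvPolynomial.eval v Q = 0 := by
      intro Q hQ
      have hle : Ideal.span (GFam.FRel (fun i => ff (h i) (a i)) N) ≤
          RingHom.ker (MvPolynomial.eval v) := by
        rw [Ideal.span_le]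
        rintro Q ⟨i, R, hR, rfl⟩
        have hNl : N0 i ≤ N i :=
          (Finset.single_le_sum (f := N0) (fun i _ => Nat.zero_le _) (Finset.mem_univ i)).trans
            (hbig i)
        obtain ⟨b', -, -, -, hrel⟩ := hmain i (N i) hNl
        have h8 := hrel (MvPolynomial.rename finProdFinEquiv.symm R) (by
          unfold Frel
          rw [MvPolynomial.eval₂_rename]
          exact hR) (X i) (hX i)
        rw [MvPolynomial.eval₂_rename] at h8
        rw [SetLike.mem_coe, RingHom.mem_ker, MvPolynomial.hom_eval₂]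
        have h14 : (MvPolynomial.eval v).comp ((MvPolynomial.C.comp (algebraMap ℚ ℂ)).comp
            (Polynomial.evalRingHom (1 / (N i : ℚ)))) =
            (algebraMap ℚ ℂ).comp (Polynomial.evalRingHom (1 / (N i : ℚ))) := by
          refine RingHom.ext fun q => ?_
          change MvPolynomial.eval v (MvPolynomial.C _) = _
          rw [MvPolynomial.eval_C]
          rfl
        rw [h14]
        refine Eq.trans ?_ h8
        congr 1
        funext l
        change MvPolynomial.eval v (MvPolynomial.X _) = _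
        rw [MvPolynomial.eval_X]
        rfl
      exact hle hQ
    have h9 := hvan _ hmem
    have h10 := FF_eval E θ w0 v (fun p : Var g => X p.1 p.2.1 p.2.2) (by
      intro p
      have hunit : IsUnit (w0 p.1).det := isUnit_iff_ne_zero.2 (hdet p.1)
      have h11 : X p.1 = (X p.1 * (w0 p.1)⁻¹) * w0 p.1 := by
        rw [Matrix.mul_assoc, Matrix.nonsing_inv_mul _ hunit, Matrix.mul_one]
      have h12 := congrFun (congrFun h11 p.2.1) p.2.2
      rw [Matrix.mul_apply] at h12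
      rw [h12]
      refine Finset.sum_congr rfl fun l _ => ?_
      change _ = (X p.1 * (w0 p.1)⁻¹) (finProdFinEquiv.symm (finProdFinEquiv (p.2.1, l))).1
        (finProdFinEquiv.symm (finProdFinEquiv (p.2.1, l))).2 * _
      rw [Equiv.symm_apply_apply]) P
    rw [← h10, ← h9]
    have h13 : (MvPolynomial.eval v).comp (MvPolynomial.aeval (R := ℤ)
        (Sum.elim (fun j => MvPolynomial.C (Sum.elim θ
          (fun p : Var g => w0 p.1 p.2.1 p.2.2) (E.symm j))) MvPolynomial.X)).toRingHom =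
        (MvPolynomial.aeval (R := ℤ) (Sum.elim (fun j => Sum.elim θ
          (fun p : Var g => w0 p.1 p.2.1 p.2.2) (E.symm j)) v)).toRingHom := by
      apply MvPolynomial.ringHom_ext
      · intro r
        simp
      · intro x
        rcases x with j | p <;> simp
    exact (congrArg (fun φ => φ (MvPolynomial.aeval (FF E) P)) h13).symm

end Pool.Agent.HEP
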