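import Pool.Agent.HEP.Targets

set_option autoImplicit false

namespace Pool.Agent.HEP

open Finset Pool.Agent.LEG
open scoped BigOperators Topology

namespace FODE_

/-- Laurent polynomials -/
abbrev LP : Type := LaurentPolynomial ℚ

/-- power series over Laurent polynomials -/
abbrev SS : Type := PowerSeries LP

/-- the reduction as a linear functional -/
noncomputable def rh (r : ℤ → ℚ) : LP →ₗ[ℚ] ℚ where
  toFun f := Finsupp.linearCombination ℚ r f.coeff
  map_add' f g := by simp
  map_smul' c f := by simp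

lemma rh_T (r : ℤ → ℚ) (n : ℤ) (c : ℚ) :
    rh r (LaurentPolynomial.C c * LaurentPolynomial.T n) = c * r n := by
  rw [← LaurentPolynomial.single_eq_C_mul_T]
  change Finsupp.linearCombination ℚ r (AddMonoidAlgebra.single n c).coeff = _
  rw [AddMonoidAlgebra.coeff_single, Finsupp.linearCombination_single]
  rfl

lemma rh_C (r : ℤ → ℚ) (c : ℚ) (f : LP) :
    rh r (LaurentPolynomial.C c * f) = c * rh r f := by
  rw [← LaurentPolynomial.smul_eq_C_mul, map_smul, smul_eq_mul]

/-- coefficientwise -/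
noncomputable def RR (r : ℤ → ℚ) (F : SS) : PowerSeries ℚ :=
  PowerSeries.mk fun n => rh r (PowerSeries.coeff n F)

lemma RR_add (r : ℤ → ℚ) (F G : SS) : RR r (F + G) = RR r F + RR r G := by
  ext n
  simp [RR]

lemma RR_sub (r : ℤ → ℚ) (F G : SS) : RR r (F - G) = RR r F - RR r G := by
  ext n
  simp [RR]

lemma RR_sum {ι : Type} (r : ℤ → ℚ) (s : Finset ι) (F : ι → SS) :
    RR r (∑ i ∈ s, F i) = ∑ i ∈ s, RR r (F i) := by
  ext n
  simp [RR]

/-- series in `z` -/
noncomputable def up : PowerSeries ℚ →+* SS := PowerSeries.map (LaurentPolynomial.C)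

lemma RR_mul (r : ℤ → ℚ) (p : PowerSeries ℚ) (F : SS) :
    RR r (up p * F) = p * RR r F := by
  ext n
  rw [RR, PowerSeries.coeff_mk, PowerSeries.coeff_mul, PowerSeries.coeff_mul, map_sum]
  refine Finset.sum_congr rfl fun ij _ => ?_
  rw [up, PowerSeries.coeff_map, rh_C, RR, PowerSeries.coeff_mk]

lemma RR_der (r : ℤ → ℚ) (F : SS) :
    PowerSeries.derivative ℚ (RR r F) = RR r (PowerSeries.derivative LP F) := by
  ext n
  rw [PowerSeries.coeff_derivative, RR, RR, PowerSeries.coeff_mk, PowerSeries.coeff_mk,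
    PowerSeries.coeff_derivative]
  have : ((n : LP) + 1) = LaurentPolynomial.C ((n : ℚ) + 1) := by simp
  rw [this, mul_comm (PowerSeries.coeff (n + 1) F), rh_C, mul_comm]

/-- the variable `x` -/
noncomputable def xx : SS := PowerSeries.C (LaurentPolynomial.T 1)

/-- the series `(1 - z / x) ^ (-1 / 2)` -/
noncomputable def Del : SS :=
  PowerSeries.mk fun n => LaurentPolynomial.C (bm n) * LaurentPolynomial.T (-(n : ℤ))

/-- its derivative in `z` -/
noncomputable def Dz : SS := PowerSeries.derivative LP Del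

lemma bm_rec (n : ℕ) : 2 * ((n : ℚ) + 1) * bm (n + 1) = (2 * n + 1) * bm n := by
  have h := Nat.succ_mul_centralBinom_succ n
  have h' : ((n : ℚ) + 1) * (Nat.centralBinom (n + 1) : ℚ) =
      2 * (2 * n + 1) * (Nat.centralBinom n : ℚ) := by exact_mod_cast h
  unfold bm
  rw [pow_succ]
  field_simp
  linear_combination 2 * h'

lemma coeff_Dz (n : ℕ) : PowerSeries.coeff n Dz =
    LaurentPolynomial.C (((n : ℚ) + 1) * bm (n + 1)) *
      LaurentPolynomial.T (-((n : ℤ) + 1)) := by
  rw [Dz, PowerSeries.coeff_derivative, Del, PowerSeries.coeff_mk]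
  have : ((n : LP) + 1) = LaurentPolynomial.C ((n : ℚ) + 1) := by simp
  rw [this, map_mul]
  push_cast
  ring

lemma coeff_Del (n : ℕ) : PowerSeries.coeff n Del =
    LaurentPolynomial.C (bm n) * LaurentPolynomial.T (-(n : ℤ)) := by
  rw [Del, PowerSeries.coeff_mk]

lemma T1_mul (n : ℤ) : (LaurentPolynomial.T 1 : LP) * LaurentPolynomial.T n =
    LaurentPolynomial.T (n + 1) := by
  rw [← LaurentPolynomial.T_add, add_comm]

lemma mul3 (a : ℚ) (k : ℤ) : (LaurentPolynomial.T 1 : LP) * (LaurentPolynomial.C 2 *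
    (LaurentPolynomial.C a * LaurentPolynomial.T k)) =
    LaurentPolynomial.C (2 * a) * LaurentPolynomial.T (k + 1) := by
  rw [← T1_mul, map_mul]
  ring

lemma xz : (xx - PowerSeries.X) * (2 * Dz) = Del := by
  have h2 : (2 : SS) = PowerSeries.C (LaurentPolynomial.C 2) := by
    rw [map_ofNat, map_ofNat]
  rw [h2, sub_mul]
  ext1 n
  rw [map_sub, coeff_Del, xx, PowerSeries.coeff_C_mul, PowerSeries.coeff_C_mul, coeff_Dz, mul3]
  cases n with
  | zero =>
    rw [PowerSeries.coeff_zero_X_mul, sub_zero]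
    have h0 := bm_rec 0
    have e1 : 2 * ((((0 : ℕ) : ℚ) + 1) * bm (0 + 1)) = bm 0 := by
      push_cast at h0 ⊢
      linear_combination h0
    have e2 : (-(((0 : ℕ) : ℤ) + 1) + 1) = -((0 : ℕ) : ℤ) := by simp
    rw [e1, e2]
  | succ n =>
    rw [PowerSeries.coeff_succ_X_mul, PowerSeries.coeff_C_mul, coeff_Dz,
      ← mul_assoc (LaurentPolynomial.C 2), ← map_mul]
    have e2 : (-(((n + 1 : ℕ) : ℤ) + 1) + 1) = -((n + 1 : ℕ) : ℤ) := by ring
    have e3 : (-((n : ℤ) + 1)) = -((n + 1 : ℕ) : ℤ) := by push_cast; ring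
    rw [e2, e3, ← sub_mul, ← map_sub]
    congr 2
    have h0 := bm_rec (n + 1)
    push_cast at h0 ⊢
    linear_combination h0

lemma aeval_X (p : Polynomial ℚ) :
    Polynomial.aeval (PowerSeries.X : SS) p = up (p : PowerSeries ℚ) := by
  induction p using Polynomial.induction_on' with
  | add p q hp hq => rw [map_add, hp, hq, Polynomial.coe_add, map_add]
  | monomial n c =>
    rw [Polynomial.aeval_monomial, ← Polynomial.C_mul_X_pow_eq_monomial, Polynomial.coe_mul,
      Polynomial.coe_C, Polynomial.coe_pow, Polynomial.coe_X, map_mul, map_pow, up,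
      PowerSeries.map_C, PowerSeries.map_X, PowerSeries.algebraMap_apply]
    rfl

lemma aeval_xx (p : Polynomial ℚ) :
    Polynomial.aeval xx p = PowerSeries.C (Polynomial.aeval (LaurentPolynomial.T 1 : LP) p) := by
  induction p using Polynomial.induction_on' with
  | add p q hp hq => rw [map_add, hp, hq, map_add, map_add]
  | monomial n c =>
    rw [Polynomial.aeval_monomial, Polynomial.aeval_monomial, map_mul, map_pow, xx,
      PowerSeries.algebraMap_apply]

/-- the exact form -/
noncomputable def gp (h : Polynomial ℚ) (n : ℕ) : Polynomial ℚ :=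
  Polynomial.C (1 / 2) * Polynomial.X * Polynomial.derivative h -
    Polynomial.C ((n : ℚ) + 1 / 2) * h

lemma gp_coeff (h : Polynomial ℚ) (n t : ℕ) :
    (gp h n).coeff t = (1 / 2 - ((n + 1 : ℕ) : ℚ) + t / 2) * h.coeff t := by
  rw [gp, Polynomial.coeff_sub, Polynomial.coeff_C_mul, mul_assoc, Polynomial.coeff_C_mul]
  cases t with
  | zero =>
    rw [Polynomial.coeff_X_mul_zero]
    push_cast
    ring
  | succ t =>
    rw [Polynomial.coeff_X_mul, Polynomial.coeff_derivative]
    push_cast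
    ring

lemma gp_deg (h : Polynomial ℚ) (n m : ℕ) (hm : h.natDegree = m) :
    (gp h n).natDegree < m + 1 := by
  rw [Nat.lt_succ_iff, Polynomial.natDegree_le_iff_coeff_eq_zero]
  intro N hN
  rw [gp_coeff, Polynomial.coeff_eq_zero_of_natDegree_lt (by omega), mul_zero]

/-- the exact form, coefficientwise -/
lemma ex (h : Polynomial ℚ) (n : ℕ) :
    PowerSeries.coeff n (Polynomial.aeval xx (Polynomial.C (1 / 2) * Polynomial.derivative h) *
      Del - Polynomial.aeval xx h * Dz) =
    LaurentPolynomial.C (bm n) * (LaurentPolynomial.T (-((n : ℤ) + 1)) *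
      Polynomial.aeval (LaurentPolynomial.T 1 : LP) (gp h n)) := by
  have e : (LaurentPolynomial.T (-(n : ℤ)) : LP) =
      LaurentPolynomial.T 1 * LaurentPolynomial.T (-((n : ℤ) + 1)) := by
    rw [T1_mul]
    congr 1
    ring
  have e2 : ((n : ℚ) + 1) * bm (n + 1) = ((n : ℚ) + 1 / 2) * bm n := by
    linear_combination (1 / 2) * bm_rec n
  have e3 : Polynomial.aeval (LaurentPolynomial.T 1 : LP) (gp h n) =
      LaurentPolynomial.C (1 / 2) * LaurentPolynomial.T 1 *
        Polynomial.aeval (LaurentPolynomial.T 1 : LP) (Polynomial.derivative h) -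
      LaurentPolynomial.C ((n : ℚ) + 1 / 2) *
        Polynomial.aeval (LaurentPolynomial.T 1 : LP) h := by
    rw [gp, map_sub, map_mul, map_mul, map_mul, Polynomial.aeval_X,
      Polynomial.aeval_C, Polynomial.aeval_C, LaurentPolynomial.algebraMap_apply,
      LaurentPolynomial.algebraMap_apply]
    rfl
  have e4 : Polynomial.aeval (LaurentPolynomial.T 1 : LP)
      (Polynomial.C (1 / 2) * Polynomial.derivative h) = LaurentPolynomial.C (1 / 2) *
        Polynomial.aeval (LaurentPolynomial.T 1 : LP) (Polynomial.derivative h) := by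
    rw [map_mul, Polynomial.aeval_C, LaurentPolynomial.algebraMap_apply]
    rfl
  rw [aeval_xx, aeval_xx, map_sub, PowerSeries.coeff_C_mul, PowerSeries.coeff_C_mul, coeff_Del,
    coeff_Dz, e, e2, e3, e4, map_mul]
  ring

/-- the exact forms are killed -/
lemma killed (h : Polynomial ℚ) (a : ℕ → ℚ) (C m : ℕ) (hs : SqI h a C) (hm : h.natDegree = m)
    (h1 : T_KIL) (l : ℕ) (hl : l < m) :
    RR (rho h a l) (Polynomial.aeval xx (Polynomial.C (1 / 2) * Polynomial.derivative h) *
      Del - Polynomial.aeval xx h * Dz) = 0 := by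
  ext n
  rw [RR, PowerSeries.coeff_mk, ex, rh_C, Polynomial.aeval_eq_sum_range' (gp_deg h n m hm),
    Finset.mul_sum, map_sum]
  have k := h1 h a C m hs hm (n + 1) l (by omega) hl
  have : ∀ t ∈ range (m + 1), rh (rho h a l) (LaurentPolynomial.T (-((n : ℤ) + 1)) *
      ((gp h n).coeff t • LaurentPolynomial.T 1 ^ t)) =
      (1 / 2 - ((n + 1 : ℕ) : ℚ) + t / 2) * h.coeff t * rho h a l ((t : ℤ) - (n + 1 : ℕ)) := by
    intro t _
    have e : (LaurentPolynomial.T (-((n : ℤ) + 1)) *
      ((gp h n).coeff t • LaurentPolynomial.T 1 ^ t) : LP) =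
      LaurentPolynomial.C ((gp h n).coeff t) *
        LaurentPolynomial.T ((t : ℤ) - (n + 1 : ℕ)) := by
      rw [LaurentPolynomial.T_pow, LaurentPolynomial.smul_eq_C_mul, mul_left_comm,
        ← LaurentPolynomial.T_add]
      congr 2
      push_cast
      ring
    rw [e, rh_T, gp_coeff]
  rw [Finset.sum_congr rfl this, k, mul_zero]
  rfl

/-- the fundamental solution -/
lemma fS_eq (h : Polynomial ℚ) (a : ℕ → ℚ) (α l : ℕ) :
    fS h a α l = RR (rho h a l) (xx ^ α * Del) := by
  ext n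
  rw [fS, RR, PowerSeries.coeff_mk, PowerSeries.coeff_mk, xx, ← map_pow,
    PowerSeries.coeff_C_mul, coeff_Del, LaurentPolynomial.T_pow, mul_left_comm,
    ← LaurentPolynomial.T_add, rh_T]
  congr 2
  ring

lemma der_mul (α : ℕ) : PowerSeries.derivative LP (xx ^ α * Del) = xx ^ α * Dz := by
  ext1 n
  rw [PowerSeries.coeff_derivative, xx, ← map_pow, PowerSeries.coeff_C_mul,
    PowerSeries.coeff_C_mul, Dz, PowerSeries.coeff_derivative, mul_assoc]

end FODE_

theorem p_FODE (h1 : T_KIL) (h2 : T_ALGID) : T_FODE := by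
  intro h a C m hs hm l hl α
  dsimp only
  rw [FODE_.fS_eq, FODE_.RR_der, FODE_.der_mul, ← FODE_.RR_mul]
  have e1 : ∑ j : Fin m, (AA h m α j : PowerSeries ℚ) * fS h a j l =
      FODE_.RR (rho h a l) (∑ j : Fin m, FODE_.up (AA h m α j : PowerSeries ℚ) * (FODE_.xx ^ (j : ℕ) * FODE_.Del)) := by
    rw [FODE_.RR_sum]
    refine Finset.sum_congr rfl fun j _ => ?_
    rw [FODE_.RR_mul, FODE_.fS_eq]
  rw [e1]
  have g := (h2 h m α hm α.2).1 FODE_.SS FODE_.xx PowerSeries.X
  have g2 : ∑ j : Fin m, FODE_.up (AA h m α j : PowerSeries ℚ) * (FODE_.xx ^ (j : ℕ) * FODE_.Del) =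
      (∑ i ∈ range m, Polynomial.aeval (PowerSeries.X : FODE_.SS) (AA h m α i) * FODE_.xx ^ i *
        (FODE_.xx - PowerSeries.X)) * (2 * FODE_.Dz) := by
    rw [Finset.sum_range, Finset.sum_mul]
    refine Finset.sum_congr rfl fun j _ => ?_
    rw [FODE_.aeval_X]
    linear_combination (-(FODE_.up (AA h m α j : PowerSeries ℚ) * FODE_.xx ^ (j : ℕ))) * FODE_.xz
  have g3 : ∑ j : Fin m, FODE_.up (AA h m α j : PowerSeries ℚ) * (FODE_.xx ^ (j : ℕ) * FODE_.Del) =
      FODE_.up (h : PowerSeries ℚ) * (FODE_.xx ^ (α : ℕ) * FODE_.Dz) +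
      FODE_.up (PowerSeries.X ^ (α : ℕ)) * (Polynomial.aeval FODE_.xx (Polynomial.C (1 / 2) *
        Polynomial.derivative h) * FODE_.Del - Polynomial.aeval FODE_.xx h * FODE_.Dz) := by
    rw [g2, g, FODE_.aeval_X]
    have hh : (algebraMap ℚ FODE_.SS) (1 / 2) * 2 = 1 := by
      have : (2 : FODE_.SS) = algebraMap ℚ FODE_.SS 2 := by rw [map_ofNat]
      rw [this, ← map_mul]
      norm_num
    have hX : FODE_.up (PowerSeries.X ^ (α : ℕ)) = (PowerSeries.X : FODE_.SS) ^ (α : ℕ) := by
      rw [FODE_.up, map_pow, PowerSeries.map_X]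
    have hd : Polynomial.aeval FODE_.xx (Polynomial.C (1 / 2) * Polynomial.derivative h) =
        algebraMap ℚ FODE_.SS (1 / 2) * Polynomial.aeval FODE_.xx (Polynomial.derivative h) := by
      rw [map_mul, Polynomial.aeval_C]
    rw [hX, hd]
    linear_combination ((FODE_.up (h : PowerSeries ℚ)) * FODE_.xx ^ (α : ℕ) * FODE_.Dz -
      (PowerSeries.X : FODE_.SS) ^ (α : ℕ) * Polynomial.aeval FODE_.xx h * FODE_.Dz) * hh +
      (PowerSeries.X : FODE_.SS) ^ (α : ℕ) * algebraMap ℚ FODE_.SS (1 / 2) *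
        Polynomial.aeval FODE_.xx (Polynomial.derivative h) * FODE_.xz
  rw [g3, FODE_.RR_add, FODE_.RR_mul, FODE_.RR_mul _ (PowerSeries.X ^ (α : ℕ)), FODE_.killed h a C m hs hm h1 l hl,
    mul_zero, add_zero]

end Pool.Agent.HEP
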