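import Pool.Agent.HEP.Targets
import Pool.Agent.LEG.GRING

/-!
# FUN: functional relations vanish under Riemann's relations
-/

set_option autoImplicit false

namespace Pool.Agent.HEP

open Finset Pool.Agent.LEG
open scoped BigOperators Topology

namespace FUN_

/-- evaluation of a polynomial over `ℚ[z]` -/
noncomputable def evR {m : ℕ} (z : ℂ) (X : Matrix (Fin m) (Fin m) ℂ)
    (R : MvPolynomial (Fin m × Fin m) (Polynomial ℚ)) : ℂ :=
  MvPolynomial.eval₂ (Polynomial.aeval z : Polynomial ℚ →ₐ[ℚ] ℂ).toRingHom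
    (fun p => X p.1 p.2) R

theorem evR_C {m : ℕ} (z : ℂ) (X : Matrix (Fin m) (Fin m) ℂ) (p : Polynomial ℚ) :
    evR z X (MvPolynomial.C p) = Polynomial.aeval z p := by
  simp [evR]

theorem evR_add {m : ℕ} (z : ℂ) (X : Matrix (Fin m) (Fin m) ℂ)
    (p q : MvPolynomial (Fin m × Fin m) (Polynomial ℚ)) :
    evR z X (p + q) = evR z X p + evR z X q := by
  simp [evR, MvPolynomial.eval₂_add]

theorem evR_mulX {m : ℕ} (z : ℂ) (X : Matrix (Fin m) (Fin m) ℂ)
    (p : MvPolynomial (Fin m × Fin m) (Polynomial ℚ)) (i : Fin m × Fin m) :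
    evR z X (p * MvPolynomial.X i) = evR z X p * X i.1 i.2 := by
  simp [evR, MvPolynomial.eval₂_mul]

/-- the power series of a polynomial in the `fS` -/
noncomputable def ps {m : ℕ} (h : Polynomial ℚ) (a : ℕ → ℚ)
    (R : MvPolynomial (Fin m × Fin m) (Polynomial ℚ)) : PowerSeries ℚ :=
  MvPolynomial.eval₂ (Polynomial.coeToPowerSeries.ringHom) (fun p => fS h a p.1 p.2) R

/-- evaluation commutes with the polynomial -/
theorem ps_eval (h6 : T_EVCC) (h7 : T_FG) {m : ℕ} (h : Polynomial ℚ) (a : ℕ → ℚ) (C : ℕ)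
    (hS : SqI h a C) (R : MvPolynomial (Fin m × Fin m) (Polynomial ℚ)) :
    IsG (ps h a R) ∧ ∀ᶠ z in 𝓝 (0 : ℂ), evC (ps h a R) z = evR z (Fv m h a z) R := by
  obtain ⟨g1, g2, g3, g4⟩ := p_GRING
  have h00 : IsG (0 : PowerSeries ℚ) := by
    have := g1 0
    simpa using this
  induction R using MvPolynomial.induction_on with
  | C p =>
    have e1 : ps (m := m) h a (MvPolynomial.C p) = (p : PowerSeries ℚ) := by
      simp [ps]
    rw [e1]
    refine ⟨g1 p, ?_⟩
    obtain ⟨δ, hδ, -, -, -, h10⟩ := h6 0 h00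
    filter_upwards [h10 0 p h00] with z hz
    rw [evR_C]
    exact hz.2.2
  | add p q hp hq =>
    have e1 : ps h a (p + q) = ps h a p + ps h a q := by
      simp [ps, MvPolynomial.eval₂_add]
    rw [e1]
    refine ⟨g2 _ _ hp.1 hq.1, ?_⟩
    obtain ⟨δ, hδ, -, -, -, h10⟩ := h6 _ hp.1
    filter_upwards [h10 _ 0 hq.1, hp.2, hq.2] with z hz h1 h2
    rw [evR_add, hz.1, h1, h2]
  | mul_X p i hp =>
    have e1 : ps h a (p * MvPolynomial.X i) = ps h a p * fS h a i.1 i.2 := by
      simp [ps, MvPolynomial.eval₂_mul]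
    rw [e1]
    refine ⟨g3 _ _ hp.1 (h7 h a C hS _ _), ?_⟩
    obtain ⟨δ, hδ, -, -, -, h10⟩ := h6 _ hp.1
    filter_upwards [h10 _ 0 (h7 h a C hS i.1 i.2), hp.2] with z hz h1
    rw [evR_mulX, hz.2.1, h1]
    rfl

/-- the polynomial `R(z, X M)` over `ℂ[z]` -/
noncomputable def tw {m : ℕ} (M : Matrix (Fin m) (Fin m) ℂ)
    (R : MvPolynomial (Fin m × Fin m) (Polynomial ℚ)) :
    MvPolynomial (Fin m × Fin m) (Polynomial ℂ) :=
  MvPolynomial.eval₂ (MvPolynomial.C.comp (Polynomial.mapRingHom (algebraMap ℚ ℂ)))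
    (fun p => ∑ i, MvPolynomial.X (p.1, i) * MvPolynomial.C (Polynomial.C (M i p.2))) R

theorem evP_tw {m : ℕ} (M : Matrix (Fin m) (Fin m) ℂ)
    (R : MvPolynomial (Fin m × Fin m) (Polynomial ℚ)) (z : ℂ) (X : Matrix (Fin m) (Fin m) ℂ) :
    evP z X (tw M R) = evR z (X * M) R := by
  induction R using MvPolynomial.induction_on with
  | C p =>
    rw [evR_C]
    simp [evP, tw, Polynomial.eval_map, Polynomial.aeval_def]
  | add p q hp hq =>
    have e1 : tw M (p + q) = tw M p + tw M q := by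
      simp [tw, MvPolynomial.eval₂_add]
    have e2 : evP z X (tw M p + tw M q) = evP z X (tw M p) + evP z X (tw M q) := by
      simp [evP, MvPolynomial.eval₂_add]
    rw [e1, e2, hp, hq, evR_add]
  | mul_X p i hp =>
    have e1 : tw M (p * MvPolynomial.X i) = tw M p *
        ∑ j, MvPolynomial.X (i.1, j) * MvPolynomial.C (Polynomial.C (M j i.2)) := by
      simp [tw, MvPolynomial.eval₂_mul]
    have e2 : evP z X (tw M p *
        ∑ j, MvPolynomial.X (i.1, j) * MvPolynomial.C (Polynomial.C (M j i.2))) =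
        evP z X (tw M p) * ∑ j, X i.1 j * M j i.2 := by
      unfold evP
      rw [MvPolynomial.eval₂_mul, MvPolynomial.eval₂_sum]
      congr 1
      refine Finset.sum_congr rfl fun j _ => ?_
      rw [MvPolynomial.eval₂_mul, MvPolynomial.eval₂_X, MvPolynomial.eval₂_C]
      simp
    rw [e1, e2, hp, evR_mulX, Matrix.mul_apply]

/-- differentiability on the upper half plane -/
theorem diff_evP (h8 : T_DAN) {m : ℕ} (e : Fin m → ℝ) (he : StrictMono e)
    (Φ : MvPolynomial (Fin m × Fin m) (Polynomial ℂ)) :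
    DifferentiableOn ℂ (fun z => evP z (Dm e z) Φ) HH := by
  induction Φ using MvPolynomial.induction_on with
  | C p =>
    have e1 : (fun z => evP z (Dm e z) (MvPolynomial.C p)) = fun z => p.eval z := by
      funext z
      simp [evP]
    rw [e1]
    exact p.differentiable.differentiableOn
  | add p q hp hq =>
    have e1 : (fun z => evP z (Dm e z) (p + q)) =
        fun z => evP z (Dm e z) p + evP z (Dm e z) q := by
      funext z
      simp [evP, MvPolynomial.eval₂_add]
    rw [e1]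
    exact hp.add hq
  | mul_X p i hp =>
    have e1 : (fun z => evP z (Dm e z) (p * MvPolynomial.X i)) =
        fun z => evP z (Dm e z) p * DD e i.1 i.2 z := by
      funext z
      simp [evP, MvPolynomial.eval₂_mul, Dm]
    rw [e1]
    exact hp.mul (h8 m e i.1 i.2 he)

/-- continuity near `0` -/
theorem cont_evR {m : ℕ} (G : ℂ → Matrix (Fin m) (Fin m) ℂ) (x : ℂ)
    (hG : ∀ i j, ContinuousAt (fun z => G z i j) x)
    (R : MvPolynomial (Fin m × Fin m) (Polynomial ℚ)) :
    ContinuousAt (fun z => evR z (G z) R) x := by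
  induction R using MvPolynomial.induction_on with
  | C p =>
    simp only [evR_C]
    exact (Polynomial.continuous_aeval p).continuousAt
  | add p q hp hq =>
    simp only [evR_add]
    exact hp.add hq
  | mul_X p i hp =>
    simp only [evR_mulX]
    exact hp.mul (hG i.1 i.2)

theorem cont_mul {m : ℕ} (G : ℂ → Matrix (Fin m) (Fin m) ℂ) (H : ℂ → Matrix (Fin m) (Fin m) ℂ)
    (x : ℂ) (hG : ∀ i j, ContinuousAt (fun z => G z i j) x)
    (hH : ∀ i j, ContinuousAt (fun z => H z i j) x) :
    ∀ i j, ContinuousAt (fun z => (G z * H z) i j) x := by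
  intro i j
  simp only [Matrix.mul_apply]
  exact tendsto_finsetSum _ fun k _ => (hG i k).mul (hH k j)

/-- a function continuous at a real point and zero just above vanishes there -/
theorem zero_of_above (φ : ℂ → ℂ) (x δ : ℝ) (hx : |x| < δ) (hc : ContinuousAt φ (x : ℂ))
    (h0 : ∀ z ∈ Metric.ball (0 : ℂ) δ, 0 < z.im → φ z = 0) : φ x = 0 := by
  have hpath : Filter.Tendsto (fun y : ℝ => (x : ℂ) + y * Complex.I) (𝓝[>] 0) (𝓝 (x : ℂ)) := by
    have : Filter.Tendsto (fun y : ℝ => (x : ℂ) + y * Complex.I) (𝓝 0)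
        (𝓝 ((x : ℂ) + (0 : ℝ) * Complex.I)) := by
      apply Continuous.tendsto
      fun_prop
    simp only [Complex.ofReal_zero, zero_mul, add_zero] at this
    exact this.mono_left nhdsWithin_le_nhds
  have h1 : Filter.Tendsto (fun y : ℝ => φ ((x : ℂ) + y * Complex.I)) (𝓝[>] 0) (𝓝 (φ x)) :=
    hc.tendsto.comp hpath
  have h2 : ∀ᶠ y : ℝ in 𝓝[>] 0, φ ((x : ℂ) + y * Complex.I) = 0 := by
    have h3 : ∀ᶠ y : ℝ in 𝓝[>] 0, (x : ℂ) + y * Complex.I ∈ Metric.ball (0 : ℂ) δ := by
      apply hpath.eventually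
      apply Metric.isOpen_ball.mem_nhds
      simpa using hx
    filter_upwards [h3, self_mem_nhdsWithin] with y hy hy0
    apply h0 _ hy
    simpa using hy0
  have h3 : Filter.Tendsto (fun y : ℝ => φ ((x : ℂ) + y * Complex.I)) (𝓝[>] 0) (𝓝 0) :=
    (Filter.tendsto_congr' h2).2 tendsto_const_nhds
  exact tendsto_nhds_unique h1 h3

/-- the polynomial -/
theorem prod_insert {m : ℕ} (h : Polynomial ℚ) (e : Fin m → ℝ)
    (hp : h.map (algebraMap ℚ ℝ) = ∏ k, (Polynomial.X - Polynomial.C (e k)))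
    (r : Fin (m + 1)) (x : ℝ) :
    h.map (algebraMap ℚ ℝ) * (Polynomial.X - Polynomial.C x) =
      ∏ i, (Polynomial.X - Polynomial.C (Fin.insertNth (α := fun _ => ℝ) r x e i)) := by
  rw [Fin.prod_univ_succAbove _ r, hp, mul_comm]
  simp

/-- antisymmetry of `pz` -/
theorem pz_anti (h : Polynomial ℚ) (m : ℕ) (z : ℂ) (a c : Fin m) :
    pz h m z a c = - pz h m z c a := by
  simp only [pz, Matrix.of_apply]
  rw [show (a : ℕ) + c = c + a from add_comm _ _]
  ring

theorem PN_coeff (h : Polynomial ℚ) (z : ℂ) (n : ℕ) :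
    (PN h z).coeff (n + 1) = (h.coeff n : ℂ) - z * (h.coeff (n + 1) : ℂ) := by
  unfold PN
  rw [mul_sub, Polynomial.coeff_sub, Polynomial.coeff_mul_X, Polynomial.coeff_mul_C,
    Polynomial.coeff_map, Polynomial.coeff_map]
  simp [mul_comm]

/-- Riemann's relations in matrix form -/
theorem riem_mat (h : Polynomial ℚ) (m : ℕ) (z : ℂ) (X : Matrix (Fin m) (Fin m) ℂ)
    (hX : Riem (PN h z) X) : X.transpose * pz h m z * X = (Real.pi : ℂ) • Ch m := by
  have key : ∀ j k : Fin m, (X.transpose * pz h m z * X) j k =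
      ∑ a : Fin m, ∑ c : Fin m, pz h m z a c * X a j * X c k := by
    intro j k
    rw [Matrix.mul_apply]
    simp only [Matrix.mul_apply, Matrix.transpose_apply, Finset.sum_mul]
    rw [Finset.sum_comm]
    refine Finset.sum_congr rfl fun a _ => Finset.sum_congr rfl fun c _ => ?_
    ring
  have hlt : ∀ j k : Fin m, j < k → (X.transpose * pz h m z * X) j k =
      if (k : ℕ) = j + 1 then (-1) ^ ((j : ℕ) + 1) * (Real.pi : ℂ) else 0 := by
    intro j k hjk
    rw [key, ← hX j k hjk]
    refine Finset.sum_congr rfl fun a _ => Finset.sum_congr rfl fun c _ => ?_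
    rw [show (a : ℕ) + c + 2 = (a + c + 1) + 1 from rfl, PN_coeff]
    simp only [pz, Matrix.of_apply]
  have hanti : ∀ j k : Fin m, (X.transpose * pz h m z * X) j k =
      - (X.transpose * pz h m z * X) k j := by
    intro j k
    rw [key, key, Finset.sum_comm, ← Finset.sum_neg_distrib]
    refine Finset.sum_congr rfl fun a _ => ?_
    rw [← Finset.sum_neg_distrib]
    refine Finset.sum_congr rfl fun c _ => ?_
    rw [pz_anti h m z c a]
    ring
  ext j k
  rw [Matrix.smul_apply, smul_eq_mul]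
  simp only [Ch, Matrix.of_apply]
  rcases lt_trichotomy j k with hjk | hjk | hjk
  · rw [hlt j k hjk]
    have hjk' : (j : ℕ) < k := hjk
    by_cases h1 : (k : ℕ) = j + 1
    · rw [if_pos h1, if_pos h1]
      ring
    · rw [if_neg h1, if_neg h1, if_neg (by omega)]
      ring
  · subst hjk
    have := hanti j j
    rw [if_neg (by omega), if_neg (by omega), mul_zero]
    exact self_eq_neg.1 this
  · rw [hanti j k, hlt k j hjk]
    have hjk' : (k : ℕ) < j := hjk
    by_cases h1 : (j : ℕ) = k + 1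
    · rw [if_pos h1, if_neg (by omega), if_pos h1]
      ring
    · rw [if_neg h1, if_neg (by omega), if_neg h1]
      ring

end FUN_

open FUN_ in
theorem p_FUN (h1 : T_ORB) (h2 : T_GRM) (h3 : T_WF) (h4 : T_BIL) (h5 : T_CHD) (h6 : T_EVCC)
    (h7 : T_FG) (h8 : T_DAN) (h9 : T_IDT) : T_FUN := by
  classical
  intro m h e a C hd
  obtain ⟨r, C0, M0, δ, hδ, hFdiff, hPm0, hDF, hx⟩ := h3 m h e a C hd
  obtain ⟨γ, hγ, hcc, hG⟩ := h2 m h e a C hd
  set P0 := Pm (Fin.insertNth (α := fun _ => ℝ) r 0 e) with hP0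
  have hpi : (Real.pi : ℂ) ≠ 0 := by exact_mod_cast Real.pi_ne_zero
  have hCh : ((Real.pi : ℂ) • Ch m).det ≠ 0 := by
    rw [Matrix.det_smul]
    exact mul_ne_zero (pow_ne_zero _ hpi) (h5 m hd.even)
  -- bilinear relations
  have hbil : ∀ x : ℝ, |x| < δ → (Pm (Fin.insertNth (α := fun _ => ℝ) r x e)).transpose *
      pz h m x * Pm (Fin.insertNth (α := fun _ => ℝ) r x e) = (Real.pi : ℂ) • Ch m :=
    fun x hxδ => h4 m h e r x hd.even hd.prod (hx x hxδ).1
  have hPdet : ∀ x : ℝ, |x| < δ → (Pm (Fin.insertNth (α := fun _ => ℝ) r x e)).det ≠ 0 := by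
    intro x hxδ h0
    apply hCh
    rw [← hbil x hxδ, Matrix.det_mul, h0, mul_zero]
  have hδ0 : |(0 : ℝ)| < δ := by simpa using hδ
  have hP0det : P0.det ≠ 0 := hPdet 0 hδ0
  have hC0det : C0.det ≠ 0 := by
    intro h0
    apply hP0det
    rw [hPm0, Matrix.det_mul, h0, zero_mul]
  have hFdet : ∀ x : ℝ, |x| < δ → (Fv m h a x).det ≠ 0 := by
    intro x hxδ h0
    apply hPdet x hxδ
    rw [(hx x hxδ).2, Matrix.det_mul, h0, zero_mul]
  -- evaluation at real points
  have hev : ∀ᶠ x : ℝ in 𝓝 0, ∀ α l : Fin m, evC (fS h a α l) (x : ℂ) =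
      (ev (fS h a α l) x : ℂ) := by
    rw [Filter.eventually_all]
    intro α
    rw [Filter.eventually_all]
    intro l
    obtain ⟨δ', hδ', -, -, h10, -⟩ := h6 _ (h7 h a C hd.sqi α l)
    have : ∀ᶠ x : ℝ in 𝓝 0, |x| < δ' := by
      have := Metric.ball_mem_nhds (0 : ℝ) hδ'
      filter_upwards [this] with x hx'
      simpa using hx'
    filter_upwards [this] with x hx'
    exact h10 x hx'
  obtain ⟨ε, hε, hevε⟩ := Metric.eventually_nhds_iff.1 hev
  obtain ⟨N1, hN1⟩ := exists_nat_gt (1 / min δ ε)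
  have hmin : 0 < min δ ε := lt_min hδ hε
  have hsmall : ∀ N : ℕ, max N1 1 ≤ N → |1 / (N : ℝ)| < min δ ε := by
    intro N hN
    have hN1' : (N1 : ℝ) ≤ N := by exact_mod_cast (le_max_left N1 1).trans hN
    have hNpos : (0 : ℝ) < N := by exact_mod_cast (le_max_right N1 1).trans hN
    rw [abs_of_pos (by positivity), div_lt_iff₀ hNpos]
    have := hN1.trans_le hN1'
    rw [div_lt_iff₀ hmin] at this
    linarith
  refine ⟨P0, max N1 1, hP0det, le_max_right _ _, fun N hN => ?_⟩
  have hxN := hsmall N hN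
  set x : ℝ := 1 / (N : ℝ) with hxdef
  have hxδ : |x| < δ := hxN.trans_le (min_le_left _ _)
  have hxε : |x| < ε := hxN.trans_le (min_le_right _ _)
  have hxC : (x : ℂ) = 1 / (N : ℂ) := by
    rw [hxdef]
    push_cast
    rfl
  refine ⟨Fin.insertNth (α := fun _ => ℝ) r x e, (hx x hxδ).1, ?_, ?_, ?_⟩
  · exact prod_insert h e hd.prod r x
  · intro α j
    have h10 := congrFun (congrFun (hx x hxδ).2 α) j
    rw [Matrix.mul_apply] at h10
    have h11 : (per (Fin.insertNth (α := fun _ => ℝ) r x e) α j : ℂ) =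
      Pm (Fin.insertNth (α := fun _ => ℝ) r x e) α j := rfl
    rw [h11, h10]
    refine Finset.sum_congr rfl fun l _ => ?_
    congr 1
    exact hevε (by simpa using hxε) α l
  · intro R hR X hX
    -- the functional relation on the upper half plane
    have hR0 : ∀ᶠ z in 𝓝 (0 : ℂ), evR z (Fv m h a z) R = 0 := by
      have h10 : ps h a R = 0 := hR
      filter_upwards [(ps_eval h6 h7 h a C hd.sqi R).2] with z hz
      rw [← hz, h10]
      simp [evC]
    obtain ⟨δR, hδR, hRδ⟩ := Metric.eventually_nhds_iff.1 hR0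
    have hCunit : IsUnit C0.det := isUnit_iff_ne_zero.2 hC0det
    have hC1 : C0 * C0⁻¹ = 1 := Matrix.mul_nonsing_inv _ hCunit
    have hΨ : ∀ z : ℂ, 0 < z.im → evP z (Dm e z) (tw C0⁻¹ R) = 0 := by
      refine h9.1 (fun z => evP z (Dm e z) (tw C0⁻¹ R)) 0 (min δ δR) (lt_min hδ hδR)
        (diff_evP h8 e hd.mono _) ?_
      intro z hz hzim
      rw [Complex.ofReal_zero] at hz
      have hz1 : z ∈ Metric.ball (0 : ℂ) δ := Metric.ball_subset_ball (min_le_left _ _) hz
      have hz2 : dist z 0 < δR := (Metric.mem_ball.1 hz).trans_le (min_le_right _ _)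
      change evP z (Dm e z) (tw C0⁻¹ R) = 0
      rw [evP_tw, hDF z hz1 hzim, Matrix.mul_assoc, hC1, Matrix.mul_one]
      exact hRδ hz2
    -- continuity of F
    have hFc : ∀ i j, ContinuousAt (fun z => Fv m h a z i j) (x : ℂ) := by
      intro i j
      refine ((hFdiff i j).differentiableAt ?_).continuousAt
      apply Metric.isOpen_ball.mem_nhds
      simpa using hxδ
    have hconst : ∀ (M : Matrix (Fin m) (Fin m) ℂ), ∀ i j,
        ContinuousAt (fun _ : ℂ => M i j) (x : ℂ) := fun M i j => continuousAt_const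
    have horb : ∀ g : Matrix (Fin m) (Fin m) ℂ,
        g.transpose * Matrix.of (cc : Fin m → Fin m → ℂ) * g = Matrix.of cc →
        evR x (Fv m h a x * (C0 * g * C0⁻¹)) R = 0 := by
      intro g hg
      refine zero_of_above (fun z => evR z (Fv m h a z * (C0 * g * C0⁻¹)) R) x δ hxδ ?_ ?_
      · exact cont_evR _ _ (cont_mul _ (fun _ => C0 * g * C0⁻¹) _ hFc (hconst _)) R
      · intro z hz hzim
        have h10 := h1 m h e a C hd (tw C0⁻¹ R) hΨ g hg z hzim
        rw [evP_tw, hDF z hz hzim] at h10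
        change evR z (Fv m h a z * (C0 * g * C0⁻¹)) R = 0
        rw [← h10]
        congr 1
        simp only [Matrix.mul_assoc]
    -- the Gram matrix at x
    have hpzc : ∀ i j, ContinuousAt (fun z => pz h m z i j) (x : ℂ) := by
      intro i j
      simp only [pz, Matrix.of_apply]
      fun_prop
    have hgram : (Fv m h a x * C0).transpose * pz h m x * (Fv m h a x * C0) =
        γ • Matrix.of cc := by
      ext i j
      have hc1 := cont_mul _ (fun _ => C0) _ hFc (hconst _)
      have hc2 : ∀ i j, ContinuousAt (fun z => (Fv m h a z * C0).transpose i j) (x : ℂ) :=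
        fun i j => hc1 j i
      have hc3 := cont_mul _ _ _ (cont_mul _ _ _ hc2 hpzc) hc1
      have h10 := zero_of_above (fun z => ((Fv m h a z * C0).transpose * pz h m z *
        (Fv m h a z * C0)) i j - (γ • Matrix.of cc : Matrix (Fin m) (Fin m) ℂ) i j) x δ hxδ
        ((hc3 i j).sub continuousAt_const) (by
          intro z hz hzim
          have h11 := hG z hzim
          rw [hDF z hz hzim] at h11
          change ((Fv m h a z * C0).transpose * pz h m z *
            (Fv m h a z * C0)) i j - (γ • Matrix.of cc : Matrix (Fin m) (Fin m) ℂ) i j = 0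
          rw [h11, sub_self])
      exact sub_eq_zero.1 h10
    set F := Fv m h a x with hFdef
    have hFunit : IsUnit F.det := isUnit_iff_ne_zero.2 (hFdet x hxδ)
    have hF1 : F * F⁻¹ = 1 := Matrix.mul_nonsing_inv _ hFunit
    have hPunit : IsUnit P0.det := isUnit_iff_ne_zero.2 hP0det
    have hP1 : P0 * P0⁻¹ = 1 := Matrix.mul_nonsing_inv _ hPunit
    have hXm : X.transpose * pz h m x * X = (Real.pi : ℂ) • Ch m := by
      rw [hxC]
      exact riem_mat h m _ X hX
    have hbx := hbil x hxδ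
    rw [(hx x hxδ).2] at hbx
    set g := C0⁻¹ * F⁻¹ * (X * P0⁻¹) * C0 with hgdef
    have hg1 : F * C0 * g = X * P0⁻¹ * C0 := by
      rw [hgdef]
      calc F * C0 * (C0⁻¹ * F⁻¹ * (X * P0⁻¹) * C0)
          = F * (C0 * C0⁻¹) * F⁻¹ * (X * P0⁻¹) * C0 := by simp only [Matrix.mul_assoc]
        _ = X * P0⁻¹ * C0 := by rw [hC1, Matrix.mul_one, hF1, Matrix.one_mul]
    have hg2 : F * (C0 * g * C0⁻¹) = X * P0⁻¹ := by
      calc F * (C0 * g * C0⁻¹) = F * C0 * g * C0⁻¹ := by simp only [Matrix.mul_assoc]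
        _ = X * P0⁻¹ * (C0 * C0⁻¹) := by rw [hg1]; simp only [Matrix.mul_assoc]
        _ = X * P0⁻¹ := by rw [hC1, Matrix.mul_one]
    have hg3 : g.transpose * Matrix.of (cc : Fin m → Fin m → ℂ) * g = Matrix.of cc := by
      have h10 : γ • (g.transpose * Matrix.of (cc : Fin m → Fin m → ℂ) * g) =
          γ • Matrix.of cc := by
        calc γ • (g.transpose * Matrix.of (cc : Fin m → Fin m → ℂ) * g)
            = g.transpose * (γ • Matrix.of (cc : Fin m → Fin m → ℂ)) * g := by
              rw [Matrix.mul_smul, Matrix.smul_mul]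
          _ = g.transpose * ((F * C0).transpose * pz h m x * (F * C0)) * g := by rw [hgram]
          _ = (F * C0 * g).transpose * pz h m x * (F * C0 * g) := by
              simp only [Matrix.transpose_mul, Matrix.mul_assoc]
          _ = (X * P0⁻¹ * C0).transpose * pz h m x * (X * P0⁻¹ * C0) := by rw [hg1]
          _ = (P0⁻¹ * C0).transpose * (X.transpose * pz h m x * X) * (P0⁻¹ * C0) := by
              simp only [Matrix.transpose_mul, Matrix.mul_assoc]
          _ = (P0⁻¹ * C0).transpose * ((F * P0).transpose * pz h m x * (F * P0)) *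
              (P0⁻¹ * C0) := by rw [hXm, hbx]
          _ = (F * (P0 * P0⁻¹) * C0).transpose * pz h m x * (F * (P0 * P0⁻¹) * C0) := by
              simp only [Matrix.transpose_mul, Matrix.mul_assoc]
          _ = γ • Matrix.of cc := by rw [hP1, Matrix.mul_one, hgram]
      exact smul_right_injective _ hγ h10
    have h10 := horb g hg3
    rw [hg2] at h10
    rw [← h10]
    unfold evR
    congr 1
    refine RingHom.ext fun q => ?_
    change algebraMap ℚ ℂ (Polynomial.eval (1 / (N : ℚ)) q) = Polynomial.aeval (x : ℂ) q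
    rw [hxC]
    have h11 : (1 / (N : ℂ)) = algebraMap ℚ ℂ (1 / (N : ℚ)) := by simp
    rw [h11, Polynomial.aeval_algebraMap_apply]
    simp

end Pool.Agent.HEP
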