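import Pool.Agent.HEP.Targets

set_option autoImplicit false

/-!
# The Gram matrix of the functions `DD` is a multiple of `cc` (target `T_GRM`)
-/

namespace Pool.Agent.HEP

open Finset Pool.Agent.LEG
open scoped BigOperators Topology

namespace GRM_

lemma pz_transpose (h : Polynomial ℚ) (m : ℕ) (z : ℂ) :
    (pz h m z).transpose = -pz h m z := by
  ext a c
  simp only [pz, Matrix.transpose_apply, Matrix.of_apply, Matrix.neg_apply]
  rw [Nat.add_comm (c : ℕ) (a : ℕ)]
  ring

/-- the bilinear form -/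
noncomputable def B {m : ℕ} (P : Matrix (Fin m) (Fin m) ℂ) (u v : Fin m → ℂ) : ℂ :=
  ∑ a, ∑ c, u a * P a c * v c

lemma gram_entry {m : ℕ} (P X : Matrix (Fin m) (Fin m) ℂ) (j k : Fin m) :
    (X.transpose * P * X) j k = B P (fun a => X a j) (fun c => X c k) := by
  unfold B
  rw [Matrix.mul_apply]
  simp only [Matrix.mul_apply, Matrix.transpose_apply, Finset.sum_mul]
  rw [Finset.sum_comm]

lemma B_expand {m : ℕ} (P : Matrix (Fin m) (Fin m) ℂ) (u v g : Fin m → ℂ) (s t : ℂ) :
    B P (fun a => u a + s * g a) (fun c => v c + t * g c) =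
      B P u v + t * B P u g + s * B P g v + s * t * B P g g := by
  simp only [B, Finset.mul_sum, ← Finset.sum_add_distrib]
  apply Finset.sum_congr rfl
  intro a _
  apply Finset.sum_congr rfl
  intro c _
  ring

lemma B_anti {m : ℕ} (P : Matrix (Fin m) (Fin m) ℂ) (hP : P.transpose = -P)
    (u v : Fin m → ℂ) : B P u v = -B P v u := by
  unfold B
  rw [Finset.sum_comm, ← Finset.sum_neg_distrib]
  apply Finset.sum_congr rfl
  intro c _
  rw [← Finset.sum_neg_distrib]
  apply Finset.sum_congr rfl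
  intro a _
  have : P a c = -P c a := by
    have := congrFun (congrFun hP c) a
    simpa [Matrix.transpose_apply] using this
  rw [this]
  ring

lemma B_self {m : ℕ} (P : Matrix (Fin m) (Fin m) ℂ) (hP : P.transpose = -P)
    (u : Fin m → ℂ) : B P u u = 0 := by
  have := B_anti P hP u u
  exact self_eq_neg.1 this

lemma pz_diff (h : Polynomial ℚ) (m : ℕ) (a c : Fin m) : Differentiable ℂ (fun z => pz h m z a c) := by
  simp only [pz, Matrix.of_apply]
  fun_prop

lemma B_diff (h : Polynomial ℚ) (m : ℕ) (U : Set ℂ) (u v : Fin m → ℂ → ℂ)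
    (hu : ∀ a, DifferentiableOn ℂ (u a) U) (hv : ∀ a, DifferentiableOn ℂ (v a) U) :
    DifferentiableOn ℂ (fun z => B (pz h m z) (fun a => u a z) (fun c => v c z)) U := by
  unfold B
  apply DifferentiableOn.fun_sum
  intro a _
  apply DifferentiableOn.fun_sum
  intro c _
  exact ((hu a).mul (pz_diff h m a c).differentiableOn).mul (hv c)

lemma mul_diff {m : ℕ} (U : Set ℂ) (X : ℂ → Matrix (Fin m) (Fin m) ℂ)
    (M : Matrix (Fin m) (Fin m) ℂ) (hX : ∀ a b, DifferentiableOn ℂ (fun z => X z a b) U)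
    (a b : Fin m) : DifferentiableOn ℂ (fun z => (X z * M) a b) U := by
  simp only [Matrix.mul_apply]
  apply DifferentiableOn.fun_sum
  intro l _
  exact (hX a l).mul_const _

lemma gram_diff (h : Polynomial ℚ) {m : ℕ} (U : Set ℂ) (X : ℂ → Matrix (Fin m) (Fin m) ℂ)
    (hX : ∀ a b, DifferentiableOn ℂ (fun z => X z a b) U)
    (j k : Fin m) (c : ℂ) :
    DifferentiableOn ℂ (fun z => ((X z).transpose * pz h m z * X z) j k - c) U := by
  simp only [gram_entry]
  exact (B_diff h m U (fun a z => X z a j) (fun a z => X z a k) (fun a => hX a j)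
    (fun a => hX a k)).sub_const c

lemma cc_anti {m : ℕ} (i j : Fin m) : (cc i j : ℂ) = -cc j i := by
  unfold cc
  rcases lt_trichotomy i j with h | h | h
  · simp [h, not_lt_of_gt h]
  · simp [h]
  · simp [h, not_lt_of_gt h]

lemma cc_self {m : ℕ} (i : Fin m) : (cc i i : ℂ) = 0 := by
  simp [cc]

lemma cc_ne {m : ℕ} (i j : Fin m) (hij : i ≠ j) : (cc i j : ℂ) ≠ 0 := by
  have hpi : (Real.pi : ℂ) ≠ 0 := by exact_mod_cast Real.pi_ne_zero
  unfold cc
  rcases lt_trichotomy i j with h | h | h
  · simp [h, not_lt_of_gt h, Complex.I_ne_zero, hpi]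
  · exact absurd h hij
  · simp [h, Complex.I_ne_zero, hpi]

end GRM_

open GRM_ in
theorem p_GRM (h1 : T_WF) (h2 : T_BIL) (h3 : T_CHD) (h4 : T_LOCX) (h5 : T_DAN) (h6 : T_LOGT)
    (h7 : T_IDT) : T_GRM := by
  intro m h e a C hd
  have hm := hd.two
  obtain ⟨r, C0, M0, δ, hδ, hF, hw, hD, hx⟩ := h1 m h e a C hd
  set w0 := Pm (Fin.insertNth (α := fun _ => ℝ) r 0 e) with hw0
  have hCh := h3 m hd.even
  have hpi : (Real.pi : ℂ) ≠ 0 := by exact_mod_cast Real.pi_ne_zero
  have hb0 : w0.transpose * pz h m ((0 : ℝ) : ℂ) * w0 = (Real.pi : ℂ) • Ch m :=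
    h2 m h e r 0 hd.even hd.prod (hx 0 (by simpa using hδ)).1
  have hdetR : ((Real.pi : ℂ) • Ch m).det ≠ 0 := by
    rw [Matrix.det_smul]
    exact mul_ne_zero (pow_ne_zero _ hpi) hCh
  have hw0det : w0.det ≠ 0 := by
    intro h0
    apply hdetR
    rw [← hb0, Matrix.det_mul, h0, mul_zero]
  have hM0det : M0.det ≠ 0 := by
    intro h0
    apply hw0det
    rw [hw, Matrix.det_mul, h0, mul_zero]
  -- the identity on the disc
  have hS : ∀ z ∈ Metric.ball (0 : ℂ) δ,
      (Fv m h a z * w0).transpose * pz h m z * (Fv m h a z * w0) = (Real.pi : ℂ) • Ch m := by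
    intro z hz
    ext j k
    have key := h7.2 (fun z => ((Fv m h a z * w0).transpose * pz h m z * (Fv m h a z * w0)) j k -
      ((Real.pi : ℂ) • Ch m) j k) δ hδ
      (gram_diff h _ (fun z => Fv m h a z * w0) (mul_diff _ _ _ hF) j k _) ?_ z hz
    · exact sub_eq_zero.1 key
    · intro x hx'
      obtain ⟨hmono, hP⟩ := hx x hx'
      have hb := h2 m h e r x hd.even hd.prod hmono
      rw [hP] at hb
      show ((Fv m h a x * w0).transpose * pz h m x * (Fv m h a x * w0)) j k -
        ((Real.pi : ℂ) • Ch m) j k = 0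
      rw [hb, sub_self]
  -- the identity on the half plane
  have hDd : ∀ α i : Fin m, DifferentiableOn ℂ (fun z => Dm e z α i) HH := by
    intro α i
    exact h5 m e α i hd.mono
  have hHH : ∀ z : ℂ, 0 < z.im →
      (Dm e z * M0).transpose * pz h m z * (Dm e z * M0) = (Real.pi : ℂ) • Ch m := by
    intro z hz
    ext j k
    have key := h7.1 (fun z => ((Dm e z * M0).transpose * pz h m z * (Dm e z * M0)) j k -
      ((Real.pi : ℂ) • Ch m) j k) 0 δ hδ
      (gram_diff h _ (fun z => Dm e z * M0) (mul_diff _ _ _ hDd) j k _) ?_ z hz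
    · exact sub_eq_zero.1 key
    · intro z' hz' him
      have hz'' : z' ∈ Metric.ball (0 : ℂ) δ := by simpa using hz'
      have hDz := hD z' hz'' him
      show ((Dm e z' * M0).transpose * pz h m z' * (Dm e z' * M0)) j k -
        ((Real.pi : ℂ) • Ch m) j k = 0
      rw [hDz, Matrix.mul_assoc (Fv m h a z') C0 M0, ← hw, hS z' hz'', sub_self]
  -- the constant Gram matrix
  have hMu : IsUnit M0.det := isUnit_iff_ne_zero.2 hM0det
  have hMtu : IsUnit M0.transpose.det := by rw [Matrix.det_transpose]; exact hMu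
  obtain ⟨G, hG⟩ : ∃ G : Matrix (Fin m) (Fin m) ℂ,
      G = (M0.transpose)⁻¹ * ((Real.pi : ℂ) • Ch m) * M0⁻¹ := ⟨_, rfl⟩
  have hGz : ∀ z : ℂ, 0 < z.im → (Dm e z).transpose * pz h m z * Dm e z = G := by
    intro z hz
    have h8 := hHH z hz
    rw [Matrix.transpose_mul] at h8
    rw [hG, ← h8]
    have h9 : M0.transpose * (Dm e z).transpose * pz h m z * (Dm e z * M0) =
        M0.transpose * ((Dm e z).transpose * pz h m z * Dm e z * M0) := by
      simp only [Matrix.mul_assoc]
    rw [h9, Matrix.nonsing_inv_mul_cancel_left _ _ hMtu, Matrix.mul_nonsing_inv_cancel_right _ _ hMu]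
  have hGdet : G.det ≠ 0 := by
    intro h0
    apply hdetR
    have h8 := hHH Complex.I (by simp)
    rw [← h8, Matrix.transpose_mul]
    have h9 : M0.transpose * (Dm e Complex.I).transpose * pz h m Complex.I *
        (Dm e Complex.I * M0) = M0.transpose * ((Dm e Complex.I).transpose * pz h m Complex.I *
          Dm e Complex.I) * M0 := by
      simp only [Matrix.mul_assoc]
    rw [h9, hGz Complex.I (by simp), Matrix.det_mul, Matrix.det_mul, h0]
    simp
  have hGt : ∀ j k, G j k = -G k j := by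
    intro j k
    rw [← hGz Complex.I (by simp), gram_entry, gram_entry]
    exact B_anti _ (pz_transpose h m _) _ _
  -- the local analysis
  have hstar : ∀ i j k : Fin m, cc i k * G j i = cc i j * G k i := by
    intro i j k
    obtain ⟨ρ, Ah, Gh, hρ, hAh, hGh, hloc⟩ := h4 m e i hd.mono
    have hcol : ∀ z ∈ Metric.ball (e i : ℂ) ρ, 0 < z.im → ∀ l : Fin m,
        (fun b : Fin m => Dm e z b l) =
          fun b : Fin m => Ah b l z + (cc i l * Complex.log (z - e i)) * Gh b z := by
      intro z hz him l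
      funext b
      exact ((hloc z hz him b).2 l)
    have hcoli : ∀ z ∈ Metric.ball (e i : ℂ) ρ, 0 < z.im →
        (fun b : Fin m => Dm e z b i) = fun b : Fin m => Gh b z := by
      intro z hz him
      funext b
      exact (hloc z hz him b).1
    have hGi : ∀ z ∈ Metric.ball (e i : ℂ) ρ, 0 < z.im → ∀ l : Fin m,
        B (pz h m z) (fun b : Fin m => Ah b l z) (fun c : Fin m => Gh c z) = G l i := by
      intro z hz him l
      rw [← hGz z him, gram_entry, hcol z hz him l, hcoli z hz him]
      have h8 := B_expand (pz h m z) (fun b : Fin m => Ah b l z) (fun c : Fin m => Gh c z)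
        (fun c : Fin m => Gh c z) (cc i l * Complex.log (z - e i)) 0
      simp only [zero_mul, add_zero, mul_zero] at h8
      rw [h8, B_self _ (pz_transpose h m z)]
      ring
    obtain ⟨g0, hg0⟩ : ∃ g0 : ℂ → ℂ, g0 = fun z =>
        B (pz h m z) (fun b : Fin m => Ah b j z) (fun c : Fin m => Ah c k z) - G j k := ⟨_, rfl⟩
    obtain ⟨g1, hg1⟩ : ∃ g1 : ℂ → ℂ, g1 = fun z =>
        cc i k * B (pz h m z) (fun b : Fin m => Ah b j z) (fun c : Fin m => Gh c z) -
        cc i j * B (pz h m z) (fun b : Fin m => Ah b k z) (fun c : Fin m => Gh c z) := ⟨_, rfl⟩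
    have hball : Metric.ball (e i : ℂ) ρ ∈ 𝓝 (e i : ℂ) := Metric.ball_mem_nhds _ hρ
    have hg0a : AnalyticAt ℂ g0 (e i : ℂ) := by
      refine DifferentiableOn.analyticAt (s := Metric.ball (e i : ℂ) ρ) ?_ hball
      rw [hg0]
      exact (B_diff h m _ (fun (b : Fin m) z => Ah b j z) (fun (c : Fin m) z => Ah c k z)
        (fun b => hAh b j) (fun c => hAh c k)).sub_const _
    have hg1a : AnalyticAt ℂ g1 (e i : ℂ) := by
      refine DifferentiableOn.analyticAt (s := Metric.ball (e i : ℂ) ρ) ?_ hball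
      rw [hg1]
      exact ((B_diff h m _ (fun (b : Fin m) z => Ah b j z) (fun (c : Fin m) z => Gh c z)
        (fun b => hAh b j) (fun c => hGh c)).const_mul _).sub
        ((B_diff h m _ (fun (b : Fin m) z => Ah b k z) (fun (c : Fin m) z => Gh c z)
        (fun b => hAh b k) (fun c => hGh c)).const_mul _)
    have hrel : ∀ z ∈ Metric.ball (e i : ℂ) ρ, 0 < z.im →
        g0 z + g1 z * Complex.log (z - e i) = 0 := by
      intro z hz him
      have h8 : G j k = B (pz h m z)
          (fun b : Fin m => Ah b j z + (cc i j * Complex.log (z - e i)) * Gh b z)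
          (fun b : Fin m => Ah b k z + (cc i k * Complex.log (z - e i)) * Gh b z) := by
        rw [← hGz z him, gram_entry, hcol z hz him j, hcol z hz him k]
      rw [B_expand (pz h m z) (fun b : Fin m => Ah b j z) (fun b : Fin m => Ah b k z)
        (fun b : Fin m => Gh b z), B_self _ (pz_transpose h m z),
        B_anti _ (pz_transpose h m z) (fun b : Fin m => Gh b z) (fun b : Fin m => Ah b k z)] at h8
      rw [hg0, hg1]
      simp only
      rw [h8]
      ring
    have hpath : Filter.Tendsto (fun y : ℝ => (e i : ℂ) + (y : ℂ) * Complex.I) (𝓝[>] (0 : ℝ))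
        (𝓝 (e i : ℂ)) := by
      have : Filter.Tendsto (fun y : ℝ => (e i : ℂ) + (y : ℂ) * Complex.I) (𝓝 (0 : ℝ))
          (𝓝 ((e i : ℂ) + ((0 : ℝ) : ℂ) * Complex.I)) := by
        apply Continuous.tendsto
        fun_prop
      simpa using this.mono_left nhdsWithin_le_nhds
    have hev1 : ∀ᶠ y : ℝ in 𝓝[>] (0 : ℝ), (e i : ℂ) + (y : ℂ) * Complex.I ∈
        Metric.ball (e i : ℂ) ρ := hpath.eventually hball
    have hev2 : ∀ᶠ y : ℝ in 𝓝[>] (0 : ℝ), 0 < y := self_mem_nhdsWithin
    have hlog := h6 2 (fun n => if n = 0 then g0 else g1) (e i : ℂ) ?_ ?_ 1 (by norm_num)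
    · simp only [one_ne_zero, if_false] at hlog
      obtain ⟨y, hy1, hy2, hy3⟩ := ((hpath.eventually hlog).and (hev1.and hev2)).exists
      have him : 0 < ((e i : ℂ) + (y : ℂ) * Complex.I).im := by simpa using hy3
      rw [hg1] at hy1
      simp only at hy1
      rw [hGi _ hy2 him j, hGi _ hy2 him k] at hy1
      exact sub_eq_zero.1 hy1
    · intro n
      by_cases hn : n = 0
      · simp only [hn, if_true]; exact hg0a
      · simp only [hn, if_false]; exact hg1a
    · filter_upwards [hev1, hev2] with y hy1 hy2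
      have him : 0 < ((e i : ℂ) + (y : ℂ) * Complex.I).im := by simpa using hy2
      have h8 := hrel _ hy1 him
      rw [add_sub_cancel_left] at h8
      simpa [Finset.sum_range_succ] using h8
  -- algebra
  have hij : ∀ i j k : Fin m, i ≠ k → G j i = cc i j * (G k i / cc i k) := by
    intro i j k hik
    have h8 := hstar i j k
    have h9 := cc_ne i k hik
    field_simp
    linear_combination h8
  set i0 : Fin m := ⟨0, by omega⟩ with hi0
  set i1 : Fin m := ⟨1, by omega⟩ with hi1
  have h01 : i0 ≠ i1 := by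
    intro hh
    have := congrArg Fin.val hh
    simp [hi0, hi1] at this
  set lam : ℂ := G i1 i0 / cc i0 i1 with hlam
  have hG0 : ∀ j, G j i0 = cc i0 j * lam := fun j => hij i0 j i1 h01
  have hGall : ∀ i j, G j i = cc i j * lam := by
    intro i j
    by_cases hi : i = i0
    · rw [hi]; exact hG0 j
    · rw [hij i j i0 hi]
      have h8 : G i0 i = -(cc i0 i * lam) := by rw [hGt i0 i, hG0 i]
      rw [h8, cc_anti i0 i]
      have h9 := cc_ne i i0 hi
      field_simp
  have hfin : G = (-lam) • Matrix.of (cc : Fin m → Fin m → ℂ) := by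
    ext j i
    rw [hGall i j, Matrix.smul_apply, Matrix.of_apply, cc_anti i j, smul_eq_mul]
    ring
  have hdet2 : ((-lam) • Matrix.of (cc : Fin m → Fin m → ℂ)).det ≠ 0 := by
    rw [← hfin]; exact hGdet
  rw [Matrix.det_smul] at hdet2
  refine ⟨-lam, ?_, right_ne_zero_of_mul hdet2, ?_⟩
  · intro h0
    apply left_ne_zero_of_mul hdet2
    rw [h0]
    apply zero_pow
    simp
    omega
  · intro z hz
    rw [hGz z hz, hfin]

end Pool.Agent.HEP
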