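import Pool.Agent.HEP.Targets

set_option autoImplicit false

/-! IDT: the identity theorem, in two situations. -/

namespace Pool.Agent.HEP

open Finset Pool.Agent.LEG
open scoped BigOperators Topology

/-- IDT -/
theorem p_IDT : T_IDT := by
  constructor
  · intro f c ρ hρ hf h0 z hz
    have hopen : IsOpen HH := isOpen_lt continuous_const Complex.continuous_im
    have hconv : Convex ℝ HH := convex_halfSpace_im_gt 0
    have han : AnalyticOnNhd ℂ f HH := hf.analyticOnNhd hopen
    set z0 : ℂ := (c : ℂ) + ((ρ / 2 : ℝ) : ℂ) * Complex.I with hz0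
    have him : z0.im = ρ / 2 := by simp [hz0]
    have hz0H : z0 ∈ HH := by
      show 0 < z0.im
      rw [him]
      linarith
    have hz0B : z0 ∈ Metric.ball (c : ℂ) ρ := by
      rw [Metric.mem_ball, dist_eq_norm, hz0, add_sub_cancel_left, norm_mul, Complex.norm_I,
        mul_one, Complex.norm_real, Real.norm_eq_abs, abs_of_pos (by linarith)]
      linarith
    have hev : f =ᶠ[𝓝 z0] 0 := by
      have hU : Metric.ball (c : ℂ) ρ ∩ HH ∈ 𝓝 z0 :=
        (Metric.isOpen_ball.inter hopen).mem_nhds ⟨hz0B, hz0H⟩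
      filter_upwards [hU] with w hw
      exact h0 w hw.1 hw.2
    exact han.eqOn_zero_of_preconnected_of_eventuallyEq_zero hconv.isPreconnected hz0H hev hz
  · intro f ρ hρ hf h0 z hz
    have han : AnalyticOnNhd ℂ f (Metric.ball 0 ρ) := hf.analyticOnNhd Metric.isOpen_ball
    have ht : Filter.Tendsto (fun x : ℝ => (x : ℂ)) (𝓝[≠] 0) (𝓝[≠] 0) := by
      rw [tendsto_nhdsWithin_iff]
      constructor
      · have h1 : Filter.Tendsto (fun x : ℝ => (x : ℂ)) (𝓝 0) (𝓝 0) := by
          have := Complex.continuous_ofReal.tendsto 0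
          rwa [Complex.ofReal_zero] at this
        exact h1.mono_left nhdsWithin_le_nhds
      · filter_upwards [self_mem_nhdsWithin] with x hx
        have hx' : x ≠ 0 := hx
        show (x : ℂ) ≠ 0
        exact_mod_cast hx'
    have hfr : Filter.Frequently (fun x : ℝ => f (x : ℂ) = 0) (𝓝[≠] (0 : ℝ)) := by
      apply Filter.Eventually.frequently
      have h1 : Metric.ball (0 : ℝ) ρ ∈ 𝓝[≠] (0 : ℝ) :=
        nhdsWithin_le_nhds (Metric.ball_mem_nhds 0 hρ)
      filter_upwards [h1] with x hx
      apply h0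
      rwa [Metric.mem_ball, Real.dist_eq, sub_zero] at hx
    have hfr' : ∃ᶠ w in 𝓝[≠] (0 : ℂ), f w = 0 := ht.frequently hfr
    exact han.eqOn_zero_of_preconnected_of_frequently_eq_zero
      (convex_ball (0 : ℂ) ρ).isPreconnected (Metric.mem_ball_self hρ) hfr' hz

end Pool.Agent.HEP
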