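import Pool.Agent.HEP.Targets

set_option autoImplicit false

/-!
# Integrability of `x ^ n / √|∏ (x - b i)|`
-/

open MeasureTheory Set Filter Finset
open scoped BigOperators Topology

namespace Pool.Agent.HEP

namespace INTB_

/-- `1 / √|x|` is interval integrable from `0`. -/
theorem abs_pos (c : ℝ) (hc : 0 ≤ c) :
    IntervalIntegrable (fun x : ℝ => 1 / √|x|) volume 0 c := by
  have h := intervalIntegral.intervalIntegrable_rpow' (a := 0) (b := c) (r := -(1 / 2 : ℝ))
    (by norm_num)
  refine h.congr ?_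
  intro x hx
  rw [uIoc_of_le hc] at hx
  show x ^ (-(1 / 2) : ℝ) = 1 / √|x|
  rw [abs_of_pos hx.1, Real.rpow_neg hx.1.le, Real.sqrt_eq_rpow, one_div, one_div]

theorem abs_neg' (c : ℝ) (hc : 0 ≤ c) :
    IntervalIntegrable (fun x : ℝ => 1 / √|x|) volume (-c) 0 := by
  have h := (abs_pos c hc).comp_mul_left (c := -1)
  have h2 : (fun x : ℝ => 1 / √|(-1) * x|) = fun x : ℝ => 1 / √|x| := by
    funext x
    simp
  rw [h2] at h
  have h3 := h.symm
  simpa [div_neg] using h3

theorem abs_all (p q : ℝ) : IntervalIntegrable (fun x : ℝ => 1 / √|x|) volume p q := by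
  have h0 : ∀ c : ℝ, IntervalIntegrable (fun x : ℝ => 1 / √|x|) volume 0 c := by
    intro c
    rcases le_total 0 c with hc | hc
    · exact abs_pos c hc
    · have h := abs_neg' (-c) (by linarith)
      rw [neg_neg] at h
      exact h.symm
  exact (h0 p).symm.trans (h0 q)

theorem abs_sub (b p q : ℝ) : IntervalIntegrable (fun x : ℝ => 1 / √|x - b|) volume p q := by
  have h := (abs_all (p - b) (q - b)).comp_sub_right b
  simpa using h

theorem sqrt_sum_le {ι : Type*} (s : Finset ι) (f : ι → ℝ) (hf : ∀ i ∈ s, 0 ≤ f i) :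
    √(∑ i ∈ s, f i) ≤ ∑ i ∈ s, √(f i) := by
  classical
  induction s using Finset.induction_on with
  | empty => simp
  | insert a s ha ih =>
    rw [Finset.sum_insert ha, Finset.sum_insert ha]
    have h1 : 0 ≤ f a := hf a (Finset.mem_insert_self a s)
    have h2 : 0 ≤ ∑ i ∈ s, f i := Finset.sum_nonneg fun i hi => hf i (Finset.mem_insert_of_mem hi)
    have h3 := ih fun i hi => hf i (Finset.mem_insert_of_mem hi)
    have h4 : √(f a + ∑ i ∈ s, f i) ≤ √(f a) + √(∑ i ∈ s, f i) := by
      rw [Real.sqrt_le_left (by positivity)]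
      nlinarith only [Real.sq_sqrt h1, Real.sq_sqrt h2, Real.sqrt_nonneg (f a),
        Real.sqrt_nonneg (∑ i ∈ s, f i), mul_nonneg (Real.sqrt_nonneg (f a))
          (Real.sqrt_nonneg (∑ i ∈ s, f i))]
    linarith

/-- partial fractions -/
theorem bound (m : ℕ) (b : Fin (m + 1) → ℝ) (hb : Function.Injective b) :
    ∃ c : Fin (m + 1) → ℝ, (∀ i, 0 ≤ c i) ∧
      ∀ x : ℝ, 1 / √|∏ i, (x - b i)| ≤ ∑ i, c i * (1 / √|x - b i|) := by
  refine ⟨fun i => √|∏ k ∈ univ.erase i, (b i - b k)⁻¹|, fun i => Real.sqrt_nonneg _, fun x => ?_⟩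
  by_cases hx : ∏ i, (x - b i) = 0
  · rw [hx]
    simp only [abs_zero, Real.sqrt_zero, div_zero]
    exact Finset.sum_nonneg fun i _ => by positivity
  · have hne : ∀ i, x - b i ≠ 0 := fun i => (Finset.prod_ne_zero_iff.1 hx) i (mem_univ i)
    have h1 := Lagrange.sum_basis (s := (univ : Finset (Fin (m + 1)))) (v := b) hb.injOn
      ⟨0, mem_univ 0⟩
    have h2 := congrArg (Polynomial.eval x) h1
    rw [Polynomial.eval_finsetSum, Polynomial.eval_one] at h2
    have h3 : ∀ i, (Lagrange.basis (univ : Finset (Fin (m + 1))) b i).eval x =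
        (∏ k ∈ univ.erase i, (b i - b k)⁻¹) * ∏ k ∈ univ.erase i, (x - b k) := by
      intro i
      rw [Lagrange.basis, Polynomial.eval_prod, ← Finset.prod_mul_distrib]
      apply Finset.prod_congr rfl
      intro k _
      rw [Lagrange.basisDivisor]
      simp
    simp only [h3] at h2
    have h4 : (∏ i, (x - b i))⁻¹ = ∑ i, (∏ k ∈ univ.erase i, (b i - b k)⁻¹) * (x - b i)⁻¹ := by
      rw [← mul_one (∏ i, (x - b i))⁻¹, ← h2, Finset.mul_sum]
      apply Finset.sum_congr rfl
      intro i _
      rw [← Finset.mul_prod_erase univ (fun i => x - b i) (mem_univ i)]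
      have h5 : ∏ k ∈ univ.erase i, (x - b k) ≠ 0 :=
        Finset.prod_ne_zero_iff.2 fun k _ => hne k
      have h6 := hne i
      field_simp
    have h5 : 1 / √|∏ i, (x - b i)| = √|(∏ i, (x - b i))⁻¹| := by
      rw [abs_inv, Real.sqrt_inv, one_div]
    rw [h5, h4]
    calc √|∑ i, (∏ k ∈ univ.erase i, (b i - b k)⁻¹) * (x - b i)⁻¹|
        ≤ √(∑ i, |(∏ k ∈ univ.erase i, (b i - b k)⁻¹) * (x - b i)⁻¹|) :=
          Real.sqrt_le_sqrt (Finset.abs_sum_le_sum_abs _ _)
      _ ≤ ∑ i, √|(∏ k ∈ univ.erase i, (b i - b k)⁻¹) * (x - b i)⁻¹| :=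
          sqrt_sum_le _ _ fun i _ => abs_nonneg _
      _ = _ := by
          apply Finset.sum_congr rfl
          intro i _
          rw [abs_mul, Real.sqrt_mul (abs_nonneg _), abs_inv, Real.sqrt_inv, one_div]

end INTB_

open INTB_ in
theorem p_INTB : T_INTB := by
  intro m b hb p q n
  have hmul : ∀ f : ℝ → ℝ, IntervalIntegrable (fun x => 1 / f x) volume p q →
      IntervalIntegrable (fun x => x ^ n / f x) volume p q := by
    intro f hf
    have h := hf.continuousOn_mul (g := fun x : ℝ => x ^ n) (by fun_prop)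
    refine h.congr ?_
    intro x _
    show x ^ n * (1 / f x) = x ^ n / f x
    ring
  apply hmul
  rcases m with _ | m
  · simp
  · obtain ⟨c, hc, hle⟩ := bound m b hb
    have h1 : IntervalIntegrable (fun x => ∑ i, c i * (1 / √|x - b i|)) volume p q := by
      have := IntervalIntegrable.sum (μ := volume) (a := p) (b := q) univ
        (f := fun i x => c i * (1 / √|x - b i|)) fun i _ => (abs_sub (b i) p q).const_mul (c i)
      refine this.congr ?_
      intro x _
      simp
    refine h1.mono_fun ?_ ?_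
    · apply Measurable.aestronglyMeasurable
      have hm : Measurable fun x : ℝ => ∏ i, (x - b i) := by
        have hcont : Continuous fun x : ℝ => ∏ i, (x - b i) := by fun_prop
        exact hcont.measurable
      exact measurable_const.div (hm.abs.sqrt)
    · refine Eventually.of_forall fun x => ?_
      show ‖1 / √|∏ i, (x - b i)|‖ ≤ ‖∑ i, c i * (1 / √|x - b i|)‖
      have h2 : 0 ≤ 1 / √|∏ i, (x - b i)| := by positivity
      rw [Real.norm_of_nonneg h2]
      exact (hle x).trans (le_abs_self _)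

end Pool.Agent.HEP
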