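import Pool.Agent.HEP.Targets

set_option autoImplicit false

/-! # Invariance under the local monodromy (`T_INV`) -/

namespace Pool.Agent.HEP

open Finset
open scoped Topology BigOperators

namespace INV_

/-- evaluation along the line `A + lambda B` -/
noncomputable def PZ {m : ℕ} (A B : Fin m × Fin m → ℂ → ℂ) (z : ℂ) :
    MvPolynomial (Fin m × Fin m) (Polynomial ℂ) →+* Polynomial ℂ :=
  MvPolynomial.eval₂Hom (Polynomial.C.comp (Polynomial.evalRingHom z))
    (fun p => Polynomial.C (A p z) + Polynomial.X * Polynomial.C (B p z))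

theorem PZ_C {m : ℕ} (A B : Fin m × Fin m → ℂ → ℂ) (z : ℂ) (p : Polynomial ℂ) :
    PZ A B z (MvPolynomial.C p) = Polynomial.C (p.eval z) := by
  simp [PZ]

theorem PZ_X {m : ℕ} (A B : Fin m × Fin m → ℂ → ℂ) (z : ℂ) (p : Fin m × Fin m) :
    PZ A B z (MvPolynomial.X p) = Polynomial.C (A p z) + Polynomial.X * Polynomial.C (B p z) := by
  simp [PZ]

theorem PZ_eval {m : ℕ} (A B : Fin m × Fin m → ℂ → ℂ) (z l : ℂ)
    (Ψ : MvPolynomial (Fin m × Fin m) (Polynomial ℂ)) :
    (PZ A B z Ψ).eval l = evP z (Matrix.of fun a j => A (a, j) z + l * B (a, j) z) Ψ := by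
  unfold evP
  induction Ψ using MvPolynomial.induction_on with
  | C p => simp [PZ_C]
  | add p q hp hq => simp [hp, hq]
  | mul_X p n hp =>
    simp only [map_mul, PZ_X, Polynomial.eval_mul, Polynomial.eval_add, Polynomial.eval_C,
      Polynomial.eval_X, hp, MvPolynomial.eval₂_mul, MvPolynomial.eval₂_X, Matrix.of_apply]

theorem PZ_bound {m : ℕ} (A B : Fin m × Fin m → ℂ → ℂ)
    (Ψ : MvPolynomial (Fin m × Fin m) (Polynomial ℂ)) :
    ∃ n : ℕ, ∀ z, (PZ A B z Ψ).natDegree < n := by
  induction Ψ using MvPolynomial.induction_on with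
  | C p => exact ⟨1, fun z => by rw [PZ_C]; simp⟩
  | add p q hp hq =>
    obtain ⟨n1, h1⟩ := hp
    obtain ⟨n2, h2⟩ := hq
    refine ⟨n1 + n2, fun z => ?_⟩
    rw [map_add]
    have := Polynomial.natDegree_add_le (PZ A B z p) (PZ A B z q)
    have h3 := h1 z
    have h4 := h2 z
    omega
  | mul_X p n hp =>
    obtain ⟨n1, h1⟩ := hp
    refine ⟨n1 + 1, fun z => ?_⟩
    rw [map_mul, PZ_X]
    have h3 := h1 z
    have h4 := Polynomial.natDegree_mul_le (p := PZ A B z p)
      (q := Polynomial.C (A n z) + Polynomial.X * Polynomial.C (B n z))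
    have h5 : (Polynomial.C (A n z) + Polynomial.X * Polynomial.C (B n z)).natDegree ≤ 1 := by
      refine (Polynomial.natDegree_add_le _ _).trans ?_
      rw [Polynomial.natDegree_C]
      refine max_le (by omega) ?_
      refine Polynomial.natDegree_mul_le.trans ?_
      simp
    omega

theorem PZ_analytic {m : ℕ} (A B : Fin m × Fin m → ℂ → ℂ) (c : ℂ)
    (hA : ∀ p, AnalyticAt ℂ (A p) c) (hB : ∀ p, AnalyticAt ℂ (B p) c)
    (Ψ : MvPolynomial (Fin m × Fin m) (Polynomial ℂ)) :
    ∀ k : ℕ, AnalyticAt ℂ (fun z => (PZ A B z Ψ).coeff k) c := by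
  induction Ψ using MvPolynomial.induction_on with
  | C p =>
    intro k
    simp only [PZ_C, Polynomial.coeff_C]
    by_cases hk : k = 0
    · simp only [hk, if_true]
      exact (Polynomial.differentiable p).analyticAt c
    · simp only [hk, if_false]
      exact analyticAt_const
  | add p q hp hq =>
    intro k
    simp only [map_add, Polynomial.coeff_add]
    exact (hp k).add (hq k)
  | mul_X p n hp =>
    intro k
    have h1 : ∀ z, (PZ A B z (p * MvPolynomial.X n)).coeff k =
        (PZ A B z p).coeff k * A n z +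
          (if k = 0 then 0 else (PZ A B z p).coeff (k - 1) * B n z) := by
      intro z
      rw [map_mul, PZ_X, mul_add, Polynomial.coeff_add, Polynomial.coeff_mul_C,
        ← mul_assoc, Polynomial.coeff_mul_C]
      rcases k with _ | k
      · simp
      · simp [Polynomial.coeff_mul_X]
    simp only [h1]
    by_cases hk : k = 0
    · simp only [hk, if_true, add_zero]
      exact (hp 0).mul (hA n)
    · simp only [hk, if_false]
      exact ((hp k).mul (hA n)).add ((hp (k - 1)).mul (hB n))

theorem evP_diff {m : ℕ} (D : ℂ → Matrix (Fin m) (Fin m) ℂ) (U : Set ℂ)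
    (hD : ∀ a j, DifferentiableOn ℂ (fun z => D z a j) U)
    (Ψ : MvPolynomial (Fin m × Fin m) (Polynomial ℂ)) :
    DifferentiableOn ℂ (fun z => evP z (D z) Ψ) U := by
  unfold evP
  induction Ψ using MvPolynomial.induction_on with
  | C p =>
    simp only [MvPolynomial.eval₂_C, Polynomial.coe_evalRingHom]
    exact (Polynomial.differentiable p).differentiableOn
  | add p q hp hq =>
    simp only [MvPolynomial.eval₂_add]
    exact hp.add hq
  | mul_X p n hp =>
    simp only [MvPolynomial.eval₂_mul, MvPolynomial.eval₂_X]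
    exact hp.mul (hD n.1 n.2)

theorem PZ_deriv {m : ℕ} (i : Fin m) (A B : Fin m × Fin m → ℂ → ℂ) (z l : ℂ)
    (D : Matrix (Fin m) (Fin m) ℂ)
    (hD : ∀ a j, D a j = A (a, j) z + l * B (a, j) z)
    (hB : ∀ a j, B (a, j) z = cc i j * D a i)
    (Ψ : MvPolynomial (Fin m × Fin m) (Polynomial ℂ)) :
    (Polynomial.derivative (PZ A B z Ψ)).eval l = evP z D (dM (Ni i) Ψ) := by
  have hDm : D = Matrix.of fun a j => A (a, j) z + l * B (a, j) z := by
    ext a j
    rw [hD a j]
    rfl
  induction Ψ using MvPolynomial.induction_on with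
  | C p =>
    rw [PZ_C]
    have : dM (Ni i) (MvPolynomial.C p) = 0 := by
      unfold dM
      rw [← MvPolynomial.algebraMap_eq]
      exact Derivation.map_algebraMap _ _
    rw [this]
    simp [evP]
  | add p q hp hq =>
    rw [map_add, map_add, Polynomial.eval_add, hp, hq, map_add]
    simp [evP]
  | mul_X p n hp =>
    have h1 := PZ_eval A B z l p
    rw [← hDm] at h1
    have h2 : evP z D (dM (Ni i) (MvPolynomial.X n)) = B n z := by
      unfold dM evP
      rw [MvPolynomial.mkDerivation_X, MvPolynomial.eval₂_sum]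
      simp only [MvPolynomial.eval₂_mul, MvPolynomial.eval₂_C, MvPolynomial.eval₂_X, Ni,
        Matrix.of_apply, Polynomial.coe_evalRingHom, Polynomial.eval_C]
      rw [Finset.sum_eq_single i]
      · rw [if_pos rfl]
        exact (hB n.1 n.2).symm
      · intro b _ hb
        rw [if_neg hb, zero_mul]
      · intro h
        exact absurd (mem_univ i) h
    have h3 : evP z D (MvPolynomial.X n) = A n z + l * B n z := by
      unfold evP
      rw [MvPolynomial.eval₂_X, hD n.1 n.2]
    have h4 : evP z D (dM (Ni i) (p * MvPolynomial.X n)) =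
        evP z D p * evP z D (dM (Ni i) (MvPolynomial.X n)) +
        evP z D (MvPolynomial.X n) * evP z D (dM (Ni i) p) := by
      rw [Derivation.leibniz]
      unfold evP
      simp only [smul_eq_mul, MvPolynomial.eval₂_add, MvPolynomial.eval₂_mul]
    rw [h4, h2, h3, ← hp, ← h1, map_mul, PZ_X, Polynomial.derivative_mul]
    simp only [Polynomial.derivative_add, Polynomial.derivative_C, Polynomial.derivative_mul,
      Polynomial.derivative_X, Polynomial.eval_add, Polynomial.eval_mul, Polynomial.eval_C,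
      Polynomial.eval_X, mul_zero, add_zero, zero_add, one_mul]
    ring

end INV_

open INV_ in
theorem p_INV (h1 : T_LOCX) (h2 : T_LOGT) (h3 : T_DAN) (h4 : T_IDT) : T_INV := by
  intro m e Ψ he hΨ i
  obtain ⟨ρ, Ah, Gh, hρ, hAh, hGh, hloc⟩ := h1 m e i he
  set A : Fin m × Fin m → ℂ → ℂ := fun p z => Ah p.1 p.2 z with hA
  set B : Fin m × Fin m → ℂ → ℂ := fun p z => cc i p.2 * Gh p.1 z with hB
  have hc : (e i : ℂ) ∈ Metric.ball (e i : ℂ) ρ := Metric.mem_ball_self hρ
  have hAa : ∀ p, AnalyticAt ℂ (A p) (e i) := fun p =>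
    (hAh p.1 p.2).analyticAt (Metric.isOpen_ball.mem_nhds hc)
  have hBa : ∀ p, AnalyticAt ℂ (B p) (e i) := fun p =>
    analyticAt_const.mul ((hGh p.1).analyticAt (Metric.isOpen_ball.mem_nhds hc))
  have hDm : ∀ z ∈ Metric.ball (e i : ℂ) ρ, 0 < z.im → ∀ a j, Dm e z a j =
      A (a, j) z + Complex.log (z - e i) * B (a, j) z := by
    intro z hz hz' a j
    simp only [Dm, Matrix.of_apply, hA, hB]
    rw [(hloc z hz hz' a).2 j]
    ring
  have hBm : ∀ z ∈ Metric.ball (e i : ℂ) ρ, 0 < z.im → ∀ a j, B (a, j) z =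
      cc i j * Dm e z a i := by
    intro z hz hz' a j
    simp only [Dm, Matrix.of_apply, hB]
    rw [(hloc z hz hz' a).1]
  obtain ⟨n, hn⟩ := PZ_bound A B Ψ
  have hlog := h2 n (fun k z => (PZ A B z Ψ).coeff k) (e i)
    (fun k => PZ_analytic A B (e i) hAa hBa Ψ k) (by
      have h5 : ∀ᶠ y : ℝ in 𝓝[>] (0 : ℝ), y < ρ :=
        nhdsWithin_le_nhds (Iio_mem_nhds hρ)
      have h6 : ∀ᶠ y : ℝ in 𝓝[>] (0 : ℝ), 0 < y := self_mem_nhdsWithin
      filter_upwards [h5, h6] with y hy1 hy2
      set z : ℂ := (e i : ℂ) + (y : ℂ) * Complex.I with hz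
      have hzb : z ∈ Metric.ball (e i : ℂ) ρ := by
        rw [Metric.mem_ball, dist_eq_norm, hz, add_sub_cancel_left, norm_mul, Complex.norm_I,
          mul_one, Complex.norm_real, Real.norm_of_nonneg hy2.le]
        exact hy1
      have hzi : 0 < z.im := by
        rw [hz]
        simpa using hy2
      have hzl : (y : ℂ) * Complex.I = z - e i := by rw [hz]; ring
      rw [hzl, ← Polynomial.eval_eq_sum_range' (hn z), PZ_eval]
      have h7 : Dm e z = Matrix.of fun a j => A (a, j) z + Complex.log (z - e i) * B (a, j) z := by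
        ext a j
        rw [hDm z hzb hzi a j]
        rfl
      rw [← h7]
      exact hΨ z hzi)
  have hzero : ∀ᶠ z in 𝓝 (e i : ℂ), PZ A B z Ψ = 0 := by
    have h5 : ∀ᶠ z in 𝓝 (e i : ℂ), ∀ k ∈ range n, (PZ A B z Ψ).coeff k = 0 := by
      rw [Filter.eventually_all_finset]
      intro k hk
      exact hlog k (mem_range.1 hk)
    filter_upwards [h5] with z hz
    ext k
    by_cases hk : k < n
    · rw [hz k (mem_range.2 hk), Polynomial.coeff_zero]
    · rw [Polynomial.coeff_zero]
      exact Polynomial.coeff_eq_zero_of_natDegree_lt (lt_of_lt_of_le (hn z) (not_lt.1 hk))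
  obtain ⟨δ, hδ, hδz⟩ := Metric.eventually_nhds_iff_ball.1 hzero
  have hlocal : ∀ z ∈ Metric.ball (e i : ℂ) (min δ ρ), 0 < z.im →
      evP z (Dm e z) (dM (Ni i) Ψ) = 0 := by
    intro z hz hzi
    have hz1 : z ∈ Metric.ball (e i : ℂ) δ := Metric.ball_subset_ball (min_le_left _ _) hz
    have hz2 : z ∈ Metric.ball (e i : ℂ) ρ := Metric.ball_subset_ball (min_le_right _ _) hz
    rw [← PZ_deriv i A B z (Complex.log (z - e i)) (Dm e z) (hDm z hz2 hzi) (hBm z hz2 hzi) Ψ,
      hδz z hz1]
    simp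
  have hdiff : DifferentiableOn ℂ (fun z => evP z (Dm e z) (dM (Ni i) Ψ)) HH := by
    apply evP_diff
    intro a j
    exact h3 m e a j he
  exact fun z hz => h4.1 _ (e i) (min δ ρ) (lt_min hδ hρ) hdiff hlocal z hz

end Pool.Agent.HEP
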