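import Pool.Agent.HEP.Targets

set_option autoImplicit false

/-! # The basic integrals (`T_J`) -/

namespace Pool.Agent.HEP

open scoped Topology

namespace J_

open MeasureTheory intervalIntegral

theorem slit_add {τ : ℂ} (h : τ ∈ Complex.slitPlane) {r : ℝ} (hr : 0 ≤ r) :
    τ + r ∈ Complex.slitPlane := by
  rw [Complex.mem_slitPlane_iff] at h ⊢
  rcases h with h | h
  · left
    simp only [Complex.add_re, Complex.ofReal_re]
    linarith
  · right
    simpa using h

theorem re_pos_of_ball {η : ℝ} {τ : ℂ} (h : τ ∈ Metric.ball (0 : ℂ) η) : 0 < (τ + η).re := by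
  rw [Metric.mem_ball, dist_zero_right] at h
  have h1 := Complex.abs_re_le_norm τ
  have h2 := (abs_le.mp h1).1
  simp only [Complex.add_re, Complex.ofReal_re]
  linarith

theorem slit_of_re {w : ℂ} (h : 0 < w.re) : w ∈ Complex.slitPlane := by
  rw [Complex.mem_slitPlane_iff]
  exact Or.inl h

theorem arg_re (hS : T_SQP) {τ : ℂ} (h : τ ∈ Complex.slitPlane) (s : ℝ) (hs : 0 ≤ s) :
    0 < ((s : ℂ) + sq τ).re := by
  have h1 := (hS.2.1 τ h).2
  simp only [Complex.add_re, Complex.ofReal_re]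
  linarith

theorem cont_sq (hS : T_SQP) {τ : ℂ} (h : τ ∈ Complex.slitPlane) (η : ℝ) :
    ContinuousOn (fun r : ℝ => sq (τ + r)) (Set.Icc 0 η) := by
  intro r hr
  have h1 := (hS.2.1 _ (slit_add h hr.1)).1.continuousAt
  have h2 : ContinuousAt (fun r : ℝ => τ + (r : ℂ)) r := by fun_prop
  exact (ContinuousAt.comp (f := fun r : ℝ => τ + (r : ℂ)) (g := sq) h1 h2).continuousWithinAt

theorem integ (hS : T_SQP) {η : ℝ} (hη : 0 < η) {τ : ℂ} (h : τ ∈ Complex.slitPlane) (n : ℕ) :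
    IntervalIntegrable (fun r : ℝ => (r : ℂ) ^ n / ((Real.sqrt r : ℂ) * sq (τ + r)))
      volume 0 η := by
  have h1 : IntervalIntegrable (fun r : ℝ => r ^ (-(1 / 2) : ℝ)) volume 0 η :=
    intervalIntegral.intervalIntegrable_rpow' (by norm_num)
  have h2 : IntervalIntegrable (fun r : ℝ => ((r ^ (-(1 / 2) : ℝ) : ℝ) : ℂ)) volume 0 η :=
    ⟨h1.1.ofReal, h1.2.ofReal⟩
  have h3 : ContinuousOn (fun r : ℝ => (r : ℂ) ^ n / sq (τ + r)) (Set.uIcc 0 η) := by
    rw [Set.uIcc_of_le hη.le]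
    refine ContinuousOn.div (by fun_prop) (cont_sq hS h η) (fun r hr => ?_)
    have h4 := (hS.2.1 _ (slit_add h hr.1)).2
    intro h0
    rw [h0] at h4
    simp at h4
  have h4 := h2.mul_continuousOn h3
  refine h4.congr ?_
  intro r hr
  rw [Set.uIoc_of_le hη.le] at hr
  have h5 : r ^ (-(1 / 2) : ℝ) = (Real.sqrt r)⁻¹ := by
    rw [Real.rpow_neg hr.1.le, ← Real.sqrt_eq_rpow]
  simp only [h5]
  push_cast
  rw [div_eq_mul_inv, div_eq_mul_inv, mul_inv]
  ring

theorem deriv_sqrt {r : ℝ} (hr : 0 < r) :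
    HasDerivAt (fun r : ℝ => (Real.sqrt r : ℂ)) (1 / (2 * (Real.sqrt r : ℂ))) r := by
  have h1 := (Real.hasDerivAt_sqrt hr.ne').ofReal_comp
  convert h1 using 1
  push_cast
  rfl

theorem deriv_sq (hS : T_SQP) {τ : ℂ} (h : τ ∈ Complex.slitPlane) {r : ℝ} (hr : 0 ≤ r) :
    HasDerivAt (fun r : ℝ => sq (τ + r)) (1 / (2 * sq (τ + r))) r := by
  have h1 := (hS.2.1 _ (slit_add h hr)).1
  exact (HasDerivAt.comp_const_add τ (r : ℂ) h1).comp_ofReal

theorem sqrt_sq {r : ℝ} (hr : 0 ≤ r) : (Real.sqrt r : ℂ) * (Real.sqrt r : ℂ) = (r : ℂ) := by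
  rw [← Complex.ofReal_mul, Real.mul_self_sqrt hr]

/-- the case `n = 0` -/
theorem base (hS : T_SQP) {η : ℝ} (hη : 0 < η) {τ : ℂ} (h : τ ∈ Complex.slitPlane) :
    ∫ r in (0 : ℝ)..η, (r : ℂ) ^ 0 / ((Real.sqrt r : ℂ) * sq (τ + r)) =
      2 * Complex.log ((Real.sqrt η : ℂ) + sq (τ + η)) - Complex.log τ := by
  have hF := intervalIntegral.integral_eq_sub_of_hasDerivAt_of_le hη.le
    (f := fun r : ℝ => 2 * Complex.log ((Real.sqrt r : ℂ) + sq (τ + r)))
    (f' := fun r : ℝ => (r : ℂ) ^ 0 / ((Real.sqrt r : ℂ) * sq (τ + r))) ?_ ?_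
    (integ hS hη h 0)
  · rw [hF]
    congr 1
    rw [Real.sqrt_zero, Complex.ofReal_zero, zero_add, add_zero]
    have h1 : sq τ = Complex.exp (Complex.log τ / 2) := by
      unfold sq
      rw [Complex.cpow_def_of_ne_zero (Complex.slitPlane_ne_zero h)]
      congr 1
      ring
    have h2 : (Complex.log τ / 2).im = τ.arg / 2 := by
      rw [← Complex.log_im]
      simp
    have h3 := Complex.neg_pi_lt_arg τ
    have h4 := Complex.arg_le_pi τ
    have h5 := Real.pi_pos
    rw [h1, Complex.log_exp (by rw [h2]; linarith) (by rw [h2]; linarith)]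
    ring
  · refine ContinuousOn.mul continuousOn_const (ContinuousOn.clog ?_ ?_)
    · exact ContinuousOn.add (Complex.continuous_ofReal.comp Real.continuous_sqrt).continuousOn
        (cont_sq hS h η)
    · intro r hr
      exact slit_of_re (arg_re hS (slit_add h hr.1) _ (Real.sqrt_nonneg r))
  · intro r hr
    have hs : (Real.sqrt r : ℂ) ≠ 0 := by
      rw [Ne, Complex.ofReal_eq_zero, Real.sqrt_eq_zero hr.1.le]
      exact hr.1.ne'
    have hq : sq (τ + r) ≠ 0 := by
      have h4 := (hS.2.1 _ (slit_add h hr.1.le)).2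
      intro h0
      rw [h0] at h4
      simp at h4
    have hsum := arg_re hS (slit_add h hr.1.le) _ (Real.sqrt_nonneg r)
    have hne : (Real.sqrt r : ℂ) + sq (τ + r) ≠ 0 := by
      intro h0
      rw [h0] at hsum
      simp at hsum
    have h1 : HasDerivAt (fun r : ℝ => (Real.sqrt r : ℂ) + sq (τ + r)) _ r :=
      (deriv_sqrt hr.1).add (deriv_sq hS h hr.1.le)
    have h2 := (h1.clog_real (slit_of_re hsum)).const_mul 2
    refine h2.congr_deriv ?_
    rw [pow_zero]
    generalize (Real.sqrt r : ℂ) = u at *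
    generalize sq (τ + r) = q at *
    field_simp
    ring

/-- the recursion -/
theorem step (hS : T_SQP) {η : ℝ} (hη : 0 < η) {τ : ℂ} (h : τ ∈ Complex.slitPlane) (k : ℕ) :
    ((k : ℂ) + 1) * ∫ r in (0 : ℝ)..η, (r : ℂ) ^ (k + 1) / ((Real.sqrt r : ℂ) * sq (τ + r)) =
      (η : ℂ) ^ k * (Real.sqrt η : ℂ) * sq (τ + η) - ((k : ℂ) + 1 / 2) * τ *
        ∫ r in (0 : ℝ)..η, (r : ℂ) ^ k / ((Real.sqrt r : ℂ) * sq (τ + r)) := by
  have i1 := (integ hS hη h (k + 1)).const_mul ((k : ℂ) + 1)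
  have i2 := (integ hS hη h k).const_mul (((k : ℂ) + 1 / 2) * τ)
  have hF := intervalIntegral.integral_eq_sub_of_hasDerivAt_of_le hη.le
    (f := fun r : ℝ => (r : ℂ) ^ k * (Real.sqrt r : ℂ) * sq (τ + r))
    (f' := fun r : ℝ => ((k : ℂ) + 1) * ((r : ℂ) ^ (k + 1) / ((Real.sqrt r : ℂ) * sq (τ + r))) +
      (((k : ℂ) + 1 / 2) * τ) * ((r : ℂ) ^ k / ((Real.sqrt r : ℂ) * sq (τ + r)))) ?_ ?_
    (i1.add i2)
  · rw [intervalIntegral.integral_add i1 i2, intervalIntegral.integral_const_mul,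
      intervalIntegral.integral_const_mul] at hF
    rw [Real.sqrt_zero] at hF
    simp only [Complex.ofReal_zero, mul_zero, zero_mul, sub_zero] at hF
    linear_combination hF
  · refine ContinuousOn.mul (ContinuousOn.mul (by fun_prop) ?_) (cont_sq hS h η)
    exact (Complex.continuous_ofReal.comp Real.continuous_sqrt).continuousOn
  · intro r hr
    have hs : (Real.sqrt r : ℂ) ≠ 0 := by
      rw [Ne, Complex.ofReal_eq_zero, Real.sqrt_eq_zero hr.1.le]
      exact hr.1.ne'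
    have hq : sq (τ + r) ≠ 0 := by
      have h4 := (hS.2.1 _ (slit_add h hr.1.le)).2
      intro h0
      rw [h0] at h4
      simp at h4
    have e1 := sqrt_sq hr.1.le
    have e2 := hS.1 (τ + r)
    have hp : HasDerivAt (fun r : ℝ => (r : ℂ) ^ k) ((k : ℂ) * (r : ℂ) ^ (k - 1)) r :=
      (hasDerivAt_pow k (r : ℂ)).comp_ofReal
    have h1 : HasDerivAt (fun r : ℝ => (r : ℂ) ^ k * (Real.sqrt r : ℂ) * sq (τ + r)) _ r :=
      (hp.mul (deriv_sqrt hr.1)).mul (deriv_sq hS h hr.1.le)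
    refine h1.congr_deriv ?_
    show ((k : ℂ) * (r : ℂ) ^ (k - 1) * (Real.sqrt r : ℂ) + (r : ℂ) ^ k *
      (1 / (2 * (Real.sqrt r : ℂ)))) * sq (τ + r) + (r : ℂ) ^ k * (Real.sqrt r : ℂ) *
        (1 / (2 * sq (τ + r))) = _
    have hk : (k : ℂ) * (r : ℂ) ^ (k - 1) * (r : ℂ) = k * (r : ℂ) ^ k := by
      rcases k with _ | k
      · simp
      · rw [Nat.add_sub_cancel, pow_succ]
        ring
    generalize (Real.sqrt r : ℂ) = u at *
    generalize sq (τ + r) = q at *
    generalize (r : ℂ) ^ (k - 1) = P at *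
    rw [pow_succ]
    generalize (r : ℂ) ^ k = R at *
    rw [← e1] at hk e2 ⊢
    have e3 : τ = q * q - u * u := by linear_combination -e2
    rw [e3]
    have e4 : (k : ℂ) * P = k * R / (u * u) := by
      field_simp
      linear_combination hk
    rw [e4]
    field_simp
    ring

/-- the functions `α` -/
noncomputable def al (η : ℝ) : ℕ → ℂ → ℂ
  | 0 => fun τ => 2 * Complex.log ((Real.sqrt η : ℂ) + sq (τ + η))
  | k + 1 => fun τ => ((2 * (k : ℂ) + 1) / (2 * k + 2)) * τ * al η k τ +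
      (-1) ^ (k + 1) * ((η : ℂ) ^ k * (Real.sqrt η : ℂ) * sq (τ + η) / (k + 1))

theorem diff_sq (hS : T_SQP) (η : ℝ) :
    DifferentiableOn ℂ (fun τ : ℂ => sq (τ + η)) (Metric.ball 0 η) := by
  intro τ hτ
  have h1 := (hS.2.1 _ (slit_of_re (re_pos_of_ball hτ))).1
  exact (HasDerivAt.comp_add_const τ (η : ℂ) h1).differentiableAt.differentiableWithinAt

theorem diff_al (hS : T_SQP) (η : ℝ) (n : ℕ) :
    DifferentiableOn ℂ (al η n) (Metric.ball 0 η) := by
  induction n with
  | zero =>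
    refine DifferentiableOn.const_mul (DifferentiableOn.clog ?_ ?_) 2
    · exact (differentiableOn_const _).add (diff_sq hS η)
    · intro τ hτ
      exact slit_of_re (arg_re hS (slit_of_re (re_pos_of_ball hτ)) _ (Real.sqrt_nonneg η))
  | succ k ih =>
    refine DifferentiableOn.add ?_ ?_
    · exact ((differentiableOn_const _).mul differentiableOn_id).mul ih
    · refine (differentiableOn_const _).mul (DifferentiableOn.div_const ?_ _)
      exact (differentiableOn_const _).mul (diff_sq hS η)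

theorem bm_succ (k : ℕ) : (bm (k + 1) : ℂ) = (2 * (k : ℂ) + 1) / (2 * k + 2) * (bm k : ℂ) := by
  have h1 := Nat.succ_mul_centralBinom_succ k
  have h2 : ((k : ℂ) + 1) * (Nat.centralBinom (k + 1) : ℂ) =
      2 * (2 * k + 1) * (Nat.centralBinom k : ℂ) := by
    exact_mod_cast h1
  have h3 : ((k : ℂ) + 1) ≠ 0 := by exact_mod_cast Nat.succ_ne_zero k
  have h4 : (2 * (k : ℂ) + 2) ≠ 0 := by
    have : (2 * (k : ℂ) + 2) = 2 * ((k : ℂ) + 1) := by ring
    rw [this]
    exact mul_ne_zero two_ne_zero h3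
  unfold bm
  push_cast
  rw [pow_succ]
  field_simp
  linear_combination (2 : ℂ) * h2

theorem formula (hS : T_SQP) {η : ℝ} (hη : 0 < η) {τ : ℂ} (h : τ ∈ Complex.slitPlane) (n : ℕ) :
    ∫ r in (0 : ℝ)..η, (r : ℂ) ^ n / ((Real.sqrt r : ℂ) * sq (τ + r)) =
      (-1) ^ (n + 1) * (bm n : ℂ) * τ ^ n * Complex.log τ + (-1) ^ n * al η n τ := by
  induction n with
  | zero =>
    rw [base hS hη h]
    have h1 : (bm 0 : ℂ) = 1 := by
      unfold bm
      simp
    rw [h1]
    simp only [al]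
    ring
  | succ k ih =>
    have h1 := step hS hη h k
    rw [ih] at h1
    have h3 : ((k : ℂ) + 1) ≠ 0 := by exact_mod_cast Nat.succ_ne_zero k
    have h4 : (2 * (k : ℂ) + 2) = 2 * ((k : ℂ) + 1) := by ring
    have h5 : ∫ r in (0 : ℝ)..η, (r : ℂ) ^ (k + 1) / ((Real.sqrt r : ℂ) * sq (τ + r)) =
        ((η : ℂ) ^ k * (Real.sqrt η : ℂ) * sq (τ + η) - ((k : ℂ) + 1 / 2) * τ *
          ((-1) ^ (k + 1) * (bm k : ℂ) * τ ^ k * Complex.log τ + (-1) ^ k * al η k τ)) /
            ((k : ℂ) + 1) := by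
      rw [eq_div_iff h3]
      linear_combination h1
    rw [h5, bm_succ, h4]
    simp only [al]
    rw [h4]
    have h6 : ((-1 : ℂ)) ^ (k + 1) * (-1) ^ (k + 1) = 1 := by
      rw [← mul_pow]
      simp
    have h7 : ((-1 : ℂ)) ^ (k + 1) = -(-1) ^ k := by ring
    have h8 : ((-1 : ℂ)) ^ (k + 1 + 1) = (-1) ^ k := by ring
    have h9 : ((-1 : ℂ)) ^ k * (-1) ^ k = 1 := by
      rw [← mul_pow]
      simp
    rw [h7, h8]
    generalize ((-1 : ℂ)) ^ k = e at *
    field_simp
    linear_combination (-2 * (η : ℂ) ^ k * (Real.sqrt η : ℂ) * sq (τ + η)) * h9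

end J_

open J_ in
theorem p_J (h1 : T_SQP) : T_J := by
  intro η hη
  have hc : ContinuousOn (al η 0) (Metric.closedBall 0 (η / 2)) :=
    (diff_al h1 η 0).continuousOn.mono (Metric.closedBall_subset_ball (by linarith))
  obtain ⟨K0, hK0⟩ := (isCompact_closedBall (0 : ℂ) (η / 2)).exists_bound_of_continuousOn hc
  refine ⟨al η, max K0 3, fun n => ⟨diff_al h1 η n, ?_, ?_⟩⟩
  · intro τ hτ
    have hτ' : ‖τ‖ < η / 2 := by simpa using hτ
    have hK3 : (3 : ℝ) ≤ max K0 3 := le_max_right _ _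
    set K := max K0 3 with hK
    induction n with
    | zero =>
      rw [pow_zero, mul_one]
      exact (hK0 τ (Metric.ball_subset_closedBall hτ)).trans (le_max_left _ _)
    | succ k ih =>
      have e1 : ‖sq (τ + η)‖ ≤ Real.sqrt (2 * η) := by
        rw [h1.2.2.2.2.2.1]
        refine Real.sqrt_le_sqrt ?_
        calc ‖τ + η‖ ≤ ‖τ‖ + ‖(η : ℂ)‖ := norm_add_le _ _
          _ ≤ η / 2 + η := by
            rw [Complex.norm_real, Real.norm_of_nonneg hη.le]
            linarith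
          _ ≤ 2 * η := by linarith
      have e2 : Real.sqrt η * Real.sqrt (2 * η) ≤ 3 / 2 * η := by
        rw [← Real.sqrt_mul hη.le]
        refine Real.sqrt_le_iff.mpr ⟨by positivity, ?_⟩
        nlinarith [sq_nonneg η]
      have e3 : ‖((2 * (k : ℂ) + 1) / (2 * k + 2))‖ ≤ 1 := by
        have : ((2 * (k : ℂ) + 1) / (2 * k + 2)) =
            (((2 * (k : ℝ) + 1) / (2 * k + 2) : ℝ) : ℂ) := by
          push_cast
          rfl
        rw [this, Complex.norm_real, Real.norm_of_nonneg (by positivity)]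
        rw [div_le_one (by positivity)]
        linarith
      have e4 : ‖(((-1 : ℂ)) ^ (k + 1) * ((η : ℂ) ^ k * (Real.sqrt η : ℂ) * sq (τ + η) /
          (k + 1)))‖ ≤ 3 / 2 * η ^ (k + 1) := by
        rw [norm_mul, norm_pow, norm_neg, norm_one, one_pow, one_mul, norm_div, norm_mul,
          norm_mul, norm_pow, Complex.norm_real, Complex.norm_real,
          Real.norm_of_nonneg hη.le, Real.norm_of_nonneg (Real.sqrt_nonneg η)]
        have e5 : (1 : ℝ) ≤ ‖(k : ℂ) + 1‖ := by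
          have : (k : ℂ) + 1 = (((k : ℝ) + 1 : ℝ) : ℂ) := by
            push_cast
            rfl
          rw [this, Complex.norm_real, Real.norm_of_nonneg (by positivity)]
          have : (0 : ℝ) ≤ k := Nat.cast_nonneg k
          linarith
        have e6 : η ^ k * Real.sqrt η * ‖sq (τ + η)‖ ≤ 3 / 2 * η ^ (k + 1) := by
          calc η ^ k * Real.sqrt η * ‖sq (τ + η)‖ ≤ η ^ k * Real.sqrt η * Real.sqrt (2 * η) := by
                gcongr
            _ = η ^ k * (Real.sqrt η * Real.sqrt (2 * η)) := by ring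
            _ ≤ η ^ k * (3 / 2 * η) := by gcongr
            _ = _ := by ring
        refine (div_le_self (by positivity) e5).trans e6
      have e7 : ‖((2 * (k : ℂ) + 1) / (2 * k + 2)) * τ * al η k τ‖ ≤
          K / 2 * η ^ (k + 1) := by
        rw [norm_mul, norm_mul]
        have ih' := ih
        have : ‖τ‖ ≤ η / 2 := hτ'.le
        calc ‖((2 * (k : ℂ) + 1) / (2 * k + 2))‖ * ‖τ‖ * ‖al η k τ‖ ≤
              1 * (η / 2) * (K * η ^ k) := by gcongr
          _ = _ := by ring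
      have e8 : al η (k + 1) τ = ((2 * (k : ℂ) + 1) / (2 * k + 2)) * τ * al η k τ +
          ((-1 : ℂ)) ^ (k + 1) * ((η : ℂ) ^ k * (Real.sqrt η : ℂ) * sq (τ + η) / (k + 1)) := rfl
      rw [e8]
      refine (norm_add_le _ _).trans ?_
      have e9 : (0 : ℝ) < η ^ (k + 1) := by positivity
      nlinarith
  · intro τ _ hs
    exact formula h1 hη hs n

end Pool.Agent.HEP
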