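import Pool.Agent.HEP.Targets

set_option autoImplicit false

/-! KIL: the reduction kills the exact forms. -/

namespace Pool.Agent.HEP

open Finset Pool.Agent.LEG
open scoped BigOperators Topology

namespace KIL_

/-- the exact form of `x^{-i}`, multiplied by `x^i` -/
noncomputable def Ep (h : Polynomial ℚ) (i : ℕ) : Polynomial ℚ :=
  Polynomial.C (1 / 2 - (i : ℚ)) * h + Polynomial.C (1 / 2) * Polynomial.X *
    Polynomial.derivative h

lemma coeff_Ep (h : Polynomial ℚ) (i t : ℕ) :
    (Ep h i).coeff t = (1 / 2 - (i : ℚ) + t / 2) * h.coeff t := by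
  unfold Ep
  rw [Polynomial.coeff_add, Polynomial.coeff_C_mul, mul_assoc, Polynomial.coeff_C_mul]
  cases t with
  | zero => simp [Polynomial.mul_coeff_zero]
  | succ t =>
    rw [Polynomial.coeff_X_mul, Polynomial.coeff_derivative]
    push_cast
    ring

lemma expand (h : Polynomial ℚ) (m j : ℕ) (hm : h.natDegree = m) :
    Ep h j = ∑ t ∈ range (m + 1), Polynomial.C ((1 / 2 - (j : ℚ) + t / 2) * h.coeff t) *
      Polynomial.X ^ t := by
  ext n
  rw [coeff_Ep, Polynomial.finsetSum_coeff]
  simp only [Polynomial.coeff_C_mul, Polynomial.coeff_X_pow, mul_ite, mul_one, mul_zero]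
  rw [Finset.sum_ite_eq]
  split_ifs with hn
  · rfl
  · rw [mem_range] at hn
    rw [Polynomial.coeff_eq_zero_of_natDegree_lt (by omega), mul_zero]

lemma half_ne (n : ℕ) : (1 / 2 - (n : ℚ)) ≠ 0 := by
  intro h
  have h1 : (1 : ℚ) = 2 * n := by linarith
  have h2 : (1 : ℕ) = 2 * n := by exact_mod_cast h1
  omega

lemma uniq (h : Polynomial ℚ) (h0 : h.coeff 0 ≠ 0) (j : ℕ) (d : ℕ → ℚ)
    (hd : (Polynomial.X : Polynomial ℚ) ^ j ∣
      ∑ i ∈ Icc 1 j, Polynomial.C (d i) * Polynomial.X ^ (j - i) * Ep h i) :
    ∀ i ∈ Icc 1 j, d i = 0 := by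
  have key : ∀ s, s < j → d (j - s) = 0 := by
    intro s
    induction s using Nat.strong_induction_on with
    | _ s ih =>
      intro hs
      have h1 := Polynomial.X_pow_dvd_iff.1 hd s hs
      rw [Polynomial.finsetSum_coeff, Finset.sum_eq_single (j - s)] at h1
      · have e : j - (j - s) = s := by omega
        rw [e, mul_assoc, Polynomial.coeff_C_mul, Polynomial.coeff_X_pow_mul', if_pos le_rfl,
          Nat.sub_self, coeff_Ep] at h1
        rcases mul_eq_zero.1 h1 with h2 | h2
        · exact h2
        · exfalso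
          rcases mul_eq_zero.1 h2 with h3 | h3
          · apply half_ne (j - s)
            simpa using h3
          · exact h0 h3
      · intro i hi hne
        rw [mem_Icc] at hi
        rw [mul_assoc, Polynomial.coeff_C_mul, Polynomial.coeff_X_pow_mul']
        split_ifs with hle
        · have h2 := ih (j - i) (by omega) (by omega)
          rw [show j - (j - i) = i by omega] at h2
          rw [h2, zero_mul]
        · rw [mul_zero]
      · intro hn
        exfalso
        apply hn
        rw [mem_Icc]
        omega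
  intro i hi
  rw [mem_Icc] at hi
  have := key (j - i) (by omega)
  rwa [show j - (j - i) = i by omega] at this

/-- the reduction of `x^t` -/
lemma reduce (hRED : T_RED) (h : Polynomial ℚ) (a : ℕ → ℚ) (C m : ℕ) (hS : SqI h a C)
    (hm : h.natDegree = m) (j t : ℕ) (hj : 1 ≤ j) (ht : t ≤ m) :
    (Polynomial.X : Polynomial ℚ) ^ t =
      ∑ i ∈ Icc 1 j, Polynomial.C (if i ≤ j - t then qk h a (j - t) i else 0) *
        Polynomial.X ^ (j - i) * Ep h i +
      ∑ l ∈ range m, Polynomial.C (rho h a l ((t : ℤ) - j)) * Polynomial.X ^ (j + l) := by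
  rcases Nat.lt_or_ge t j with htj | htj
  · have h1 := hRED h a C m hS hm (j - t) (by omega)
    have h2 : (Polynomial.X : Polynomial ℚ) ^ t = Polynomial.X ^ t *
        (∑ i ∈ Icc 1 (j - t), Polynomial.C (qk h a (j - t) i) * Polynomial.X ^ (j - t - i) *
          Ep h i + ∑ l ∈ range m, Polynomial.C (rr h a (j - t) l) *
            Polynomial.X ^ (j - t + l)) := by
      unfold Ep
      rw [← h1, mul_one]
    rw [h2, mul_add, Finset.mul_sum, Finset.mul_sum]
    congr 1
    · have h3 : Icc 1 (j - t) = (Icc 1 j).filter (fun i => i ≤ j - t) := by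
        ext i
        rw [mem_filter, mem_Icc, mem_Icc]
        omega
      rw [h3, Finset.sum_filter]
      refine Finset.sum_congr rfl fun i hi => ?_
      rw [mem_Icc] at hi
      split_ifs with hit
      · have e : (Polynomial.X : Polynomial ℚ) ^ (j - i) =
            Polynomial.X ^ t * Polynomial.X ^ (j - t - i) := by
          rw [← pow_add]
          congr 1
          omega
        rw [e]
        ring
      · simp
    · refine Finset.sum_congr rfl fun l _ => ?_
      have e1 : rho h a l ((t : ℤ) - j) = rr h a (j - t) l := by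
        unfold rho
        rw [if_neg (by omega)]
        congr 1
        omega
      have e2 : (Polynomial.X : Polynomial ℚ) ^ (j + l) =
          Polynomial.X ^ t * Polynomial.X ^ (j - t + l) := by
        rw [← pow_add]
        congr 1
        omega
      rw [e1, e2]
      ring
  · have h1 : ∑ i ∈ Icc 1 j, Polynomial.C (if i ≤ j - t then qk h a (j - t) i else 0) *
        Polynomial.X ^ (j - i) * Ep h i = 0 := by
      refine Finset.sum_eq_zero fun i hi => ?_
      rw [mem_Icc] at hi
      rw [if_neg (by omega)]
      simp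
    rw [h1, zero_add, Finset.sum_eq_single (t - j)]
    · unfold rho
      rw [if_pos (by omega), if_pos (by omega), Polynomial.C_1, one_mul]
      congr 1
      omega
    · intro l _ hl
      unfold rho
      rw [if_pos (by omega), if_neg (by omega)]
      simp
    · intro hn
      exfalso
      apply hn
      rw [mem_range]
      omega

end KIL_

open KIL_ in
/-- KIL -/
theorem p_KIL (h1 : T_RED) : T_KIL := by
  intro h a C m hS hm j l hj hl
  obtain ⟨b, hb⟩ : ∃ b : ℕ → ℚ, ∀ t, b t = (1 / 2 - (j : ℚ) + t / 2) * h.coeff t :=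
    ⟨_, fun _ => rfl⟩
  obtain ⟨c, hc⟩ : ∃ c : ℕ → ℚ, ∀ i, c i = ∑ t ∈ range (m + 1), b t *
    (if i ≤ j - t then qk h a (j - t) i else 0) := ⟨_, fun _ => rfl⟩
  obtain ⟨r, hr⟩ : ∃ r : ℕ → ℚ, ∀ l, r l = ∑ t ∈ range (m + 1), b t *
    rho h a l ((t : ℤ) - j) := ⟨_, fun _ => rfl⟩
  have h2 : Ep h j = ∑ i ∈ Icc 1 j, Polynomial.C (c i) * Polynomial.X ^ (j - i) * Ep h i +
      ∑ l ∈ range m, Polynomial.C (r l) * Polynomial.X ^ (j + l) := by
    calc Ep h j = ∑ t ∈ range (m + 1), Polynomial.C (b t) * Polynomial.X ^ t := by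
          rw [expand h m j hm]
          exact Finset.sum_congr rfl fun t _ => by rw [hb]
      _ = ∑ t ∈ range (m + 1), (∑ i ∈ Icc 1 j, Polynomial.C (b t *
            (if i ≤ j - t then qk h a (j - t) i else 0)) * Polynomial.X ^ (j - i) * Ep h i +
          ∑ l ∈ range m, Polynomial.C (b t * rho h a l ((t : ℤ) - j)) *
            Polynomial.X ^ (j + l)) := by
          refine Finset.sum_congr rfl fun t ht => ?_
          rw [mem_range] at ht
          conv_lhs => rw [reduce h1 h a C m hS hm j t hj (by omega)]
          rw [mul_add, Finset.mul_sum, Finset.mul_sum]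
          congr 1
          · refine Finset.sum_congr rfl fun i _ => ?_
            rw [Polynomial.C_mul]
            ring
          · refine Finset.sum_congr rfl fun l _ => ?_
            rw [Polynomial.C_mul]
            ring
      _ = _ := by
          rw [Finset.sum_add_distrib, Finset.sum_comm, Finset.sum_comm (s := range (m + 1))
            (t := range m)]
          congr 1
          · refine Finset.sum_congr rfl fun i _ => ?_
            rw [← Finset.sum_mul, ← Finset.sum_mul, ← map_sum, hc]
          · refine Finset.sum_congr rfl fun l _ => ?_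
            rw [← Finset.sum_mul, ← map_sum, hr]
  have h3 : ∑ i ∈ Icc 1 j, Polynomial.C (c i - if i = j then 1 else 0) *
      Polynomial.X ^ (j - i) * Ep h i =
      -∑ l ∈ range m, Polynomial.C (r l) * Polynomial.X ^ (j + l) := by
    have h4 : ∑ i ∈ Icc 1 j, Polynomial.C (if i = j then (1 : ℚ) else 0) *
        Polynomial.X ^ (j - i) * Ep h i = Ep h j := by
      rw [Finset.sum_eq_single j]
      · simp
      · intro i _ hi
        simp [hi]
      · intro hn
        exfalso
        apply hn
        rw [mem_Icc]
        omega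
    simp only [Polynomial.C_sub, sub_mul, Finset.sum_sub_distrib]
    rw [h4]
    linear_combination -h2
  have h5 : (Polynomial.X : Polynomial ℚ) ^ j ∣
      ∑ i ∈ Icc 1 j, Polynomial.C (c i - if i = j then 1 else 0) *
        Polynomial.X ^ (j - i) * Ep h i := by
    rw [h3, dvd_neg]
    refine Finset.dvd_sum fun l _ => ?_
    rw [pow_add]
    exact ⟨Polynomial.C (r l) * Polynomial.X ^ l, by ring⟩
  have h6 := uniq h hS.ne j (fun i => c i - if i = j then 1 else 0) h5
  have h7 : ∑ l ∈ range m, Polynomial.C (r l) * (Polynomial.X : Polynomial ℚ) ^ (j + l) = 0 := by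
    have h8 : ∑ i ∈ Icc 1 j, Polynomial.C (c i - if i = j then 1 else 0) *
        Polynomial.X ^ (j - i) * Ep h i = 0 := by
      refine Finset.sum_eq_zero fun i hi => ?_
      rw [h6 i hi]
      simp
    rw [h8] at h3
    exact neg_eq_zero.1 h3.symm
  have h9 := congrArg (fun p : Polynomial ℚ => p.coeff (j + l)) h7
  simp only [Polynomial.finsetSum_coeff, Polynomial.coeff_C_mul, Polynomial.coeff_X_pow,
    Polynomial.coeff_zero, add_right_inj, mul_ite, mul_one, mul_zero] at h9
  rw [Finset.sum_ite_eq, if_pos (mem_range.2 hl), hr] at h9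
  simp only [hb] at h9
  exact h9

end Pool.Agent.HEP
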