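import Pool.Agent.HEP.Targets

set_option autoImplicit false

/-!
# LOCF: local expansions with a logarithm
-/

noncomputable section

open MeasureTheory Set Filter
open scoped Topology Interval

namespace Pool.Agent.HEP

namespace LOCF_

/-- integration of a power series against an integrable weight -/
lemma ser (a : ℕ → ℂ) (q : ℝ) (hq : 0 ≤ q) (ha : Summable fun n => ‖a n‖ * q ^ n)
    (w : ℝ → ℂ) (hw : IntervalIntegrable w volume 0 q) (Fr : ℝ → ℂ)
    (hF : ∀ r ∈ Ioc 0 q, HasSum (fun n => a n * (r : ℂ) ^ n) (Fr r)) :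
    HasSum (fun n => a n * ∫ r in (0 : ℝ)..q, (r : ℂ) ^ n * w r)
      (∫ r in (0 : ℝ)..q, Fr r * w r) := by
  have hu : Ι (0 : ℝ) q = Ioc 0 q := uIoc_of_le hq
  have h := intervalIntegral.hasSum_integral_of_dominated_convergence (μ := volume) (a := 0)
    (b := q) (F := fun n r => a n * ((r : ℂ) ^ n * w r)) (f := fun r => Fr r * w r)
    (fun n r => ‖a n‖ * q ^ n * ‖w r‖) ?_ ?_ ?_ ?_ ?_
  · simpa only [intervalIntegral.integral_const_mul] using h
  · intro n
    have h1 : AEStronglyMeasurable w (volume.restrict (Ι 0 q)) := by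
      rw [hu]
      exact hw.1.aestronglyMeasurable
    have h2 : AEStronglyMeasurable (fun r : ℝ => (r : ℂ) ^ n) (volume.restrict (Ι 0 q)) := by
      refine Continuous.aestronglyMeasurable ?_
      fun_prop
    exact (h2.mul h1).const_mul _
  · intro n
    refine Eventually.of_forall fun t ht => ?_
    rw [hu] at ht
    rw [norm_mul, norm_mul, norm_pow, Complex.norm_real, Real.norm_of_nonneg ht.1.le, mul_assoc]
    have h0 := ht.1.le
    have h1 := ht.2
    gcongr
  · refine Eventually.of_forall fun t _ => ?_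
    exact ha.mul_right _
  · have h1 : (fun t => ∑' n, ‖a n‖ * q ^ n * ‖w t‖) = fun t => (∑' n, ‖a n‖ * q ^ n) * ‖w t‖ := by
      funext t
      rw [tsum_mul_right]
    rw [h1]
    exact hw.norm.const_mul _
  · refine Eventually.of_forall fun t ht => ?_
    rw [hu] at ht
    have h1 := (hF t ht).mul_right (w t)
    simpa only [mul_assoc] using h1

/-- the weight is integrable -/
lemma wint (η δ : ℝ) (hη : 0 < η) (hδ : 0 < δ) (q : ℝ → ℂ) (hq : Continuous q)
    (hqδ : ∀ r, δ ≤ ‖q r‖) :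
    IntervalIntegrable (fun r : ℝ => 1 / ((Real.sqrt r : ℂ) * q r)) volume 0 η := by
  have h1 : IntervalIntegrable (fun r : ℝ => δ⁻¹ * r ^ (-(1 / 2) : ℝ)) volume 0 η :=
    (intervalIntegral.intervalIntegrable_rpow' (by norm_num)).const_mul _
  refine h1.mono_fun' ?_ ?_
  · have h2 : Measurable (fun r : ℝ => 1 / ((Real.sqrt r : ℂ) * q r)) := by
      have h3 := hq.measurable
      fun_prop
    exact h2.aestronglyMeasurable
  · rw [uIoc_of_le hη.le]
    filter_upwards [ae_restrict_mem measurableSet_Ioc] with r hr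
    rw [norm_div, norm_one, norm_mul, Complex.norm_real, Real.norm_of_nonneg (Real.sqrt_nonneg _),
      one_div, mul_inv, mul_comm, Real.rpow_neg hr.1.le, ← Real.sqrt_eq_rpow]
    have h4 := hqδ r
    have h5 : 0 ≤ (Real.sqrt r)⁻¹ := by positivity
    have h6 : ‖q r‖⁻¹ ≤ δ⁻¹ := by
      gcongr
    exact mul_le_mul_of_nonneg_right h6 h5

/-- the weight of `GG` is integrable -/
lemma wbeta (h3 : T_BETA) :
    IntervalIntegrable (fun s : ℝ => 1 / ((Real.sqrt (s * (1 - s)) : ℝ) : ℂ)) volume 0 1 := by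
  have h := (h3 0).1
  have h1 : (fun s : ℝ => 1 / ((Real.sqrt (s * (1 - s)) : ℝ) : ℂ)) =
      fun s : ℝ => (((s ^ 0 / Real.sqrt (s * (1 - s)) : ℝ)) : ℂ) := by
    funext s
    simp
  rw [h1]
  exact ⟨h.1.ofReal, h.2.ofReal⟩

/-- `GG` is holomorphic -/
lemma GGdiff (h3 : T_BETA) (h4 : T_PAR) (F : ℂ → ℂ) (c ρ : ℝ)
    (hF : DifferentiableOn ℂ F (Metric.ball (c : ℂ) ρ)) :
    DifferentiableOn ℂ (GG F c) (Metric.ball (c : ℂ) ρ) := by
  intro z hz
  obtain ⟨ρ', h1, h2⟩ := exists_between (Metric.mem_ball.1 hz)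
  have hsub : Metric.closedBall (c : ℂ) ρ' ⊆ Metric.ball (c : ℂ) ρ :=
    Metric.closedBall_subset_ball h2
  have hFc : ContinuousOn F (Metric.closedBall (c : ℂ) ρ') := hF.continuousOn.mono hsub
  obtain ⟨M, hM⟩ := (isCompact_closedBall (c : ℂ) ρ').exists_bound_of_continuousOn hFc
  have hmem : ∀ z ∈ Metric.ball (c : ℂ) ρ', ∀ s ∈ Icc (0 : ℝ) 1,
      (c : ℂ) + s * (z - c) ∈ Metric.ball (c : ℂ) ρ' := by
    intro z hz s hs
    rw [Metric.mem_ball, dist_eq_norm] at hz ⊢
    rw [add_sub_cancel_left, norm_mul, Complex.norm_real, Real.norm_of_nonneg hs.1]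
    exact lt_of_le_of_lt (mul_le_of_le_one_left (norm_nonneg _) hs.2) hz
  have key := h4 (Metric.ball (c : ℂ) ρ')
    (fun s z => F ((c : ℂ) + s * (z - c)) / (Real.sqrt (s * (1 - s)) : ℂ))
    (fun s => M * (s ^ 0 / Real.sqrt (s * (1 - s)))) 0 1 Metric.isOpen_ball zero_le_one
    ((h3 0).1.const_mul M) ?_ ?_ ?_ z h1
  · exact key.2.2.differentiableAt.differentiableWithinAt
  · intro z hz
    have h5 : ContinuousOn (fun s : ℝ => F ((c : ℂ) + s * (z - c))) (Ioc 0 1) := by
      refine hFc.comp (by fun_prop) ?_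
      intro s hs
      exact Metric.ball_subset_closedBall (hmem z hz s ⟨hs.1.le, hs.2⟩)
    have h6 : AEStronglyMeasurable (fun s : ℝ => F ((c : ℂ) + s * (z - c)))
        (volume.restrict (Ioc (0 : ℝ) 1)) := h5.aestronglyMeasurable measurableSet_Ioc
    have h7 : Measurable (fun s : ℝ => ((Real.sqrt (s * (1 - s)) : ℝ) : ℂ)⁻¹) := by
      fun_prop
    have h8 := h6.mul h7.aestronglyMeasurable
    refine h8.congr (Eventually.of_forall fun s => ?_)
    exact (div_eq_mul_inv _ _).symm
  · intro s hs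
    refine DifferentiableOn.div_const ?_ _
    refine (hF.mono (Metric.ball_subset_ball h2.le)).comp (by fun_prop) ?_
    intro z hz
    exact hmem z hz s ⟨hs.1.le, hs.2.le⟩
  · intro z0 hz0
    obtain ⟨δ, hδ, hδ'⟩ := Metric.isOpen_iff.1 Metric.isOpen_ball z0 hz0
    refine ⟨δ, hδ, fun z hz s hs => ?_⟩
    have h5 := hM _ (Metric.ball_subset_closedBall (hmem z (hδ' hz) s ⟨hs.1.le, hs.2.le⟩))
    rw [norm_div, Complex.norm_real, Real.norm_of_nonneg (Real.sqrt_nonneg _), pow_zero,
      mul_one_div]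
    gcongr

/-- the series of `GG` -/
lemma GGser (h3 : T_BETA) (F : ℂ → ℂ) (c ρ η : ℝ) (hη : 0 < η) (hηρ : η < ρ) (a : ℕ → ℂ)
    (ha : Summable fun n => ‖a n‖ * η ^ n)
    (hF : ∀ x ∈ Metric.ball (c : ℂ) ρ, HasSum (fun n => a n * (x - c) ^ n) (F x)) (z : ℂ)
    (hz : z ∈ Metric.ball (c : ℂ) η) :
    HasSum (fun n => a n * (bm n : ℂ) * (z - c) ^ n) (GG F c z / Real.pi) := by
  have hz' : ‖z - c‖ < η := by rwa [Metric.mem_ball, dist_eq_norm] at hz
  have h1 := ser (fun n => a n * (z - c) ^ n) 1 zero_le_one ?_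
    (fun s : ℝ => 1 / ((Real.sqrt (s * (1 - s)) : ℝ) : ℂ)) (wbeta h3)
    (fun s => F ((c : ℂ) + s * (z - c))) ?_
  · have h2 : ∀ n : ℕ, ∫ s in (0 : ℝ)..1, (s : ℂ) ^ n *
        (1 / ((Real.sqrt (s * (1 - s)) : ℝ) : ℂ)) = Real.pi * (bm n : ℂ) := by
      intro n
      have h4 := congrArg Complex.ofReal (h3 n).2
      rw [← intervalIntegral.integral_ofReal] at h4
      push_cast at h4
      rw [← h4]
      refine intervalIntegral.integral_congr fun s _ => ?_
      rw [mul_one_div]
    simp only [h2] at h1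
    have h5 : ∫ s in (0 : ℝ)..1, F ((c : ℂ) + s * (z - c)) *
        (1 / ((Real.sqrt (s * (1 - s)) : ℝ) : ℂ)) = GG F c z := by
      rw [GG]
      refine intervalIntegral.integral_congr fun s _ => ?_
      rw [mul_one_div]
    rw [h5] at h1
    have h6 := h1.div_const (Real.pi : ℂ)
    refine h6.congr_fun ?_
    intro n
    have hpi : (Real.pi : ℂ) ≠ 0 := by exact_mod_cast Real.pi_ne_zero
    field_simp
  · refine Summable.of_nonneg_of_le (fun n => by positivity) (fun n => ?_) ha
    rw [one_pow, mul_one, norm_mul, norm_pow]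
    gcongr
  · intro s hs
    have h2 := hF ((c : ℂ) + s * (z - c)) ?_
    · rw [add_sub_cancel_left] at h2
      refine h2.congr_fun ?_
      intro n
      rw [mul_pow]
      ring
    · rw [Metric.mem_ball, dist_eq_norm, add_sub_cancel_left, norm_mul, Complex.norm_real,
        Real.norm_of_nonneg hs.1.le]
      have := mul_le_of_le_one_left (norm_nonneg (z - c)) hs.2
      linarith

/-- `log (-τ)` in the upper half plane -/
lemma logneg (τ : ℂ) (hτ : 0 < τ.im) : Complex.log (-τ) = Complex.log τ - Complex.I * Real.pi := by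
  rw [Complex.log, Complex.log, norm_neg, Complex.arg_neg_eq_arg_sub_pi_of_im_pos hτ]
  push_cast
  ring

end LOCF_

open LOCF_ in
theorem p_LOCF (h1 : T_J) (h2 : T_SQP) (h3 : T_BETA) (h4 : T_PAR) : T_LOCF := by
  intro F c ρ η hη hηρ hF
  have hGG := GGdiff h3 h4 F c ρ hF
  refine ⟨hGG, ?_⟩
  obtain ⟨α, K, hα⟩ := h1 η hη
  obtain ⟨-, -, hsqI, -, hsqc, hsqn, -, -, -⟩ := h2
  set a : ℕ → ℂ := fun n => (n.factorial : ℂ)⁻¹ * iteratedDeriv n F c with hadef
  have hFs : ∀ x ∈ Metric.ball (c : ℂ) ρ, HasSum (fun n => a n * (x - c) ^ n) (F x) := by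
    intro x hx
    refine (Complex.hasSum_taylorSeries_on_ball hF hx).congr_fun ?_
    intro n
    simp only [hadef, smul_eq_mul]
    ring
  have ha : Summable fun n => ‖a n‖ * η ^ n := by
    have h5 : (c : ℂ) + η ∈ Metric.ball (c : ℂ) ρ := by
      rw [Metric.mem_ball, dist_eq_norm, add_sub_cancel_left, Complex.norm_real,
        Real.norm_of_nonneg hη.le]
      exact hηρ
    have h6 := (hFs _ h5).summable.norm
    refine h6.congr ?_
    intro n
    rw [add_sub_cancel_left, norm_mul, norm_pow, Complex.norm_real, Real.norm_of_nonneg hη.le]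
  clear_value a
  have hηball : Metric.ball (c : ℂ) (η / 2) ⊆ Metric.ball (c : ℂ) ρ :=
    Metric.ball_subset_ball (by linarith)
  -- the analytic parts
  have hb1 : ∀ (n : ℕ) (z : ℂ), z ∈ Metric.ball (c : ℂ) (η / 2) →
      ‖a n * α n (z - c)‖ ≤ K * (‖a n‖ * η ^ n) := by
    intro n z hz
    have h5 : z - c ∈ Metric.ball (0 : ℂ) (η / 2) := by
      rwa [Metric.mem_ball, dist_eq_norm, sub_zero, ← dist_eq_norm]
    have h6 := (hα n).2.1 _ h5
    rw [norm_mul]
    calc ‖a n‖ * ‖α n (z - c)‖ ≤ ‖a n‖ * (K * η ^ n) := by gcongr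
      _ = K * (‖a n‖ * η ^ n) := by ring
  have hb2 : ∀ (n : ℕ) (z : ℂ), z ∈ Metric.ball (c : ℂ) (η / 2) →
      ‖a n * (-1) ^ n * α n (-(z - c))‖ ≤ K * (‖a n‖ * η ^ n) := by
    intro n z hz
    have h5 : -(z - c) ∈ Metric.ball (0 : ℂ) (η / 2) := by
      rwa [Metric.mem_ball, dist_eq_norm, sub_zero, norm_neg, ← dist_eq_norm]
    have h6 := (hα n).2.1 _ h5
    rw [norm_mul, norm_mul, norm_pow, norm_neg, norm_one, one_pow, mul_one]
    calc ‖a n‖ * ‖α n (-(z - c))‖ ≤ ‖a n‖ * (K * η ^ n) := by gcongr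
      _ = K * (‖a n‖ * η ^ n) := by ring
  have hsub : ∀ z ∈ Metric.ball (c : ℂ) (η / 2), z - c ∈ Metric.ball (0 : ℂ) η := by
    intro z hz
    rw [Metric.mem_ball, dist_eq_norm] at hz ⊢
    rw [sub_zero]
    linarith
  have hd1 : DifferentiableOn ℂ (fun z => ∑' n, a n * α n (z - c))
      (Metric.ball (c : ℂ) (η / 2)) := by
    refine Complex.differentiableOn_tsum_of_summable_norm (ha.mul_left K) ?_ Metric.isOpen_ball
      (fun n z hz => hb1 n z hz)
    intro n
    refine DifferentiableOn.const_mul ?_ _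
    exact (hα n).1.comp (by fun_prop) (fun z hz => hsub z hz)
  have hd2 : DifferentiableOn ℂ (fun z => ∑' n, a n * (-1) ^ n * α n (-(z - c)))
      (Metric.ball (c : ℂ) (η / 2)) := by
    refine Complex.differentiableOn_tsum_of_summable_norm (ha.mul_left K) ?_ Metric.isOpen_ball
      (fun n z hz => hb2 n z hz)
    intro n
    refine DifferentiableOn.const_mul ?_ _
    refine (hα n).1.comp (by fun_prop) (fun z hz => ?_)
    have h5 := hsub z hz
    rw [Metric.mem_ball, dist_eq_norm, sub_zero] at h5 ⊢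
    rwa [norm_neg]
  refine ⟨fun z => -Complex.I * ∑' n, a n * α n (z - c),
    fun z => -GG F c z + Complex.I * ∑' n, a n * (-1) ^ n * α n (-(z - c)),
    hd1.const_mul _, ((hGG.mono hηball).neg).add (hd2.const_mul _), ?_⟩
  intro z hz him
  have hpi : (Real.pi : ℂ) ≠ 0 := by exact_mod_cast Real.pi_ne_zero
  set τ : ℂ := z - c with hτdef
  have hτim : 0 < τ.im := by
    rw [hτdef]
    simpa using him
  have hτball : τ ∈ Metric.ball (0 : ℂ) η := hsub z hz
  have hτslit : τ ∈ Complex.slitPlane := Complex.mem_slitPlane_iff.2 (Or.inr hτim.ne')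
  have hτslit' : -τ ∈ Complex.slitPlane := by
    refine Complex.mem_slitPlane_iff.2 (Or.inr ?_)
    rw [Complex.neg_im]
    exact neg_ne_zero.2 hτim.ne'
  have hτball' : -τ ∈ Metric.ball (0 : ℂ) η := by
    rw [Metric.mem_ball, dist_eq_norm, sub_zero] at hτball ⊢
    rwa [norm_neg]
  have hG := GGser h3 F c ρ η hη hηρ a ha hFs z
    (Metric.ball_subset_ball (by linarith) hz)
  have hδ : 0 < Real.sqrt τ.im := Real.sqrt_pos.2 hτim
  have hlow : ∀ w : ℂ, w.im = τ.im → Real.sqrt τ.im ≤ ‖sq w‖ := by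
    intro w hw
    rw [hsqn]
    refine Real.sqrt_le_sqrt ?_
    rw [← hw]
    exact (le_abs_self _).trans (Complex.abs_im_le_norm w)
  have hc1 : Continuous fun r : ℝ => sq (τ + r) :=
    hsqc.comp_continuous (by fun_prop) (fun r => by
      show 0 ≤ (τ + r).im
      simpa using hτim.le)
  have hc2 : Continuous fun r : ℝ => sq (τ - r) :=
    hsqc.comp_continuous (by fun_prop) (fun r => by
      show 0 ≤ (τ - r).im
      simpa using hτim.le)
  have hw1 := wint η _ hη hδ (fun r : ℝ => sq (τ + r)) hc1 (fun r => hlow _ (by simp))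
  have hw2 := wint η _ hη hδ (fun r : ℝ => sq (τ - r)) hc2 (fun r => hlow _ (by simp))
  have hs1 : Summable fun n => a n * α n τ :=
    Summable.of_norm_bounded (ha.mul_left K) (fun n => hb1 n z hz)
  have hs2 : Summable fun n => a n * (-1) ^ n * α n (-τ) :=
    Summable.of_norm_bounded (ha.mul_left K) (fun n => hb2 n z hz)
  constructor
  · -- the first integral
    have h5 := ser (fun n => a n * (-1) ^ n) η hη.le ?_
      (fun r : ℝ => 1 / ((Real.sqrt r : ℂ) * sq (τ + r))) hw1 (fun r => F ((c : ℂ) - r)) ?_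
    · have h6 : ∀ n : ℕ, a n * (-1) ^ n * ∫ r in (0 : ℝ)..η, (r : ℂ) ^ n *
          (1 / ((Real.sqrt r : ℂ) * sq (τ + r))) =
          -Complex.log τ * (a n * (bm n : ℂ) * τ ^ n) + a n * α n τ := by
        intro n
        have h7 : ∫ r in (0 : ℝ)..η, (r : ℂ) ^ n * (1 / ((Real.sqrt r : ℂ) * sq (τ + r))) =
            ∫ r in (0 : ℝ)..η, (r : ℂ) ^ n / ((Real.sqrt r : ℂ) * sq (τ + r)) := by
          refine intervalIntegral.integral_congr fun s _ => ?_
          rw [mul_one_div]
        rw [h7, (hα n).2.2 τ hτball hτslit]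
        have h8 : ((-1 : ℂ) ^ n) * (-1) ^ n = 1 := by
          rw [← mul_pow]
          simp
        rw [pow_succ]
        linear_combination (a n * (-(bm n : ℂ) * τ ^ n * Complex.log τ + α n τ)) * h8
      simp only [h6] at h5
      have h9 := ((hG.mul_left (-Complex.log τ)).add hs1.hasSum).unique h5
      have h10 : ∫ r in (0 : ℝ)..η, F ((c : ℂ) - r) /
          (Complex.I * (Real.sqrt r : ℂ) * sq (τ + r)) =
          -Complex.I * ∫ r in (0 : ℝ)..η, F ((c : ℂ) - r) *
            (1 / ((Real.sqrt r : ℂ) * sq (τ + r))) := by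
        rw [← intervalIntegral.integral_const_mul]
        refine intervalIntegral.integral_congr fun s _ => ?_
        rw [mul_assoc Complex.I, div_eq_mul_inv, mul_inv Complex.I, Complex.inv_I, one_div]
        ring
      rw [h10, ← h9]
      ring
    · refine ha.congr fun n => ?_
      rw [norm_mul, norm_pow, norm_neg, norm_one, one_pow, mul_one]
    · intro r hr
      have h6 := hFs ((c : ℂ) - r) ?_
      · refine h6.congr_fun fun n => ?_
        rw [sub_sub_cancel_left, neg_pow]
        ring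
      · rw [Metric.mem_ball, dist_eq_norm, sub_sub_cancel_left, norm_neg, Complex.norm_real,
          Real.norm_of_nonneg hr.1.le]
        linarith [hr.2]
  · -- the second integral
    have h5 := ser a η hη.le ha
      (fun r : ℝ => 1 / ((Real.sqrt r : ℂ) * sq (τ - r))) hw2 (fun r => F ((c : ℂ) + r)) ?_
    · have h6 : ∀ n : ℕ, a n * ∫ r in (0 : ℝ)..η, (r : ℂ) ^ n *
          (1 / ((Real.sqrt r : ℂ) * sq (τ - r))) =
          Complex.I * Complex.log (-τ) * (a n * (bm n : ℂ) * τ ^ n) +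
            -Complex.I * (a n * (-1) ^ n * α n (-τ)) := by
        intro n
        have h7 : ∫ r in (0 : ℝ)..η, (r : ℂ) ^ n * (1 / ((Real.sqrt r : ℂ) * sq (τ - r))) =
            -Complex.I * ∫ r in (0 : ℝ)..η, (r : ℂ) ^ n / ((Real.sqrt r : ℂ) * sq (-τ + r)) := by
          rw [← intervalIntegral.integral_const_mul]
          refine intervalIntegral.integral_congr fun s _ => ?_
          have h11 : sq (τ - s) = Complex.I * sq (-τ + s) := by
            rw [hsqI (τ - s) (Or.inl (by simpa using hτim)), neg_sub, neg_add_eq_sub]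
          rw [h11, mul_left_comm, one_div, mul_inv, Complex.inv_I]
          ring
        rw [h7, (hα n).2.2 (-τ) hτball' hτslit']
        have h8 : ((-1 : ℂ) ^ n) * (-1) ^ n = 1 := by
          rw [← mul_pow]
          simp
        rw [pow_succ, neg_pow τ]
        linear_combination (a n * Complex.I * (bm n : ℂ) * τ ^ n * Complex.log (-τ)) * h8
      simp only [h6] at h5
      have h9 := ((hG.mul_left (Complex.I * Complex.log (-τ))).add
        (hs2.hasSum.mul_left (-Complex.I))).unique h5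
      have h10 : ∫ r in (0 : ℝ)..η, F ((c : ℂ) + r) / ((Real.sqrt r : ℂ) * sq (τ - r)) =
          ∫ r in (0 : ℝ)..η, F ((c : ℂ) + r) * (1 / ((Real.sqrt r : ℂ) * sq (τ - r))) := by
        refine intervalIntegral.integral_congr fun s _ => ?_
        rw [mul_one_div]
      rw [h10, ← h9, logneg τ hτim]
      show -(Complex.I * (Complex.log τ - Complex.I * Real.pi) * (GG F c z / Real.pi) +
        -Complex.I * ∑' n, a n * (-1) ^ n * α n (-τ)) =
        -GG F c z + Complex.I * ∑' n, a n * (-1) ^ n * α n (-τ) -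
          Complex.I / Real.pi * Complex.log τ * GG F c z
      generalize ∑' n, a n * (-1) ^ n * α n (-τ) = S
      field_simp
      ring_nf
      rw [Complex.I_sq]
      ring
    · intro r hr
      have h6 := hFs ((c : ℂ) + r) ?_
      · refine h6.congr_fun fun n => ?_
        rw [add_sub_cancel_left]
      · rw [Metric.mem_ball, dist_eq_norm, add_sub_cancel_left, Complex.norm_real,
          Real.norm_of_nonneg hr.1.le]
        linarith [hr.2]

end Pool.Agent.HEP
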