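import Pool.Agent.HEP.Targets

set_option autoImplicit false

namespace Pool.Agent.HEP
namespace LOCX_

open Finset Pool.Agent.LEG
open scoped BigOperators Topology

/-- differentiability of the regular parts -/
theorem rem_diff (hS : T_SQP) (hUI : T_UINT) (hP : T_PAR) (m : ℕ) (e : Fin m → ℝ) (α : ℕ)
    (he : StrictMono e) (p q c : ℝ) (hpq : p ≤ q) (hc : 0 < c) (ε : ℂ)
    (U : Set ℂ) (hU : IsOpen U) (hre : ∀ z ∈ U, ∀ s ∈ Set.Icc p q, c ≤ (ε * (z - (s : ℂ))).re) :
    DifferentiableOn ℂ (fun z => ∫ s in p..q, (s : ℂ) ^ α /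
      ((∏ k, sq ((s : ℂ) - e k)) * sq (ε * (z - (s : ℂ))))) U := by
  obtain ⟨-, hS2, -, -, -, hS6, -, -, hS9⟩ := hS
  have hI : 0 < Complex.I.im := by simp
  have hint := (hUI m e α p q Complex.I he hI).1
  set N : ℝ → ℂ := fun x => (x : ℂ) ^ α / (∏ k, sq ((x : ℂ) - e k)) with hN
  have hslit : ∀ z ∈ U, ∀ s ∈ Set.Icc p q, ε * (z - (s : ℂ)) ∈ Complex.slitPlane := by
    intro z hz s hs
    exact Or.inl (lt_of_lt_of_le hc (hre z hz s hs))
  have hfac : ∀ (s : ℝ) (z : ℂ), (s : ℂ) ^ α /
      ((∏ k, sq ((s : ℂ) - e k)) * sq (ε * (z - (s : ℂ)))) = N s * (sq (ε * (z - (s : ℂ))))⁻¹ := by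
    intro s z
    rw [hN]
    simp only [div_eq_mul_inv, mul_inv]
    ring
  intro z hz
  have key := hP U (fun s z => (s : ℂ) ^ α /
      ((∏ k, sq ((s : ℂ) - e k)) * sq (ε * (z - (s : ℂ))))) (fun s => 1 / Real.sqrt c * ‖N s‖)
      p q hU hpq (hint.norm.const_mul _) ?_ ?_ ?_ z hz
  · exact key.2.2.differentiableAt.differentiableWithinAt
  · intro z hz
    simp only [hfac]
    have h1 : MeasureTheory.AEStronglyMeasurable N
        (MeasureTheory.volume.restrict (Set.Ioc p q)) := by
      have := (intervalIntegrable_iff_integrableOn_Ioc_of_le hpq).1 hint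
      exact this.aestronglyMeasurable
    have h2 : MeasureTheory.AEStronglyMeasurable (fun s : ℝ => (sq (ε * (z - (s : ℂ))))⁻¹)
        (MeasureTheory.volume.restrict (Set.Ioc p q)) := by
      refine ContinuousOn.aestronglyMeasurable ?_ measurableSet_Ioc
      intro s hs
      have hs' : s ∈ Set.Icc p q := Set.Ioc_subset_Icc_self hs
      have h3 := hslit z hz s hs'
      have h4 : ContinuousAt sq (ε * (z - (s : ℂ))) := (hS2 _ h3).1.continuousAt
      have h5 : sq (ε * (z - (s : ℂ))) ≠ 0 := hS9 _ (Complex.slitPlane_ne_zero h3)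
      have h6 : ContinuousAt (fun s : ℝ => ε * (z - (s : ℂ))) s := by fun_prop
      exact ((ContinuousAt.comp (f := fun s : ℝ => ε * (z - (s : ℂ))) h4 h6).inv₀
        h5).continuousWithinAt
    exact h1.mul h2
  · intro s hs
    simp only [hfac]
    intro z hz
    have hs' : s ∈ Set.Icc p q := Set.Ioo_subset_Icc_self hs
    have h3 := hslit z hz s hs'
    have h5 : sq (ε * (z - (s : ℂ))) ≠ 0 := hS9 _ (Complex.slitPlane_ne_zero h3)
    have h4 : DifferentiableAt ℂ sq (ε * (z - (s : ℂ))) := (hS2 _ h3).1.differentiableAt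
    have h6 : DifferentiableAt ℂ (fun z : ℂ => ε * (z - (s : ℂ))) z := by fun_prop
    have h7 : DifferentiableAt ℂ (fun z : ℂ => sq (ε * (z - (s : ℂ)))) z :=
      DifferentiableAt.comp (g := sq) z h4 h6
    exact ((h7.inv h5).const_mul (N s)).differentiableWithinAt
  · intro z0 hz0
    obtain ⟨δ, hδ, hsub⟩ := Metric.isOpen_iff.1 hU z0 hz0
    refine ⟨δ, hδ, ?_⟩
    intro z hz s hs
    have hzU := hsub hz
    have hs' : s ∈ Set.Icc p q := Set.Ioo_subset_Icc_self hs
    simp only [hfac]
    rw [norm_mul, norm_inv, hS6, mul_comm, one_div]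
    refine mul_le_mul_of_nonneg_right ?_ (norm_nonneg _)
    apply inv_anti₀ (Real.sqrt_pos.2 hc)
    apply Real.sqrt_le_sqrt
    calc c ≤ (ε * (z - (s : ℂ))).re := hre z hzU s hs'
      _ ≤ |(ε * (z - (s : ℂ))).re| := le_abs_self _
      _ ≤ ‖ε * (z - (s : ℂ))‖ := Complex.abs_re_le_norm _

/-- `DD` as `GG` -/
theorem DD_eq (m : ℕ) (e : Fin m → ℝ) (i : Fin m) (ρ₀ : ℝ) (B : ℂ → ℂ)
    (hB : ∀ x ∈ Metric.ball (e i : ℂ) ρ₀, B x ≠ 0 ∧
      (0 ≤ x.im → B x = ∏ k ∈ univ.erase i, sq (x - e k))) (α : ℕ) (z : ℂ)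
    (hz : z ∈ Metric.ball (e i : ℂ) ρ₀) (hz0 : 0 < z.im) :
    DD e α i z = GG (fun x => x ^ α / B x) (e i) z := by
  unfold DD GG
  refine intervalIntegral.integral_congr ?_
  intro s hs
  rw [Set.uIcc_of_le (by norm_num : (0 : ℝ) ≤ 1)] at hs
  have hx : (e i : ℂ) + s * (z - e i) ∈ Metric.ball (e i : ℂ) ρ₀ := by
    rw [Metric.mem_ball, dist_eq_norm] at hz ⊢
    have h1 : (e i : ℂ) + s * (z - e i) - e i = s * (z - e i) := by ring
    rw [h1, norm_mul, Complex.norm_real, Real.norm_eq_abs, abs_of_nonneg hs.1]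
    calc s * ‖z - e i‖ ≤ 1 * ‖z - e i‖ := mul_le_mul_of_nonneg_right hs.2 (norm_nonneg _)
      _ < ρ₀ := by rw [one_mul]; exact hz
  have him : 0 ≤ ((e i : ℂ) + s * (z - e i)).im := by
    simp only [Complex.add_im, Complex.ofReal_im, Complex.mul_im, Complex.ofReal_re,
      Complex.sub_im, Complex.sub_re, zero_add, zero_mul, add_zero, sub_zero]
    exact mul_nonneg hs.1 hz0.le
  have h2 := (hB _ hx).2 him
  have h3 : ∏ k ∈ univ.erase i, sq ((e i : ℂ) - e k + s * (z - e i)) =
      ∏ k ∈ univ.erase i, sq ((e i : ℂ) + s * (z - e i) - e k) := by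
    refine Finset.prod_congr rfl fun k _ => ?_
    congr 1; ring
  simp only
  rw [h3, ← h2, div_div, mul_comm (B _)]

/-- the product for real points of the disc -/
theorem prod_real (m : ℕ) (e : Fin m → ℝ) (i : Fin m) (ρ₀ : ℝ) (B : ℂ → ℂ)
    (hB : ∀ x ∈ Metric.ball (e i : ℂ) ρ₀, B x ≠ 0 ∧
      (0 ≤ x.im → B x = ∏ k ∈ univ.erase i, sq (x - e k))) (x : ℝ)
    (hx : |x - e i| < ρ₀) :
    ∏ k, sq ((x : ℂ) - e k) = sq ((x : ℂ) - e i) * B x := by
  have hx' : (x : ℂ) ∈ Metric.ball (e i : ℂ) ρ₀ := by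
    rw [Metric.mem_ball, dist_eq_norm, ← Complex.ofReal_sub, Complex.norm_real]
    exact hx
  rw [(hB _ hx').2 (by simp), Finset.mul_prod_erase univ (fun k => sq ((x : ℂ) - e k))
    (Finset.mem_univ i)]

end LOCX_

open Finset Pool.Agent.LEG in
open scoped BigOperators Topology in
theorem p_LOCX (hS : T_SQP) (hUI : T_UINT) (hDU : T_DU) (hLF : T_LOCF) (hBI : T_BI)
    (hP : T_PAR) : T_LOCX := by
  intro m e i he
  obtain ⟨ρ₀, B, hρ₀, hBd, hB⟩ := hBI m e i he
  have hS' := hS
  obtain ⟨-, hS2, hS3, -, -, hS6, hS7, hS8, hS9⟩ := hS'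
  -- the radius
  obtain ⟨η, hη, hηρ, hgap⟩ : ∃ η : ℝ, 0 < η ∧ η < ρ₀ ∧ ∀ k, k ≠ i → η < |e k - e i| := by
    have hfin : ∀ k ∈ univ.erase i, 0 < |e k - e i| := by
      intro k hk
      rw [abs_pos, sub_ne_zero]
      exact fun h => (Finset.ne_of_mem_erase hk) (he.injective h)
    by_cases hne : (univ.erase i).Nonempty
    · obtain ⟨k₀, hk₀, hmin⟩ := Finset.exists_min_image (univ.erase i) (fun k => |e k - e i|) hne
      have hpos := hfin k₀ hk₀
      refine ⟨min ρ₀ |e k₀ - e i| / 2, by positivity, ?_, ?_⟩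
      · have : min ρ₀ |e k₀ - e i| ≤ ρ₀ := min_le_left _ _
        linarith
      · intro k hk
        have h1 := hmin k (Finset.mem_erase.2 ⟨hk, Finset.mem_univ k⟩)
        have h2 : min ρ₀ |e k₀ - e i| ≤ |e k₀ - e i| := min_le_right _ _
        have h3 : 0 < min ρ₀ |e k₀ - e i| := lt_min hρ₀ hpos
        linarith
    · refine ⟨ρ₀ / 2, by positivity, by linarith, ?_⟩
      intro k hk
      exact absurd ⟨k, Finset.mem_erase.2 ⟨hk, Finset.mem_univ k⟩⟩ hne
  set F : ℕ → ℂ → ℂ := fun α x => x ^ α / B x with hF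
  have hFd : ∀ α, DifferentiableOn ℂ (F α) (Metric.ball (e i : ℂ) ρ₀) := by
    intro α
    refine DifferentiableOn.div (by fun_prop) hBd fun x hx => (hB x hx).1
  have hex : ∀ α, ∃ A : (ℂ → ℂ) × (ℂ → ℂ),
      DifferentiableOn ℂ A.1 (Metric.ball (e i : ℂ) (η / 2)) ∧
      DifferentiableOn ℂ A.2 (Metric.ball (e i : ℂ) (η / 2)) ∧
      ∀ z ∈ Metric.ball (e i : ℂ) (η / 2), 0 < z.im →
        ∫ r in (0 : ℝ)..η, F α ((e i : ℂ) - r) / (Complex.I * (Real.sqrt r : ℂ) *
          sq (z - e i + r)) = A.1 z + Complex.I / Real.pi * Complex.log (z - e i) *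
            GG (F α) (e i) z ∧
        -∫ r in (0 : ℝ)..η, F α ((e i : ℂ) + r) / ((Real.sqrt r : ℂ) * sq (z - e i - r)) =
          A.2 z - Complex.I / Real.pi * Complex.log (z - e i) * GG (F α) (e i) z := by
    intro α
    obtain ⟨-, A1, A2, h1, h2, h3⟩ := hLF (F α) (e i) ρ₀ η hη hηρ (hFd α)
    exact ⟨(A1, A2), h1, h2, h3⟩
  choose A hA1 hA2 hA3 using hex
  have hGd : ∀ α, DifferentiableOn ℂ (GG (F α) (e i)) (Metric.ball (e i : ℂ) ρ₀) := fun α =>
    (hLF (F α) (e i) ρ₀ η hη hηρ (hFd α)).1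
  have hsub : Metric.ball (e i : ℂ) (η / 2) ⊆ Metric.ball (e i : ℂ) ρ₀ :=
    Metric.ball_subset_ball (by linarith)
  have hGd' : ∀ α, DifferentiableOn ℂ (GG (F α) (e i)) (Metric.ball (e i : ℂ) (η / 2)) :=
    fun α => (hGd α).mono hsub
  set P1 : ℕ → Fin m → ℂ → ℂ := fun α j z => ∫ s in (e j)..(e i - η), (s : ℂ) ^ α /
      ((∏ k, sq ((s : ℂ) - e k)) * sq (1 * (z - (s : ℂ)))) with hP1
  set P2 : ℕ → Fin m → ℂ → ℂ := fun α j z => ∫ s in (e i + η)..(e j), (s : ℂ) ^ α /
      ((∏ k, sq ((s : ℂ) - e k)) * sq (-1 * (z - (s : ℂ)))) with hP2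
  have hreb : ∀ z ∈ Metric.ball (e i : ℂ) (η / 2), |z.re - e i| < η / 2 := by
    intro z hz
    rw [Metric.mem_ball, dist_eq_norm] at hz
    have := Complex.abs_re_le_norm (z - e i)
    rw [Complex.sub_re, Complex.ofReal_re] at this
    linarith
  have hlt : ∀ j, j < i → e j + η < e i := by
    intro j hj
    have h1 := hgap j hj.ne
    have h2 := he hj
    rw [abs_of_neg (by linarith)] at h1
    linarith
  have hgt : ∀ j, i < j → e i + η < e j := by
    intro j hj
    have h1 := hgap j hj.ne'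
    have h2 := he hj
    rw [abs_of_pos (by linarith)] at h1
    linarith
  have hP1d : ∀ α j, j < i → DifferentiableOn ℂ (P1 α j) (Metric.ball (e i : ℂ) (η / 2)) := by
    intro α j hj
    refine LOCX_.rem_diff hS hUI hP m e α he (e j) (e i - η) (η / 2) (by linarith [hlt j hj])
      (by positivity) 1 _ Metric.isOpen_ball ?_
    intro z hz s hs
    have h1 := hreb z hz
    rw [abs_lt] at h1
    simp only [one_mul, Complex.sub_re, Complex.ofReal_re]
    linarith [hs.2]
  have hP2d : ∀ α j, i < j → DifferentiableOn ℂ (P2 α j) (Metric.ball (e i : ℂ) (η / 2)) := by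
    intro α j hj
    refine LOCX_.rem_diff hS hUI hP m e α he (e i + η) (e j) (η / 2) (by linarith [hgt j hj])
      (by positivity) (-1) _ Metric.isOpen_ball ?_
    intro z hz s hs
    have h1 := hreb z hz
    rw [abs_lt] at h1
    simp only [neg_mul, one_mul, Complex.neg_re, Complex.sub_re, Complex.ofReal_re]
    linarith [hs.1]
  refine ⟨η / 2, fun α j z => if j < i then GG (F α) (e i) z + (P1 α j z + (A α).1 z)
      else if i < j then GG (F α) (e i) z + ((A α).2 z - P2 α j z / Complex.I)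
      else GG (F α) (e i) z, fun α => GG (F α) (e i), by positivity, ?_, hGd', ?_⟩
  · intro α j
    rcases lt_trichotomy j i with hj | hj | hj
    · simp only [hj, if_true]
      exact (hGd' α).add ((hP1d α j hj).add (hA1 α))
    · subst hj
      simp only [lt_irrefl, if_false]
      exact hGd' α
    · simp only [not_lt.2 hj.le, hj, if_false, if_true]
      exact (hGd' α).add ((hA2 α).sub ((hP2d α j hj).div_const _))
  · intro z hz hz0 α
    have hDi : DD e α i z = GG (F α) (e i) z :=
      LOCX_.DD_eq m e i ρ₀ B hB α z (hsub hz) hz0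
    refine ⟨hDi, ?_⟩
    intro j
    have hform := hA3 α z hz hz0
    rcases lt_trichotomy j i with hj | hj | hj
    · -- j < i
      simp only [hj, if_true]
      have hcc : cc i j = Complex.I / Real.pi := by unfold cc; rw [if_pos hj]
      have h1 := hDU m e α j i z he hz0
      have hi1 := (hUI m e α (e j) (e i - η) z he hz0).2
      have hi2 := (hUI m e α (e i - η) (e i) z he hz0).2
      have h2 : UI e α (e j) (e i) z = P1 α j z + ∫ x in (e i - η)..(e i), (x : ℂ) ^ α /
          ((∏ k, sq ((x : ℂ) - e k)) * sq (z - x)) := by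
        unfold UI
        rw [← intervalIntegral.integral_add_adjacent_intervals hi1 hi2]
        simp only [hP1, one_mul]
      have h3 : ∫ x in (e i - η)..(e i), (x : ℂ) ^ α /
          ((∏ k, sq ((x : ℂ) - e k)) * sq (z - x)) =
          ∫ r in (0 : ℝ)..η, F α ((e i : ℂ) - r) / (Complex.I * (Real.sqrt r : ℂ) *
            sq (z - e i + r)) := by
        have h4 := intervalIntegral.integral_comp_sub_left (a := 0) (b := η) (fun x : ℝ =>
          (x : ℂ) ^ α / ((∏ k, sq ((x : ℂ) - e k)) * sq (z - x))) (e i)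
        rw [sub_zero] at h4
        rw [← h4]
        refine intervalIntegral.integral_congr ?_
        intro r hr
        rw [Set.uIcc_of_le hη.le] at hr
        simp only
        rw [LOCX_.prod_real m e i ρ₀ B hB (e i - r) (by
          rw [show e i - r - e i = -r by ring, abs_neg, abs_of_nonneg hr.1]
          linarith [hr.2])]
        have h5 : sq (((e i - r : ℝ) : ℂ) - e i) = Complex.I * (Real.sqrt r : ℂ) := by
          have h6 := hS8 (-r) (by linarith [hr.1])
          rw [neg_neg] at h6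
          rw [← h6]
          congr 1
          push_cast; ring
        rw [h5]
        simp only [hF]
        push_cast
        have h7 : z - ((e i : ℂ) - r) = z - e i + r := by ring
        rw [h7, div_div]
        congr 1
        ring
      rw [hcc]
      have h8 : DD e α j z = DD e α i z + UI e α (e j) (e i) z := by rw [← h1]; ring
      rw [h8, hDi, h2, h3, hform.1]
      ring
    · -- j = i
      subst hj
      have hcc : cc j j = 0 := by unfold cc; simp
      simp only [lt_irrefl, if_false, hcc, zero_mul, add_zero]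
      exact hDi
    · -- i < j
      simp only [not_lt.2 hj.le, hj, if_false, if_true]
      have hcc : cc i j = -(Complex.I / Real.pi) := by
        unfold cc; rw [if_neg (not_lt.2 hj.le), if_pos hj]
      have h1 := hDU m e α i j z he hz0
      have hi1 := (hUI m e α (e i) (e i + η) z he hz0).2
      have hi2 := (hUI m e α (e i + η) (e j) z he hz0).2
      have h2 : UI e α (e i) (e j) z = (∫ x in (e i)..(e i + η), (x : ℂ) ^ α /
          ((∏ k, sq ((x : ℂ) - e k)) * sq (z - x))) + P2 α j z / Complex.I := by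
        unfold UI
        rw [← intervalIntegral.integral_add_adjacent_intervals hi1 hi2]
        congr 1
        simp only [hP2]
        rw [← intervalIntegral.integral_div]
        refine intervalIntegral.integral_congr ?_
        intro x _
        simp only
        have h5 : sq (z - x) = Complex.I * sq (-1 * (z - x)) := by
          rw [neg_one_mul]
          exact hS3 _ (Or.inl (by simpa using hz0))
        rw [h5, div_div]
        congr 1
        ring
      have h3 : ∫ x in (e i)..(e i + η), (x : ℂ) ^ α /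
          ((∏ k, sq ((x : ℂ) - e k)) * sq (z - x)) =
          ∫ r in (0 : ℝ)..η, F α ((e i : ℂ) + r) / ((Real.sqrt r : ℂ) * sq (z - e i - r)) := by
        have h4 := intervalIntegral.integral_comp_add_left (a := 0) (b := η) (fun x : ℝ =>
          (x : ℂ) ^ α / ((∏ k, sq ((x : ℂ) - e k)) * sq (z - x))) (e i)
        rw [add_zero] at h4
        rw [← h4]
        refine intervalIntegral.integral_congr ?_
        intro r hr
        rw [Set.uIcc_of_le hη.le] at hr
        simp only
        rw [LOCX_.prod_real m e i ρ₀ B hB (e i + r) (by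
          rw [show e i + r - e i = r by ring, abs_of_nonneg hr.1]
          linarith [hr.2])]
        have h5 : sq (((e i + r : ℝ) : ℂ) - e i) = (Real.sqrt r : ℂ) := by
          have h6 := hS7 r hr.1
          rw [← h6]
          congr 1
          push_cast; ring
        rw [h5]
        simp only [hF]
        push_cast
        have h7 : z - ((e i : ℂ) + r) = z - e i - r := by ring
        rw [h7, div_div]
        congr 1
        ring
      rw [hcc]
      have h8 : DD e α j z = DD e α i z - UI e α (e i) (e j) z := by rw [← h1]; ring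
      rw [h8, hDi, h2, h3]
      linear_combination hform.2

end Pool.Agent.HEP
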