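import Pool.Agent.HEP.Targets

/-!
# ORB: invariance under the symplectic group
-/

set_option autoImplicit false

namespace Pool.Agent.HEP

open Finset Pool.Agent.LEG
open scoped BigOperators Topology

namespace ORB_

/-- the substitution `X ↦ X T` -/
noncomputable def sub {m : ℕ} (T : Matrix (Fin m) (Fin m) ℂ)
    (Ψ : MvPolynomial (Fin m × Fin m) (Polynomial ℂ)) :
    MvPolynomial (Fin m × Fin m) (Polynomial ℂ) :=
  MvPolynomial.bind₁ (fun p => ∑ i, MvPolynomial.X (p.1, i) *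
    MvPolynomial.C (Polynomial.C (T i p.2))) Ψ

theorem evP_sub {m : ℕ} (T : Matrix (Fin m) (Fin m) ℂ) (z : ℂ) (X : Matrix (Fin m) (Fin m) ℂ)
    (Ψ : MvPolynomial (Fin m × Fin m) (Polynomial ℂ)) :
    evP z X (sub T Ψ) = evP z (X * T) Ψ := by
  unfold evP sub
  induction Ψ using MvPolynomial.induction_on with
  | C p => simp
  | add p q hp hq => rw [map_add, MvPolynomial.eval₂_add, hp, hq, MvPolynomial.eval₂_add]
  | mul_X p i hp =>
    rw [map_mul, MvPolynomial.eval₂_mul, hp, MvPolynomial.eval₂_mul, MvPolynomial.bind₁_X_right,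
      MvPolynomial.eval₂_X, MvPolynomial.eval₂_sum, Matrix.mul_apply]
    congr 1
    refine Finset.sum_congr rfl fun j _ => ?_
    rw [MvPolynomial.eval₂_mul, MvPolynomial.eval₂_X, MvPolynomial.eval₂_C]
    simp

theorem cc_anti {m : ℕ} : (Matrix.of (cc : Fin m → Fin m → ℂ)).transpose =
    -Matrix.of (cc : Fin m → Fin m → ℂ) := by
  ext i j
  simp only [Matrix.transpose_apply, Matrix.neg_apply, Matrix.of_apply, cc]
  rcases lt_trichotomy i j with h | h | h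
  · simp [h, h.not_gt]
  · simp [h]
  · simp [h, h.not_gt]

theorem cc_ne {m : ℕ} (i j : Fin m) (h : i ≠ j) : Matrix.of (cc : Fin m → Fin m → ℂ) i j ≠ 0 := by
  have h0 : Complex.I / (Real.pi : ℂ) ≠ 0 := by
    apply div_ne_zero Complex.I_ne_zero
    exact_mod_cast Real.pi_ne_zero
  simp only [Matrix.of_apply, cc]
  rcases lt_or_gt_of_ne h with h | h
  · rw [if_neg h.not_gt, if_pos h]
    exact neg_ne_zero.2 h0
  · rw [if_pos h]
    exact h0

theorem vv_sq {m : ℕ} (G : Matrix (Fin m) (Fin m) ℂ) (hG : G.transpose = -G)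
    (v : Fin m → ℂ) : vv G v * vv G v = 0 := by
  have h0 : v ⬝ᵥ G.mulVec v = 0 := by
    have h1 : v ⬝ᵥ G.mulVec v = - (v ⬝ᵥ G.mulVec v) := by
      have h2 : v ⬝ᵥ G.mulVec v = (G.mulVec v) ⬝ᵥ v := dotProduct_comm _ _
      have h3 : (G.mulVec v) ⬝ᵥ v = v ⬝ᵥ (G.transpose.mulVec v) := by
        rw [← Matrix.vecMul_transpose, Matrix.dotProduct_mulVec]
      rw [hG, Matrix.neg_mulVec, dotProduct_neg] at h3
      exact h2.trans h3
    exact self_eq_neg.1 h1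
  unfold vv
  have h4 : Matrix.vecMulVec v v * G * (Matrix.vecMulVec v v * G) =
      Matrix.vecMulVec v v * (G * Matrix.vecMulVec v v) * G := by
    simp only [Matrix.mul_assoc]
  rw [h4]
  have h5 : Matrix.vecMulVec v v * (G * Matrix.vecMulVec v v) = 0 := by
    rw [Matrix.mul_vecMulVec, Matrix.vecMulVec_mul_vecMulVec, h0]
    ext i j
    simp [Matrix.vecMulVec_apply]
  rw [h5, Matrix.zero_mul]

end ORB_

open ORB_ in
theorem p_ORB (h1 : T_GRM) (h2 : T_INV) (h3 : T_DER) (h4 : T_LIE) (h5 : T_TAY) (h6 : T_SPG) :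
    T_ORB := by
  classical
  intro m h e a C hd Ψ0 hΨ0 g hg
  obtain ⟨γ, hγ, hcc, -⟩ := h1 m h e a C hd
  set G : Matrix (Fin m) (Fin m) ℂ := Matrix.of cc with hG
  -- the ideal of relations
  let Z : Set (MvPolynomial (Fin m × Fin m) (Polynomial ℂ)) :=
    {Ψ | ∀ z : ℂ, 0 < z.im → evP z (Dm e z) Ψ = 0}
  let S : Set (Matrix (Fin m) (Fin m) ℂ) := {M | ∀ Ψ ∈ Z, dM M Ψ ∈ Z}
  have hadd : ∀ Ψ ∈ Z, ∀ Φ ∈ Z, Ψ + Φ ∈ Z := by
    intro Ψ h1 Φ h2 z hz
    have : evP z (Dm e z) (Ψ + Φ) = evP z (Dm e z) Ψ + evP z (Dm e z) Φ := by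
      simp [evP, MvPolynomial.eval₂_add]
    rw [this, h1 z hz, h2 z hz, add_zero]
  have hsub : ∀ Ψ ∈ Z, ∀ Φ ∈ Z, Ψ - Φ ∈ Z := by
    intro Ψ h1 Φ h2 z hz
    have h3 : evP z (Dm e z) (Ψ - Φ) = evP z (Dm e z) Ψ - evP z (Dm e z) Φ := by
      have := map_sub (MvPolynomial.eval₂Hom (Polynomial.evalRingHom z)
        (fun p : Fin m × Fin m => Dm e z p.1 p.2)) Ψ Φ
      exact this
    rw [h3, h1 z hz, h2 z hz, sub_zero]
  have hmul : ∀ (Φ : MvPolynomial (Fin m × Fin m) (Polynomial ℂ)), ∀ Ψ ∈ Z, Φ * Ψ ∈ Z := by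
    intro Φ Ψ h1 z hz
    have : evP z (Dm e z) (Φ * Ψ) = evP z (Dm e z) Φ * evP z (Dm e z) Ψ := by
      simp [evP, MvPolynomial.eval₂_mul]
    rw [this, h1 z hz, mul_zero]
  have hSadd : ∀ A ∈ S, ∀ B ∈ S, A + B ∈ S ∧ A * B - B * A ∈ S := by
    intro A hA B hB
    refine ⟨fun Ψ hΨ => ?_, fun Ψ hΨ => ?_⟩
    · rw [(h3 m A B 0 Ψ).1]
      exact hadd _ (hA Ψ hΨ) _ (hB Ψ hΨ)
    · rw [(h3 m A B 0 Ψ).2.2]
      exact hsub _ (hA _ (hB Ψ hΨ)) _ (hB _ (hA Ψ hΨ))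
  have hSsmul : ∀ A ∈ S, ∀ c : ℂ, c • A ∈ S := by
    intro A hA c Ψ hΨ
    rw [(h3 m A A c Ψ).2.1]
    exact hmul _ _ (hA Ψ hΨ)
  have hSi : ∀ i, vv G (Pi.single i 1) ∈ S := by
    intro i
    have h7 : vv G (Pi.single i 1) = Ni i := by
      ext x y
      rw [vv, Matrix.mul_apply]
      simp only [Matrix.vecMulVec_apply, Ni, Matrix.of_apply]
      rw [Finset.sum_eq_single i]
      · by_cases hx : x = i
        · subst hx
          simp [hG]
        · simp [hx]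
      · intro b _ hb
        simp [hb]
      · simp
    rw [h7]
    intro Ψ hΨ
    exact h2 m e Ψ hd.mono hΨ i
  have hm : 0 < m := by
    have := hd.two
    omega
  have hSv := h4 m G S hm cc_anti (fun i j hij => cc_ne i j hij) hSadd hSsmul hSi
  -- transvections
  have htv : ∀ Ψ ∈ Z, ∀ (v : Fin m → ℂ) (s : ℂ), sub (1 + s • vv G v) Ψ ∈ Z := by
    intro Ψ hΨ v s z hz
    rw [evP_sub]
    apply h5 m (vv G v) (Dm e z) z s Ψ (vv_sq G cc_anti v)
    have : ∀ k : ℕ, (fun Φ => dM (vv G v) Φ)^[k] Ψ ∈ Z := by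
      intro k
      induction k with
      | zero => exact hΨ
      | succ k ih =>
        rw [Function.iterate_succ_apply']
        exact hSv v _ ih
    exact fun k => this k z hz
  have hgm := h6 m G g cc_anti hcc hg
  have hall : ∀ T ∈ Submonoid.closure {T | ∃ (v : Fin m → ℂ) (s : ℂ), T = 1 + s • vv G v},
      ∀ Ψ ∈ Z, sub T Ψ ∈ Z := by
    intro T hT
    induction hT using Submonoid.closure_induction with
    | mem T hT =>
      obtain ⟨v, s, rfl⟩ := hT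
      exact fun Ψ hΨ => htv Ψ hΨ v s
    | one =>
      intro Ψ hΨ z hz
      rw [evP_sub, Matrix.mul_one]
      exact hΨ z hz
    | mul A B _ _ hA hB =>
      intro Ψ hΨ z hz
      rw [evP_sub, ← Matrix.mul_assoc, ← evP_sub, ← evP_sub]
      exact hA _ (hB Ψ hΨ) z hz
  intro z hz
  have := hall g hgm Ψ0 hΨ0 z hz
  rwa [evP_sub] at this

end Pool.Agent.HEP
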