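import Pool.Agent.HEP.Targets

/-!
# HEP-PAR: differentiation under the integral sign
-/

set_option autoImplicit false

namespace Pool.Agent.HEP

open Finset Pool.Agent.LEG
open scoped BigOperators Topology

namespace PAR_

theorem ae_Ioo (p q : ℝ) (hpq : p ≤ q) :
    ∀ᵐ t : ℝ ∂MeasureTheory.volume, t ∈ Set.uIoc p q → t ∈ Set.Ioo p q := by
  have h : ∀ᵐ t : ℝ ∂MeasureTheory.volume, t ∈ ({q} : Set ℝ)ᶜ :=
    MeasureTheory.compl_mem_ae_iff.mpr (MeasureTheory.measure_singleton q)
  filter_upwards [h] with t ht h1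
  rw [Set.uIoc_of_le hpq] at h1
  exact ⟨h1.1, lt_of_le_of_ne h1.2 ht⟩

theorem ae_Ioo' (p q : ℝ) :
    ∀ᵐ t : ℝ ∂(MeasureTheory.volume.restrict (Set.Ioc p q)), t ∈ Set.Ioo p q := by
  rw [MeasureTheory.ae_restrict_iff' measurableSet_Ioc]
  have h : ∀ᵐ t : ℝ ∂MeasureTheory.volume, t ∈ ({q} : Set ℝ)ᶜ :=
    MeasureTheory.compl_mem_ae_iff.mpr (MeasureTheory.measure_singleton q)
  filter_upwards [h] with t ht h1
  exact ⟨h1.1, lt_of_le_of_ne h1.2 ht⟩

end PAR_

open PAR_ in
theorem p_PAR : T_PAR := by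
  intro U f w p q hU hpq hw hmeas hdiff hbd z hz
  obtain ⟨δ, hδ, hb⟩ := hbd z hz
  obtain ⟨δ', hδ', hU'⟩ := Metric.isOpen_iff.1 hU z hz
  obtain ⟨r, hr, hrδ, hrδ'⟩ : ∃ r : ℝ, 0 < r ∧ 3 * r ≤ δ ∧ 3 * r ≤ δ' :=
    ⟨min δ δ' / 3, by positivity, by linarith [min_le_left δ δ'], by
      linarith [min_le_right δ δ']⟩
  have hball : ∀ x ∈ Metric.ball z r, Metric.closedBall x r ⊆ Metric.ball z (3 * r) := by
    intro x hx y hy
    rw [Metric.mem_ball] at hx ⊢
    rw [Metric.mem_closedBall] at hy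
    linarith [dist_triangle y x z]
  have hw' : MeasureTheory.IntegrableOn w (Set.Ioc p q) MeasureTheory.volume :=
    (intervalIntegrable_iff_integrableOn_Ioc_of_le hpq).1 hw
  have hFint : IntervalIntegrable (fun s => f s z) MeasureTheory.volume p q := by
    rw [intervalIntegrable_iff_integrableOn_Ioc_of_le hpq]
    refine MeasureTheory.Integrable.mono' hw' (hmeas z hz) ?_
    filter_upwards [ae_Ioo' p q] with s hs
    exact hb z (Metric.mem_ball_self hδ) s hs
  have hF'meas : MeasureTheory.AEStronglyMeasurable (fun s => deriv (f s) z)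
      (MeasureTheory.volume.restrict (Set.Ioc p q)) := by
    have hpos : ∀ n : ℕ, 0 < r / ((n : ℝ) + 2) := fun n => by positivity
    have hmem : ∀ n : ℕ, z + ((r / ((n : ℝ) + 2) : ℝ) : ℂ) ∈ U := by
      intro n
      refine hU' ?_
      rw [Metric.mem_ball, dist_eq_norm, add_sub_cancel_left, Complex.norm_real,
        Real.norm_of_nonneg (hpos n).le]
      have : r / ((n : ℝ) + 2) ≤ r := by
        apply div_le_self hr.le
        have : (0 : ℝ) ≤ n := Nat.cast_nonneg n
        linarith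
      linarith
    have hlim : Filter.Tendsto (fun n : ℕ => ((r / ((n : ℝ) + 2) : ℝ) : ℂ)) Filter.atTop
        (𝓝[≠] 0) := by
      rw [tendsto_nhdsWithin_iff]
      constructor
      · have h1 : Filter.Tendsto (fun n : ℕ => r / ((n : ℝ) + 2)) Filter.atTop (𝓝 0) :=
          Filter.Tendsto.div_atTop tendsto_const_nhds
            (Filter.tendsto_atTop_add_const_right _ _ tendsto_natCast_atTop_atTop)
        have h2 := (Complex.continuous_ofReal.tendsto (0 : ℝ)).comp h1
        rw [Complex.ofReal_zero] at h2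
        exact h2
      · refine Filter.Eventually.of_forall fun n => ?_
        rw [Set.mem_compl_iff, Set.mem_singleton_iff, Complex.ofReal_eq_zero]
        exact (hpos n).ne'
    refine aestronglyMeasurable_of_tendsto_ae Filter.atTop
      (f := fun (n : ℕ) (s : ℝ) => (((r / ((n : ℝ) + 2) : ℝ) : ℂ))⁻¹ •
        (f s (z + ((r / ((n : ℝ) + 2) : ℝ) : ℂ)) - f s z)) ?_ ?_
    · intro n
      have h4 := (hmeas _ (hmem n)).sub (hmeas z hz)
      exact MeasureTheory.AEStronglyMeasurable.const_smul h4 (((r / ((n : ℝ) + 2) : ℝ) : ℂ))⁻¹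
    · filter_upwards [ae_Ioo' p q] with s hs
      have h3 : HasDerivAt (f s) (deriv (f s) z) z :=
        ((hdiff s hs).differentiableAt (hU.mem_nhds hz)).hasDerivAt
      exact (hasDerivAt_iff_tendsto_slope_zero.1 h3).comp hlim
  have key := intervalIntegral.hasDerivAt_integral_of_dominated_loc_of_deriv_le
    (μ := MeasureTheory.volume) (a := p) (b := q) (F := fun z s => f s z)
    (F' := fun z s => deriv (f s) z) (x₀ := z) (s := Metric.ball z r)
    (bound := fun s => w s / r) (Metric.ball_mem_nhds z hr) ?_ hFint ?_ ?_ ?_ ?_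
  · exact ⟨hFint, key.1, key.2⟩
  · rw [Set.uIoc_of_le hpq]
    filter_upwards [hU.mem_nhds hz] with x hx
    exact hmeas x hx
  · rw [Set.uIoc_of_le hpq]
    exact hF'meas
  · filter_upwards [ae_Ioo p q hpq] with t ht h1 x hx
    have h2 := ht h1
    refine Complex.norm_deriv_le_of_forall_mem_sphere_norm_le hr
      ((hdiff t h2).diffContOnCl_ball ((hball x hx).trans
        ((Metric.ball_subset_ball hrδ').trans hU'))) ?_
    intro y hy
    exact hb y (Metric.ball_subset_ball hrδ (hball x hx (Metric.sphere_subset_closedBall hy))) t h2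
  · exact hw.div_const r
  · filter_upwards [ae_Ioo p q hpq] with t ht h1 x hx
    have h2 := ht h1
    have hxU : x ∈ U := hU' (Metric.ball_subset_ball (by linarith) hx)
    exact ((hdiff t h2).differentiableAt (hU.mem_nhds hxU)).hasDerivAt

end Pool.Agent.HEP
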