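import Pool.Agent.HEP.Targets

set_option autoImplicit false

namespace Pool.Agent.HEP

open Finset Pool.Agent.LEG
open scoped BigOperators Topology

namespace PID_

lemma geo (x y : ℝ) (n : ℕ) :
    (x - y) * ∑ k ∈ range (n + 1), x ^ k * y ^ (n - k) = x ^ (n + 1) - y ^ (n + 1) := by
  have h := (Commute.all x y).geom_sum₂_mul (n + 1)
  simp only [Nat.add_sub_cancel] at h
  have e : ∀ k ∈ range (n + 1), x ^ k * y ^ (n - k) = x ^ k * y ^ (n + 1 - 1 - k) := by
    intro k _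
    simp
  rw [Finset.sum_congr rfl e, mul_comm]
  simpa using h

lemma tn (x y : ℝ) (n : ℕ) :
    (x - y) ^ 2 * ∑ k ∈ range (n + 1), (((k : ℝ) - ((n - k : ℕ) : ℝ)) / 2) * x ^ k * y ^ (n - k) =
      ((n : ℝ) + 2) * (x ^ (n + 1) + y ^ (n + 1)) / 2 * (x - y) - x ^ (n + 2) + y ^ (n + 2) := by
  induction n with
  | zero => simp; ring
  | succ n ih =>
    rw [Finset.sum_range_succ]
    have e : ∑ k ∈ range (n + 1), (((k : ℝ) - ((n + 1 - k : ℕ) : ℝ)) / 2) * x ^ k *
        y ^ (n + 1 - k) =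
        y * ∑ k ∈ range (n + 1), (((k : ℝ) - ((n - k : ℕ) : ℝ)) / 2) * x ^ k * y ^ (n - k) -
        y / 2 * ∑ k ∈ range (n + 1), x ^ k * y ^ (n - k) := by
      rw [Finset.mul_sum, Finset.mul_sum, ← Finset.sum_sub_distrib]
      refine Finset.sum_congr rfl fun k hk => ?_
      have hk' : k ≤ n := Nat.lt_succ_iff.mp (Finset.mem_range.mp hk)
      have h1 : n + 1 - k = (n - k) + 1 := by omega
      rw [h1, pow_succ]
      push_cast
      ring
    rw [e]
    have g := geo x y n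
    simp only [Nat.sub_self, pow_zero, Nat.cast_zero]
    push_cast
    set S := ∑ k ∈ range (n + 1), x ^ k * y ^ (n - k) with hS
    set T := ∑ k ∈ range (n + 1), (((k : ℝ) - ((n - k : ℕ) : ℝ)) / 2) * x ^ k * y ^ (n - k)
      with hT
    have : (x - y) ^ 2 * (y * T - y / 2 * S + ((n : ℝ) + 1 - 0) / 2 * x ^ (n + 1) * 1) =
        y * ((x - y) ^ 2 * T) - y / 2 * (x - y) * ((x - y) * S) +
          ((n : ℝ) + 1) / 2 * x ^ (n + 1) * (x - y) ^ 2 := by ring
    rw [this, ih, g]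
    ring

lemma dbl (m : ℕ) (F : ℕ → ℕ → ℝ) (h0 : ∀ a c, m ≤ a + c → F a c = 0) :
    ∑ a ∈ range m, ∑ c ∈ range m, F a c = ∑ n ∈ range m, ∑ k ∈ range (n + 1), F k (n - k) := by
  rw [Finset.sum_range_diag_flip]
  refine Finset.sum_congr rfl fun a _ => ?_
  symm
  refine Finset.sum_subset (fun c hc => ?_) (fun c _ hc => ?_)
  · rw [Finset.mem_range] at hc ⊢
    omega
  · rw [Finset.mem_range, not_lt] at hc
    exact h0 a c (by omega)

end PID_

theorem p_PID : T_PID := by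
  intro m P hP x y
  have hlt : P.natDegree < m + 2 := by omega
  have e1 : ∀ t : ℝ, P.eval t = ∑ k ∈ range (m + 2), P.coeff k * t ^ k := fun t =>
    Polynomial.eval_eq_sum_range' hlt t
  have e2 : ∀ t : ℝ, P.derivative.eval t =
      ∑ k ∈ range (m + 2), P.coeff k * ((k : ℝ) * t ^ (k - 1)) := by
    intro t
    rw [Polynomial.derivative_eval, Polynomial.sum_over_range' P _ (m + 2) hlt]
    · refine Finset.sum_congr rfl fun k _ => ?_
      ring
    · intro n
      simp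
  have r : ∑ a ∈ range m, ∑ c ∈ range m, ((a : ℝ) - c) / 2 * P.coeff (a + c + 2) *
      x ^ a * y ^ c = ∑ n ∈ range m, P.coeff (n + 2) *
        ∑ k ∈ range (n + 1), (((k : ℝ) - ((n - k : ℕ) : ℝ)) / 2) * x ^ k * y ^ (n - k) := by
    rw [PID_.dbl m (fun a c => ((a : ℝ) - c) / 2 * P.coeff (a + c + 2) * x ^ a * y ^ c)]
    · refine Finset.sum_congr rfl fun n _ => ?_
      rw [Finset.mul_sum]
      refine Finset.sum_congr rfl fun k hk => ?_
      have hk' : k ≤ n := Nat.lt_succ_iff.mp (Finset.mem_range.mp hk)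
      have h1 : k + (n - k) + 2 = n + 2 := by omega
      simp only [h1]
      ring
    · intro a c hac
      have : P.coeff (a + c + 2) = 0 := Polynomial.coeff_eq_zero_of_natDegree_lt (by omega)
      simp [this]
  rw [r, Finset.mul_sum]
  have r2 : ∀ n ∈ range m, (x - y) ^ 2 * (P.coeff (n + 2) *
        ∑ k ∈ range (n + 1), (((k : ℝ) - ((n - k : ℕ) : ℝ)) / 2) * x ^ k * y ^ (n - k)) =
      P.coeff (n + 2) * (((n : ℝ) + 2) * (x ^ (n + 1) + y ^ (n + 1)) / 2 * (x - y) -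
        x ^ (n + 2) + y ^ (n + 2)) := by
    intro n _
    rw [← PID_.tn x y n]
    ring
  rw [Finset.sum_congr rfl r2, e1, e1, e2, e2]
  have l : (∑ k ∈ range (m + 2), P.coeff k * ((k : ℝ) * x ^ (k - 1)) +
      ∑ k ∈ range (m + 2), P.coeff k * ((k : ℝ) * y ^ (k - 1))) / 2 * (x - y) -
      ∑ k ∈ range (m + 2), P.coeff k * x ^ k + ∑ k ∈ range (m + 2), P.coeff k * y ^ k =
      ∑ k ∈ range (m + 2), P.coeff k * ((k : ℝ) * (x ^ (k - 1) + y ^ (k - 1)) / 2 * (x - y) -
        x ^ k + y ^ k) := by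
    rw [← Finset.sum_add_distrib, div_mul_eq_mul_div, Finset.sum_mul, Finset.sum_div,
      ← Finset.sum_sub_distrib, ← Finset.sum_add_distrib]
    refine Finset.sum_congr rfl fun k _ => ?_
    ring
  rw [l, Finset.sum_range_succ', Finset.sum_range_succ']
  simp only [Nat.cast_add, Nat.cast_one, Nat.add_sub_cancel, pow_zero, zero_add, Nat.cast_zero]
  have : ∀ k : ℕ, k + 1 + 1 = k + 2 := fun k => rfl
  simp only [this]
  have z : P.coeff 1 * ((1 : ℝ) * (x ^ (1 - 1) + y ^ (1 - 1)) / 2 * (x - y) - x ^ 1 + y ^ 1) =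
      0 := by
    simp
  have z0 : P.coeff 0 * ((0 : ℝ) * (x ^ (0 - 1) + y ^ (0 - 1)) / 2 * (x - y) - 1 + 1) = 0 := by
    ring
  rw [z, z0, add_zero, add_zero]
  refine Finset.sum_congr rfl fun n _ => ?_
  ring

end Pool.Agent.HEP
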