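import Pool.Agent.HEP.Targets

set_option autoImplicit false

namespace Pool.Agent.HEP

open Finset Pool.Agent.LEG
open scoped BigOperators Topology

namespace RAD_

/-- Fubini for a continuous kernel times integrable weights -/
theorem swap (f : ℝ → ℝ → ℝ) (w v : ℝ → ℝ) (p q r s : ℝ) (hpq : p ≤ q) (hrs : r ≤ s)
    (hf : ContinuousOn (Function.uncurry f) (Set.Icc p q ×ˢ Set.Icc r s))
    (hw : IntervalIntegrable w MeasureTheory.volume p q)
    (hv : IntervalIntegrable v MeasureTheory.volume r s) :
    ∫ x in p..q, ∫ y in r..s, f x y * (w x * v y) =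
      ∫ y in r..s, ∫ x in p..q, f x y * (w x * v y) := by
  apply MeasureTheory.intervalIntegral_intervalIntegral_swap
  have hw' : MeasureTheory.IntegrableOn w (Set.Icc p q) MeasureTheory.volume :=
    (intervalIntegrable_iff_integrableOn_Icc_of_le hpq).1 hw
  have hv' : MeasureTheory.IntegrableOn v (Set.Icc r s) MeasureTheory.volume :=
    (intervalIntegrable_iff_integrableOn_Icc_of_le hrs).1 hv
  have h1 : MeasureTheory.IntegrableOn (fun z : ℝ × ℝ => w z.1 * v z.2)
      (Set.Icc p q ×ˢ Set.Icc r s) MeasureTheory.volume := by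
    have h := MeasureTheory.Integrable.mul_prod hw' hv'
    rw [MeasureTheory.Measure.prod_restrict] at h
    exact h
  have h2 : MeasureTheory.IntegrableOn (fun z : ℝ × ℝ => Function.uncurry f z * (w z.1 * v z.2))
      (Set.Icc p q ×ˢ Set.Icc r s) MeasureTheory.volume :=
    h1.continuousOn_mul hf (isCompact_Icc.prod isCompact_Icc)
  rw [Set.uIoc_of_le hpq, Set.uIoc_of_le hrs]
  exact h2.mono_set (Set.prod_mono Set.Ioc_subset_Icc_self Set.Ioc_subset_Icc_self)

/-- double sums of products of integrals -/
theorem dbl (m : ℕ) (co : ℕ → ℕ → ℝ) (w v : ℝ → ℝ) (p q r s : ℝ)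
    (hw : ∀ n : ℕ, IntervalIntegrable (fun x => x ^ n * w x) MeasureTheory.volume p q)
    (hv : ∀ n : ℕ, IntervalIntegrable (fun x => x ^ n * v x) MeasureTheory.volume r s) :
    ∫ x in p..q, ∫ y in r..s, (∑ a ∈ range m, ∑ c ∈ range m, co a c * x ^ a * y ^ c) *
        (w x * v y) =
      ∑ a ∈ range m, ∑ c ∈ range m, co a c * (∫ x in p..q, x ^ a * w x) *
        (∫ y in r..s, y ^ c * v y) := by
  have h1 : ∀ x : ℝ, ∫ y in r..s, (∑ a ∈ range m, ∑ c ∈ range m, co a c * x ^ a * y ^ c) *
      (w x * v y) = ∑ a ∈ range m, ∑ c ∈ range m, (co a c * (∫ y in r..s, y ^ c * v y)) *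
        (x ^ a * w x) := by
    intro x
    have h2 : ∀ y : ℝ, (∑ a ∈ range m, ∑ c ∈ range m, co a c * x ^ a * y ^ c) * (w x * v y) =
        ∑ a ∈ range m, ∑ c ∈ range m, (co a c * (x ^ a * w x)) * (y ^ c * v y) := by
      intro y
      rw [Finset.sum_mul]
      refine Finset.sum_congr rfl fun a _ => ?_
      rw [Finset.sum_mul]
      refine Finset.sum_congr rfl fun c _ => ?_
      ring
    simp only [h2]
    rw [intervalIntegral.integral_finsetSum]
    · refine Finset.sum_congr rfl fun a _ => ?_
      rw [intervalIntegral.integral_finsetSum]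
      · refine Finset.sum_congr rfl fun c _ => ?_
        rw [intervalIntegral.integral_const_mul]
        ring
      · intro c _
        exact (hv c).const_mul _
    · intro a _
      have : (fun y : ℝ => ∑ c ∈ range m, (co a c * (x ^ a * w x)) * (y ^ c * v y)) =
          ∑ c ∈ range m, fun y : ℝ => (co a c * (x ^ a * w x)) * (y ^ c * v y) := by
        funext y
        rw [Finset.sum_apply]
      rw [this]
      exact IntervalIntegrable.sum _ fun c _ => (hv c).const_mul _
  simp only [h1]
  rw [intervalIntegral.integral_finsetSum]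
  · refine Finset.sum_congr rfl fun a _ => ?_
    rw [intervalIntegral.integral_finsetSum]
    · refine Finset.sum_congr rfl fun c _ => ?_
      rw [intervalIntegral.integral_const_mul]
      ring
    · intro c _
      exact (hw a).const_mul _
  · intro a _
    have : (fun x : ℝ => ∑ c ∈ range m, (co a c * (∫ y in r..s, y ^ c * v y)) * (x ^ a * w x)) =
        ∑ c ∈ range m, fun x : ℝ => (co a c * (∫ y in r..s, y ^ c * v y)) * (x ^ a * w x) := by
      funext y
      rw [Finset.sum_apply]
    rw [this]
    exact IntervalIntegrable.sum _ fun c _ => (hw a).const_mul _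

end RAD_

theorem p_RAD (h1 : T_PID) (h2 : T_INTB) (h3 : T_RIN) (h4 : T_RLIM) : T_RAD := by
  intro m b hb j k hjk
  obtain ⟨P, hP⟩ : ∃ P : Polynomial ℝ, P = ∏ i, (Polynomial.X - Polynomial.C (b i)) := ⟨_, rfl⟩
  have hev : ∀ x, P.eval x = ∏ i, (x - b i) := by
    intro x
    rw [hP, Polynomial.eval_prod]
    simp
  have hdeg : P.natDegree ≤ m + 1 := by
    rw [hP, Polynomial.natDegree_prod_of_monic _ _ fun i _ => Polynomial.monic_X_sub_C (b i)]
    simp
  obtain ⟨e, he⟩ : ∃ e : ℝ, e = b k.castSucc := ⟨_, rfl⟩
  have hsc : j.succ = k.castSucc := by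
    apply Fin.ext
    simp [hjk]
  have he' : b j.succ = e := by rw [he, hsc]
  have hbj : b j.castSucc < e := by
    rw [he, ← hsc]
    exact hb Fin.castSucc_lt_succ
  have hek : e < b k.succ := by
    rw [he]
    exact hb Fin.castSucc_lt_succ
  obtain ⟨w, hwd⟩ : ∃ w : ℝ → ℝ, w = fun x => 1 / Real.sqrt |P.eval x| := ⟨_, rfl⟩
  have hwx : ∀ x, w x = 1 / Real.sqrt |P.eval x| := fun x => by rw [hwd]
  have hwn : ∀ (n : ℕ) (p q : ℝ), IntervalIntegrable (fun x => x ^ n * w x)
      MeasureTheory.volume p q := by
    intro n p q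
    have h := h2 (m + 1) b hb.injective p q n
    have h' : (fun x => x ^ n * w x) = fun x => x ^ n / Real.sqrt |∏ i, (x - b i)| := by
      funext x
      rw [hwx, hev]
      ring
    rw [h']
    exact h
  have hw : ∀ p q : ℝ, IntervalIntegrable w MeasureTheory.volume p q := by
    intro p q
    have h := hwn 0 p q
    simpa using h
  have hper : ∀ a i : Fin m, per b a i = ∫ x in (b i.castSucc)..(b i.succ),
      x ^ (a : ℕ) * w x := by
    intro a i
    unfold per
    apply intervalIntegral.integral_congr
    intro x _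
    simp only [hwx, hev]
    ring
  -- the approximating sums
  obtain ⟨co, hco⟩ : ∃ co : ℕ → ℕ → ℝ, co = fun a c : ℕ => ((a : ℝ) - (c : ℝ)) / 2 * P.coeff (a + c + 2) :=
    ⟨_, rfl⟩
  obtain ⟨S, hS⟩ : ∃ S : ℝ → ℝ, S = fun u => ∑ a ∈ range m, ∑ c ∈ range m, co a c *
      (∫ x in (b j.castSucc)..u, x ^ a * w x) * (∫ y in e..(b k.succ), y ^ c * w y) := ⟨_, rfl⟩
  have hSe : ∑ a : Fin m, ∑ c : Fin m, (((a : ℕ) : ℝ) - ((c : ℕ) : ℝ)) / 2 *
      P.coeff ((a : ℕ) + c + 2) * per b a j * per b c k = S e := by
    rw [hS]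
    simp only
    rw [Finset.sum_range]
    refine Finset.sum_congr rfl fun a _ => ?_
    rw [Finset.sum_range]
    refine Finset.sum_congr rfl fun c _ => ?_
    rw [hper, hper, hco, he', ← he]
  have hS1 : Filter.Tendsto (fun ε : ℝ => S (e - ε)) (𝓝[>] 0) (𝓝 (S e)) := by
    have hc : Continuous S := by
      rw [hS]
      refine continuous_finsetSum _ fun a _ => continuous_finsetSum _ fun c _ => ?_
      exact (continuous_const.mul
        (intervalIntegral.continuous_primitive (fun p q => hwn a p q) _)).mul continuous_const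
    have h : Filter.Tendsto (fun ε : ℝ => S (e - ε)) (𝓝 0) (𝓝 (S (e - 0))) :=
      (hc.comp (continuous_const.sub continuous_id)).tendsto 0
    rw [sub_zero] at h
    exact h.mono_left nhdsWithin_le_nhds
  have hS2 : ∀ᶠ ε : ℝ in 𝓝[>] 0, -(-1) ^ (m - (j : ℕ)) *
      (∫ y in (b k.castSucc)..(b k.succ), Real.sqrt |∏ i, (b j.succ - ε - b i)| /
        ((y - (b j.succ - ε)) * Real.sqrt |∏ i, (y - b i)|)) = S (e - ε) := by
    have hpos : (0 : ℝ) < e - b j.castSucc := by linarith
    filter_upwards [Ioo_mem_nhdsGT hpos] with ε hε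
    obtain ⟨hε0, hε1⟩ := hε
    obtain ⟨u, hu⟩ : ∃ u : ℝ, u = e - ε := ⟨_, rfl⟩
    have hu1 : b j.castSucc ≤ u := by linarith
    have hu2 : u < e := by linarith
    -- the kernels
    obtain ⟨f1, hf1⟩ : ∃ f1 : ℝ → ℝ → ℝ, f1 = fun x y =>
      (P.derivative.eval x / 2 * (x - y) - P.eval x) / (x - y) ^ 2 := ⟨_, rfl⟩
    have hf1c : ContinuousOn (Function.uncurry f1) (Set.Icc (b j.castSucc) u ×ˢ
        Set.Icc e (b k.succ)) := by
      rw [hf1]
      unfold Function.uncurry
      simp only
      apply ContinuousOn.div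
      · apply Continuous.continuousOn
        have c1 : Continuous fun z : ℝ × ℝ => P.derivative.eval z.1 :=
          P.derivative.continuous.comp continuous_fst
        have c2 : Continuous fun z : ℝ × ℝ => P.eval z.1 := P.continuous.comp continuous_fst
        fun_prop
      · apply Continuous.continuousOn
        fun_prop
      · rintro ⟨x, y⟩ ⟨hx, hy⟩
        simp only [Set.mem_Icc] at hx hy
        have : x - y < 0 := by linarith [hx.2, hy.1]
        exact pow_ne_zero _ this.ne
    have hK : ∀ x y : ℝ, x < y → ∑ a ∈ range m, ∑ c ∈ range m, co a c * x ^ a * y ^ c =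
        f1 x y - f1 y x := by
      intro x y hxy
      have h := h1 m P hdeg x y
      have hne : x - y ≠ 0 := by
        intro h0
        linarith
      have hne' : y - x ≠ 0 := by
        intro h0
        linarith
      rw [hco, hf1]
      simp only
      have h' : ∑ a ∈ range m, ∑ c ∈ range m, ((a : ℝ) - c) / 2 * P.coeff (a + c + 2) * x ^ a *
          y ^ c = ((P.derivative.eval x + P.derivative.eval y) / 2 * (x - y) - P.eval x +
            P.eval y) / (x - y) ^ 2 := by
        rw [h]
        field_simp
      rw [h']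
      have e1 : (y - x) ^ 2 = (x - y) ^ 2 := by ring
      rw [e1, ← sub_div]
      congr 1
      ring
    -- the second part vanishes
    have hz : ∀ x ∈ Set.uIcc (b j.castSucc) u, ∫ y in e..(b k.succ),
        (∑ a ∈ range m, ∑ c ∈ range m, co a c * x ^ a * y ^ c) * (w x * w y) =
        ∫ y in e..(b k.succ), f1 x y * (w x * w y) := by
      intro x hx
      rw [Set.uIcc_of_le hu1] at hx
      have hxe : x < e := lt_of_le_of_lt hx.2 hu2
      have hxn : x ∉ Set.Icc (b k.castSucc) (b k.succ) := by
        intro hx'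
        rw [← he] at hx'
        linarith [hx'.1]
      obtain ⟨i1, i2⟩ := h3 m b hb P hP k x (b k.succ) hxn
        ⟨by rw [← he]; exact hek.le, le_refl _⟩
      have hroot : P.eval (b k.succ) = 0 := by
        rw [hev]
        exact Finset.prod_eq_zero (Finset.mem_univ k.succ) (sub_self _)
      rw [hroot, abs_zero, Real.sqrt_zero, mul_zero, zero_div, ← he] at i2
      rw [← he] at i1
      have hi1 : IntervalIntegrable (fun y => f1 x y * (w x * w y)) MeasureTheory.volume
          e (b k.succ) := by
        have hc : ContinuousOn (fun y => f1 x y * w x) (Set.uIcc e (b k.succ)) := by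
          rw [Set.uIcc_of_le hek.le]
          apply ContinuousOn.mul _ continuousOn_const
          have hcomp : ContinuousOn (fun y : ℝ => Function.uncurry f1 ((x, y) : ℝ × ℝ))
              (Set.Icc e (b k.succ)) :=
            hf1c.comp (Continuous.continuousOn (by fun_prop)) (fun y hy => ⟨hx, hy⟩)
          exact hcomp
        have h := (hw e (b k.succ)).continuousOn_mul hc
        refine h.congr ?_
        intro y _
        simp only
        ring
      have hi2 : IntervalIntegrable (fun y => w x * ((P.derivative.eval y / 2 * (y - x) -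
          P.eval y) / ((y - x) ^ 2 * Real.sqrt |P.eval y|))) MeasureTheory.volume e (b k.succ) :=
        i1.const_mul _
      have hsplit : ∀ y ∈ Set.uIcc e (b k.succ), (∑ a ∈ range m, ∑ c ∈ range m,
          co a c * x ^ a * y ^ c) * (w x * w y) = f1 x y * (w x * w y) -
            w x * ((P.derivative.eval y / 2 * (y - x) - P.eval y) /
              ((y - x) ^ 2 * Real.sqrt |P.eval y|)) := by
        intro y hy
        rw [Set.uIcc_of_le hek.le] at hy
        rw [hK x y (lt_of_lt_of_le hxe hy.1), sub_mul]
        congr 1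
        rw [hf1]
        simp only
        rw [hwx y, ← div_div]
        ring
      rw [intervalIntegral.integral_congr hsplit, intervalIntegral.integral_sub hi1 hi2,
        intervalIntegral.integral_const_mul, i2, mul_zero, sub_zero]
    have hm : S u = ∫ x in (b j.castSucc)..u, ∫ y in e..(b k.succ),
        (∑ a ∈ range m, ∑ c ∈ range m, co a c * x ^ a * y ^ c) * (w x * w y) := by
      rw [RAD_.dbl m co w w _ _ _ _ (fun n => hwn n _ _) (fun n => hwn n _ _), hS]
    rw [← hu, hm, intervalIntegral.integral_congr hz,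
      RAD_.swap f1 w w _ _ _ _ hu1 hek.le hf1c (hw _ _) (hw _ _),
      ← intervalIntegral.integral_const_mul, ← he]
    apply intervalIntegral.integral_congr_ae
    refine Filter.Eventually.of_forall fun y hy => ?_
    rw [Set.uIoc_of_le hek.le] at hy
    have hyn : y ∉ Set.Icc (b j.castSucc) (b j.succ) := by
      intro hy'
      rw [he'] at hy'
      linarith [hy'.2, hy.1]
    obtain ⟨_, i2⟩ := h3 m b hb P hP j y u hyn ⟨hu1, by rw [he']; exact hu2.le⟩
    have hin : ∫ x in (b j.castSucc)..u, f1 x y * (w x * w y) =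
        w y * ∫ x in (b j.castSucc)..u, (P.derivative.eval x / 2 * (x - y) - P.eval x) /
          ((x - y) ^ 2 * Real.sqrt |P.eval x|) := by
      rw [← intervalIntegral.integral_const_mul]
      apply intervalIntegral.integral_congr
      intro x _
      simp only [hf1]
      rw [hwx x, ← div_div]
      ring
    rw [hin, i2, hwx y, hev, hev, he', ← hu]
    have hne : y - u ≠ 0 := by
      intro h0
      linarith [hy.1]
    have hne' : u - y ≠ 0 := by
      intro h0
      linarith [hy.1]
    have e1 : u - y = -(y - u) := by ring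
    rw [e1, div_neg]
    field_simp
  have hlim := (h4 m b hb j k hjk).const_mul (-(-1 : ℝ) ^ (m - (j : ℕ)))
  have hfin := tendsto_nhds_unique (hlim.congr' hS2) hS1
  rw [← hP, hSe, ← hfin]

end Pool.Agent.HEP
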