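import Pool.Agent.HEP.Targets

set_option autoImplicit false

namespace Pool.Agent.HEP

open Finset
open scoped BigOperators

namespace RB_

theorem lcm_bound (n : ℕ) : Nat.lcmUpto n ≤ 220 ^ n := by
  have h1 := Chebyshev.psi_le_const_mul_self (x := (n : ℝ)) (by positivity)
  rw [Chebyshev.psi_eq_log_lcmUpto] at h1
  have hpos : (0 : ℝ) < Nat.lcmUpto n := by exact_mod_cast Nat.lcmUpto_pos n
  have h2 : (Nat.lcmUpto n : ℝ) ≤ Real.exp ((Real.log 4 + 4) * n) := by
    rw [← Real.log_le_iff_le_exp hpos]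
    exact h1
  have h3 : Real.exp ((Real.log 4 + 4) * n) = (4 * Real.exp 4) ^ n := by
    rw [mul_comm, Real.exp_nat_mul, Real.exp_add, Real.exp_log (by norm_num)]
  have h4 : Real.exp 4 ≤ 55 := by
    have h5 := Real.exp_one_lt_d9
    have h6 : Real.exp 4 = Real.exp 1 ^ 4 := by
      rw [← Real.exp_nat_mul]; norm_num
    rw [h6]
    calc Real.exp 1 ^ 4 ≤ (2.7182818286 : ℝ) ^ 4 :=
          pow_le_pow_left₀ (Real.exp_pos _).le h5.le 4
      _ ≤ 55 := by norm_num
  have h5 : (Nat.lcmUpto n : ℝ) ≤ (220 : ℝ) ^ n := by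
    rw [h3] at h2
    refine h2.trans (pow_le_pow_left₀ (by positivity) ?_ n)
    linarith
  exact_mod_cast h5

theorem dvd_lcm {s n : ℕ} (h1 : 1 ≤ s) (h2 : s ≤ n) : s ∣ Nat.lcmUpto n := by
  unfold Nat.lcmUpto
  exact Finset.dvd_lcm (f := id) (Finset.mem_Icc.mpr ⟨h1, h2⟩)

theorem int_of_den_dvd (q : ℚ) (D : ℕ) (h : q.den ∣ D) : ∃ x : ℤ, (D : ℚ) * q = x := by
  obtain ⟨e, rfl⟩ := h
  refine ⟨e * q.num, ?_⟩
  push_cast
  rw [mul_comm (q.den : ℚ) (e : ℚ), mul_assoc, mul_comm (q.den : ℚ) q, Rat.mul_den_eq_num]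

theorem exists_consts (h : Polynomial ℚ) : ∃ B D : ℕ, 1 ≤ B ∧ 1 ≤ D ∧
    (∀ t, |h.coeff t| ≤ B) ∧ |1 / h.coeff 0| ≤ B ∧ (∀ t, ∃ x : ℤ, (D : ℚ) * h.coeff t = x) ∧
    ∃ x : ℤ, (D : ℚ) * (1 / h.coeff 0) = x := by
  refine ⟨⌈∑ t ∈ range (h.natDegree + 1), |h.coeff t| + |1 / h.coeff 0|⌉₊ + 1,
    (∏ t ∈ range (h.natDegree + 1), (h.coeff t).den) * (1 / h.coeff 0).den, by omega, ?_, ?_, ?_,
    ?_, ?_⟩
  · have h1 : 0 < (∏ t ∈ range (h.natDegree + 1), (h.coeff t).den) * (1 / h.coeff 0).den :=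
      Nat.mul_pos (Finset.prod_pos fun t _ => Rat.den_pos _) (Rat.den_pos _)
    exact h1
  · intro t
    push_cast
    by_cases ht : t ∈ range (h.natDegree + 1)
    · have h1 : |h.coeff t| ≤ ∑ t ∈ range (h.natDegree + 1), |h.coeff t| :=
        Finset.single_le_sum (f := fun t => |h.coeff t|) (fun i _ => abs_nonneg _) ht
      have h2 := Nat.le_ceil (∑ t ∈ range (h.natDegree + 1), |h.coeff t| + |1 / h.coeff 0|)
      have h3 := abs_nonneg (1 / h.coeff 0)
      linarith
    · rw [Polynomial.coeff_eq_zero_of_natDegree_lt]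
      · rw [abs_zero]
        positivity
      · rw [Finset.mem_range] at ht
        omega
  · push_cast
    have h1 : 0 ≤ ∑ t ∈ range (h.natDegree + 1), |h.coeff t| :=
      Finset.sum_nonneg fun i _ => abs_nonneg _
    have h2 := Nat.le_ceil (∑ t ∈ range (h.natDegree + 1), |h.coeff t| + |1 / h.coeff 0|)
    linarith
  · intro t
    by_cases ht : t ∈ range (h.natDegree + 1)
    · apply int_of_den_dvd
      exact (Finset.dvd_prod_of_mem (fun t => (h.coeff t).den) ht).mul_right _
    · have h0 : h.coeff t = 0 := Polynomial.coeff_eq_zero_of_natDegree_lt (by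
        rw [Finset.mem_range] at ht
        omega)
      rw [h0]
      exact ⟨0, by simp⟩
  · apply int_of_den_dvd
    exact Dvd.intro_left _ rfl

end RB_

open RB_ in
theorem p_RB : T_RB := by
  intro h a C hS
  obtain ⟨B, D, hB, hD, hBt, hB0, hDt, hD0⟩ := exists_consts h
  have hC : 1 ≤ C := hS.one
  have hCq : (1 : ℚ) ≤ C := by exact_mod_cast hC
  have hBq : (1 : ℚ) ≤ B := by exact_mod_cast hB
  set m := h.natDegree with hm
  -- bound for qk
  have hq : ∀ k j, 1 ≤ j → |qk h a k j| ≤ B * ((k + 1) * (2 * (C : ℚ) ^ k)) := by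
    intro k j hj
    unfold qk
    rw [abs_mul]
    refine mul_le_mul hB0 ?_ (abs_nonneg _) (by positivity)
    refine (Finset.abs_sum_le_sum_abs _ _).trans ?_
    have h1 : ∀ s ∈ range (k + 1 - j), |a s * a (k - j - s) / ((s : ℚ) - k + 1 / 2)| ≤
        2 * (C : ℚ) ^ k := by
      intro s hs
      rw [Finset.mem_range] at hs
      have hsk : s + 1 ≤ k := by omega
      have hskq : (s : ℚ) + 1 ≤ k := by exact_mod_cast hsk
      rw [abs_div, abs_mul]
      have h2 : (1 / 2 : ℚ) ≤ |(s : ℚ) - k + 1 / 2| := by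
        rw [abs_of_neg (by linarith)]
        linarith
      have h3 : |a s| * |a (k - j - s)| ≤ (C : ℚ) ^ k := by
        calc |a s| * |a (k - j - s)| ≤ (C : ℚ) ^ s * (C : ℚ) ^ (k - j - s) :=
              mul_le_mul (hS.size _) (hS.size _) (abs_nonneg _) (by positivity)
          _ = (C : ℚ) ^ (s + (k - j - s)) := by rw [pow_add]
          _ ≤ (C : ℚ) ^ k := pow_le_pow_right₀ hCq (by omega)
      rw [div_le_iff₀ (by linarith)]
      have h4 : (0 : ℚ) ≤ (C : ℚ) ^ k := by positivity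
      nlinarith
    refine (Finset.sum_le_card_nsmul _ _ _ h1).trans ?_
    rw [Finset.card_range, nsmul_eq_mul]
    refine mul_le_mul_of_nonneg_right ?_ (by positivity)
    have : ((k + 1 - j : ℕ) : ℚ) ≤ ((k + 1 : ℕ) : ℚ) := by exact_mod_cast (by omega)
    push_cast at this
    exact this
  refine ⟨2 * D ^ 2 + B ^ 2 * (1 + m) + 48400 * C, by nlinarith [Nat.zero_le (B ^ 2 * (1 + m))],
    ?_, ?_⟩
  · intro k l
    unfold rr
    rw [abs_mul]
    have h0 : |(-(1 / 2) : ℚ)| = 1 / 2 := by norm_num [abs_of_neg]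
    rw [h0]
    have h1 : ∀ j ∈ Icc 1 k, |qk h a k j * (1 - (j : ℚ) + l) * h.coeff (l + j)| ≤
        B * ((k + 1) * (2 * (C : ℚ) ^ k)) * (1 + m) * B := by
      intro j hj
      rw [Finset.mem_Icc] at hj
      by_cases hlj : l + j ≤ m
      · rw [abs_mul, abs_mul]
        refine mul_le_mul (mul_le_mul (hq k j hj.1) ?_ (abs_nonneg _) (by positivity)) (hBt _)
          (abs_nonneg _) (by positivity)
        have h2 : (l : ℚ) + j ≤ m := by exact_mod_cast hlj
        have h3 : (0 : ℚ) ≤ l := by positivity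
        have h4 : (0 : ℚ) ≤ j := by positivity
        rw [abs_le]
        constructor <;> linarith
      · rw [Polynomial.coeff_eq_zero_of_natDegree_lt (by omega), mul_zero, abs_zero]
        positivity
    have h2 := (Finset.abs_sum_le_sum_abs (fun j => qk h a k j * (1 - (j : ℚ) + l) *
      h.coeff (l + j)) (Icc 1 k)).trans (Finset.sum_le_card_nsmul _ _ _ h1)
    rw [Nat.card_Icc, nsmul_eq_mul] at h2
    have h3 : ((k + 1 - 1 : ℕ) : ℚ) = k := by simp
    rw [h3] at h2
    have h4 : ((k : ℚ) * (k + 1)) ≤ 4 ^ k := by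
      have h5 : ∀ k : ℕ, k * (k + 1) ≤ 4 ^ k := by
        intro k
        induction k with
        | zero => simp
        | succ k ih =>
          rw [pow_succ]
          nlinarith [Nat.one_le_pow k 4 (by norm_num)]
      exact_mod_cast h5 k
    calc (1 / 2 : ℚ) * |∑ j ∈ Icc 1 k, qk h a k j * (1 - (j : ℚ) + l) * h.coeff (l + j)|
        ≤ 1 / 2 * (k * (B * ((k + 1) * (2 * (C : ℚ) ^ k)) * (1 + m) * B)) := by
          linarith
      _ = (B : ℚ) ^ 2 * (1 + m) * ((k * (k + 1)) * (C : ℚ) ^ k) := by ring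
      _ ≤ (B : ℚ) ^ 2 * (1 + m) * (4 ^ k * (C : ℚ) ^ k) := by
          refine mul_le_mul_of_nonneg_left ?_ (by positivity)
          exact mul_le_mul_of_nonneg_right h4 (by positivity)
      _ = (B : ℚ) ^ 2 * (1 + m) * (4 * (C : ℚ)) ^ k := by rw [mul_pow]
      _ ≤ (((2 * D ^ 2 + B ^ 2 * (1 + m) + 48400 * C : ℕ)) : ℚ) *
          (((2 * D ^ 2 + B ^ 2 * (1 + m) + 48400 * C : ℕ)) : ℚ) ^ k := by
          have e1 : (0 : ℚ) ≤ 2 * (D : ℚ) ^ 2 := by positivity
          have e2 : (0 : ℚ) ≤ (B : ℚ) ^ 2 * (1 + m) := by positivity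
          refine mul_le_mul ?_ (pow_le_pow_left₀ (by positivity) ?_ k) (by positivity)
            (by positivity)
          · push_cast
            linarith
          · push_cast
            linarith
      _ = _ := by rw [pow_succ]; ring
  · intro n
    refine ⟨2 * D ^ 2 * C ^ n * Nat.lcmUpto (2 * n), ?_, ?_, ?_⟩
    · have := Nat.lcmUpto_pos (2 * n)
      positivity
    · calc 2 * D ^ 2 * C ^ n * Nat.lcmUpto (2 * n) ≤ 2 * D ^ 2 * C ^ n * 220 ^ (2 * n) :=
            Nat.mul_le_mul_left _ (lcm_bound _)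
        _ = 2 * D ^ 2 * (48400 * C) ^ n := by
            rw [mul_pow, pow_mul]
            norm_num
            ring
        _ ≤ (2 * D ^ 2 + B ^ 2 * (1 + m) + 48400 * C) *
            (2 * D ^ 2 + B ^ 2 * (1 + m) + 48400 * C) ^ n := by
            refine Nat.mul_le_mul (by nlinarith [Nat.zero_le (B ^ 2 * (1 + m))])
              (Nat.pow_le_pow_left (Nat.le_add_left _ _) n)
        _ = _ := by rw [pow_succ]; ring
    · intro k hk l
      -- integrality of qk
      have hqi : ∀ j, 1 ≤ j → ∃ x : ℤ,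
          ((D : ℚ) * C ^ n * Nat.lcmUpto (2 * n)) * qk h a k j = x := by
        intro j hj
        obtain ⟨x0, hx0⟩ := hD0
        have h1 : ∀ s ∈ range (k + 1 - j), ∃ x : ℤ,
            ((C : ℚ) ^ n * Nat.lcmUpto (2 * n)) *
              (a s * a (k - j - s) / ((s : ℚ) - k + 1 / 2)) = x := by
          intro s hs
          rw [Finset.mem_range] at hs
          obtain ⟨x1, hx1⟩ := hS.int s
          obtain ⟨x2, hx2⟩ := hS.int (k - j - s)
          obtain ⟨t, ht⟩ : (2 * (k - s) - 1) ∣ Nat.lcmUpto (2 * n) :=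
            dvd_lcm (by omega) (by omega)
          refine ⟨-2 * t * (C : ℤ) ^ (n - s - (k - j - s)) * x1 * x2, ?_⟩
          have e1 : (C : ℚ) ^ n = (C : ℚ) ^ (n - s - (k - j - s)) * (C : ℚ) ^ s *
              (C : ℚ) ^ (k - j - s) := by
            rw [← pow_add, ← pow_add]
            congr 1
            omega
          have e2 : ((2 * (k - s) - 1 : ℕ) : ℚ) = -2 * ((s : ℚ) - k + 1 / 2) := by
            rw [Nat.cast_sub (by omega), Nat.cast_mul, Nat.cast_sub (by omega)]
            push_cast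
            ring
          have e3 : ((s : ℚ) - k + 1 / 2) ≠ 0 := by
            have hsk : s + 1 ≤ k := by omega
            have hskq : (s : ℚ) + 1 ≤ k := by exact_mod_cast hsk
            intro h0
            linarith
          rw [ht, Nat.cast_mul, e2, e1]
          push_cast
          rw [← hx1, ← hx2]
          generalize ((s : ℚ) - k + 1 / 2) = w at e3
          field_simp
        choose! f hf using h1
        refine ⟨x0 * ∑ s ∈ range (k + 1 - j), f s, ?_⟩
        unfold qk
        push_cast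
        rw [← hx0, ← Finset.sum_congr rfl hf, ← Finset.mul_sum]
        ring
      choose! g hg using hqi
      choose u hu using hDt
      refine ⟨-∑ j ∈ Icc 1 k, g j * (1 - j + l) * u (l + j), ?_⟩
      unfold rr
      push_cast
      rw [← mul_assoc, ← Finset.sum_neg_distrib, Finset.mul_sum]
      refine Finset.sum_congr rfl fun j hj => ?_
      rw [Finset.mem_Icc] at hj
      rw [← hg j hj.1, ← hu (l + j)]
      ring

end Pool.Agent.HEP
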