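import Pool.Agent.HEP.Targets

/-!
# HEP-RED: reduction of `x ^ (-k)`
-/

set_option autoImplicit false

namespace Pool.Agent.HEP

open Finset Pool.Agent.LEG
open scoped BigOperators Topology

namespace RED_

theorem half_ne (s k : ℕ) : (s : ℚ) - k + 1 / 2 ≠ 0 := by
  intro h
  have h1 : (2 * (s : ℤ) - 2 * k + 1 : ℤ) = 0 := by
    have : ((2 * (s : ℤ) - 2 * k + 1 : ℤ) : ℚ) = 0 := by
      push_cast
      linarith
    exact_mod_cast this
  omega

/-- the coefficients of the series `Q` -/
noncomputable def qs (h : Polynomial ℚ) (a : ℕ → ℚ) (k t : ℕ) : ℚ :=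
  (1 / h.coeff 0) * ∑ s ∈ range (t + 1), a s * a (t - s) / ((s : ℚ) - k + 1 / 2)

theorem qk_eq (h : Polynomial ℚ) (a : ℕ → ℚ) (k t : ℕ) (ht : t ≤ k) :
    qk h a k (k - t) = qs h a k t := by
  rw [qk, qs, show k + 1 - (k - t) = t + 1 by omega, show k - (k - t) = t by omega]

theorem mk_qs (h : Polynomial ℚ) (a : ℕ → ℚ) (k : ℕ) :
    PowerSeries.mk (qs h a k) = PowerSeries.C (1 / h.coeff 0) *
      (PowerSeries.mk (fun s => a s / ((s : ℚ) - k + 1 / 2)) * PowerSeries.mk a) := by
  ext n
  rw [PowerSeries.coeff_mk, PowerSeries.coeff_C_mul, PowerSeries.coeff_mul,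
    Finset.Nat.sum_antidiagonal_eq_sum_range_succ (fun i j =>
      PowerSeries.coeff i (PowerSeries.mk (fun s => a s / ((s : ℚ) - k + 1 / 2))) *
        PowerSeries.coeff j (PowerSeries.mk a)) n, qs]
  congr 1
  refine Finset.sum_congr rfl fun s _ => ?_
  rw [PowerSeries.coeff_mk, PowerSeries.coeff_mk]
  ring

theorem X_der (k : ℕ) (a : ℕ → ℚ) :
    PowerSeries.X * PowerSeries.derivative ℚ
      (PowerSeries.mk (fun s => a s / ((s : ℚ) - k + 1 / 2))) =
    PowerSeries.mk a + PowerSeries.C ((k : ℚ) - 1 / 2) *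
      PowerSeries.mk (fun s => a s / ((s : ℚ) - k + 1 / 2)) := by
  ext n
  have hn := half_ne n k
  rw [map_add, PowerSeries.coeff_C_mul, PowerSeries.coeff_mk, PowerSeries.coeff_mk]
  have h1 : a n = a n / ((n : ℚ) - k + 1 / 2) * ((n : ℚ) - k + 1 / 2) :=
    (div_mul_cancel₀ _ hn).symm
  rcases n with _ | n
  · rw [PowerSeries.coeff_zero_X_mul]
    push_cast at h1 ⊢
    linear_combination -h1
  · rw [PowerSeries.coeff_succ_X_mul, PowerSeries.coeff_derivative, PowerSeries.coeff_mk]
    push_cast at h1 ⊢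
    linear_combination -h1

theorem claim (h : Polynomial ℚ) (a : ℕ → ℚ) (C : ℕ) (H : SqI h a C) (k : ℕ) :
    PowerSeries.C (1 / 2 - (k : ℚ)) * (PowerSeries.mk (qs h a k) * (h : PowerSeries ℚ)) +
      (PowerSeries.X * PowerSeries.derivative ℚ (PowerSeries.mk (qs h a k))) *
        (h : PowerSeries ℚ) +
      PowerSeries.C (1 / 2) * (PowerSeries.mk (qs h a k) *
        (PowerSeries.X * PowerSeries.derivative ℚ (h : PowerSeries ℚ))) = 1 := by
  set A : PowerSeries ℚ := PowerSeries.mk a with hA
  set B : PowerSeries ℚ := PowerSeries.mk (fun s => a s / ((s : ℚ) - k + 1 / 2)) with hB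
  set F : PowerSeries ℚ := (h : PowerSeries ℚ) with hF
  have h0 := H.ne
  have hsq : A ^ 2 * F = PowerSeries.C (h.coeff 0) := H.sq
  have hA0 : A ≠ 0 := by
    intro h1
    have h2 : PowerSeries.coeff 0 A = 0 := by rw [h1, map_zero]
    rw [hA, PowerSeries.coeff_mk, H.zero] at h2
    exact one_ne_zero h2
  have hd : 2 * (PowerSeries.derivative ℚ A * F) + A * PowerSeries.derivative ℚ F = 0 := by
    have h1 := congrArg (PowerSeries.derivative ℚ) hsq
    rw [PowerSeries.derivative_C, Derivation.leibniz, pow_two, Derivation.leibniz] at h1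
    simp only [smul_eq_mul] at h1
    have h2 : A * (2 * (PowerSeries.derivative ℚ A * F) + A * PowerSeries.derivative ℚ F) = 0 := by
      linear_combination h1
    exact (mul_eq_zero.1 h2).resolve_left hA0
  have hX : PowerSeries.X * PowerSeries.derivative ℚ B = A + PowerSeries.C ((k : ℚ) - 1 / 2) * B :=
    X_der k a
  have hQ : PowerSeries.mk (qs h a k) = PowerSeries.C (1 / h.coeff 0) * (B * A) := mk_qs h a k
  have hC : PowerSeries.C (1 / h.coeff 0) * PowerSeries.C (h.coeff 0) = (1 : PowerSeries ℚ) := by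
    rw [← map_mul, one_div_mul_cancel h0, map_one]
  have hC2 : PowerSeries.C (1 / 2 - (k : ℚ)) + PowerSeries.C ((k : ℚ) - 1 / 2) =
      (0 : PowerSeries ℚ) := by
    rw [← map_add, show (1 / 2 - (k : ℚ)) + ((k : ℚ) - 1 / 2) = 0 by ring, map_zero]
  have hC3 : PowerSeries.C (1 / 2 : ℚ) * 2 = (1 : PowerSeries ℚ) := by
    have : (2 : PowerSeries ℚ) = PowerSeries.C (2 : ℚ) := (map_ofNat PowerSeries.C 2).symm
    rw [this, ← map_mul]
    norm_num
  rw [hQ, Derivation.leibniz, Derivation.leibniz, PowerSeries.derivative_C]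
  simp only [smul_eq_mul]
  set c0 : PowerSeries ℚ := PowerSeries.C (1 / h.coeff 0) with hc0
  set c1 : PowerSeries ℚ := PowerSeries.C (1 / 2 - (k : ℚ)) with hc1
  set c2 : PowerSeries ℚ := PowerSeries.C ((k : ℚ) - 1 / 2) with hc2
  set c3 : PowerSeries ℚ := PowerSeries.C (1 / 2 : ℚ) with hc3
  set c4 : PowerSeries ℚ := PowerSeries.C (h.coeff 0) with hc4
  linear_combination c0 * A * F * hX + c0 * hsq + hC + c0 * A * B * F * hC2 +
    c0 * B * PowerSeries.X * c3 * hd - c0 * B * PowerSeries.X * F * PowerSeries.derivative ℚ A * hC3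

theorem coeff_X_der (M : PowerSeries ℚ) (t : ℕ) :
    PowerSeries.coeff t (PowerSeries.X * PowerSeries.derivative ℚ M) =
      (t : ℚ) * PowerSeries.coeff t M := by
  rcases t with _ | t
  · rw [PowerSeries.coeff_zero_X_mul]
    simp
  · rw [PowerSeries.coeff_succ_X_mul, PowerSeries.coeff_derivative]
    push_cast
    ring

theorem coeff_mul_range (M N : PowerSeries ℚ) (n : ℕ) :
    PowerSeries.coeff n (M * N) =
      ∑ t ∈ range (n + 1), PowerSeries.coeff t M * PowerSeries.coeff (n - t) N := by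
  rw [PowerSeries.coeff_mul, Finset.Nat.sum_antidiagonal_eq_sum_range_succ (fun i j =>
      PowerSeries.coeff i M * PowerSeries.coeff j N) n]

theorem claim_coeff (h : Polynomial ℚ) (a : ℕ → ℚ) (C : ℕ) (H : SqI h a C) (k n : ℕ) :
    ∑ t ∈ range (n + 1), qs h a k t * ((1 / 2 - (k : ℚ) + t + ((n : ℚ) - t) / 2) *
      h.coeff (n - t)) = if n = 0 then 1 else 0 := by
  have h1 := congrArg (PowerSeries.coeff n) (claim h a C H k)
  rw [map_add, map_add, PowerSeries.coeff_C_mul, PowerSeries.coeff_C_mul, coeff_mul_range,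
    coeff_mul_range, coeff_mul_range, PowerSeries.coeff_one, Finset.mul_sum, Finset.mul_sum,
    ← Finset.sum_add_distrib, ← Finset.sum_add_distrib] at h1
  rw [← h1]
  refine Finset.sum_congr rfl fun t ht => ?_
  rw [Finset.mem_range] at ht
  rw [coeff_X_der, coeff_X_der, PowerSeries.coeff_mk, Polynomial.coeff_coe,
    Nat.cast_sub (by omega)]
  ring

theorem coeff_term (h : Polynomial ℚ) (c d : ℚ) (e n : ℕ) :
    (Polynomial.C c * Polynomial.X ^ e * (Polynomial.C d * h +
      Polynomial.C (1 / 2) * Polynomial.X * Polynomial.derivative h)).coeff n =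
      if e ≤ n then c * ((d + ((n : ℚ) - e) / 2) * h.coeff (n - e)) else 0 := by
  rw [mul_assoc, Polynomial.coeff_C_mul, Polynomial.coeff_X_pow_mul']
  split_ifs with h1
  · rw [Polynomial.coeff_add, Polynomial.coeff_C_mul, mul_assoc, Polynomial.coeff_C_mul]
    have h2 : (Polynomial.X * Polynomial.derivative h).coeff (n - e) =
        ((n : ℚ) - e) * h.coeff (n - e) := by
      rw [← Nat.cast_sub h1]
      rcases Nat.eq_zero_or_pos (n - e) with h3 | h3
      · rw [h3, Polynomial.coeff_X_mul_zero]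
        simp
      · obtain ⟨r, hr⟩ := Nat.exists_eq_succ_of_ne_zero h3.ne'
        rw [hr, Nat.succ_eq_add_one, Polynomial.coeff_X_mul, Polynomial.coeff_derivative]
        push_cast
        ring
    rw [h2]
    ring
  · rw [mul_zero]

theorem coeff_mono (c : ℚ) (e n : ℕ) :
    (Polynomial.C c * Polynomial.X ^ e : Polynomial ℚ).coeff n = if n = e then c else 0 := by
  rw [Polynomial.coeff_C_mul_X_pow]

/-- the sum over `Icc 1 k` in terms of `t = k - j` -/
theorem sum_flip (k : ℕ) (f : ℕ → ℚ) :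
    ∑ j ∈ Icc 1 k, f j = ∑ t ∈ range k, f (k - t) := by
  refine Finset.sum_nbij' (fun j => k - j) (fun t => k - t) ?_ ?_ ?_ ?_ ?_
  · intro j hj
    rw [Finset.mem_Icc] at hj
    exact Finset.mem_range.2 (by omega)
  · intro t ht
    rw [Finset.mem_range] at ht
    exact Finset.mem_Icc.2 ⟨by omega, by omega⟩
  · intro j hj
    rw [Finset.mem_Icc] at hj
    omega
  · intro t ht
    rw [Finset.mem_range] at ht
    omega
  · intro j hj
    rw [Finset.mem_Icc] at hj
    show f j = f (k - (k - j))
    rw [show k - (k - j) = j by omega]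

end RED_

open RED_ in
theorem p_RED : T_RED := by
  intro h a C m H hm k hk
  ext n
  rw [Polynomial.coeff_add, Polynomial.finsetSum_coeff, Polynomial.finsetSum_coeff,
    Polynomial.coeff_one]
  have e1 : ∑ j ∈ Icc 1 k, (Polynomial.C (qk h a k j) * Polynomial.X ^ (k - j) *
      (Polynomial.C (1 / 2 - (j : ℚ)) * h +
        Polynomial.C (1 / 2) * Polynomial.X * Polynomial.derivative h)).coeff n =
      ∑ t ∈ range k, if t ≤ n then qs h a k t * ((1 / 2 - (k : ℚ) + t + ((n : ℚ) - t) / 2) *
        h.coeff (n - t)) else 0 := by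
    rw [sum_flip]
    refine Finset.sum_congr rfl fun t ht => ?_
    rw [Finset.mem_range] at ht
    rw [coeff_term, qk_eq h a k t ht.le, show k - (k - t) = t by omega, Nat.cast_sub ht.le]
    split_ifs
    · ring
    · rfl
  have e2 : ∀ l ∈ range m, (Polynomial.C (rr h a k l) * Polynomial.X ^ (k + l) :
      Polynomial ℚ).coeff n = if n = k + l then rr h a k l else 0 :=
    fun l _ => coeff_mono _ _ _
  rw [e1, Finset.sum_congr rfl e2]
  rcases lt_or_ge n k with hnk | hnk
  · have e3 : ∑ l ∈ range m, (if n = k + l then rr h a k l else 0) = 0 :=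
      Finset.sum_eq_zero fun l _ => if_neg (by omega)
    rw [e3, add_zero, ← Finset.sum_filter]
    have e4 : (range k).filter (fun t => t ≤ n) = range (n + 1) := by
      ext t
      rw [Finset.mem_filter, Finset.mem_range, Finset.mem_range]
      omega
    rw [e4, claim_coeff h a C H k n]
  · rw [if_neg (by omega)]
    obtain ⟨l, rfl⟩ := Nat.exists_eq_add_of_le hnk
    have e5 : ∑ t ∈ range k, (if t ≤ k + l then qs h a k t *
        ((1 / 2 - (k : ℚ) + t + (((k + l : ℕ) : ℚ) - t) / 2) * h.coeff (k + l - t)) else 0) =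
        -rr h a k l := by
      rw [rr, sum_flip, neg_mul, neg_neg, Finset.mul_sum]
      refine Finset.sum_congr rfl fun t ht => ?_
      rw [Finset.mem_range] at ht
      rw [if_pos (by omega), qk_eq h a k t ht.le, Nat.cast_sub ht.le,
        show l + (k - t) = k + l - t by omega]
      push_cast
      ring
    rw [e5]
    by_cases hl : l < m
    · rw [Finset.sum_eq_single l]
      · rw [if_pos rfl]
        ring
      · intro b _ hb
        exact if_neg (by omega)
      · intro hb
        exact absurd (Finset.mem_range.2 hl) hb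
    · have e6 : ∑ b ∈ range m, (if k + l = k + b then rr h a k b else 0) = 0 :=
        Finset.sum_eq_zero fun b hb => if_neg (by rw [Finset.mem_range] at hb; omega)
      rw [e6, rr]
      have e7 : ∑ j ∈ Icc 1 k, qk h a k j * (1 - (j : ℚ) + l) * h.coeff (l + j) = 0 := by
        refine Finset.sum_eq_zero fun j hj => ?_
        rw [Finset.mem_Icc] at hj
        rw [Polynomial.coeff_eq_zero_of_natDegree_lt (by omega), mul_zero]
      rw [e7]
      ring

end Pool.Agent.HEP
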