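import Pool.Agent.HEP.Targets

/-!
# REL: the period matrices satisfy Riemann's relations
-/

set_option autoImplicit false

namespace Pool.Agent.HEP

open Finset Pool.Agent.LEG
open scoped BigOperators Topology

theorem riemannRel (h1 : T_RNA) (h2 : T_RAD) {g : ℕ} (b : Fin (2 * g + 1) → ℝ)
    (hb : StrictMono b) :
    Riem (m := 2 * g) (∏ i, (Polynomial.X - Polynomial.C (b i : ℂ)))
      (Matrix.of fun a j => (per b a j : ℂ)) := by
  intro j k hjk
  have hjk' : (j : ℕ) < k := hjk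
  have hmap : (∏ i, (Polynomial.X - Polynomial.C (b i : ℂ)) : Polynomial ℂ) =
      (∏ i, (Polynomial.X - Polynomial.C (b i)) : Polynomial ℝ).map (algebraMap ℝ ℂ) := by
    rw [Polynomial.map_prod]
    refine Finset.prod_congr rfl fun i _ => ?_
    simp
  have hsum : ∑ a : Fin (2 * g), ∑ c : Fin (2 * g), (((a : ℕ) : ℂ) - ((c : ℕ) : ℂ)) / 2 *
      (∏ i, (Polynomial.X - Polynomial.C (b i : ℂ)) : Polynomial ℂ).coeff ((a : ℕ) + c + 2) *
        (Matrix.of fun a j => (per b a j : ℂ)) a j * (Matrix.of fun a j => (per b a j : ℂ)) c k =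
      ((∑ a : Fin (2 * g), ∑ c : Fin (2 * g), (((a : ℕ) : ℝ) - ((c : ℕ) : ℝ)) / 2 *
        (∏ i, (Polynomial.X - Polynomial.C (b i))).coeff ((a : ℕ) + c + 2) *
          per b a j * per b c k : ℝ) : ℂ) := by
    rw [hmap, Complex.ofReal_sum]
    refine Finset.sum_congr rfl fun a _ => ?_
    rw [Complex.ofReal_sum]
    refine Finset.sum_congr rfl fun c _ => ?_
    rw [Polynomial.coeff_map]
    simp only [Matrix.of_apply, Complex.coe_algebraMap]
    push_cast
    ring
  rw [hsum]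
  by_cases h3 : (k : ℕ) = j + 1
  · rw [if_pos h3, h2 (2 * g) b hb j k h3]
    have hpow : (-1 : ℝ) ^ (2 * g - (j : ℕ)) = (-1) ^ (j : ℕ) := by
      have h5 : (-1 : ℝ) ^ (2 * g - (j : ℕ)) * (-1) ^ (j : ℕ) = 1 := by
        rw [← pow_add, Nat.sub_add_cancel j.2.le, (even_two_mul g).neg_one_pow]
      have h6 : (-1 : ℝ) ^ (j : ℕ) * (-1) ^ (j : ℕ) = 1 := by
        rw [← pow_add, Even.neg_one_pow ⟨(j : ℕ), rfl⟩]
      exact mul_right_cancel₀ (pow_ne_zero _ (by norm_num)) (h5.trans h6.symm)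
    rw [hpow, pow_succ]
    push_cast
    ring
  · rw [if_neg h3, h1 (2 * g) b hb j k (by omega)]
    simp

end Pool.Agent.HEP
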