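import Pool.Agent.HEP.Targets

set_option autoImplicit false

/-!
# The inner integral
-/

open MeasureTheory Set Filter Finset
open scoped BigOperators Topology

namespace Pool.Agent.HEP

namespace RIN_

/-- the sign of the polynomial between two roots -/
theorem sign_prod (m : ℕ) (b : Fin (m + 1) → ℝ) (hb : StrictMono b) (j : Fin m) (x : ℝ)
    (hx1 : b j.castSucc ≤ x) (hx2 : x ≤ b j.succ) :
    |∏ i, (x - b i)| = (-1) ^ (m - (j : ℕ)) * ∏ i, (x - b i) := by
  have h1 : ∀ i : Fin (m + 1), |x - b i| =
      (if j.castSucc < i then (-1 : ℝ) else 1) * (x - b i) := by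
    intro i
    split_ifs with h
    · have h2 : b j.succ ≤ b i := by
        apply hb.monotone
        rw [Fin.le_def]
        have := Fin.lt_def.1 h
        simp only [Fin.val_castSucc, Fin.val_succ] at this ⊢
        omega
      rw [abs_of_nonpos (by linarith)]
      ring
    · have h2 : b i ≤ b j.castSucc := hb.monotone (not_lt.1 h)
      rw [abs_of_nonneg (by linarith)]
      ring
  rw [Finset.abs_prod, Finset.prod_congr rfl fun i _ => h1 i, Finset.prod_mul_distrib]
  congr 1
  rw [Finset.prod_ite, Finset.prod_const, Finset.prod_const_one, mul_one]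
  congr 1
  have h3 : (Finset.filter (fun i => j.castSucc < i) univ) = Finset.Ioi j.castSucc := by
    ext i
    simp
  rw [h3, Fin.card_Ioi]
  simp only [Fin.val_castSucc]
  omega

end RIN_

open RIN_ in
theorem p_RIN (h1 : T_INTB) : T_RIN := by
  intro m b hb P hP j y u hy hu
  have hev : ∀ x : ℝ, P.eval x = ∏ i, (x - b i) := by
    intro x
    rw [hP, Polynomial.eval_prod]
    simp
  set B0 := b j.castSucc with hB0
  set B1 := b j.succ with hB1
  have h01 : B0 < B1 := hb (Fin.castSucc_lt_succ)
  have hne : ∀ x ∈ Set.Icc B0 B1, x - y ≠ 0 := by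
    intro x hx h
    apply hy
    have : x = y := by linarith
    rw [← this]
    exact hx
  have hint : IntervalIntegrable (fun x => 1 / √|P.eval x|) volume B0 B1 := by
    have := h1 (m + 1) b hb.injective B0 B1 0
    simpa only [pow_zero, ← hev] using this
  have hI : IntervalIntegrable (fun x => (P.derivative.eval x / 2 * (x - y) - P.eval x) /
      ((x - y) ^ 2 * √|P.eval x|)) volume B0 B1 := by
    have hc : ContinuousOn (fun x => (P.derivative.eval x / 2 * (x - y) - P.eval x) /
        (x - y) ^ 2) (Set.uIcc B0 B1) := by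
      rw [Set.uIcc_of_le h01.le]
      apply ContinuousOn.div
      · fun_prop
      · fun_prop
      · intro x hx
        exact pow_ne_zero 2 (hne x hx)
    refine (hint.continuousOn_mul hc).congr ?_
    intro x _
    show (P.derivative.eval x / 2 * (x - y) - P.eval x) / (x - y) ^ 2 * (1 / √|P.eval x|) = _
    rw [div_mul_div_comm, mul_one]
  refine ⟨hI, ?_⟩
  set s : ℝ := (-1) ^ (m - (j : ℕ)) with hs
  have hss : s * s = 1 := by
    rw [hs, ← pow_add, ← two_mul, pow_mul]
    norm_num
  have habs : ∀ x ∈ Set.Icc B0 B1, |P.eval x| = s * P.eval x := by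
    intro x hx
    rw [hev, hs]
    exact sign_prod m b hb j x hx.1 hx.2
  have hpos : ∀ x ∈ Set.Ioo B0 B1, 0 < |P.eval x| := by
    intro x hx
    rw [abs_pos, hev]
    apply Finset.prod_ne_zero_iff.2
    intro i _ h
    have hxi : x = b i := by linarith
    rcases lt_or_ge j.castSucc i with h' | h'
    · have h2 : B1 ≤ b i := by
        apply hb.monotone
        rw [Fin.le_def]
        have := Fin.lt_def.1 h'
        simp only [Fin.val_castSucc, Fin.val_succ] at this ⊢
        omega
      linarith [hx.2]
    · have h2 : b i ≤ B0 := hb.monotone h'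
      linarith [hx.1]
  have hF : ContinuousOn (fun x => s * √|P.eval x| / (x - y)) (Set.Icc B0 u) := by
    apply ContinuousOn.div
    · have : Continuous fun x => |P.eval x| := (by fun_prop : Continuous fun x => P.eval x).abs
      exact (continuous_const.mul this.sqrt).continuousOn
    · fun_prop
    · intro x hx
      exact hne x ⟨hx.1, hx.2.trans hu.2⟩
  have hder : ∀ x ∈ Set.Ioo B0 u, HasDerivAt (fun x => s * √|P.eval x| / (x - y))
      ((P.derivative.eval x / 2 * (x - y) - P.eval x) / ((x - y) ^ 2 * √|P.eval x|)) x := by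
    intro x hx
    have hx' : x ∈ Set.Ioo B0 B1 := ⟨hx.1, hx.2.trans_le hu.2⟩
    have hxc : x ∈ Set.Icc B0 B1 := ⟨hx'.1.le, hx'.2.le⟩
    have hp := hpos x hx'
    have hsq : 0 < √|P.eval x| := Real.sqrt_pos.2 hp
    have hPd : HasDerivAt (fun x => s * P.eval x) (s * P.derivative.eval x) x :=
      (P.hasDerivAt x).const_mul s
    have hloc : (fun x => |P.eval x|) =ᶠ[𝓝 x] fun x => s * P.eval x := by
      filter_upwards [Ioo_mem_nhds hx'.1 hx'.2] with z hz
      exact habs z ⟨hz.1.le, hz.2.le⟩
    have hAd : HasDerivAt (fun x => |P.eval x|) (s * P.derivative.eval x) x :=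
      hPd.congr_of_eventuallyEq hloc
    have hSd : HasDerivAt (fun x => √|P.eval x|) (s * P.derivative.eval x / (2 * √|P.eval x|)) x :=
      hAd.sqrt hp.ne'
    have hNd : HasDerivAt (fun x => s * √|P.eval x|)
        (s * (s * P.derivative.eval x / (2 * √|P.eval x|))) x := hSd.const_mul s
    have hDd : HasDerivAt (fun x => x - y) 1 x := (hasDerivAt_id x).sub_const y
    have hQ := hNd.div hDd (hne x hxc)
    convert! hQ using 1
    have hsqe : √|P.eval x| ^ 2 = s * P.eval x := by
      rw [Real.sq_sqrt (abs_nonneg _), habs x hxc]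
    have hxy := hne x hxc
    have hPe : P.eval x = s * √|P.eval x| ^ 2 := by
      rw [hsqe, ← mul_assoc, hss, one_mul]
    have hsq' := hsq.ne'
    set S := √|P.eval x| with hS
    rw [hPe]
    field_simp
    linear_combination (-(P.derivative.eval x) * (x - y) + 0 * S) * (hss)
  have hint2 : IntervalIntegrable (fun x => (P.derivative.eval x / 2 * (x - y) - P.eval x) /
      ((x - y) ^ 2 * √|P.eval x|)) volume B0 u := by
    apply hI.mono_set
    rw [Set.uIcc_of_le hu.1, Set.uIcc_of_le h01.le]
    exact Set.Icc_subset_Icc_right hu.2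
  rw [intervalIntegral.integral_eq_sub_of_hasDerivAt_of_le hu.1 hF hder hint2]
  have hz : P.eval B0 = 0 := by
    rw [hev]
    apply Finset.prod_eq_zero (mem_univ j.castSucc)
    rw [hB0, sub_self]
  rw [hz]
  simp

end Pool.Agent.HEP
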