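import Pool.Agent.HEP.INTB

set_option autoImplicit false

/-!
# The limit of the boundary term
-/

open MeasureTheory Set Filter Finset
open scoped BigOperators Topology

namespace Pool.Agent.HEP

namespace RLIM_

/-- the kernel -/
noncomputable def ker (e ε y : ℝ) : ℝ := √ε / ((y - e + ε) * √(y - e))

theorem ker_nonneg (e ε y : ℝ) (hε : 0 < ε) (hy : e ≤ y) : 0 ≤ ker e ε y := by
  unfold ker
  have : 0 ≤ y - e := by linarith
  positivity

theorem ker_le (e ε y : ℝ) (hε : 0 < ε) (hy : e < y) : ker e ε y ≤ 1 / (2 * (y - e)) := by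
  unfold ker
  have h0 : 0 < y - e := by linarith
  have h1 : 0 < √(y - e) := Real.sqrt_pos.2 h0
  have h2 : 0 < √ε := Real.sqrt_pos.2 hε
  have h3 : √(y - e) ^ 2 = y - e := Real.sq_sqrt h0.le
  have h4 : √ε ^ 2 = ε := Real.sq_sqrt hε.le
  rw [div_le_div_iff₀ (by positivity) (by positivity)]
  have h5 : 2 * (√ε * √(y - e)) ≤ y - e + ε := by
    nlinarith only [sq_nonneg (√ε - √(y - e)), h3, h4]
  have h6 : 2 * (y - e) = 2 * √(y - e) * √(y - e) := by
    nlinarith only [h3]
  rw [h6]
  nlinarith only [mul_le_mul_of_nonneg_right h5 h1.le]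

theorem ker_le' (e ε y : ℝ) (hε : 0 < ε) (hy : e < y) :
    ker e ε y ≤ √ε / ((y - e) * √(y - e)) := by
  unfold ker
  have h0 : 0 < y - e := by linarith
  have h1 : 0 < √(y - e) := Real.sqrt_pos.2 h0
  gcongr
  linarith

theorem ker_integrable (e ε β : ℝ) (hε : 0 < ε) (heβ : e ≤ β) :
    IntervalIntegrable (ker e ε) volume e β := by
  have h := (INTB_.abs_sub e e β).continuousOn_mul (g := fun y => √ε / (y - e + ε)) (by
    rw [Set.uIcc_of_le heβ]
    apply ContinuousOn.div
    · fun_prop
    · fun_prop
    · intro y hy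
      have := hy.1
      exact (by linarith : (0 : ℝ) < y - e + ε).ne')
  refine h.congr ?_
  intro y hy
  rw [Set.uIoc_of_le heβ] at hy
  show √ε / (y - e + ε) * (1 / √|y - e|) = ker e ε y
  unfold ker
  have : 0 < y - e := by linarith [hy.1]
  rw [abs_of_pos this, div_mul_div_comm, mul_one]

theorem ker_integral (e ε β : ℝ) (hε : 0 < ε) (heβ : e ≤ β) :
    ∫ y in e..β, ker e ε y = 2 * Real.arctan (√((β - e) / ε)) := by
  have hcont : ContinuousOn (fun y => 2 * Real.arctan (√((y - e) / ε))) (Set.Icc e β) := by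
    have : Continuous fun y : ℝ => 2 * Real.arctan (√((y - e) / ε)) := by
      apply Continuous.mul continuous_const
      exact Real.continuous_arctan.comp (by fun_prop)
    exact this.continuousOn
  have hder : ∀ y ∈ Set.Ioo e β, HasDerivAt (fun y => 2 * Real.arctan (√((y - e) / ε)))
      (ker e ε y) y := by
    intro y hy
    have h0 : 0 < y - e := by linarith [hy.1]
    have h1 : HasDerivAt (fun y => (y - e) / ε) (1 / ε) y :=
      ((hasDerivAt_id y).sub_const e).div_const ε
    have hpos : 0 < (y - e) / ε := by positivity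
    have h2 := h1.sqrt hpos.ne'
    have h3 := (h2.arctan).const_mul 2
    convert! h3 using 1
    unfold ker
    have h4 : √((y - e) / ε) = √(y - e) / √ε := Real.sqrt_div h0.le ε
    rw [Real.sq_sqrt hpos.le, h4]
    have h5 : 0 < √(y - e) := Real.sqrt_pos.2 h0
    have h6 : 0 < √ε := Real.sqrt_pos.2 hε
    have h7 : √ε ^ 2 = ε := Real.sq_sqrt hε.le
    have h8 : (1 : ℝ) + (y - e) / ε ≠ 0 := by positivity
    have h9 : y - e + ε ≠ 0 := by positivity
    have h10 : ε + (y - e) ≠ 0 := by positivity
    field_simp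
    ring
  rw [intervalIntegral.integral_eq_sub_of_hasDerivAt_of_le heβ hcont hder
    (ker_integrable e ε β hε heβ)]
  simp

theorem ker_limit (e β : ℝ) (heβ : e < β) :
    Tendsto (fun ε : ℝ => ∫ y in e..β, ker e ε y) (𝓝[>] 0) (𝓝 Real.pi) := by
  have h1 : Tendsto (fun ε : ℝ => 2 * Real.arctan (√((β - e) / ε))) (𝓝[>] 0)
      (𝓝 (2 * (Real.pi / 2))) := by
    apply Tendsto.const_mul
    have h2 : Tendsto (fun ε : ℝ => (β - e) / ε) (𝓝[>] 0) atTop := by
      have : Tendsto (fun ε : ℝ => (β - e) * ε⁻¹) (𝓝[>] 0) atTop :=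
        Tendsto.const_mul_atTop (by linarith) tendsto_inv_nhdsGT_zero
      simpa only [div_eq_mul_inv] using this
    have h3 : Tendsto (fun ε : ℝ => √((β - e) / ε)) (𝓝[>] 0) atTop :=
      Real.tendsto_sqrt_atTop.comp h2
    have h4 := Real.tendsto_arctan_atTop.comp h3
    exact h4.mono_right nhdsWithin_le_nhds
  have h2 : (2 : ℝ) * (Real.pi / 2) = Real.pi := by ring
  rw [h2] at h1
  refine h1.congr' ?_
  filter_upwards [self_mem_nhdsWithin] with ε hε
  exact (ker_integral e ε β hε heβ.le).symm

/-- the kernel is an approximation of the point mass -/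
theorem approx (e β : ℝ) (heβ : e < β) (h : ℝ → ℝ) (hi : IntervalIntegrable h volume e β)
    (hd : DifferentiableAt ℝ h e) :
    Tendsto (fun ε : ℝ => ∫ y in e..β, ker e ε y * h y) (𝓝[>] 0) (𝓝 (Real.pi * h e)) := by
  -- local Lipschitz bound
  obtain ⟨C, hC⟩ := hd.isBigO_sub.bound
  rw [Metric.eventually_nhds_iff] at hC
  obtain ⟨δ, hδ, hC⟩ := hC
  have hC0 : ∀ y, e < y → y < e + δ → |h y - h e| ≤ |C| * (y - e) := by
    intro y h1 h2
    have h3 := hC (y := y) (by rw [Real.dist_eq, abs_of_pos (by linarith)]; linarith)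
    rw [Real.norm_eq_abs, Real.norm_eq_abs, abs_of_pos (by linarith : 0 < y - e)] at h3
    refine h3.trans ?_
    exact mul_le_mul_of_nonneg_right (le_abs_self C) (by linarith)
  set bd : ℝ → ℝ := fun y => |C| / 2 + (|h y| + |h e|) / (2 * δ) with hbd
  have hbdi : IntervalIntegrable bd volume e β := by
    simp only [hbd]
    exact intervalIntegrable_const.add ((hi.abs.add intervalIntegrable_const).div_const _)
  have hdom : ∀ ε, 0 < ε → ∀ y, e < y → |ker e ε y * (h y - h e)| ≤ bd y := by
    intro ε hε y hy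
    rw [abs_mul, abs_of_nonneg (ker_nonneg e ε y hε hy.le)]
    have h0 : 0 < y - e := by linarith
    have h1 := ker_le e ε y hε hy
    simp only [hbd]
    by_cases hyδ : y < e + δ
    · have h2 := hC0 y hy hyδ
      calc ker e ε y * |h y - h e| ≤ 1 / (2 * (y - e)) * (|C| * (y - e)) :=
            mul_le_mul h1 h2 (abs_nonneg _) (by positivity)
        _ = |C| / 2 := by field_simp
        _ ≤ _ := by
            have : 0 ≤ (|h y| + |h e|) / (2 * δ) := by positivity
            linarith
    · have h3 : δ ≤ y - e := by linarith [not_lt.1 hyδ]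
      calc ker e ε y * |h y - h e| ≤ 1 / (2 * (y - e)) * (|h y| + |h e|) :=
            mul_le_mul h1 (abs_sub _ _) (abs_nonneg _) (by positivity)
        _ ≤ 1 / (2 * δ) * (|h y| + |h e|) := by gcongr
        _ = (|h y| + |h e|) / (2 * δ) := by ring
        _ ≤ _ := by
            have : 0 ≤ |C| / 2 := by positivity
            linarith
  have hlim : Tendsto (fun ε : ℝ => ∫ y in e..β, ker e ε y * (h y - h e)) (𝓝[>] 0)
      (𝓝 (∫ y in e..β, (0 : ℝ))) := by
    apply intervalIntegral.tendsto_integral_filter_of_dominated_convergence bd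
    · filter_upwards [self_mem_nhdsWithin] with ε hε
      have h1 := (ker_integrable e ε β hε heβ.le).aestronglyMeasurable
      have h2 := hi.aestronglyMeasurable
      rw [Set.uIoc_of_le heβ.le]
      exact h1.mul (h2.sub aestronglyMeasurable_const)
    · filter_upwards [self_mem_nhdsWithin] with ε hε
      refine Eventually.of_forall fun y hy => ?_
      rw [Set.uIoc_of_le heβ.le] at hy
      exact hdom ε hε y hy.1
    · exact hbdi
    · refine Eventually.of_forall fun y hy => ?_
      rw [Set.uIoc_of_le heβ.le] at hy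
      have h0 : 0 < y - e := by linarith [hy.1]
      have hk : Tendsto (fun ε : ℝ => ker e ε y) (𝓝[>] 0) (𝓝 0) := by
        have hup : Tendsto (fun ε : ℝ => √ε / ((y - e) * √(y - e))) (𝓝[>] 0) (𝓝 0) := by
          have hc : Continuous fun ε : ℝ => √ε / ((y - e) * √(y - e)) := by fun_prop
          have := hc.tendsto 0
          simp only [Real.sqrt_zero, zero_div] at this
          exact this.mono_left nhdsWithin_le_nhds
        refine tendsto_of_tendsto_of_tendsto_of_le_of_le' tendsto_const_nhds hup ?_ ?_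
        · filter_upwards [self_mem_nhdsWithin] with ε hε
          exact ker_nonneg e ε y hε hy.1.le
        · filter_upwards [self_mem_nhdsWithin] with ε hε
          exact ker_le' e ε y hε hy.1
      simpa using hk.mul_const (h y - h e)
  rw [intervalIntegral.integral_zero] at hlim
  have hmain := ((ker_limit e β heβ).mul_const (h e)).add hlim
  rw [add_zero] at hmain
  refine hmain.congr' ?_
  filter_upwards [self_mem_nhdsWithin] with ε hε
  have k1 := ker_integrable e ε β hε heβ.le
  rw [← intervalIntegral.integral_mul_const, ← intervalIntegral.integral_add (k1.mul_const _)]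
  · apply intervalIntegral.integral_congr
    intro y _
    show ker e ε y * h e + ker e ε y * (h y - h e) = ker e ε y * h y
    ring
  · refine hbdi.mono_fun ?_ ?_
    · have h1 := k1.aestronglyMeasurable
      have h2 := hi.aestronglyMeasurable
      rw [Set.uIoc_of_le heβ.le]
      exact h1.mul (h2.sub aestronglyMeasurable_const)
    · rw [Set.uIoc_of_le heβ.le]
      filter_upwards [ae_restrict_mem measurableSet_Ioc] with y hy
      have := hdom ε hε y hy.1
      rw [Real.norm_eq_abs, Real.norm_eq_abs]
      exact this.trans (le_abs_self _)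

end RLIM_

open RLIM_ in
theorem p_RLIM : T_RLIM := by
  intro m b hb j k hjk
  have hjk' : k.castSucc = j.succ := by
    apply Fin.ext
    simp [hjk]
  set e := b j.succ with he
  set β := b k.succ with hβ
  rw [hjk', ← he]
  have heβ : e < β := by
    rw [he, ← hjk']
    exact hb (Fin.castSucc_lt_succ)
  -- the other factors
  set R : ℝ → ℝ := fun y => ∏ i ∈ univ.erase j.succ, (y - b i) with hR
  have hfac : ∀ y, ∏ i, (y - b i) = (y - e) * R y := by
    intro y
    rw [← Finset.mul_prod_erase univ (fun i => y - b i) (mem_univ j.succ)]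
  have hRe : R e ≠ 0 := by
    simp only [hR]
    apply Finset.prod_ne_zero_iff.2
    intro i hi h
    rw [Finset.mem_erase] at hi
    apply hi.1
    apply hb.injective
    rw [← he]
    linarith
  have hRd : Differentiable ℝ R := by
    simp only [hR]
    fun_prop
  set h : ℝ → ℝ := fun y => 1 / √|R y| with hh
  have habs : DifferentiableAt ℝ (fun y => |R y|) e := (hRd e).abs hRe
  have hsqr : DifferentiableAt ℝ (fun y => √|R y|) e := habs.sqrt (abs_pos.2 hRe).ne'
  have hsq0 : √|R e| ≠ 0 := (Real.sqrt_pos.2 (abs_pos.2 hRe)).ne'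
  have hd : DifferentiableAt ℝ h e := by
    simp only [hh]
    exact (differentiableAt_const 1).div hsqr hsq0
  have hi : IntervalIntegrable h volume e β := by
    have h1 := p_INTB (m + 1) b hb.injective e β 0
    have h2 := h1.continuousOn_mul (g := fun y => √(y - e)) (by fun_prop)
    refine h2.congr ?_
    intro y hy
    rw [Set.uIoc_of_le heβ.le] at hy
    show √(y - e) * (y ^ 0 / √|∏ i, (y - b i)|) = 1 / √|R y|
    have h0 : 0 < y - e := by linarith [hy.1]
    rw [hfac, abs_mul, abs_of_pos h0, Real.sqrt_mul h0.le, pow_zero]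
    have h3 : √(y - e) ≠ 0 := (Real.sqrt_pos.2 h0).ne'
    by_cases h4 : √|R y| = 0
    · rw [h4]; simp
    · field_simp
  have hmain := approx e β heβ h hi hd
  have hA : Tendsto (fun ε : ℝ => √|R (e - ε)|) (𝓝[>] 0) (𝓝 (√|R e|)) := by
    have hc : Continuous fun ε : ℝ => √|R (e - ε)| := by
      have : Continuous fun ε : ℝ => R (e - ε) := hRd.continuous.comp (by fun_prop)
      exact this.abs.sqrt
    have := hc.tendsto 0
    simp only [sub_zero] at this
    exact this.mono_left nhdsWithin_le_nhds
  have hprod := hA.mul hmain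
  have hval : √|R e| * (Real.pi * h e) = Real.pi := by
    simp only [hh]
    field_simp
  rw [hval] at hprod
  refine hprod.congr' ?_
  filter_upwards [self_mem_nhdsWithin] with ε hε
  have hε' : 0 < ε := hε
  rw [← intervalIntegral.integral_const_mul]
  apply intervalIntegral.integral_congr
  intro y hy
  rw [Set.uIcc_of_le heβ.le] at hy
  have h0 : 0 ≤ y - e := by linarith [hy.1]
  show √|R (e - ε)| * (RLIM_.ker e ε y * (1 / √|R y|)) =
    √|∏ i, (e - ε - b i)| / ((y - (e - ε)) * √|∏ i, (y - b i)|)
  rw [hfac y, hfac (e - ε), abs_mul, abs_mul, abs_of_nonneg h0,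
    show e - ε - e = -ε by ring, abs_neg, abs_of_pos hε', Real.sqrt_mul h0, Real.sqrt_mul hε'.le]
  unfold RLIM_.ker
  rw [show y - (e - ε) = y - e + ε by ring, div_mul_div_comm, mul_one, mul_div_assoc', mul_assoc]
  ring

end Pool.Agent.HEP
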