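import Pool.Agent.HEP.Targets

set_option autoImplicit false

/-!
# Riemann's bilinear relation for disjoint intervals
-/

open MeasureTheory Set Filter Finset
open scoped BigOperators Topology

namespace Pool.Agent.HEP

namespace RNA_

theorem swap (G : ℝ → ℝ → ℝ) (hG : Measurable (Function.uncurry G)) (w v : ℝ → ℝ) (p q r s : ℝ)
    (hpq : p ≤ q) (hrs : r ≤ s) (M : ℝ)
    (hM : ∀ y ∈ Set.Icc p q, ∀ x ∈ Set.Icc r s, |G y x| ≤ M)
    (hw : IntervalIntegrable w volume p q) (hv : IntervalIntegrable v volume r s) :
    ∫ y in p..q, ∫ x in r..s, G y x * (w y * v x) =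
      ∫ x in r..s, ∫ y in p..q, G y x * (w y * v x) := by
  simp only [intervalIntegral.integral_of_le hpq, intervalIntegral.integral_of_le hrs]
  rw [intervalIntegrable_iff_integrableOn_Ioc_of_le hpq] at hw
  rw [intervalIntegrable_iff_integrableOn_Ioc_of_le hrs] at hv
  apply integral_integral_swap
  have h1 : Integrable (fun z : ℝ × ℝ => w z.1 * v z.2)
      ((volume.restrict (Set.Ioc p q)).prod (volume.restrict (Set.Ioc r s))) :=
    Integrable.mul_prod hw hv
  refine h1.bdd_mul (c := M) (f := Function.uncurry G) hG.aestronglyMeasurable ?_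
  rw [Measure.prod_restrict]
  filter_upwards [ae_restrict_mem (measurableSet_Ioc.prod measurableSet_Ioc)] with z hz
  rw [Set.mem_prod] at hz
  exact hM z.1 (Set.Ioc_subset_Icc_self hz.1) z.2 (Set.Ioc_subset_Icc_self hz.2)

end RNA_

open RNA_ in
theorem p_RNA (h1 : T_PID) (h2 : T_INTB) (h3 : T_RIN) : T_RNA := by
  intro m b hb j k hjk
  set P : Polynomial ℝ := ∏ i, (Polynomial.X - Polynomial.C (b i)) with hP
  have hev : ∀ x : ℝ, P.eval x = ∏ i, (x - b i) := by
    intro x
    rw [hP, Polynomial.eval_prod]
    simp
  have hdeg : P.natDegree ≤ m + 1 := by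
    rw [hP]
    refine (Polynomial.natDegree_prod_le _ _).trans ?_
    simp
  have hpid := h1 m P hdeg
  set B0 := b j.castSucc with hB0
  set B1 := b j.succ with hB1
  set C0 := b k.castSucc with hC0
  set C1 := b k.succ with hC1
  have hB : B0 < B1 := hb (Fin.castSucc_lt_succ)
  have hC : C0 < C1 := hb (Fin.castSucc_lt_succ)
  have hBC : B1 < C0 := by
    apply hb
    rw [Fin.lt_def]
    simp only [Fin.val_castSucc, Fin.val_succ]
    exact hjk
  have hB' : B0 ≤ B1 := hB.le
  have hC' : C0 ≤ C1 := hC.le
  have hxy : ∀ x ∈ Set.Icc B0 B1, ∀ y ∈ Set.Icc C0 C1, x - y ≠ 0 := by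
    intro x hx y hy h
    linarith [hx.2, hy.1]
  set w : ℝ → ℝ := fun x => 1 / √|P.eval x| with hw
  have hwI : ∀ (n : ℕ) (p q : ℝ), IntervalIntegrable (fun x => x ^ n * w x) volume p q := by
    intro n p q
    refine (h2 (m + 1) b hb.injective p q n).congr ?_
    intro x _
    show x ^ n / √|∏ i, (x - b i)| = x ^ n * (1 / √|P.eval x|)
    rw [hev]
    ring
  have hw0 : ∀ p q : ℝ, IntervalIntegrable w volume p q := by
    intro p q
    simpa only [pow_zero, one_mul] using hwI 0 p q
  have hper : ∀ (a i : Fin m), per b a i = ∫ x in (b i.castSucc)..(b i.succ), x ^ (a : ℕ) * w x := by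
    intro a i
    unfold per
    apply intervalIntegral.integral_congr
    intro x _
    show x ^ (a : ℕ) / √|∏ i, (x - b i)| = x ^ (a : ℕ) * (1 / √|P.eval x|)
    rw [hev]
    ring
  set co : Fin m → Fin m → ℝ := fun a c => (((a : ℕ) : ℝ) - ((c : ℕ) : ℝ)) / 2 *
    P.coeff ((a : ℕ) + c + 2) with hco
  set K : ℝ → ℝ → ℝ := fun x y => ∑ a : Fin m, ∑ c : Fin m, co a c * x ^ (a : ℕ) * y ^ (c : ℕ)
    with hK
  have hKid : ∀ x y : ℝ, (P.derivative.eval x + P.derivative.eval y) / 2 * (x - y) -
      P.eval x + P.eval y = (x - y) ^ 2 * K x y := by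
    intro x y
    rw [hpid x y, hK]
    simp only [hco]
    rw [Finset.sum_range]
    congr 1
    apply Finset.sum_congr rfl
    intro a _
    rw [Finset.sum_range]
  -- the value of the double integral
  have inner : ∀ y : ℝ, ∫ x in B0..B1, K x y * (w x * w y) =
      ∑ a : Fin m, ∑ c : Fin m, (co a c * per b a j) * (y ^ (c : ℕ) * w y) := by
    intro y
    have e1 : ∀ x : ℝ, K x y * (w x * w y) =
        ∑ a : Fin m, ∑ c : Fin m, (co a c * (y ^ (c : ℕ) * w y)) * (x ^ (a : ℕ) * w x) := by
      intro x
      simp only [hK]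
      rw [Finset.sum_mul]
      apply Finset.sum_congr rfl
      intro a _
      rw [Finset.sum_mul]
      apply Finset.sum_congr rfl
      intro c _
      ring
    simp only [e1]
    rw [intervalIntegral.integral_finsetSum]
    · apply Finset.sum_congr rfl
      intro a _
      rw [intervalIntegral.integral_finsetSum]
      · apply Finset.sum_congr rfl
        intro c _
        rw [intervalIntegral.integral_const_mul, hper a j]
        ring
      · intro c _
        exact (hwI _ _ _).const_mul _
    · intro a _
      have := IntervalIntegrable.sum (μ := volume) (a := B0) (b := B1) univ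
        (f := fun (c : Fin m) (x : ℝ) => (co a c * (y ^ (c : ℕ) * w y)) * (x ^ (a : ℕ) * w x))
        fun c _ => (hwI _ _ _).const_mul _
      refine this.congr ?_
      intro x _
      simp
  have outer : ∫ y in C0..C1, ∫ x in B0..B1, K x y * (w x * w y) =
      ∑ a : Fin m, ∑ c : Fin m, co a c * per b a j * per b c k := by
    simp only [inner]
    rw [intervalIntegral.integral_finsetSum]
    · apply Finset.sum_congr rfl
      intro a _
      rw [intervalIntegral.integral_finsetSum]
      · apply Finset.sum_congr rfl
        intro c _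
        rw [intervalIntegral.integral_const_mul, hper c k]
      · intro c _
        exact (hwI _ _ _).const_mul _
    · intro a _
      have := IntervalIntegrable.sum (μ := volume) (a := C0) (b := C1) univ
        (f := fun (c : Fin m) (y : ℝ) => (co a c * per b a j) * (y ^ (c : ℕ) * w y))
        fun c _ => (hwI _ _ _).const_mul _
      refine this.congr ?_
      intro x _
      simp
  have goal : ∑ a : Fin m, ∑ c : Fin m, (((a : ℕ) : ℝ) - ((c : ℕ) : ℝ)) / 2 *
      P.coeff ((a : ℕ) + c + 2) * per b a j * per b c k =
      ∫ y in C0..C1, ∫ x in B0..B1, K x y * (w x * w y) := outer.symm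
  rw [goal]
  -- the two parts of the kernel
  set A : ℝ → ℝ → ℝ := fun x y => (P.derivative.eval x / 2 * (x - y) - P.eval x) /
    ((x - y) ^ 2 * √|P.eval x|) with hA
  set G : ℝ → ℝ → ℝ := fun x y => (P.derivative.eval x / 2 * (x - y) - P.eval x) /
    ((x - y) ^ 2) with hG
  have hAG : ∀ x y, A x y = G x y * w x := by
    intro x y
    simp only [hA, hG, hw]
    rw [div_mul_div_comm, mul_one]
  have split : ∀ x ∈ Set.Icc B0 B1, ∀ y ∈ Set.Icc C0 C1,
      K x y * (w x * w y) = A x y * w y - A y x * w x := by
    intro x hx y hy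
    have h := hxy x hx y hy
    have h' : (y - x) ≠ 0 := by
      intro h''
      apply h
      linarith
    rw [hAG, hAG]
    have e : K x y = G x y - G y x := by
      have h5 := hKid x y
      simp only [hG]
      have h6 : (y - x) ^ 2 = (x - y) ^ 2 := by ring
      rw [h6, ← sub_div, eq_div_iff (pow_ne_zero 2 h)]
      linear_combination -h5
    rw [e]
    ring
  have rin1 : ∀ y ∈ Set.Icc C0 C1, IntervalIntegrable (fun x => A x y) volume B0 B1 ∧
      ∫ x in B0..B1, A x y = 0 := by
    intro y hy
    have hyn : y ∉ Set.Icc (b j.castSucc) (b j.succ) := by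
      intro h
      linarith [h.2, hy.1]
    have := h3 m b hb P hP j y B1 hyn ⟨hB', le_rfl⟩
    refine ⟨this.1, ?_⟩
    have h5 := this.2
    have hz : P.eval B1 = 0 := by
      rw [hev]
      exact Finset.prod_eq_zero (mem_univ j.succ) (by rw [hB1, sub_self])
    rw [hz] at h5
    simpa using h5
  have rin2 : ∀ x ∈ Set.Icc B0 B1, IntervalIntegrable (fun y => A y x) volume C0 C1 ∧
      ∫ y in C0..C1, A y x = 0 := by
    intro x hx
    have hxn : x ∉ Set.Icc (b k.castSucc) (b k.succ) := by
      intro h
      linarith [h.1, hx.2]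
    have := h3 m b hb P hP k x C1 hxn ⟨hC', le_rfl⟩
    refine ⟨this.1, ?_⟩
    have h5 := this.2
    have hz : P.eval C1 = 0 := by
      rw [hev]
      exact Finset.prod_eq_zero (mem_univ k.succ) (by rw [hC1, sub_self])
    rw [hz] at h5
    simpa using h5
  have step1 : ∀ y ∈ Set.Icc C0 C1, ∫ x in B0..B1, K x y * (w x * w y) =
      -∫ x in B0..B1, G y x * (w y * w x) := by
    intro y hy
    have e1 : ∫ x in B0..B1, K x y * (w x * w y) =
        ∫ x in B0..B1, (A x y * w y - G y x * (w y * w x)) := by
      apply intervalIntegral.integral_congr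
      intro x hx
      rw [Set.uIcc_of_le hB'] at hx
      show K x y * (w x * w y) = A x y * w y - G y x * (w y * w x)
      rw [split x hx y hy, hAG y x]
      ring
    have i1 : IntervalIntegrable (fun x => A x y * w y) volume B0 B1 :=
      (rin1 y hy).1.mul_const _
    have i2 : IntervalIntegrable (fun x => G y x * (w y * w x)) volume B0 B1 := by
      have hc : ContinuousOn (fun x => G y x * w y) (Set.uIcc B0 B1) := by
        rw [Set.uIcc_of_le hB']
        apply ContinuousOn.mul _ continuousOn_const
        simp only [hG]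
        apply ContinuousOn.div
        · fun_prop
        · fun_prop
        · intro x hx
          apply pow_ne_zero 2
          intro h
          exact hxy x hx y hy (by linarith)
      refine ((hw0 B0 B1).continuousOn_mul hc).congr ?_
      intro x _
      show G y x * w y * w x = _
      ring
    rw [e1, intervalIntegral.integral_sub i1 i2, intervalIntegral.integral_mul_const,
      (rin1 y hy).2, zero_mul, zero_sub]
  have step2 : ∫ y in C0..C1, ∫ x in B0..B1, K x y * (w x * w y) =
      -∫ y in C0..C1, ∫ x in B0..B1, G y x * (w y * w x) := by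
    rw [← intervalIntegral.integral_neg]
    apply intervalIntegral.integral_congr
    intro y hy
    rw [Set.uIcc_of_le hC'] at hy
    exact step1 y hy
  rw [step2, neg_eq_zero]
  have hGc : ContinuousOn (Function.uncurry G) (Set.Icc C0 C1 ×ˢ Set.Icc B0 B1) := by
    have : Function.uncurry G = fun z : ℝ × ℝ =>
        (P.derivative.eval z.1 / 2 * (z.1 - z.2) - P.eval z.1) / ((z.1 - z.2) ^ 2) := by
      funext z
      rfl
    rw [this]
    apply ContinuousOn.div
    · have c1 : Continuous fun z : ℝ × ℝ => P.derivative.eval z.1 :=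
        P.derivative.continuous.comp continuous_fst
      have c2 : Continuous fun z : ℝ × ℝ => P.eval z.1 := P.continuous.comp continuous_fst
      exact (((c1.div_const 2).mul (continuous_fst.sub continuous_snd)).sub c2).continuousOn
    · fun_prop
    · intro z hz
      apply pow_ne_zero 2
      intro h
      exact hxy z.2 hz.2 z.1 hz.1 (by linarith)
  obtain ⟨M, hM⟩ := (isCompact_Icc.prod isCompact_Icc).exists_bound_of_continuousOn hGc
  have hGm : Measurable (Function.uncurry G) := by
    have : Function.uncurry G = fun z : ℝ × ℝ =>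
        (P.derivative.eval z.1 / 2 * (z.1 - z.2) - P.eval z.1) / ((z.1 - z.2) ^ 2) := by
      funext z
      rfl
    rw [this]
    have c1 : Continuous fun z : ℝ × ℝ => P.derivative.eval z.1 :=
      P.derivative.continuous.comp continuous_fst
    have c2 : Continuous fun z : ℝ × ℝ => P.eval z.1 := P.continuous.comp continuous_fst
    have c3 : Continuous fun z : ℝ × ℝ => (z.1 - z.2) ^ 2 := by fun_prop
    exact (((c1.div_const 2).mul (continuous_fst.sub continuous_snd)).sub c2).measurable.div
      c3.measurable
  rw [swap G hGm w w C0 C1 B0 B1 hC' hB' M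
    (fun y hy x hx => hM (y, x) ⟨hy, hx⟩) (hw0 _ _) (hw0 _ _)]
  have last : ∀ x ∈ Set.uIcc B0 B1, ∫ y in C0..C1, G y x * (w y * w x) = 0 := by
    intro x hx
    rw [Set.uIcc_of_le hB'] at hx
    have e1 : ∫ y in C0..C1, G y x * (w y * w x) = ∫ y in C0..C1, A y x * w x := by
      apply intervalIntegral.integral_congr
      intro y _
      show G y x * (w y * w x) = A y x * w x
      rw [hAG]
      ring
    rw [e1, intervalIntegral.integral_mul_const, (rin2 x hx).2, zero_mul]
  rw [intervalIntegral.integral_congr (g := fun _ => (0 : ℝ)) last]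
  simp

end Pool.Agent.HEP
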