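import Pool.Agent.HEP.Targets

set_option autoImplicit false
set_option maxHeartbeats 1000000

/-!
# HEP, target SPG: the symplectic group is generated by transvections
-/

namespace Pool.Agent.HEP

open Finset Pool.Agent.LEG
open scoped BigOperators Topology Matrix

namespace SPG_

variable {m : ℕ}

/-- the form -/
noncomputable def B (G : Matrix (Fin m) (Fin m) ℂ) (x y : Fin m → ℂ) : ℂ := x ⬝ᵥ (G *ᵥ y)

theorem B_add_left (G : Matrix (Fin m) (Fin m) ℂ) (x x' y : Fin m → ℂ) :
    B G (x + x') y = B G x y + B G x' y := by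
  unfold B
  rw [add_dotProduct]

theorem B_add_right (G : Matrix (Fin m) (Fin m) ℂ) (x y y' : Fin m → ℂ) :
    B G x (y + y') = B G x y + B G x y' := by
  unfold B
  rw [Matrix.mulVec_add, dotProduct_add]

theorem B_smul_left (G : Matrix (Fin m) (Fin m) ℂ) (c : ℂ) (x y : Fin m → ℂ) :
    B G (c • x) y = c * B G x y := by
  unfold B
  rw [smul_dotProduct, smul_eq_mul]

theorem B_smul_right (G : Matrix (Fin m) (Fin m) ℂ) (c : ℂ) (x y : Fin m → ℂ) :
    B G x (c • y) = c * B G x y := by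
  unfold B
  rw [Matrix.mulVec_smul, dotProduct_smul, smul_eq_mul]

theorem B_anti {G : Matrix (Fin m) (Fin m) ℂ} (hG : G.transpose = -G) (x y : Fin m → ℂ) :
    B G x y = -B G y x := by
  unfold B
  rw [Matrix.dotProduct_mulVec, ← Matrix.mulVec_transpose, hG, Matrix.neg_mulVec,
    neg_dotProduct, dotProduct_comm]

theorem B_self {G : Matrix (Fin m) (Fin m) ℂ} (hG : G.transpose = -G) (x : Fin m → ℂ) :
    B G x x = 0 := by
  have h := B_anti hG x x
  linear_combination (1 / 2) * h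

theorem B_nondeg {G : Matrix (Fin m) (Fin m) ℂ} (hdet : G.det ≠ 0) (y : Fin m → ℂ)
    (h : ∀ x, B G x y = 0) : y = 0 := by
  refine Matrix.eq_zero_of_mulVec_eq_zero hdet ?_
  funext i
  have h1 := h (Pi.single i 1)
  unfold B at h1
  rw [single_one_dotProduct] at h1
  exact h1

theorem B_nondeg_left {G : Matrix (Fin m) (Fin m) ℂ} (hG : G.transpose = -G)
    (hdet : G.det ≠ 0) (x : Fin m → ℂ) (h : ∀ y, B G x y = 0) : x = 0 := by
  refine B_nondeg hdet x fun y => ?_
  rw [B_anti hG, h, neg_zero]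

theorem trans_mulVec (G : Matrix (Fin m) (Fin m) ℂ) (v : Fin m → ℂ) (s : ℂ) (x : Fin m → ℂ) :
    (1 + s • vv G v) *ᵥ x = x + (s * B G v x) • v := by
  rw [Matrix.add_mulVec, Matrix.one_mulVec, Matrix.smul_mulVec]
  congr 1
  unfold vv B
  rw [← Matrix.mulVec_mulVec]
  funext i
  rw [Pi.smul_apply, Pi.smul_apply, Matrix.mulVec, dotProduct, smul_eq_mul, smul_eq_mul,
    dotProduct]
  simp only [Matrix.vecMulVec_apply]
  rw [Finset.mul_sum, Finset.mul_sum, Finset.sum_mul]
  refine Finset.sum_congr rfl fun j _ => ?_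
  ring

/-- the monoid generated by the transvections -/
def HM (G : Matrix (Fin m) (Fin m) ℂ) : Submonoid (Matrix (Fin m) (Fin m) ℂ) :=
  Submonoid.closure {T | ∃ (v : Fin m → ℂ) (s : ℂ), T = 1 + s • vv G v}

theorem pres {G : Matrix (Fin m) (Fin m) ℂ} (hG : G.transpose = -G)
    {T : Matrix (Fin m) (Fin m) ℂ} (hT : T ∈ HM G) : ∀ x y, B G (T *ᵥ x) (T *ᵥ y) = B G x y := by
  unfold HM at hT
  induction hT using Submonoid.closure_induction with
  | mem T hT =>
    obtain ⟨v, s, rfl⟩ := hT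
    intro x y
    rw [trans_mulVec, trans_mulVec, B_add_left, B_add_right, B_add_right, B_smul_left,
      B_smul_left, B_smul_right, B_smul_right, B_self hG, B_anti hG x v]
    ring
  | one =>
    intro x y
    rw [Matrix.one_mulVec, Matrix.one_mulVec]
  | mul T T' _ _ h1 h2 =>
    intro x y
    rw [← Matrix.mulVec_mulVec, ← Matrix.mulVec_mulVec, h1, h2]

theorem inj {G : Matrix (Fin m) (Fin m) ℂ} (hG : G.transpose = -G) (hdet : G.det ≠ 0)
    {T : Matrix (Fin m) (Fin m) ℂ} (hT : ∀ x y, B G (T *ᵥ x) (T *ᵥ y) = B G x y)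
    (a b : Fin m → ℂ) (hab : T *ᵥ a = T *ᵥ b) : a = b := by
  have h1 : T *ᵥ (a - b) = 0 := by
    rw [Matrix.mulVec_sub, hab, sub_self]
  have h2 : a - b = 0 := by
    refine B_nondeg_left hG hdet _ fun y => ?_
    rw [← hT, h1]
    unfold B
    rw [zero_dotProduct]
  exact sub_eq_zero.mp h2

/-- case of non-orthogonal vectors -/
theorem move1 {G : Matrix (Fin m) (Fin m) ℂ} (hG : G.transpose = -G) {ι : Type}
    (z : ι → Fin m → ℂ) (x y : Fin m → ℂ) (hz : ∀ j, B G (z j) x = B G (z j) y)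
    (hxy : B G x y ≠ 0) : ∃ T ∈ HM G, (∀ j, T *ᵥ z j = z j) ∧ T *ᵥ x = y := by
  have h1 : B G (y - x) x ≠ 0 := by
    have h2 : B G (y - x) x = -B G x y := by
      rw [sub_eq_add_neg, B_add_left, ← neg_one_smul ℂ x, B_smul_left, B_self hG,
        B_anti hG y x]
      ring
    rw [h2]
    exact neg_ne_zero.mpr hxy
  refine ⟨1 + (1 / B G (y - x) x) • vv G (y - x), Submonoid.subset_closure ⟨_, _, rfl⟩,
    fun j => ?_, ?_⟩
  · rw [trans_mulVec]
    have h3 : B G (y - x) (z j) = 0 := by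
      rw [B_anti hG, sub_eq_add_neg, B_add_right, ← neg_one_smul ℂ x, B_smul_right, hz j]
      ring
    rw [h3, mul_zero, zero_smul, add_zero]
  · rw [trans_mulVec, one_div, inv_mul_cancel₀ h1, one_smul]
    abel

/-- functional -/
noncomputable def Bl (G : Matrix (Fin m) (Fin m) ℂ) : (Fin m → ℂ) →ₗ[ℂ] (Fin m → ℂ) →ₗ[ℂ] ℂ :=
  LinearMap.mk₂ ℂ (B G) (B_add_left G) (fun c x y => B_smul_left G c x y) (B_add_right G)
    (fun c x y => B_smul_right G c x y)

theorem exists_ne {G : Matrix (Fin m) (Fin m) ℂ} (hG : G.transpose = -G) (hdet : G.det ≠ 0)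
    {ι : Type} [Finite ι] (z : ι → Fin m → ℂ) (x : Fin m → ℂ)
    (hx : x ∉ Submodule.span ℂ (Set.range z)) :
    ∃ w, (∀ j, B G (z j) w = 0) ∧ B G x w ≠ 0 := by
  by_contra hcon
  push Not at hcon
  apply hx
  have h1 : (⨅ j, LinearMap.ker (Bl G (z j))) ≤ LinearMap.ker (Bl G x) := by
    intro w hw
    rw [Submodule.mem_iInf] at hw
    rw [LinearMap.mem_ker]
    exact hcon w fun j => LinearMap.mem_ker.mp (hw j)
  have h2 := mem_span_of_iInf_ker_le_ker h1
  have h3 : Set.range (fun j => Bl G (z j)) = (Bl G) '' (Set.range z) := by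
    rw [← Set.range_comp]
    rfl
  rw [h3, ← Submodule.map_span] at h2
  obtain ⟨x', hx', hxx⟩ := h2
  have h4 : x' = x := by
    have h5 : x' - x = 0 := by
      refine B_nondeg_left hG hdet _ fun y => ?_
      have h6 : Bl G (x' - x) y = 0 := by
        rw [map_sub, hxx, sub_self]
        rfl
      exact h6
    exact sub_eq_zero.mp h5
  rw [← h4]
  exact hx'

theorem move {G : Matrix (Fin m) (Fin m) ℂ} (hG : G.transpose = -G) (hdet : G.det ≠ 0)
    {ι : Type} [Finite ι] (z : ι → Fin m → ℂ) (x y : Fin m → ℂ)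
    (hz : ∀ j, B G (z j) x = B G (z j) y)
    (hx : x ∉ Submodule.span ℂ (Set.range z)) (hy : y ∉ Submodule.span ℂ (Set.range z)) :
    ∃ T ∈ HM G, (∀ j, T *ᵥ z j = z j) ∧ T *ᵥ x = y := by
  by_cases hxy : B G x y = 0
  · obtain ⟨w, hw1, hw2, hw3⟩ : ∃ w, (∀ j, B G (z j) w = 0) ∧ B G x w ≠ 0 ∧ B G y w ≠ 0 := by
      obtain ⟨w1, h1, h2⟩ := exists_ne hG hdet z x hx
      obtain ⟨w2, h3, h4⟩ := exists_ne hG hdet z y hy
      by_cases h5 : B G y w1 = 0
      · by_cases h6 : B G x w2 = 0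
        · refine ⟨w1 + w2, fun j => ?_, ?_, ?_⟩
          · rw [B_add_right, h1, h3, add_zero]
          · rw [B_add_right, h6, add_zero]
            exact h2
          · rw [B_add_right, h5, zero_add]
            exact h4
        · exact ⟨w2, h3, h6, h4⟩
      · exact ⟨w1, h1, h2, h5⟩
    obtain ⟨T1, hT1, hT1z, hT1x⟩ := move1 hG z x (x + w)
      (fun j => by rw [B_add_right, hw1, add_zero])
      (by rw [B_add_right, B_self hG, zero_add]; exact hw2)
    obtain ⟨T2, hT2, hT2z, hT2x⟩ := move1 hG z (x + w) y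
      (fun j => by rw [B_add_right, hw1, add_zero, hz])
      (by
        rw [B_add_left, hxy, zero_add, B_anti hG]
        exact neg_ne_zero.mpr hw3)
    refine ⟨T2 * T1, (HM G).mul_mem hT2 hT1, fun j => ?_, ?_⟩
    · rw [← Matrix.mulVec_mulVec, hT1z, hT2z]
    · rw [← Matrix.mulVec_mulVec, hT1x, hT2x]
  · exact move1 hG z x y hz hxy

theorem not_mem {G : Matrix (Fin m) (Fin m) ℂ} (hG : G.transpose = -G) (hdet : G.det ≠ 0)
    {T : Matrix (Fin m) (Fin m) ℂ} (hT : ∀ x y, B G (T *ᵥ x) (T *ᵥ y) = B G x y)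
    (k : Fin m) : T *ᵥ (Pi.single k 1) ∉ Submodule.span ℂ (Set.range
      (fun j : {j : Fin m // j < k} => T *ᵥ (Pi.single (j : Fin m) (1 : ℂ)))) := by
  intro h
  have h1 : Set.range (fun j : {j : Fin m // j < k} => T *ᵥ (Pi.single (j : Fin m) (1 : ℂ))) =
      (Matrix.mulVecLin T) '' (Set.range (fun j : {j : Fin m // j < k} =>
        (Pi.single (j : Fin m) (1 : ℂ) : Fin m → ℂ))) := by
    rw [← Set.range_comp]
    rfl
  rw [h1, ← Submodule.map_span] at h
  obtain ⟨a, ha, hak⟩ := h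
  have h2 : a = Pi.single k 1 := inj hG hdet hT _ _ hak
  have h3 : ∀ a ∈ Submodule.span ℂ (Set.range (fun j : {j : Fin m // j < k} =>
      (Pi.single (j : Fin m) (1 : ℂ) : Fin m → ℂ))), a k = 0 := by
    intro a ha
    induction ha using Submodule.span_induction with
    | mem x hx =>
      obtain ⟨j, rfl⟩ := hx
      exact Pi.single_eq_of_ne (ne_of_gt j.2) _
    | zero => rfl
    | add x y _ _ h4 h5 => rw [Pi.add_apply, h4, h5, add_zero]
    | smul c x _ h4 => rw [Pi.smul_apply, h4, smul_zero]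
  have h4 := h3 a ha
  rw [h2, Pi.single_eq_same] at h4
  exact one_ne_zero h4

end SPG_

open SPG_ in
theorem p_SPG : T_SPG := by
  intro m G g hG hdet hg
  have hgp : ∀ x y, B G (g *ᵥ x) (g *ᵥ y) = B G x y := by
    intro x y
    unfold B
    rw [Matrix.mulVec_mulVec, dotProduct_comm, Matrix.dotProduct_mulVec, dotProduct_comm,
      ← Matrix.mulVec_transpose, Matrix.mulVec_mulVec, ← Matrix.mul_assoc, hg]
  have key : ∀ k : ℕ, k ≤ m → ∃ T ∈ HM G, ∀ j : Fin m, (j : ℕ) < k →
      T *ᵥ (Pi.single j 1) = g *ᵥ (Pi.single j 1) := by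
    intro k
    induction k with
    | zero => exact fun _ => ⟨1, (HM G).one_mem, fun j hj => absurd hj (by omega)⟩
    | succ k ih =>
      intro hk
      obtain ⟨T, hT, hTj⟩ := ih (by omega)
      obtain ⟨K, hK⟩ : ∃ K : Fin m, (K : ℕ) = k := ⟨⟨k, by omega⟩, rfl⟩
      have hTp := pres hG hT
      have hlt : ∀ j : {j : Fin m // j < K}, ((j : Fin m) : ℕ) < k := by
        intro j
        have := j.2
        rw [Fin.lt_def] at this
        omega
      have hfam : (fun j : {j : Fin m // j < K} => T *ᵥ (Pi.single (j : Fin m) (1 : ℂ))) =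
          fun j : {j : Fin m // j < K} => g *ᵥ (Pi.single (j : Fin m) (1 : ℂ)) := by
        funext j
        exact hTj _ (hlt j)
      obtain ⟨T', hT', hT'z, hT'x⟩ := move hG hdet
        (fun j : {j : Fin m // j < K} => g *ᵥ (Pi.single (j : Fin m) (1 : ℂ)))
        (T *ᵥ (Pi.single K 1)) (g *ᵥ (Pi.single K 1))
        (fun j => by
          rw [hgp, ← hTj _ (hlt j), hTp])
        (by
          rw [← hfam]
          exact not_mem hG hdet hTp K)
        (not_mem hG hdet hgp K)
      refine ⟨T' * T, (HM G).mul_mem hT' hT, fun j hj => ?_⟩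
      rw [← Matrix.mulVec_mulVec]
      rcases Nat.lt_succ_iff_lt_or_eq.mp hj with h1 | h1
      · rw [hTj j h1]
        exact hT'z ⟨j, by rw [Fin.lt_def]; omega⟩
      · have h2 : j = K := Fin.ext (by omega)
        rw [h2]
        exact hT'x
  obtain ⟨T, hT, hTj⟩ := key m le_rfl
  have h1 : T = g := by
    ext i j
    have h2 := congrFun (hTj j j.2) i
    rw [Matrix.mulVec_single_one, Matrix.mulVec_single_one] at h2
    exact h2
  rw [← h1]
  exact hT

end Pool.Agent.HEP
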