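import Pool.Agent.HEP.Targets

set_option autoImplicit false

/-! # The square root on the complex plane (`T_SQP`) -/

namespace Pool.Agent.HEP

open scoped Topology

namespace SQP_

theorem sq_zero : sq 0 = 0 := by
  unfold sq
  exact Complex.zero_cpow (by norm_num)

theorem sq_exp {w : ℂ} (hw : w ≠ 0) : sq w = Complex.exp (Complex.log w / 2) := by
  unfold sq
  rw [Complex.cpow_def_of_ne_zero hw]
  congr 1
  ring

theorem sq_mul (w : ℂ) : sq w * sq w = w := by
  by_cases hw : w = 0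
  · subst hw
    rw [sq_zero, zero_mul]
  · rw [sq_exp hw, ← Complex.exp_add, add_halves, Complex.exp_log hw]

theorem sq_ne {w : ℂ} (hw : w ≠ 0) : sq w ≠ 0 := by
  intro h
  apply hw
  rw [← sq_mul w, h, zero_mul]

theorem sq_re_pos {w : ℂ} (hw : w ∈ Complex.slitPlane) : 0 < (sq w).re := by
  rw [sq_exp (Complex.slitPlane_ne_zero hw), Complex.exp_re]
  apply mul_pos (Real.exp_pos _)
  have h2 : (Complex.log w / 2).im = w.arg / 2 := by
    rw [← Complex.log_im]
    simp
  rw [h2]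
  have h3 : w.arg ≠ Real.pi := (Complex.mem_slitPlane_iff_arg.1 hw).1
  have h4 := Complex.neg_pi_lt_arg w
  have h5 := Complex.arg_le_pi w
  have h6 : w.arg < Real.pi := lt_of_le_of_ne h5 h3
  apply Real.cos_pos_of_mem_Ioo
  constructor <;> linarith

theorem sq_deriv {w : ℂ} (hw : w ∈ Complex.slitPlane) : HasDerivAt sq (1 / (2 * sq w)) w := by
  have h0 : w ≠ 0 := Complex.slitPlane_ne_zero hw
  have h1 := (hasDerivAt_id w).cpow_const (c := (1 / 2 : ℂ)) hw
  have h2 : (1 / 2 : ℂ) * (id w) ^ ((1 / 2 : ℂ) - 1) * 1 = 1 / (2 * sq w) := by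
    have h3 : (id w) ^ ((1 / 2 : ℂ) - 1) = sq w / w := by
      rw [id, Complex.cpow_sub _ _ h0, Complex.cpow_one]
      rfl
    rw [h3]
    have h4 := sq_ne h0
    have h5 := sq_mul w
    field_simp
    linear_combination h5
  rw [h2] at h1
  exact h1

theorem sq_neg {w : ℂ} (hw : 0 < w.im ∨ (w.im = 0 ∧ w.re < 0)) : sq w = Complex.I * sq (-w) := by
  have h0 : w ≠ 0 := by
    rintro rfl
    simp at hw
  have h1 : (-w).arg = w.arg - Real.pi := Complex.arg_neg_eq_arg_sub_pi_iff.2 hw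
  have h2 : Complex.log w = Complex.log (-w) + Real.pi * Complex.I := by
    rw [Complex.log, Complex.log, h1, norm_neg]
    push_cast
    ring
  rw [sq_exp h0, sq_exp (neg_ne_zero.2 h0), h2]
  rw [show (Complex.log (-w) + Real.pi * Complex.I) / 2
    = Real.pi / 2 * Complex.I + Complex.log (-w) / 2 by ring, Complex.exp_add,
    Complex.exp_pi_div_two_mul_I]

theorem sq_ofReal {x : ℝ} (hx : 0 ≤ x) : sq (x : ℂ) = (Real.sqrt x : ℂ) := by
  unfold sq
  rw [Real.sqrt_eq_rpow, Complex.ofReal_cpow hx]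
  norm_num

theorem sq_smul {c : ℝ} (hc : 0 ≤ c) (w : ℂ) :
    sq ((c : ℂ) * w) = (Real.sqrt c : ℂ) * sq w := by
  rcases hc.eq_or_lt with h | h
  · subst h
    simp [sq_zero]
  · by_cases hw : w = 0
    · subst hw
      simp [sq_zero]
    · have hc0 : (c : ℂ) ≠ 0 := by exact_mod_cast h.ne'
      rw [← sq_ofReal hc, sq_exp (mul_ne_zero hc0 hw), sq_exp hc0, sq_exp hw, ← Complex.exp_add]
      congr 1
      rw [Complex.log_ofReal_mul h hw, Complex.ofReal_log hc]
      ring

theorem sq_norm (w : ℂ) : ‖sq w‖ = Real.sqrt ‖w‖ := by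
  have h1 : ‖sq w‖ * ‖sq w‖ = ‖w‖ := by
    rw [← norm_mul, sq_mul]
  rw [← h1, Real.sqrt_mul_self (norm_nonneg _)]

theorem sq_ofReal_neg {x : ℝ} (hx : x ≤ 0) :
    sq (x : ℂ) = Complex.I * (Real.sqrt (-x) : ℂ) := by
  rcases hx.eq_or_lt with h | h
  · subst h
    simp [sq_zero]
  · rw [sq_neg (w := (x : ℂ)) (Or.inr ⟨by simp, by simpa using h⟩)]
    have h2 : -(x : ℂ) = ((-x : ℝ) : ℂ) := by push_cast; ring
    rw [h2, sq_ofReal (by linarith)]

theorem sq_cont : ContinuousOn sq {w : ℂ | 0 ≤ w.im} := by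
  intro w hw
  by_cases h0 : w = 0
  · subst h0
    apply ContinuousAt.continuousWithinAt
    rw [ContinuousAt, sq_zero, tendsto_zero_iff_norm_tendsto_zero]
    simp_rw [sq_norm]
    have : Filter.Tendsto (fun x : ℂ => Real.sqrt ‖x‖) (𝓝 0) (𝓝 (Real.sqrt ‖(0 : ℂ)‖)) :=
      (Real.continuous_sqrt.comp continuous_norm).tendsto 0
    simpa using this
  · by_cases hs : w ∈ Complex.slitPlane
    · exact (sq_deriv hs).continuousAt.continuousWithinAt
    · rw [Complex.mem_slitPlane_iff] at hs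
      push Not at hs
      obtain ⟨h1, h2⟩ := hs
      have h3 : w.re < 0 := by
        rcases h1.eq_or_lt with h | h
        · exact absurd (Complex.ext h h2) h0
        · exact h
      have h4 := Complex.continuousWithinAt_log_of_re_neg_of_im_zero h3 h2
      have h5 : ContinuousWithinAt (fun z => Complex.exp (Complex.log z / 2))
          {z : ℂ | 0 ≤ z.im} w :=
        (Complex.continuous_exp.continuousAt).comp_continuousWithinAt (h4.div_const 2)
      apply h5.congr_of_eventuallyEq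
      · have h6 : ∀ᶠ z in 𝓝 w, z ≠ 0 := isOpen_ne.mem_nhds h0
        filter_upwards [nhdsWithin_le_nhds h6] with z hz
        exact sq_exp hz
      · exact sq_exp h0

end SQP_

open SQP_ in
theorem p_SQP : T_SQP :=
  ⟨sq_mul, fun _ hw => ⟨sq_deriv hw, sq_re_pos hw⟩, fun _ hw => sq_neg hw,
    fun _ w hc => sq_smul hc w, sq_cont, sq_norm, fun _ hx => sq_ofReal hx,
    fun _ hx => sq_ofReal_neg hx, fun _ hw => sq_ne hw⟩

end Pool.Agent.HEP
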