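import Pool.Agent.HEP.Targets

set_option autoImplicit false

/-!
# Taylor formula for the derivations `X ↦ X M` with `M * M = 0` (MP_5d33ca_ag)
-/

namespace Pool.Agent.HEP

open Finset

namespace TAY_

variable {m : ℕ}

/-- the polynomial `s ↦ evP z (X (1 + s M)) Ψ` -/
noncomputable def phi (z : ℂ) (X M : Matrix (Fin m) (Fin m) ℂ) :
    MvPolynomial (Fin m × Fin m) (Polynomial ℂ) →+* Polynomial ℂ :=
  MvPolynomial.eval₂Hom (Polynomial.C.comp (Polynomial.evalRingHom z))
    (fun p => Polynomial.C (X p.1 p.2) + Polynomial.X * Polynomial.C ((X * M) p.1 p.2))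

theorem eval_phi (z : ℂ) (X M : Matrix (Fin m) (Fin m) ℂ) (s : ℂ)
    (Ψ : MvPolynomial (Fin m × Fin m) (Polynomial ℂ)) :
    (phi z X M Ψ).eval s = evP z (X * (1 + s • M)) Ψ := by
  induction Ψ using MvPolynomial.induction_on with
  | C a => simp [phi, evP]
  | add p q hp hq =>
    rw [map_add, Polynomial.eval_add, hp, hq]
    simp [evP, MvPolynomial.eval₂_add]
  | mul_X p i hp =>
    rw [map_mul, Polynomial.eval_mul, hp]
    simp only [evP, MvPolynomial.eval₂_mul, MvPolynomial.eval₂_X]
    congr 1
    simp only [phi, MvPolynomial.coe_eval₂Hom, MvPolynomial.eval₂_X, Polynomial.eval_add,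
      Polynomial.eval_C, Polynomial.eval_mul, Polynomial.eval_X]
    rw [Matrix.mul_add, Matrix.mul_one, Matrix.mul_smul, Matrix.add_apply, Matrix.smul_apply,
      smul_eq_mul]

theorem der_phi (z : ℂ) (X M : Matrix (Fin m) (Fin m) ℂ) (hM : M * M = 0)
    (Ψ : MvPolynomial (Fin m × Fin m) (Polynomial ℂ)) :
    Polynomial.derivative (phi z X M Ψ) = phi z X M (dM M Ψ) := by
  induction Ψ using MvPolynomial.induction_on with
  | C a =>
    have : dM M (MvPolynomial.C a) = 0 := by
      have := (dM M).map_algebraMap a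
      simpa [MvPolynomial.algebraMap_eq] using this
    rw [this, map_zero]
    simp [phi]
  | add p q hp hq =>
    rw [map_add, Polynomial.derivative_add, hp, hq, map_add, map_add]
  | mul_X p i hp =>
    have hX : Polynomial.derivative (phi z X M (MvPolynomial.X i)) =
        phi z X M (dM M (MvPolynomial.X i)) := by
      have h1 : dM M (MvPolynomial.X i) =
          ∑ j, MvPolynomial.C (Polynomial.C (M j i.2)) * MvPolynomial.X (i.1, j) := by
        unfold dM
        rw [MvPolynomial.mkDerivation_X]
      rw [h1, map_sum]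
      have h2 : ∀ j, phi z X M (MvPolynomial.C (Polynomial.C (M j i.2)) *
          MvPolynomial.X (i.1, j)) = Polynomial.C (X i.1 j * M j i.2) +
            Polynomial.X * Polynomial.C ((X * M) i.1 j * M j i.2) := by
        intro j
        simp only [phi, MvPolynomial.coe_eval₂Hom, MvPolynomial.eval₂_mul, MvPolynomial.eval₂_C,
          MvPolynomial.eval₂_X, RingHom.comp_apply, Polynomial.coe_evalRingHom,
          Polynomial.eval_C, Polynomial.C_mul]
        ring
      simp only [h2]
      rw [Finset.sum_add_distrib, ← Finset.mul_sum, ← map_sum, ← map_sum]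
      have h3 : ∑ j, X i.1 j * M j i.2 = (X * M) i.1 i.2 := by rw [Matrix.mul_apply]
      have h4 : ∑ j, (X * M) i.1 j * M j i.2 = 0 := by
        have : (X * M * M) i.1 i.2 = 0 := by rw [Matrix.mul_assoc, hM, Matrix.mul_zero]; rfl
        rw [Matrix.mul_apply] at this
        exact this
      rw [h3, h4, map_zero, mul_zero, add_zero]
      simp [phi]
    rw [map_mul, Polynomial.derivative_mul, hp, hX, Derivation.leibniz, map_add, smul_eq_mul,
      smul_eq_mul, map_mul, map_mul]
    ring

theorem iter (z : ℂ) (X M : Matrix (Fin m) (Fin m) ℂ) (hM : M * M = 0) (k : ℕ)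
    (Ψ : MvPolynomial (Fin m × Fin m) (Polynomial ℂ)) :
    Polynomial.derivative^[k] (phi z X M Ψ) = phi z X M ((fun Φ => dM M Φ)^[k] Ψ) := by
  induction k generalizing Ψ with
  | zero => rfl
  | succ k ih =>
    rw [Function.iterate_succ_apply, Function.iterate_succ_apply, der_phi z X M hM, ih]

end TAY_

open TAY_ in
/-- Taylor formula -/
theorem p_TAY : T_TAY := by
  intro m M X z s Ψ hM hk
  have h0 : phi z X M Ψ = 0 := by
    ext k
    have h1 : (Polynomial.derivative^[k] (phi z X M Ψ)).coeff 0 = 0 := by
      rw [iter z X M hM, Polynomial.coeff_zero_eq_eval_zero, eval_phi]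
      have : X * (1 + (0 : ℂ) • M) = X := by simp
      rw [this]
      exact hk k
    rw [Polynomial.coeff_iterate_derivative, zero_add, Nat.descFactorial_self,
      nsmul_eq_mul] at h1
    rcases mul_eq_zero.mp h1 with h | h
    · exact absurd h (by exact_mod_cast (Nat.factorial_ne_zero k))
    · simpa using h
  rw [← eval_phi z X M s Ψ, h0, Polynomial.eval_zero]

end Pool.Agent.HEP
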