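import Pool.Agent.HEP.Targets

set_option autoImplicit false

/-!
# UINT: integrability
-/

namespace Pool.Agent.HEP

open Finset
open scoped Topology

namespace UINT_

lemma measurable_sq : Measurable sq := by
  unfold sq
  exact measurable_id.pow_const _

lemma norm_prod (h1 : T_SQP) {m : ℕ} (e : Fin m → ℝ) (x : ℝ) :
    ‖∏ k, sq ((x : ℂ) - e k)‖ = Real.sqrt |∏ k, (x - e k)| := by
  obtain ⟨-, -, -, -, -, hn, -⟩ := h1
  rw [_root_.norm_prod, Finset.abs_prod, Real.sqrt_prod _ (fun i _ => abs_nonneg _)]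
  refine Finset.prod_congr rfl fun k _ => ?_
  rw [hn, ← Complex.ofReal_sub, Complex.norm_real, Real.norm_eq_abs]

lemma first (h1 : T_SQP) (h2 : T_INTB) (m : ℕ) (e : Fin m → ℝ) (α : ℕ) (p q : ℝ)
    (he : StrictMono e) :
    IntervalIntegrable (fun x : ℝ => (x : ℂ) ^ α / (∏ k, sq ((x : ℂ) - e k)))
      MeasureTheory.volume p q := by
  refine (h2 m e he.injective p q α).mono_fun ?_ ?_
  · refine Measurable.aestronglyMeasurable ?_
    refine (Complex.measurable_ofReal.pow_const α).div ?_
    refine Finset.measurable_prod _ fun k _ => ?_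
    exact measurable_sq.comp (Complex.measurable_ofReal.sub_const _)
  · refine Filter.Eventually.of_forall fun x => ?_
    show ‖(x : ℂ) ^ α / (∏ k, sq ((x : ℂ) - e k))‖ ≤ ‖x ^ α / Real.sqrt |∏ i, (x - e i)|‖
    rw [norm_div, norm_prod h1, norm_div, norm_pow, norm_pow, Complex.norm_real,
      Real.norm_of_nonneg (Real.sqrt_nonneg _)]

end UINT_

open UINT_ in
theorem p_UINT (h1 : T_SQP) (h2 : T_INTB) : T_UINT := by
  intro m e α p q z he hz
  refine ⟨first h1 h2 m e α p q he, ?_⟩
  have hsl : ∀ x : ℝ, z - x ∈ Complex.slitPlane := by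
    intro x
    rw [Complex.mem_slitPlane_iff]
    right
    simp only [Complex.sub_im, Complex.ofReal_im, sub_zero]
    exact hz.ne'
  have hc : Continuous fun x : ℝ => 1 / sq (z - x) := by
    rw [continuous_iff_continuousAt]
    intro x
    refine ContinuousAt.div continuousAt_const ?_ ?_
    · exact ContinuousAt.comp (f := fun x : ℝ => z - x) (h1.2.1 _ (hsl x)).1.continuousAt
        (by fun_prop)
    · intro h0
      have := (h1.2.1 _ (hsl x)).2
      rw [h0] at this
      exact lt_irrefl _ this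
  have h3 := (first h1 h2 m e α p q he).mul_continuousOn hc.continuousOn
  refine h3.congr ?_
  intro x _
  show (x : ℂ) ^ α / (∏ k, sq ((x : ℂ) - e k)) * (1 / sq (z - x)) = _
  rw [div_mul_div_comm, mul_one]

end Pool.Agent.HEP
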