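import Pool.Agent.HEP.Targets

set_option autoImplicit false

/-!
# T_UNI: sorted roots are unique
-/

namespace Pool.Agent.HEP

namespace UNI_

theorem range_eq {m : ℕ} (b b' : Fin m → ℝ)
    (h : ∏ i, (Polynomial.X - Polynomial.C (b i)) = ∏ i, (Polynomial.X - Polynomial.C (b' i))) :
    Set.range b ⊆ Set.range b' := by
  rintro _ ⟨i, rfl⟩
  have h1 := congrArg (Polynomial.eval (b i)) h
  rw [Polynomial.eval_prod, Polynomial.eval_prod] at h1
  have h2 : ∏ j, Polynomial.eval (b i) (Polynomial.X - Polynomial.C (b j)) = 0 :=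
    Finset.prod_eq_zero (Finset.mem_univ i) (by simp)
  rw [h2] at h1
  obtain ⟨j, _, hj⟩ := Finset.prod_eq_zero_iff.1 h1.symm
  rw [Polynomial.eval_sub, Polynomial.eval_X, Polynomial.eval_C] at hj
  exact ⟨j, (sub_eq_zero.1 hj).symm⟩

end UNI_

theorem p_UNI : T_UNI := by
  intro m b b' hb hb' h
  exact (StrictMono.range_inj hb hb').1
    (Set.Subset.antisymm (UNI_.range_eq b b' h) (UNI_.range_eq b' b h.symm))

end Pool.Agent.HEP
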