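import Pool.Agent.HEP.Targets

set_option autoImplicit false

namespace Pool.Agent.HEP

open Finset Pool.Agent.LEG
open scoped BigOperators Topology

namespace UODE_

/-- `∏ √(x - e_k)` -/
noncomputable def W {m : ℕ} (e : Fin m → ℝ) (x : ℝ) : ℂ := ∏ k, sq ((x : ℂ) - e k)

variable {m : ℕ}

theorem sq_real_diff (h1 : T_SQP) (c x : ℝ) (hx : x ≠ c) :
    DifferentiableAt ℝ (fun t : ℝ => sq ((t : ℂ) - c)) x := by
  obtain ⟨-, q2, q3, -⟩ := h1
  rcases lt_or_gt_of_ne hx with hlt | hgt
  · have hev : (fun t : ℝ => sq ((t : ℂ) - c)) =ᶠ[𝓝 x]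
        fun t : ℝ => Complex.I * sq ((c : ℂ) - t) := by
      filter_upwards [gt_mem_nhds hlt] with t ht
      rw [q3 ((t : ℂ) - c) (Or.inr ⟨by simp, by simpa using ht⟩)]
      congr 2
      ring
    refine DifferentiableAt.congr_of_eventuallyEq ?_ hev
    have hs : ((c : ℂ) - x) ∈ Complex.slitPlane := by
      left
      simpa using hlt
    have hd := (q2 _ hs).1
    have hl : HasDerivAt (fun t : ℝ => (c : ℂ) - (t : ℂ)) (-1) x := by
      have := (Complex.ofRealCLM.hasDerivAt (x := x)).const_sub (c : ℂ)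
      simpa using this
    exact ((HasDerivAt.comp x hd hl).differentiableAt).const_mul Complex.I
  · have hs : ((x : ℂ) - c) ∈ Complex.slitPlane := by
      left
      simpa using hgt
    have hd := (q2 _ hs).1
    have hl : HasDerivAt (fun t : ℝ => (t : ℂ) - (c : ℂ)) 1 x := by
      have := (Complex.ofRealCLM.hasDerivAt (x := x)).sub_const (c : ℂ)
      simpa using this
    exact (HasDerivAt.comp x hd hl).differentiableAt

theorem W_diff (h1 : T_SQP) (e : Fin m → ℝ) (x : ℝ) (hx : ∀ k, x ≠ e k) :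
    DifferentiableAt ℝ (W e) x := by
  unfold W
  exact DifferentiableAt.fun_finsetProd fun k _ => sq_real_diff h1 (e k) x (hx k)

theorem W_cont (h1 : T_SQP) (e : Fin m → ℝ) : Continuous (W e) := by
  obtain ⟨-, -, -, -, q5, -⟩ := h1
  unfold W
  refine continuous_finsetProd _ fun k _ => ?_
  refine q5.comp_continuous (by fun_prop) fun x => ?_
  simp

theorem W_sq (h1 : T_SQP) (e : Fin m → ℝ) (h : Polynomial ℚ)
    (hh : h.map (algebraMap ℚ ℝ) = ∏ k, (Polynomial.X - Polynomial.C (e k))) (x : ℝ) :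
    W e x * W e x = Polynomial.aeval (x : ℂ) h := by
  have hz : Polynomial.aeval (x : ℂ) h = ∏ k, ((x : ℂ) - e k) := by
    have h5 : Polynomial.aeval (x : ℂ) h =
        Polynomial.aeval (x : ℂ) (h.map (algebraMap ℚ ℝ)) := by
      rw [Polynomial.aeval_map_algebraMap]
    rw [h5, hh, map_prod]
    refine Finset.prod_congr rfl fun k _ => ?_
    simp
  rw [hz]
  unfold W
  rw [← Finset.prod_mul_distrib]
  exact Finset.prod_congr rfl fun k _ => h1.1 _

theorem aeval_ne (e : Fin m → ℝ) (h : Polynomial ℚ)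
    (hh : h.map (algebraMap ℚ ℝ) = ∏ k, (Polynomial.X - Polynomial.C (e k))) (z : ℂ)
    (hz : 0 < z.im) : Polynomial.aeval z h ≠ 0 := by
  have h5 : Polynomial.aeval z h = Polynomial.aeval z (h.map (algebraMap ℚ ℝ)) := by
    rw [Polynomial.aeval_map_algebraMap]
  rw [h5, hh, map_prod]
  refine Finset.prod_ne_zero_iff.2 fun k _ => ?_
  simp only [map_sub, Polynomial.aeval_X, Polynomial.aeval_C]
  intro h0
  have h6 := congrArg Complex.im h0
  simp at h6
  exact hz.ne' h6

theorem W_deriv (h1 : T_SQP) (e : Fin m → ℝ) (h : Polynomial ℚ)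
    (hh : h.map (algebraMap ℚ ℝ) = ∏ k, (Polynomial.X - Polynomial.C (e k))) (x : ℝ)
    (hx : ∀ k, x ≠ e k) :
    W e x ≠ 0 ∧ HasDerivAt (W e)
      (Polynomial.aeval (x : ℂ) (Polynomial.derivative h) / (2 * W e x)) x := by
  have h0 : W e x ≠ 0 := by
    unfold W
    refine Finset.prod_ne_zero_iff.2 fun k _ => h1.2.2.2.2.2.2.2.2 _ ?_
    rw [← Complex.ofReal_sub, Complex.ofReal_ne_zero]
    exact sub_ne_zero.2 (hx k)
  refine ⟨h0, ?_⟩
  have hd := (W_diff h1 e x hx).hasDerivAt
  have h2 : HasDerivAt (fun t : ℝ => W e t * W e t) (deriv (W e) x * W e x + W e x * deriv (W e) x)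
      x := hd.mul hd
  have h3 : HasDerivAt (fun t : ℝ => W e t * W e t)
      (Polynomial.aeval (x : ℂ) (Polynomial.derivative h)) x := by
    have h4 : (fun t : ℝ => W e t * W e t) = fun t : ℝ => Polynomial.aeval (t : ℂ) h :=
      funext fun t => W_sq h1 e h hh t
    rw [h4]
    have h5 : HasDerivAt (fun w : ℂ => Polynomial.aeval w h)
        (Polynomial.aeval (x : ℂ) (Polynomial.derivative h)) (x : ℂ) :=
      Polynomial.hasDerivAt_aeval h (x : ℂ)
    exact h5.comp_ofReal
  have h4 := h2.unique h3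
  have h5 : deriv (W e) x = Polynomial.aeval (x : ℂ) (Polynomial.derivative h) / (2 * W e x) := by
    rw [← h4]
    field_simp
    ring
  rw [← h5]
  exact hd

/-- derivative of `1 / √w` -/
theorem inv_sq_deriv (h1 : T_SQP) (w : ℂ) (hw : 0 < w.im) :
    sq w ≠ 0 ∧ w ≠ 0 ∧ HasDerivAt (fun u : ℂ => 1 / sq u) (-1 / (2 * w * sq w)) w := by
  have hw0 : w ≠ 0 := by
    rintro rfl
    simp at hw
  have hs0 : sq w ≠ 0 := h1.2.2.2.2.2.2.2.2 w hw0
  have hs : w ∈ Complex.slitPlane := Or.inr hw.ne'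
  refine ⟨hs0, hw0, ?_⟩
  have hd := (h1.2.1 w hs).1.inv hs0
  have h2 : (fun u : ℂ => 1 / sq u) = fun u : ℂ => (sq u)⁻¹ := funext fun u => one_div _
  rw [h2]
  have h3 : -1 / (2 * w * sq w) = -(1 / (2 * sq w)) / sq w ^ 2 := by
    have h4 : w = sq w * sq w := (h1.1 w).symm
    have h5 : 2 * w * sq w = 2 * sq w * sq w ^ 2 := by
      conv_lhs => rw [h4]
      rw [← h4]
      nth_rewrite 1 [h4]
      ring
    rw [h5]
    field_simp
  rw [h3]
  exact hd

/-- derivative of the kernel in `z` -/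
theorem ker_deriv (h1 : T_SQP) (e : Fin m → ℝ) (α : ℕ) (x : ℝ) (z : ℂ) (hz : 0 < z.im) :
    HasDerivAt (fun u : ℂ => (x : ℂ) ^ α / ((∏ k, sq ((x : ℂ) - e k)) * sq (u - x)))
      ((x : ℂ) ^ α / W e x * (-1 / (2 * (z - x) * sq (z - x)))) z := by
  have h2 : (fun u : ℂ => (x : ℂ) ^ α / ((∏ k, sq ((x : ℂ) - e k)) * sq (u - x))) =
      fun u : ℂ => (x : ℂ) ^ α / W e x * (1 / sq (u - x)) := by
    funext u
    unfold W
    rw [← div_div, ← mul_one_div]
  rw [h2]
  have h3 := (inv_sq_deriv h1 (z - x) (by simpa using hz)).2.2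
  have h4 : HasDerivAt (fun u : ℂ => u - (x : ℂ)) 1 z := (hasDerivAt_id z).sub_const _
  have h5 := HasDerivAt.comp z h3 h4
  rw [mul_one] at h5
  exact h5.const_mul _

/-- the exact form -/
theorem G_deriv (h1 : T_SQP) (e : Fin m → ℝ) (h : Polynomial ℚ)
    (hh : h.map (algebraMap ℚ ℝ) = ∏ k, (Polynomial.X - Polynomial.C (e k))) (x : ℝ) (z : ℂ)
    (hz : 0 < z.im) (hx : ∀ k, x ≠ e k) :
    HasDerivAt (fun t : ℝ => W e t * (1 / sq (z - t)))
      (Polynomial.aeval (x : ℂ) (Polynomial.derivative h) / (2 * W e x) * (1 / sq (z - x)) +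
        W e x * (1 / (2 * (z - x) * sq (z - x)))) x := by
  have hW := (W_deriv h1 e h hh x hx).2
  have h3 := (inv_sq_deriv h1 (z - x) (by simpa using hz)).2.2
  have hl : HasDerivAt (fun t : ℝ => z - (t : ℂ)) (-1) x := by
    have := (Complex.ofRealCLM.hasDerivAt (x := x)).const_sub z
    simpa using this
  have h5 := HasDerivAt.comp x h3 hl
  have h6 : -1 / (2 * (z - x) * sq (z - x)) * -1 = 1 / (2 * (z - x) * sq (z - x)) := by
    rw [div_mul_eq_mul_div]
    norm_num
  rw [h6] at h5
  exact hW.mul h5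

theorem G_cont (h1 : T_SQP) (e : Fin m → ℝ) (z : ℂ) (hz : 0 < z.im) :
    Continuous (fun t : ℝ => W e t * (1 / sq (z - t))) := by
  refine (W_cont h1 e).mul ?_
  have h2 : Continuous (fun t : ℝ => sq (z - t)) := by
    refine h1.2.2.2.2.1.comp_continuous (by fun_prop) fun x => ?_
    simpa using hz.le
  simp only [one_div]
  refine h2.inv₀ fun t => ?_
  exact (inv_sq_deriv h1 (z - t) (by simpa using hz)).1

theorem W_zero (e : Fin m → ℝ) (h1 : T_SQP) (i : Fin m) : W e (e i) = 0 := by
  unfold W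
  refine Finset.prod_eq_zero (Finset.mem_univ i) ?_
  rw [sub_self]
  have := h1.1 0
  exact mul_self_eq_zero.1 this

/-- the case `p ≤ q` -/
theorem main_le (h1 : T_SQP) (h2 : T_UINT) (h3 : T_ALGID) (h4 : T_PAR) (h : Polynomial ℚ)
    (e : Fin m → ℝ) (i j : Fin m) (α : Fin m) (z : ℂ) (he : StrictMono e)
    (hh : h.map (algebraMap ℚ ℝ) = ∏ k, (Polynomial.X - Polynomial.C (e k))) (hz : 0 < z.im)
    (hij : e i ≤ e j) :
    HasDerivAt (UI e α (e i) (e j)) ((∑ l : Fin m, Polynomial.aeval z (AA h m α l) *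
      UI e l (e i) (e j) z) / Polynomial.aeval z h) z := by
  set c : ℝ := z.im / 2 with hc
  have hc0 : 0 < c := by rw [hc]; linarith
  -- differentiation under the integral sign
  set f : ℝ → ℂ → ℂ := fun x u =>
    (x : ℂ) ^ (α : ℕ) / ((∏ k, sq ((x : ℂ) - e k)) * sq (u - x)) with hf
  have hU : IsOpen {u : ℂ | c < u.im} := isOpen_lt continuous_const Complex.continuous_im
  have hpar := h4 {u : ℂ | c < u.im} f
    (fun x => ‖(x : ℂ) ^ (α : ℕ) / (∏ k, sq ((x : ℂ) - e k))‖ / Real.sqrt c) (e i) (e j) hU hij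
    ((h2 m e α (e i) (e j) z he hz).1.norm.div_const _)
    (fun u hu => by
      have hu' : 0 < u.im := hc0.trans hu
      exact (intervalIntegrable_iff_integrableOn_Ioc_of_le hij).1
        (h2 m e α (e i) (e j) u he hu').2 |>.aestronglyMeasurable)
    (fun s _ u hu => by
      have hu' : 0 < u.im := hc0.trans hu
      exact (ker_deriv h1 e α s u hu').differentiableAt.differentiableWithinAt)
    (fun u0 hu0 => by
      obtain ⟨δ, hδ, hball⟩ := Metric.isOpen_iff.1 hU u0 hu0
      refine ⟨δ, hδ, fun u hu s _ => ?_⟩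
      have hu' : c < u.im := hball hu
      simp only [hf]
      rw [← div_div, norm_div, h1.2.2.2.2.2.1]
      refine div_le_div_of_nonneg_left (norm_nonneg _) (Real.sqrt_pos.2 hc0) ?_
      refine Real.sqrt_le_sqrt ?_
      calc c ≤ |(u - s).im| := by
            rw [Complex.sub_im, Complex.ofReal_im, sub_zero]
            exact hu'.le.trans (le_abs_self _)
        _ ≤ ‖u - s‖ := Complex.abs_im_le_norm _)
    z (by show c < z.im; rw [hc]; linarith)
  obtain ⟨-, hint, hder⟩ := hpar
  have hhz : Polynomial.aeval z h ≠ 0 := aeval_ne e h hh z hz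
  have hm : h.natDegree = m := by
    have h5 : (h.map (algebraMap ℚ ℝ)).natDegree = h.natDegree := Polynomial.natDegree_map _
    rw [← h5, hh, Polynomial.natDegree_prod_of_monic _ _ fun k _ => Polynomial.monic_X_sub_C _]
    simp
  have halg := (h3 h m α hm α.isLt).1 ℂ
  -- the exact form
  have hD : ∀ x : ℝ, deriv (f x) z =
      (x : ℂ) ^ (α : ℕ) / W e x * (-1 / (2 * (z - x) * sq (z - x))) :=
    fun x => (ker_deriv h1 e α x z hz).deriv
  have hint2 : ∀ l : Fin m, IntervalIntegrable (fun x : ℝ => Polynomial.aeval z (AA h m α l) *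
      ((x : ℂ) ^ (l : ℕ) / ((∏ k, sq ((x : ℂ) - e k)) * sq (z - x)))) MeasureTheory.volume
      (e i) (e j) := fun l => (h2 m e l (e i) (e j) z he hz).2.const_mul _
  have hsum : IntervalIntegrable (fun x : ℝ => ∑ l : Fin m, Polynomial.aeval z (AA h m α l) *
      ((x : ℂ) ^ (l : ℕ) / ((∏ k, sq ((x : ℂ) - e k)) * sq (z - x)))) MeasureTheory.volume
      (e i) (e j) := by
    have := IntervalIntegrable.sum Finset.univ fun (l : Fin m) _ => hint2 l
    refine this.congr ?_
    intro x _
    simp only [Finset.sum_apply]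
  have hg : IntervalIntegrable (fun x : ℝ => ∑ l : Fin m, Polynomial.aeval z (AA h m α l) *
      ((x : ℂ) ^ (l : ℕ) / ((∏ k, sq ((x : ℂ) - e k)) * sq (z - x))) -
      Polynomial.aeval z h * deriv (f x) z) MeasureTheory.volume (e i) (e j) :=
    hsum.sub (hint.const_mul _)
  have hftc : ∫ x in (e i)..(e j), (∑ l : Fin m, Polynomial.aeval z (AA h m α l) *
      ((x : ℂ) ^ (l : ℕ) / ((∏ k, sq ((x : ℂ) - e k)) * sq (z - x))) -
      Polynomial.aeval z h * deriv (f x) z) =
      z ^ (α : ℕ) * (W e (e j) * (1 / sq (z - e j))) -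
        z ^ (α : ℕ) * (W e (e i) * (1 / sq (z - e i))) := by
    refine MeasureTheory.integral_eq_of_hasDerivAt_off_countable_of_le
      (fun x : ℝ => z ^ (α : ℕ) * (W e x * (1 / sq (z - x)))) _ hij
      (Set.countable_range e) ?_ ?_ hg
    · exact (continuous_const.mul (G_cont h1 e z hz)).continuousOn
    · rintro x ⟨-, hx⟩
      have hx' : ∀ k, x ≠ e k := fun k hk => hx ⟨k, hk.symm⟩
      have hGd := (G_deriv h1 e h hh x z hz hx').const_mul (z ^ (α : ℕ))
      have hW0 := (W_deriv h1 e h hh x hx').1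
      obtain ⟨hs0, hzx, -⟩ := inv_sq_deriv h1 (z - x) (by simpa using hz)
      have hWW := W_sq h1 e h hh x
      have hal := halg (x : ℂ) z
      rw [Finset.sum_range] at hal
      have hxz : (x : ℂ) - z ≠ 0 := by
        rw [← neg_sub]
        exact neg_ne_zero.2 hzx
      have hkey : (∑ l : Fin m, Polynomial.aeval z (AA h m α l) *
          ((x : ℂ) ^ (l : ℕ) / ((∏ k, sq ((x : ℂ) - e k)) * sq (z - x))) -
          Polynomial.aeval z h * deriv (f x) z) = z ^ (α : ℕ) *
          (Polynomial.aeval (x : ℂ) (Polynomial.derivative h) / (2 * W e x) *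
            (1 / sq (z - x)) + W e x * (1 / (2 * (z - x) * sq (z - x)))) := by
        rw [hD]
        have e1 : ∑ l : Fin m, Polynomial.aeval z (AA h m α l) *
            ((x : ℂ) ^ (l : ℕ) / ((∏ k, sq ((x : ℂ) - e k)) * sq (z - x))) =
            (∑ l : Fin m, Polynomial.aeval z (AA h m α l) * (x : ℂ) ^ (l : ℕ) *
              ((x : ℂ) - z)) / (((x : ℂ) - z) * W e x * sq (z - x)) := by
          rw [Finset.sum_div]
          refine Finset.sum_congr rfl fun l _ => ?_
          change _ * (_ / (W e x * sq (z - x))) = _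
          field_simp
        rw [e1, hal, ← hWW]
        have e2 : (algebraMap ℚ ℂ (1 / 2) : ℂ) = 1 / 2 := by simp
        rw [e2]
        have e3 : (z - x : ℂ) = -((x : ℂ) - z) := by ring
        have e4 : ∀ s : ℂ, s ≠ 0 → 1 / 2 * (Polynomial.aeval z h * (x : ℂ) ^ (α : ℕ) +
            z ^ (α : ℕ) * (Polynomial.aeval (x : ℂ) (Polynomial.derivative h) * ((x : ℂ) - z) -
              W e x * W e x)) / (((x : ℂ) - z) * W e x * s) -
            Polynomial.aeval z h * ((x : ℂ) ^ (α : ℕ) / W e x *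
              (-1 / (2 * (-((x : ℂ) - z)) * s))) = z ^ (α : ℕ) *
            (Polynomial.aeval (x : ℂ) (Polynomial.derivative h) / (2 * W e x) * (1 / s) +
              W e x * (1 / (2 * (-((x : ℂ) - z)) * s))) := by
          intro s hs
          field_simp
          ring
        have e5 := e4 (sq (z - x)) hs0
        rw [← e3] at e5
        exact e5
      rw [hkey]
      exact hGd
  rw [W_zero e h1 i, W_zero e h1 j, zero_mul, zero_mul, mul_zero, sub_zero] at hftc
  rw [intervalIntegral.integral_sub hsum (hint.const_mul _),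
    intervalIntegral.integral_finsetSum fun l _ => hint2 l,
    intervalIntegral.integral_const_mul] at hftc
  have hfin : (∑ l : Fin m, Polynomial.aeval z (AA h m α l) *
      UI e l (e i) (e j) z) / Polynomial.aeval z h = ∫ s in (e i)..(e j), deriv (f s) z := by
    rw [div_eq_iff hhz]
    have e1 : ∑ l : Fin m, Polynomial.aeval z (AA h m α l) * UI e l (e i) (e j) z =
        ∑ l : Fin m, ∫ x in (e i)..(e j), Polynomial.aeval z (AA h m α l) *
          ((x : ℂ) ^ (l : ℕ) / ((∏ k, sq ((x : ℂ) - e k)) * sq (z - x))) := by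
      refine Finset.sum_congr rfl fun l _ => ?_
      rw [intervalIntegral.integral_const_mul]
      rfl
    rw [e1]
    linear_combination hftc
  rw [hfin]
  exact hder

end UODE_

open UODE_ in
theorem p_UODE (h1 : T_SQP) (h2 : T_UINT) (h3 : T_ALGID) (h4 : T_PAR) : T_UODE := by
  intro m h e i j α z he hh hz
  rcases le_total (e i) (e j) with hij | hij
  · exact main_le h1 h2 h3 h4 h e i j α z he hh hz hij
  · have hneg : ∀ (l : ℕ) (u : ℂ), UI e l (e i) (e j) u = -UI e l (e j) (e i) u := fun l u => by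
      unfold UI
      exact intervalIntegral.integral_symm _ _
    have h5 := (main_le h1 h2 h3 h4 h e j i α z he hh hz hij).neg
    have h6 : UI e α (e i) (e j) = fun u => -UI e α (e j) (e i) u := funext fun u => hneg α u
    have h7 : (∑ l : Fin m, Polynomial.aeval z (AA h m α l) * UI e l (e i) (e j) z) /
        Polynomial.aeval z h = -((∑ l : Fin m, Polynomial.aeval z (AA h m α l) *
          UI e l (e j) (e i) z) / Polynomial.aeval z h) := by
      rw [← neg_div, ← Finset.sum_neg_distrib]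
      congr 1
      refine Finset.sum_congr rfl fun l _ => ?_
      rw [hneg]
      ring
    rw [h6, h7]
    exact h5

end Pool.Agent.HEP
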