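import Pool.Agent.HEP.Targets
import Pool.Agent.LEG.GRING

set_option autoImplicit false

/-!
# The period matrix is `F(z) w₀` near `0` (target `T_WF`)
-/

namespace Pool.Agent.HEP

open Finset Pool.Agent.LEG
open scoped BigOperators Topology

namespace WF_

lemma natDeg {m : ℕ} {h : Polynomial ℚ} {e : Fin m → ℝ}
    (hp : h.map (algebraMap ℚ ℝ) = ∏ k, (Polynomial.X - Polynomial.C (e k))) :
    h.natDegree = m := by
  have h1 := congrArg Polynomial.natDegree hp
  rw [Polynomial.natDegree_map, Polynomial.natDegree_prod_of_monic _ _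
    (fun i _ => Polynomial.monic_X_sub_C (e i))] at h1
  simpa using h1

lemma e_ne {m : ℕ} {h : Polynomial ℚ} {e : Fin m → ℝ}
    (hp : h.map (algebraMap ℚ ℝ) = ∏ k, (Polynomial.X - Polynomial.C (e k)))
    (h0 : h.coeff 0 ≠ 0) : ∀ i, e i ≠ 0 := by
  intro i hi
  apply h0
  have h1 : (h.map (algebraMap ℚ ℝ)).coeff 0 = 0 := by
    rw [hp, Polynomial.coeff_zero_eq_eval_zero, Polynomial.eval_prod]
    apply Finset.prod_eq_zero (Finset.mem_univ i)
    simp [hi]
  rw [Polynomial.coeff_map] at h1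
  simpa using h1

lemma evC_zero (z : ℂ) : evC 0 z = 0 := by simp [evC]

lemma evC_at_zero (f : PowerSeries ℚ) : evC f 0 = ((PowerSeries.coeff 0 f : ℚ) : ℂ) := by
  unfold evC
  rw [tsum_eq_single 0]
  · simp
  · intro n hn
    simp [hn]

lemma isG_zero : IsG (0 : PowerSeries ℚ) := by
  have := p_GRING.1 0
  simpa using this

lemma evC_sum (h5 : T_EVCC) {ι : Type} (s : Finset ι) (f : ι → PowerSeries ℚ)
    (hf : ∀ i ∈ s, IsG (f i)) :
    IsG (∑ i ∈ s, f i) ∧ ∀ᶠ z in 𝓝 (0 : ℂ), evC (∑ i ∈ s, f i) z = ∑ i ∈ s, evC (f i) z := by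
  classical
  induction s using Finset.induction_on with
  | empty =>
    simp only [Finset.sum_empty]
    exact ⟨isG_zero, Filter.Eventually.of_forall evC_zero⟩
  | insert i s hi ih =>
    obtain ⟨h1, h2⟩ := ih (fun j hj => hf j (Finset.mem_insert_of_mem hj))
    have h3 : IsG (f i) := hf i (Finset.mem_insert_self i s)
    refine ⟨?_, ?_⟩
    · rw [Finset.sum_insert hi]
      exact p_GRING.2.1 _ _ h3 h1
    · obtain ⟨δ, -, -, -, -, h4⟩ := h5 (f i) h3
      filter_upwards [h2, h4 (∑ j ∈ s, f j) 0 h1] with z hz1 hz2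
      rw [Finset.sum_insert hi, Finset.sum_insert hi, hz2.1, hz1]

lemma sys (h2 : T_FODE) (h3 : T_FG) (h5 : T_EVCC) {m : ℕ} {h : Polynomial ℚ} {e : Fin m → ℝ}
    {a : ℕ → ℚ} {C : ℕ} (hd : HD m h e a C) (α l : Fin m) :
    ∀ᶠ z in 𝓝 (0 : ℂ), Polynomial.aeval z h * evC (PowerSeries.derivative ℚ (fS h a α l)) z =
      ∑ i : Fin m, Polynomial.aeval z (AA h m α i) * evC (fS h a i l) z := by
  have hor := h2 h a C m hd.sqi (natDeg hd.prod) l l.2 α
  simp only at hor
  have hG : ∀ i : Fin m, IsG (fS h a i l) := fun i => h3 h a C hd.sqi i l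
  have hG' : IsG (PowerSeries.derivative ℚ (fS h a α l)) := p_GRING.2.2.2 _ (hG α)
  obtain ⟨δ, -, -, -, -, h4⟩ := h5 _ hG'
  have h6 := h4 (h : PowerSeries ℚ) h (p_GRING.1 h)
  have h7 : ∀ᶠ z in 𝓝 (0 : ℂ), ∀ i : Fin m,
      evC ((AA h m α i : PowerSeries ℚ) * fS h a i l) z =
        Polynomial.aeval z (AA h m α i) * evC (fS h a i l) z := by
    rw [Filter.eventually_all]
    intro i
    obtain ⟨δ', -, -, -, -, h8⟩ := h5 _ (hG i)
    filter_upwards [h8 (AA h m α i : PowerSeries ℚ) (AA h m α i) (p_GRING.1 _)] with z hz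
    rw [mul_comm, hz.2.1, hz.2.2, mul_comm]
  have h9 := (evC_sum h5 (Finset.univ : Finset (Fin m))
    (fun i => (AA h m α i : PowerSeries ℚ) * fS h a i l)
    (fun i _ => p_GRING.2.2.1 _ _ (p_GRING.1 _) (hG i))).2
  filter_upwards [h6, h7, h9] with z hz1 hz2 hz3
  rw [← Finset.sum_congr rfl (fun i _ => hz2 i), ← hz3, ← hor]
  rw [mul_comm (h : PowerSeries ℚ), hz1.2.1, hz1.2.2, mul_comm]

lemma det_diffAt {m : ℕ} (X : ℂ → Matrix (Fin m) (Fin m) ℂ) (z0 : ℂ)
    (hX : ∀ a b, DifferentiableAt ℂ (fun z => X z a b) z0) :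
    DifferentiableAt ℂ (fun z => (X z).det) z0 := by
  simp only [Matrix.det_apply]
  apply DifferentiableAt.fun_sum
  intro σ _
  apply DifferentiableAt.fun_const_smul
  apply DifferentiableAt.fun_finsetProd
  intro i _
  exact hX _ _

lemma inv_diffAt {m : ℕ} (X : ℂ → Matrix (Fin m) (Fin m) ℂ) (z0 : ℂ)
    (hX : ∀ a b, DifferentiableAt ℂ (fun z => X z a b) z0) (h0 : (X z0).det ≠ 0)
    (i j : Fin m) : DifferentiableAt ℂ (fun z => (X z)⁻¹ i j) z0 := by
  have h1 : (fun z => (X z)⁻¹ i j) = fun z => ((X z).det)⁻¹ *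
      ((X z).updateRow j (Pi.single i 1)).det := by
    funext z
    rw [Matrix.inv_def, Ring.inverse_eq_inv', Matrix.smul_apply, Matrix.adjugate_apply,
      smul_eq_mul]
  rw [h1]
  apply DifferentiableAt.mul
  · exact (det_diffAt X z0 hX).inv h0
  · apply det_diffAt (fun z => (X z).updateRow j (Pi.single i 1)) z0
    intro a b
    by_cases haj : a = j
    · subst haj
      simp only [Matrix.updateRow_self]
      exact differentiableAt_const _
    · simp only [Matrix.updateRow_ne haj]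
      exact hX a b

lemma mul_deriv {m : ℕ} (X Y : ℂ → Matrix (Fin m) (Fin m) ℂ) (X' Y' : Matrix (Fin m) (Fin m) ℂ)
    (z0 : ℂ) (hX : ∀ a b, HasDerivAt (fun z => X z a b) (X' a b) z0)
    (hY : ∀ a b, HasDerivAt (fun z => Y z a b) (Y' a b) z0) (i j : Fin m) :
    HasDerivAt (fun z => (X z * Y z) i j) ((X' * Y z0 + X z0 * Y') i j) z0 := by
  simp only [Matrix.mul_apply, Matrix.add_apply, ← Finset.sum_add_distrib]
  apply HasDerivAt.fun_sum
  intro l _
  exact (hX i l).mul (hY l j)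

lemma const_mat {m : ℕ} (U : Set ℂ) (hU : IsOpen U) (hUc : IsPreconnected U)
    (F D F' D' A : ℂ → Matrix (Fin m) (Fin m) ℂ) (q : ℂ → ℂ)
    (hF : ∀ z ∈ U, ∀ a b, HasDerivAt (fun w => F w a b) (F' z a b) z)
    (hD : ∀ z ∈ U, ∀ a b, HasDerivAt (fun w => D w a b) (D' z a b) z)
    (hq : ∀ z ∈ U, q z ≠ 0) (hdet : ∀ z ∈ U, (F z).det ≠ 0)
    (hF' : ∀ z ∈ U, q z • F' z = A z * F z) (hD' : ∀ z ∈ U, q z • D' z = A z * D z) :
    ∀ z ∈ U, ∀ w ∈ U, (F z)⁻¹ * D z = (F w)⁻¹ * D w := by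
  have key : ∀ i j : Fin m, ∀ z ∈ U, HasDerivAt (fun z => ((F z)⁻¹ * D z) i j) 0 z := by
    intro i j z hz
    have hunit : IsUnit (F z).det := isUnit_iff_ne_zero.2 (hdet z hz)
    set G' : Matrix (Fin m) (Fin m) ℂ := Matrix.of fun a b => deriv (fun w => (F w)⁻¹ a b) z
      with hG'
    have hG : ∀ a b, HasDerivAt (fun w => (F w)⁻¹ a b) (G' a b) z := by
      intro a b
      exact (inv_diffAt F z (fun a b => (hF z hz a b).differentiableAt) (hdet z hz) a b).hasDerivAt
    have h1 : G' * F z + (F z)⁻¹ * F' z = 0 := by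
      ext a b
      have h2 := mul_deriv (fun w => (F w)⁻¹) F G' (F' z) z hG (hF z hz) a b
      have h3 : (fun w => ((F w)⁻¹ * F w) a b) =ᶠ[𝓝 z] fun _ => (1 : Matrix (Fin m) (Fin m) ℂ) a b := by
        filter_upwards [hU.mem_nhds hz] with w hw
        rw [Matrix.nonsing_inv_mul _ (isUnit_iff_ne_zero.2 (hdet w hw))]
      have h4 : HasDerivAt (fun w => ((F w)⁻¹ * F w) a b) 0 z :=
        (hasDerivAt_const z ((1 : Matrix (Fin m) (Fin m) ℂ) a b)).congr_of_eventuallyEq h3
      exact h2.unique h4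
    have h5 : G' = -((F z)⁻¹ * F' z * (F z)⁻¹) := by
      have h6 : G' * F z = -((F z)⁻¹ * F' z) := eq_neg_of_add_eq_zero_left h1
      calc G' = G' * F z * (F z)⁻¹ := by rw [Matrix.mul_nonsing_inv_cancel_right _ _ hunit]
        _ = _ := by rw [h6, Matrix.neg_mul]
    have h7 : G' * D z + (F z)⁻¹ * D' z = 0 := by
      have h8 : q z • (G' * D z + (F z)⁻¹ * D' z) = 0 := by
        have h9 : q z • (G' * D z) = -((F z)⁻¹ * (q z • F' z) * ((F z)⁻¹ * D z)) := by
          rw [h5]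
          simp only [Matrix.neg_mul, Matrix.mul_smul, Matrix.smul_mul, smul_neg, Matrix.mul_assoc]
        have h10 : q z • ((F z)⁻¹ * D' z) = (F z)⁻¹ * (q z • D' z) := by
          rw [Matrix.mul_smul]
        rw [smul_add, h9, h10, hF' z hz, hD' z hz]
        have h11 : (F z)⁻¹ * (A z * F z) * ((F z)⁻¹ * D z) = (F z)⁻¹ * (A z * D z) := by
          rw [Matrix.mul_assoc, Matrix.mul_assoc, Matrix.mul_nonsing_inv_cancel_left _ _ hunit]
        rw [h11]
        simp
      exact (smul_eq_zero.1 h8).resolve_left (hq z hz)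
    have h12 := mul_deriv (fun w => (F w)⁻¹) D G' (D' z) z hG (hD z hz) i j
    rw [h7] at h12
    simpa using h12
  intro z hz w hw
  ext i j
  exact hU.is_const_of_deriv_eq_zero hUc (f := fun z => ((F z)⁻¹ * D z) i j)
    (fun z hz => (key i j z hz).differentiableAt.differentiableWithinAt)
    (fun z hz => (key i j z hz).deriv) hz hw

end WF_

open WF_ in
theorem p_WF (h1 : T_DODE) (h2 : T_FODE) (h3 : T_FG) (h4 : T_DBV) (h5 : T_EVCC) : T_WF := by
  intro m h e a C hd
  have hm := hd.two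
  have hnat := natDeg hd.prod
  have hene := e_ne hd.prod hd.sqi.ne
  obtain ⟨r, M0, δ1, hδ1, hbv⟩ := h4 m e hd.mono hene
  have hG : ∀ i l : Fin m, IsG (fS h a i l) := fun i l => h3 h a C hd.sqi i l
  -- eventual properties near zero
  have E1 : ∀ᶠ z in 𝓝 (0 : ℂ), ∀ α l : Fin m, HasDerivAt (fun w => Fv m h a w α l)
      (evC (PowerSeries.derivative ℚ (fS h a α l)) z) z := by
    rw [Filter.eventually_all]
    intro α
    rw [Filter.eventually_all]
    intro l
    obtain ⟨δ, hδ, -, hder, -, -⟩ := h5 _ (hG α l)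
    filter_upwards [Metric.ball_mem_nhds (0 : ℂ) hδ] with z hz
    exact hder z hz
  have E2 : ∀ᶠ z in 𝓝 (0 : ℂ), ∀ α l : Fin m,
      Polynomial.aeval z h * evC (PowerSeries.derivative ℚ (fS h a α l)) z =
      ∑ i : Fin m, Polynomial.aeval z (AA h m α i) * evC (fS h a i l) z := by
    rw [Filter.eventually_all]
    intro α
    rw [Filter.eventually_all]
    intro l
    exact sys h2 h3 h5 hd α l
  have hF0 : Fv m h a 0 = 1 := by
    ext α l
    show evC (fS h a α l) 0 = _
    rw [evC_at_zero]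
    unfold fS
    rw [PowerSeries.coeff_mk]
    by_cases hal : α = l
    · subst hal
      simp [bm, rho]
    · have h6 : ((α : ℕ) : ℤ) ≠ ((l : ℕ) : ℤ) := by
        intro hh
        apply hal
        exact Fin.ext (by exact_mod_cast hh)
      rw [Matrix.one_apply_ne hal]
      simp only [rho, Nat.cast_zero, sub_zero, Nat.cast_nonneg, if_true]
      rw [if_neg h6]
      simp
  have E3 : ∀ᶠ z in 𝓝 (0 : ℂ), (Fv m h a z).det ≠ 0 := by
    have hE : DifferentiableAt ℂ (fun z => (Fv m h a z).det) 0 :=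
      det_diffAt _ 0 (fun α l => (E1.self_of_nhds α l).differentiableAt)
    have hne : (Fv m h a 0).det ≠ 0 := by rw [hF0]; simp
    exact hE.continuousAt.eventually_ne hne
  have E4 : ∀ᶠ z in 𝓝 (0 : ℂ), Polynomial.aeval z h ≠ 0 := by
    have hc : Continuous (fun z : ℂ => Polynomial.aeval z h) := Polynomial.continuous_aeval h
    have hne : Polynomial.aeval (0 : ℂ) h ≠ 0 := by
      have h6 : Polynomial.aeval (0 : ℂ) h = ((h.coeff 0 : ℚ) : ℂ) := by
        rw [Polynomial.aeval_def, Polynomial.eval₂_at_zero]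
        rfl
      rw [h6]
      exact_mod_cast hd.sqi.ne
    exact hc.continuousAt.eventually_ne hne
  obtain ⟨δ2, hδ2, hball⟩ := Metric.eventually_nhds_iff_ball.1 (E1.and (E2.and (E3.and E4)))
  set δ := min δ1 δ2 with hδ
  have hδ0 : 0 < δ := lt_min hδ1 hδ2
  have hb : ∀ z ∈ Metric.ball (0 : ℂ) δ, z ∈ Metric.ball (0 : ℂ) δ2 := fun z hz =>
    Metric.ball_subset_ball (min_le_right _ _) hz
  set U : Set ℂ := Metric.ball (0 : ℂ) δ ∩ {z | 0 < z.im} with hU
  have hHHo : IsOpen {z : ℂ | 0 < z.im} := isOpen_lt continuous_const Complex.continuous_im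
  have hUo : IsOpen U := Metric.isOpen_ball.inter hHHo
  have hUc : IsPreconnected U :=
    ((convex_ball _ _).inter (convex_halfSpace_im_gt 0)).isPreconnected
  -- the constant matrix
  have hconst := const_mat U hUo hUc (Fv m h a) (Dm e)
    (fun z => Matrix.of fun α l => evC (PowerSeries.derivative ℚ (fS h a α l)) z)
    (fun z => Matrix.of fun α i => (∑ l : Fin m, Polynomial.aeval z (AA h m α l) *
      DD e l i z) / Polynomial.aeval z h)
    (fun z => Matrix.of fun α i => Polynomial.aeval z (AA h m α i))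
    (fun z => Polynomial.aeval z h)
    (fun z hz α l => (hball z (hb z hz.1)).1 α l)
    (fun z hz α i => h1 m h e hd.mono hm hd.prod i α z hz.2)
    (fun z hz => (hball z (hb z hz.1)).2.2.2)
    (fun z hz => (hball z (hb z hz.1)).2.2.1)
    (by
      intro z hz
      ext α l
      rw [Matrix.smul_apply, Matrix.of_apply, Matrix.mul_apply, smul_eq_mul]
      exact (hball z (hb z hz.1)).2.1 α l)
    (by
      intro z hz
      ext α i
      rw [Matrix.smul_apply, Matrix.of_apply, Matrix.mul_apply, smul_eq_mul,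
        mul_div_cancel₀ _ (hball z (hb z hz.1)).2.2.2]
      rfl)
  set z1 : ℂ := ((δ / 2 : ℝ) : ℂ) * Complex.I with hz1
  have hz1U : z1 ∈ U := by
    refine ⟨?_, ?_⟩
    · rw [mem_ball_zero_iff, hz1, norm_mul, Complex.norm_I, mul_one, Complex.norm_real,
        Real.norm_eq_abs, abs_of_pos (by positivity)]
      linarith
    · show 0 < z1.im
      rw [hz1]
      simp
      exact hδ0
  set C0 : Matrix (Fin m) (Fin m) ℂ := (Fv m h a z1)⁻¹ * Dm e z1 with hC0
  have hD : ∀ z ∈ Metric.ball (0 : ℂ) δ, 0 < z.im → Dm e z = Fv m h a z * C0 := by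
    intro z hz him
    have hzU : z ∈ U := ⟨hz, him⟩
    rw [hC0, ← hconst z hzU z1 hz1U, Matrix.mul_nonsing_inv_cancel_left _ _
      (isUnit_iff_ne_zero.2 (hball z (hb z hz)).2.2.1)]
  have hdiff : ∀ α l : Fin m, DifferentiableOn ℂ (fun z => Fv m h a z α l)
      (Metric.ball 0 δ) := fun α l z hz =>
    ((hball z (hb z hz)).1 α l).differentiableAt.differentiableWithinAt
  -- the boundary values
  have hPm : ∀ x : ℝ, |x| < δ → Pm (Fin.insertNth (α := fun _ => ℝ) r x e) =
      Fv m h a x * (C0 * M0) := by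
    intro x hx
    have hx1 : |x| < δ1 := lt_of_lt_of_le hx (min_le_left _ _)
    have hxb : (x : ℂ) ∈ Metric.ball (0 : ℂ) δ := by
      rw [mem_ball_zero_iff, Complex.norm_real, Real.norm_eq_abs]; exact hx
    ext α j
    have ht1 := (hbv x hx1).2 α j
    have hpath : Filter.Tendsto (fun y : ℝ => (x : ℂ) + (y : ℂ) * Complex.I) (𝓝[>] (0 : ℝ))
        (𝓝 (x : ℂ)) := by
      have : Filter.Tendsto (fun y : ℝ => (x : ℂ) + (y : ℂ) * Complex.I) (𝓝 (0 : ℝ))
          (𝓝 ((x : ℂ) + ((0 : ℝ) : ℂ) * Complex.I)) := by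
        apply Continuous.tendsto
        fun_prop
      simpa using this.mono_left nhdsWithin_le_nhds
    have ht2 : Filter.Tendsto (fun y : ℝ => (Fv m h a ((x : ℂ) + (y : ℂ) * Complex.I) *
        (C0 * M0)) α j) (𝓝[>] (0 : ℝ)) (𝓝 ((Fv m h a x * (C0 * M0)) α j)) := by
      simp only [Matrix.mul_apply (M := Fv m h a _)]
      apply tendsto_finsetSum
      intro l _
      apply Filter.Tendsto.mul_const
      have hc : ContinuousAt (fun z => Fv m h a z α l) (x : ℂ) :=
        ((hball x (hb x hxb)).1 α l).continuousAt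
      exact hc.tendsto.comp hpath
    have heq : ∀ᶠ y : ℝ in 𝓝[>] (0 : ℝ), (∑ i, DD e α i ((x : ℂ) + (y : ℂ) * Complex.I) * M0 i j) =
        (Fv m h a ((x : ℂ) + (y : ℂ) * Complex.I) * (C0 * M0)) α j := by
      have hev2 : ∀ᶠ y : ℝ in 𝓝[>] (0 : ℝ), 0 < y := self_mem_nhdsWithin
      filter_upwards [hpath.eventually (Metric.isOpen_ball.mem_nhds hxb), hev2] with y hy1 hy2
      have him : 0 < ((x : ℂ) + (y : ℂ) * Complex.I).im := by simpa using hy2
      rw [← Matrix.mul_assoc, ← hD _ hy1 him, Matrix.mul_apply]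
      rfl
    have ht3 := ht1.congr' heq
    exact tendsto_nhds_unique ht3 ht2
  have hP0 : Pm (Fin.insertNth (α := fun _ => ℝ) r 0 e) = C0 * M0 := by
    rw [hPm 0 (by simpa using hδ0)]
    have : ((0 : ℝ) : ℂ) = 0 := by simp
    rw [this, hF0, Matrix.one_mul]
  refine ⟨r, C0, M0, δ, hδ0, hdiff, hP0, hD, ?_⟩
  intro x hx
  refine ⟨(hbv x (lt_of_lt_of_le hx (min_le_left _ _))).1, ?_⟩
  rw [hP0]
  exact hPm x hx

end Pool.Agent.HEP
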