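import Pool.Agent.HEP.SQI
import Pool.Agent.HEP.RED
import Pool.Agent.HEP.KIL
import Pool.Agent.HEP.RB
import Pool.Agent.HEP.FG
import Pool.Agent.HEP.ALGID
import Pool.Agent.HEP.FODE
import Pool.Agent.HEP.PID
import Pool.Agent.HEP.INTB
import Pool.Agent.HEP.RIN
import Pool.Agent.HEP.RLIM
import Pool.Agent.HEP.RNA
import Pool.Agent.HEP.RAD
import Pool.Agent.HEP.SQP
import Pool.Agent.HEP.PAR
import Pool.Agent.HEP.IDT
import Pool.Agent.HEP.BETA
import Pool.Agent.HEP.DAN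
import Pool.Agent.HEP.UINT
import Pool.Agent.HEP.DU
import Pool.Agent.HEP.UODE
import Pool.Agent.HEP.J
import Pool.Agent.HEP.LOCF
import Pool.Agent.HEP.BI
import Pool.Agent.HEP.LOCX
import Pool.Agent.HEP.LOGT
import Pool.Agent.HEP.DODE
import Pool.Agent.HEP.DBV
import Pool.Agent.HEP.EVCC
import Pool.Agent.HEP.WF
import Pool.Agent.HEP.BIL
import Pool.Agent.HEP.CHD
import Pool.Agent.HEP.GRM
import Pool.Agent.HEP.INV
import Pool.Agent.HEP.DER
import Pool.Agent.HEP.LIE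
import Pool.Agent.HEP.TAY
import Pool.Agent.HEP.SPG
import Pool.Agent.HEP.ORB
import Pool.Agent.HEP.FUN
import Pool.Agent.HEP.UNI
import Pool.Agent.HEP.FINH
import Pool.Agent.HEP.REL
import Pool.Agent.GFam.All2

/-!
# Assembly: relations of bounded degree between periods of hyperelliptic curves
-/

set_option autoImplicit false

namespace Pool.Agent.HEP

theorem a_RIN : T_RIN := p_RIN p_INTB

theorem a_RNA : T_RNA := p_RNA p_PID p_INTB a_RIN

theorem a_RAD : T_RAD := p_RAD p_PID p_INTB a_RIN p_RLIM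

theorem a_KIL : T_KIL := p_KIL p_RED

theorem a_FG : T_FG := p_FG p_RB

theorem a_FODE : T_FODE := p_FODE a_KIL p_ALGID

theorem a_DAN : T_DAN := p_DAN p_SQP p_PAR p_BETA

theorem a_UINT : T_UINT := p_UINT p_SQP p_INTB

theorem a_DU : T_DU := p_DU p_SQP a_UINT

theorem a_UODE : T_UODE := p_UODE p_SQP a_UINT p_ALGID p_PAR

theorem a_J : T_J := p_J p_SQP

theorem a_LOCF : T_LOCF := p_LOCF a_J p_SQP p_BETA p_PAR

theorem a_BI : T_BI := p_BI p_SQP

theorem a_LOCX : T_LOCX := p_LOCX p_SQP a_UINT a_DU a_LOCF a_BI p_PAR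

theorem a_DODE : T_DODE := p_DODE a_DAN a_DU a_UODE a_LOCX p_LOGT p_IDT

theorem a_DBV : T_DBV := p_DBV p_SQP a_DU a_UINT p_INTB

theorem a_WF : T_WF := p_WF a_DODE a_FODE a_FG a_DBV p_EVCC

theorem a_BIL : T_BIL := p_BIL a_RNA a_RAD

theorem a_GRM : T_GRM := p_GRM a_WF a_BIL p_CHD a_LOCX a_DAN p_LOGT p_IDT

theorem a_INV : T_INV := p_INV a_LOCX p_LOGT a_DAN p_IDT

theorem a_ORB : T_ORB := p_ORB a_GRM a_INV p_DER p_LIE p_TAY p_SPG

theorem a_FUN : T_FUN :=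
  p_FUN a_ORB a_GRM a_WF a_BIL p_CHD p_EVCC a_FG a_DAN p_IDT

theorem a_FINH : T_FINH :=
  p_FINH a_FUN p_UNI p_SQI a_FG a_FODE p_ALGID GFam.gfin

theorem riemannRelations {g : ℕ} (b : Fin (2 * g + 1) → ℝ) (hb : StrictMono b) :
    Riem (m := 2 * g) (∏ i, (Polynomial.X - Polynomial.C (b i : ℂ)))
      (Matrix.of fun a j => (per b a j : ℂ)) :=
  riemannRel a_RNA a_RAD b hb

end Pool.Agent.HEP
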