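import Pool.Agent.HEP.Targets

set_option autoImplicit false

/-!
# `DD e α i` is holomorphic on the upper half plane (job HEP-DAN)
-/

namespace Pool.Agent.HEP

open Finset Pool.Agent.LEG
open scoped BigOperators Topology

namespace DAN_

/-- the argument of the square roots -/
noncomputable def arg {m : ℕ} (e : Fin m → ℝ) (i k : Fin m) (s : ℝ) (z : ℂ) : ℂ :=
  (e i : ℂ) - e k + s * (z - e i)

/-- the integrand -/
noncomputable def ff {m : ℕ} (e : Fin m → ℝ) (α : ℕ) (i : Fin m) (s : ℝ) (z : ℂ) : ℂ :=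
  ((e i : ℂ) + s * (z - e i)) ^ α / ((Real.sqrt (s * (1 - s)) : ℂ) *
    ∏ k ∈ univ.erase i, sq ((e i : ℂ) - e k + s * (z - e i)))

lemma arg_im {m : ℕ} (e : Fin m → ℝ) (i k : Fin m) (s : ℝ) (z : ℂ) :
    (arg e i k s z).im = s * z.im := by
  simp [arg]

lemma arg_slit {m : ℕ} (e : Fin m → ℝ) (i k : Fin m) (s : ℝ) (z : ℂ) (hs : 0 < s)
    (hz : 0 < z.im) : arg e i k s z ∈ Complex.slitPlane := by
  right
  rw [arg_im]
  exact (mul_pos hs hz).ne'

lemma arg_ne {m : ℕ} (e : Fin m → ℝ) (he : StrictMono e) (i k : Fin m) (hik : k ≠ i) (s : ℝ)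
    (z : ℂ) (hs : 0 ≤ s) (hz : 0 < z.im) : arg e i k s z ≠ 0 := by
  rcases hs.eq_or_lt with h | h
  · rw [← h]
    intro h0
    have h1 : ((e i - e k : ℝ) : ℂ) = 0 := by
      have : arg e i k 0 z = ((e i - e k : ℝ) : ℂ) := by
        simp [arg]
      rw [← this]
      exact h0
    have h2 : e i - e k = 0 := by exact_mod_cast h1
    exact hik (he.injective (by linarith)).symm
  · exact Complex.slitPlane_ne_zero (arg_slit e i k s z h hz)

lemma arg_cont {m : ℕ} (e : Fin m → ℝ) (i k : Fin m) :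
    Continuous fun p : ℝ × ℂ => arg e i k p.1 p.2 := by
  unfold arg
  fun_prop

lemma sq_meas : Measurable sq := by
  unfold sq
  exact measurable_id.pow_const _

lemma ff_meas {m : ℕ} (e : Fin m → ℝ) (α : ℕ) (i : Fin m) (z : ℂ) :
    Measurable fun s => ff e α i s z := by
  unfold ff
  have h1 : Measurable fun s : ℝ => ((e i : ℂ) + s * (z - e i)) ^ α := by
    fun_prop
  have h2 : Measurable fun s : ℝ => (Real.sqrt (s * (1 - s)) : ℂ) := by
    fun_prop
  have h3 : Measurable fun s : ℝ => ∏ k ∈ univ.erase i, sq ((e i : ℂ) - e k + s * (z - e i)) := by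
    refine Finset.measurable_prod _ fun k _ => ?_
    exact sq_meas.comp (by fun_prop)
  exact h1.div (h2.mul h3)

lemma bound (hsq : ∀ w : ℂ, ‖sq w‖ = Real.sqrt ‖w‖) {m : ℕ} (e : Fin m → ℝ)
    (he : StrictMono e) (α : ℕ) (i : Fin m) (z0 : ℂ) (hz0 : 0 < z0.im) :
    ∃ A : ℝ, ∀ z ∈ Metric.closedBall z0 (z0.im / 2), ∀ s ∈ Set.Icc (0 : ℝ) 1,
      ‖ff e α i s z‖ ≤ A * (s ^ 0 / Real.sqrt (s * (1 - s))) := by
  have him : ∀ z ∈ Metric.closedBall z0 (z0.im / 2), 0 < z.im := by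
    intro z hz
    rw [Metric.mem_closedBall, dist_eq_norm] at hz
    have h1 := Complex.abs_im_le_norm (z - z0)
    rw [Complex.sub_im] at h1
    have h2 := abs_le.1 (h1.trans hz)
    linarith [h2.1]
  have hK : IsCompact ((Set.Icc (0 : ℝ) 1) ×ˢ (Metric.closedBall z0 (z0.im / 2))) :=
    isCompact_Icc.prod (isCompact_closedBall _ _)
  have hne : ((Set.Icc (0 : ℝ) 1) ×ˢ (Metric.closedBall z0 (z0.im / 2))).Nonempty :=
    ⟨(0, z0), ⟨by simp, by simp; linarith⟩⟩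
  -- lower bound for the product
  have hg : Continuous fun p : ℝ × ℂ => ∏ k ∈ univ.erase i, ‖arg e i k p.1 p.2‖ :=
    continuous_finsetProd _ fun k _ => (arg_cont e i k).norm
  obtain ⟨p0, hp0, hmin⟩ := hK.exists_isMinOn hne hg.continuousOn
  set c : ℝ := ∏ k ∈ univ.erase i, ‖arg e i k p0.1 p0.2‖ with hc
  have hcpos : 0 < c := by
    rw [hc]
    refine Finset.prod_pos fun k hk => ?_
    exact norm_pos_iff.2 (arg_ne e he i k (Finset.ne_of_mem_erase hk) _ _ hp0.1.1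
      (him _ hp0.2))
  -- upper bound for the numerator
  have hn : Continuous fun p : ℝ × ℂ => ‖((e i : ℂ) + p.1 * (p.2 - e i)) ^ α‖ := by
    fun_prop
  obtain ⟨p1, hp1, hmax⟩ := hK.exists_isMaxOn hne hn.continuousOn
  set B : ℝ := ‖((e i : ℂ) + p1.1 * (p1.2 - e i)) ^ α‖ with hB
  refine ⟨B / Real.sqrt c, ?_⟩
  intro z hz s hs
  have h1 : ‖((e i : ℂ) + s * (z - e i)) ^ α‖ ≤ B := by
    have := hmax (show ((s, z) : ℝ × ℂ) ∈ (Set.Icc (0 : ℝ) 1) ×ˢ
      (Metric.closedBall z0 (z0.im / 2)) from ⟨hs, hz⟩)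
    exact this
  have h2 : c ≤ ∏ k ∈ univ.erase i, ‖arg e i k s z‖ := by
    have := hmin (show ((s, z) : ℝ × ℂ) ∈ (Set.Icc (0 : ℝ) 1) ×ˢ
      (Metric.closedBall z0 (z0.im / 2)) from ⟨hs, hz⟩)
    exact this
  have h3 : ‖∏ k ∈ univ.erase i, sq ((e i : ℂ) - e k + s * (z - e i))‖ =
      Real.sqrt (∏ k ∈ univ.erase i, ‖arg e i k s z‖) := by
    rw [norm_prod, Real.sqrt_prod]
    · refine Finset.prod_congr rfl fun k _ => ?_
      rw [hsq]
      rfl
    · intro k _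
      exact norm_nonneg _
  have h4 : Real.sqrt c ≤ Real.sqrt (∏ k ∈ univ.erase i, ‖arg e i k s z‖) :=
    Real.sqrt_le_sqrt h2
  have hsc : 0 < Real.sqrt c := Real.sqrt_pos.2 hcpos
  have hS : 0 ≤ Real.sqrt (s * (1 - s)) := Real.sqrt_nonneg _
  have hB0 : 0 ≤ B := norm_nonneg _
  unfold ff
  rw [norm_div, norm_mul, h3, Complex.norm_real, Real.norm_of_nonneg hS, pow_zero]
  rcases hS.eq_or_lt with h0 | h0
  · rw [← h0]
    simp
  · have e1 : B / Real.sqrt c * (1 / Real.sqrt (s * (1 - s))) =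
        B / (Real.sqrt (s * (1 - s)) * Real.sqrt c) := by
      field_simp
    rw [e1]
    exact div_le_div₀ hB0 h1 (mul_pos h0 hsc) (mul_le_mul_of_nonneg_left h4 h0.le)

lemma ff_diff (hd : ∀ w ∈ Complex.slitPlane, DifferentiableAt ℂ sq w)
    (hnz : ∀ w : ℂ, w ≠ 0 → sq w ≠ 0) {m : ℕ} (e : Fin m → ℝ)
    (he : StrictMono e) (α : ℕ) (i : Fin m) (s : ℝ) (hs : s ∈ Set.Ioo (0 : ℝ) 1) (z : ℂ)
    (hz : 0 < z.im) : DifferentiableAt ℂ (ff e α i s) z := by
  unfold ff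
  have h1 : DifferentiableAt ℂ (fun z : ℂ => ((e i : ℂ) + s * (z - e i)) ^ α) z := by
    fun_prop
  have h2 : DifferentiableAt ℂ (fun z : ℂ =>
      ∏ k ∈ univ.erase i, sq ((e i : ℂ) - e k + s * (z - e i))) z := by
    refine DifferentiableAt.fun_finsetProd fun k _ => ?_
    have h3 : DifferentiableAt ℂ (fun z : ℂ => (e i : ℂ) - e k + s * (z - e i)) z := by
      fun_prop
    exact DifferentiableAt.comp (g := sq) z (hd _ (arg_slit e i k s z hs.1 hz)) h3
  have h4 : (Real.sqrt (s * (1 - s)) : ℂ) ≠ 0 := by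
    have : 0 < Real.sqrt (s * (1 - s)) :=
      Real.sqrt_pos.2 (mul_pos hs.1 (sub_pos.2 hs.2))
    exact_mod_cast this.ne'
  refine h1.div (h2.const_mul _) (mul_ne_zero h4 ?_)
  refine Finset.prod_ne_zero_iff.2 fun k hk => hnz _ ?_
  exact arg_ne e he i k (Finset.ne_of_mem_erase hk) s z hs.1.le hz

end DAN_

open DAN_ in
theorem p_DAN (h1 : T_SQP) (h2 : T_PAR) (h3 : T_BETA) : T_DAN := by
  intro m e α i he z0 hz0
  obtain ⟨-, hsd, -, -, -, hsn, -, -, hnz⟩ := h1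
  have hz0' : 0 < z0.im := hz0
  obtain ⟨A, hA⟩ := bound hsn e he α i z0 hz0'
  have hU : Metric.ball z0 (z0.im / 2) ⊆ HH := by
    intro z hz
    rw [Metric.mem_ball, dist_eq_norm] at hz
    have h1 := Complex.abs_im_le_norm (z - z0)
    rw [Complex.sub_im] at h1
    have h2 := abs_le.1 (h1.trans hz.le)
    change 0 < z.im
    linarith [h2.1]
  have hmem : z0 ∈ Metric.ball z0 (z0.im / 2) := Metric.mem_ball_self (by linarith)
  have key := h2 (Metric.ball z0 (z0.im / 2)) (ff e α i)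
    (fun s => A * (s ^ 0 / Real.sqrt (s * (1 - s)))) 0 1 Metric.isOpen_ball zero_le_one
    ((h3 0).1.const_mul A)
    (fun z _ => (ff_meas e α i z).aestronglyMeasurable)
    (fun s hs z hz => (ff_diff (fun w hw => (hsd w hw).1.differentiableAt) hnz e he α i s hs z
      (hU hz)).differentiableWithinAt)
    (fun z hz => by
      obtain ⟨δ, hδ, hsub⟩ := Metric.isOpen_iff.1 Metric.isOpen_ball z hz
      exact ⟨δ, hδ, fun w hw s hs => hA w (Metric.ball_subset_closedBall (hsub hw)) s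
        ⟨hs.1.le, hs.2.le⟩⟩)
    z0 hmem
  exact key.2.2.differentiableAt.differentiableWithinAt

end Pool.Agent.HEP
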