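import Pool.Agent.HEP.Targets

set_option autoImplicit false

/-!
# The Lie algebra generated by the matrices `e_i e_iᵀ G` (MP_5d33ca_ag)
-/

namespace Pool.Agent.HEP

open Finset Matrix

namespace LIE_

variable {m : ℕ}

/-- symmetrised elementary matrix times `G` -/
noncomputable def ww (G : Matrix (Fin m) (Fin m) ℂ) (i j : Fin m) : Matrix (Fin m) (Fin m) ℂ :=
  (Matrix.single i j 1 + Matrix.single j i 1) * G

theorem vecMulVec_single (i : Fin m) :
    Matrix.vecMulVec (Pi.single i (1 : ℂ)) (Pi.single i 1) = Matrix.single i i (1 : ℂ) := by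
  ext a b
  simp only [Matrix.vecMulVec_apply, Matrix.single_apply, Pi.single_apply]
  by_cases h1 : a = i
  · by_cases h2 : b = i
    · simp [h1, h2]
    · simp [h1, h2, Ne.symm h2]
  · simp [h1, Ne.symm h1]

theorem bracket (G : Matrix (Fin m) (Fin m) ℂ) (hG : G.transpose = -G) (i j : Fin m) :
    vv G (Pi.single i 1) * vv G (Pi.single j 1) - vv G (Pi.single j 1) * vv G (Pi.single i 1) =
      G i j • ww G i j := by
  have hji : G j i = -G i j := by
    have := congrFun (congrFun hG i) j
    simpa [Matrix.transpose_apply] using this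
  have h1 : ∀ a b : Fin m, Matrix.single a a (1 : ℂ) * G * (Matrix.single b b (1 : ℂ) * G) =
      G a b • (Matrix.single a b (1 : ℂ) * G) := by
    intro a b
    have : Matrix.single a a (1 : ℂ) * G * Matrix.single b b (1 : ℂ) =
        G a b • Matrix.single a b (1 : ℂ) := by
      rw [Matrix.single_mul_mul_single]
      simp [Matrix.smul_single]
    rw [← Matrix.mul_assoc, this, Matrix.smul_mul]
  unfold vv ww
  rw [vecMulVec_single, vecMulVec_single, h1, h1, hji, Matrix.add_mul]
  simp only [smul_add, neg_smul]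
  abel

theorem sum_eq (G : Matrix (Fin m) (Fin m) ℂ) (v : Fin m → ℂ) :
    vv G v = ∑ i, ∑ j, (v i * v j / 2) • ww G i j := by
  have key : Matrix.vecMulVec v v =
      ∑ i, ∑ j, (v i * v j / 2) • (Matrix.single i j (1 : ℂ) + Matrix.single j i 1) := by
    have hs : ∑ i, ∑ j, (v i * v j / 2) • Matrix.single j i (1 : ℂ) =
        ∑ i, ∑ j, (v i * v j / 2) • Matrix.single i j (1 : ℂ) := by
      rw [Finset.sum_comm]
      refine Finset.sum_congr rfl fun i _ => Finset.sum_congr rfl fun j _ => ?_
      rw [mul_comm (v j) (v i)]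
    have h2 : ∑ i, ∑ j, (v i * v j / 2) • (Matrix.single i j (1 : ℂ) + Matrix.single j i 1) =
        ∑ i, ∑ j, (v i * v j) • Matrix.single i j (1 : ℂ) := by
      simp only [smul_add, Finset.sum_add_distrib]
      rw [hs, ← Finset.sum_add_distrib]
      refine Finset.sum_congr rfl fun i _ => ?_
      rw [← Finset.sum_add_distrib]
      refine Finset.sum_congr rfl fun j _ => ?_
      rw [← add_smul]
      congr 1
      ring
    rw [h2]
    conv_lhs => rw [Matrix.matrix_eq_sum_single (Matrix.vecMulVec v v)]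
    refine Finset.sum_congr rfl fun i _ => Finset.sum_congr rfl fun j _ => ?_
    rw [Matrix.smul_single, Matrix.vecMulVec_apply, smul_eq_mul, mul_one]
  unfold vv ww
  rw [key, Finset.sum_mul]
  refine Finset.sum_congr rfl fun i _ => ?_
  rw [Finset.sum_mul]
  refine Finset.sum_congr rfl fun j _ => ?_
  rw [Matrix.smul_mul]

theorem sum_mem (S : Set (Matrix (Fin m) (Fin m) ℂ)) (h0 : (0 : Matrix (Fin m) (Fin m) ℂ) ∈ S)
    (hadd : ∀ A ∈ S, ∀ B ∈ S, A + B ∈ S) (f : Fin m → Matrix (Fin m) (Fin m) ℂ)
    (hf : ∀ i, f i ∈ S) (s : Finset (Fin m)) : ∑ i ∈ s, f i ∈ S := by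
  classical
  induction s using Finset.induction_on with
  | empty => simpa using h0
  | insert a s ha ih =>
    rw [Finset.sum_insert ha]
    exact hadd _ (hf a) _ ih

end LIE_

open LIE_ in
/-- the Lie algebra generated by the `e_i e_iᵀ G` -/
theorem p_LIE : T_LIE := by
  intro m G S hm hG hne hcl hsm hV v
  have h0 : (0 : Matrix (Fin m) (Fin m) ℂ) ∈ S := by
    have := hsm _ (hV ⟨0, hm⟩) 0
    simpa using this
  have hww : ∀ i j, ww G i j ∈ S := by
    intro i j
    by_cases hij : i = j
    · subst hij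
      have h1 := hsm _ (hV i) 2
      have h2 : ww G i i = (2 : ℂ) • vv G (Pi.single i 1) := by
        unfold ww vv
        rw [vecMulVec_single, ← Matrix.smul_mul]
        congr 1
        rw [two_smul]
      rw [h2]
      exact h1
    · have h1 := (hcl _ (hV i) _ (hV j)).2
      rw [bracket G hG i j] at h1
      have h2 := hsm _ h1 (G i j)⁻¹
      rwa [smul_smul, inv_mul_cancel₀ (hne i j hij), one_smul] at h2
  rw [sum_eq G v]
  refine sum_mem S h0 (fun A hA B hB => (hcl A hA B hB).1) _ (fun i => ?_) _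
  exact sum_mem S h0 (fun A hA B hB => (hcl A hA B hB).1) _ (fun j => hsm _ (hww i j) _) _

end Pool.Agent.HEP
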