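import Pool.Agent.HEP.Targets

set_option autoImplicit false
set_option maxHeartbeats 1000000

/-!
# HEP, target SQI: integrality and size of the coefficients of `(h / h 0) ^ (-1 / 2)`
-/

namespace Pool.Agent.HEP

open Finset Pool.Agent.LEG
open scoped BigOperators Topology

namespace SQI_

/-- the solution of `Y + Y ^ 2 = w` -/
noncomputable def Yf (w : ℕ → ℤ) : ℕ → ℤ
  | n => if n = 0 then 0 else
      w n - ∑ i : Fin n, if h : 0 < (i : ℕ) then Yf w i * Yf w (n - i) else 0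
termination_by n => n
decreasing_by
  · exact i.2
  · have := i.2
    omega

theorem Yf_zero (w : ℕ → ℤ) : Yf w 0 = 0 := by
  rw [Yf]
  simp

theorem Yf_sq (w : ℕ → ℤ) (hw : w 0 = 0) :
    PowerSeries.mk (Yf w) + PowerSeries.mk (Yf w) ^ 2 = PowerSeries.mk w := by
  ext n
  rw [map_add, PowerSeries.coeff_mk, PowerSeries.coeff_mk, pow_two, PowerSeries.coeff_mul]
  simp only [PowerSeries.coeff_mk]
  rcases Nat.eq_zero_or_pos n with h0 | hn
  · subst h0
    simp [Yf_zero, hw]
  · have h1 : Yf w n = w n - ∑ i : Fin n, if h : 0 < (i : ℕ) then Yf w i * Yf w (n - i)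
        else 0 := by
      conv_lhs => rw [Yf]
      rw [if_neg (by omega)]
    have h2 : (∑ i : Fin n, if h : 0 < (i : ℕ) then Yf w i * Yf w (n - i) else 0) =
        ∑ p ∈ antidiagonal n, Yf w p.1 * Yf w p.2 := by
      rw [Finset.Nat.sum_antidiagonal_eq_sum_range_succ (fun i j => Yf w i * Yf w j) n,
        Finset.sum_range_succ, Nat.sub_self, Yf_zero, mul_zero, add_zero]
      rw [Fin.sum_univ_eq_sum_range
        (fun i => if h : 0 < i then Yf w i * Yf w (n - i) else 0) n]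
      refine Finset.sum_congr rfl fun i _ => ?_
      rcases Nat.eq_zero_or_pos i with hi | hi
      · subst hi
        simp [Yf_zero]
      · rw [dif_pos hi]
    rw [h1, h2]
    ring

theorem exists_M (h : Polynomial ℚ) : ∃ M : ℕ, 1 ≤ M ∧ ∀ n, ∃ z : ℤ,
    (M : ℚ) * (h.coeff n / h.coeff 0) = z := by
  refine ⟨∏ n ∈ h.support, (h.coeff n / h.coeff 0).den, ?_, fun n => ?_⟩
  · exact Nat.one_le_iff_ne_zero.mpr (Finset.prod_ne_zero_iff.mpr fun n _ => Rat.den_ne_zero _)
  · by_cases hn : n ∈ h.support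
    · obtain ⟨c, hc⟩ := Finset.dvd_prod_of_mem (fun n => (h.coeff n / h.coeff 0).den) hn
      refine ⟨(c : ℤ) * (h.coeff n / h.coeff 0).num, ?_⟩
      rw [hc]
      have h1 : ((h.coeff n / h.coeff 0).den : ℚ) * (h.coeff n / h.coeff 0) =
          (h.coeff n / h.coeff 0).num := Rat.den_mul_eq_num _
      push_cast
      rw [mul_comm ((h.coeff n / h.coeff 0).den : ℚ) (c : ℚ), mul_assoc, h1]
    · rw [Polynomial.notMem_support_iff] at hn
      exact ⟨0, by simp [hn]⟩

theorem exists_c (h : Polynomial ℚ) : ∃ c : ℕ, ∀ n, |h.coeff n / h.coeff 0| ≤ (c : ℚ) := by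
  refine ⟨∑ n ∈ h.support, ⌈|h.coeff n / h.coeff 0|⌉₊, fun n => ?_⟩
  by_cases hn : n ∈ h.support
  · refine (Nat.le_ceil _).trans ?_
    exact_mod_cast Finset.single_le_sum
      (f := fun n => ⌈|h.coeff n / h.coeff 0|⌉₊) (fun _ _ => Nat.zero_le _) hn
  · rw [Polynomial.notMem_support_iff] at hn
    rw [hn]
    simp only [zero_div, abs_zero]
    exact Nat.cast_nonneg _

/-- the recursion -/
theorem recur (h : Polynomial ℚ) (a : ℕ → ℚ) (ha0 : a 0 = 1)
    (hsq : (PowerSeries.mk a) ^ 2 * (h : PowerSeries ℚ) = PowerSeries.C (h.coeff 0)) (k : ℕ) :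
    2 * ((k : ℚ) + 1) * a (k + 1) * h.coeff 0 +
      ∑ p ∈ antidiagonal k, ((p.2 : ℚ) + 1 + 2 * p.1) * a p.1 * h.coeff (p.2 + 1) = 0 := by
  have hA : PowerSeries.mk a ≠ 0 := by
    intro h1
    have h2 := congrArg (PowerSeries.coeff 0) h1
    rw [PowerSeries.coeff_mk, ha0] at h2
    simp at h2
  have h3 : PowerSeries.derivative ℚ ((PowerSeries.mk a) ^ 2 * (h : PowerSeries ℚ)) = 0 := by
    rw [hsq]
    exact PowerSeries.derivative_C
  have h4 : PowerSeries.mk a * (PowerSeries.mk a * PowerSeries.derivative ℚ (h : PowerSeries ℚ) +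
      2 * PowerSeries.derivative ℚ (PowerSeries.mk a) * (h : PowerSeries ℚ)) = 0 := by
    rw [← h3, Derivation.leibniz, Derivation.leibniz_pow]
    simp only [smul_eq_mul, nsmul_eq_mul]
    push_cast
    ring
  have h5 := (mul_eq_zero.mp h4).resolve_left hA
  have h6 := congrArg (PowerSeries.coeff k) h5
  rw [map_add, map_zero, PowerSeries.coeff_mul] at h6
  have h7 : PowerSeries.coeff k (2 * PowerSeries.derivative ℚ (PowerSeries.mk a) *
      (h : PowerSeries ℚ)) = 2 * ∑ p ∈ antidiagonal k, (a (p.1 + 1) * ((p.1 : ℚ) + 1)) *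
        h.coeff p.2 := by
    rw [mul_assoc]
    have h8 : (2 : PowerSeries ℚ) = PowerSeries.C (2 : ℚ) := (map_ofNat PowerSeries.C 2).symm
    rw [h8, PowerSeries.coeff_C_mul, PowerSeries.coeff_mul]
    congr 1
    refine Finset.sum_congr rfl fun p _ => ?_
    rw [PowerSeries.coeff_derivative, PowerSeries.coeff_mk, Polynomial.coeff_coe]
  rw [h7] at h6
  have h9 : ∑ p ∈ antidiagonal k, PowerSeries.coeff p.1 (PowerSeries.mk a) *
      PowerSeries.coeff p.2 (PowerSeries.derivative ℚ (h : PowerSeries ℚ)) =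
      ∑ p ∈ antidiagonal (k + 1), a p.1 * h.coeff p.2 * (p.2 : ℚ) := by
    rw [Finset.Nat.sum_antidiagonal_succ']
    simp only [Nat.cast_zero, mul_zero, zero_add]
    refine Finset.sum_congr rfl fun p _ => ?_
    rw [PowerSeries.coeff_derivative, PowerSeries.coeff_mk, Polynomial.coeff_coe]
    push_cast
    ring
  have h10 : 2 * ∑ p ∈ antidiagonal k, (a (p.1 + 1) * ((p.1 : ℚ) + 1)) * h.coeff p.2 =
      ∑ p ∈ antidiagonal (k + 1), 2 * (a p.1 * (p.1 : ℚ)) * h.coeff p.2 := by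
    rw [Finset.Nat.sum_antidiagonal_succ]
    simp only [Nat.cast_zero, mul_zero, zero_mul, zero_add]
    rw [Finset.mul_sum]
    refine Finset.sum_congr rfl fun p _ => ?_
    push_cast
    ring
  rw [h9, h10, ← Finset.sum_add_distrib, Finset.Nat.sum_antidiagonal_succ'] at h6
  rw [← h6]
  congr 1
  · push_cast
    ring
  · refine Finset.sum_congr rfl fun p _ => ?_
    push_cast
    ring

theorem size (h : Polynomial ℚ) (hh : h.coeff 0 ≠ 0) (a : ℕ → ℚ) (ha0 : a 0 = 1)
    (hsq : (PowerSeries.mk a) ^ 2 * (h : PowerSeries ℚ) = PowerSeries.C (h.coeff 0)) (c : ℕ)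
    (hc : ∀ n, |h.coeff n / h.coeff 0| ≤ (c : ℚ)) (n : ℕ) : |a n| ≤ ((c : ℚ) + 1) ^ n := by
  induction n using Nat.strong_induction_on with
  | _ n ih =>
    rcases n with _ | k
    · simp [ha0]
    · have h1 := recur h a ha0 hsq k
      have h2 : 2 * ((k : ℚ) + 1) * a (k + 1) =
          -∑ p ∈ antidiagonal k, ((p.2 : ℚ) + 1 + 2 * p.1) * a p.1 *
            (h.coeff (p.2 + 1) / h.coeff 0) := by
        have h3 : ∑ p ∈ antidiagonal k, ((p.2 : ℚ) + 1 + 2 * p.1) * a p.1 *
            (h.coeff (p.2 + 1) / h.coeff 0) = (∑ p ∈ antidiagonal k,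
              ((p.2 : ℚ) + 1 + 2 * p.1) * a p.1 * h.coeff (p.2 + 1)) / h.coeff 0 := by
          rw [Finset.sum_div]
          exact Finset.sum_congr rfl fun p _ => by ring
        rw [h3, eq_neg_iff_add_eq_zero]
        field_simp
        linarith
      have h4 : 2 * ((k : ℚ) + 1) * |a (k + 1)| ≤
          ∑ p ∈ antidiagonal k, 2 * ((k : ℚ) + 1) * (((c : ℚ) + 1) ^ p.1 * c) := by
        have h5 : 2 * ((k : ℚ) + 1) * |a (k + 1)| = |2 * ((k : ℚ) + 1) * a (k + 1)| := by
          rw [abs_mul, abs_of_nonneg (by positivity : (0 : ℚ) ≤ 2 * ((k : ℚ) + 1))]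
        rw [h5, h2, abs_neg]
        refine (Finset.abs_sum_le_sum_abs _ _).trans (Finset.sum_le_sum fun p hp => ?_)
        rw [Finset.HasAntidiagonal.mem_antidiagonal] at hp
        have hp' : ((p.1 : ℚ)) + p.2 = k := by exact_mod_cast hp
        have hp1 : (0 : ℚ) ≤ p.1 := Nat.cast_nonneg _
        have hp2 : (0 : ℚ) ≤ p.2 := Nat.cast_nonneg _
        rw [abs_mul, abs_mul, mul_assoc]
        refine mul_le_mul ?_ ?_ (by positivity) (by positivity)
        · rw [abs_of_nonneg (by positivity)]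
          linarith
        · exact mul_le_mul (ih p.1 (by omega)) (hc _) (abs_nonneg _) (by positivity)
      rw [← Finset.mul_sum, ← Finset.sum_mul] at h4
      have h6 : |a (k + 1)| ≤ (∑ p ∈ antidiagonal k, ((c : ℚ) + 1) ^ p.1) * c :=
        le_of_mul_le_mul_left h4 (by positivity)
      refine h6.trans ?_
      rw [Finset.Nat.sum_antidiagonal_eq_sum_range_succ (fun i _ => ((c : ℚ) + 1) ^ i) k]
      have h7 := geom_sum_mul ((c : ℚ) + 1) (k + 1)
      rw [add_sub_cancel_right] at h7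
      rw [h7]
      linarith

end SQI_

open SQI_ in
theorem p_SQI : T_SQI := by
  intro h hh
  obtain ⟨M, hM1, hM⟩ := exists_M h
  obtain ⟨c, hc⟩ := exists_c h
  choose z hz using hM
  obtain ⟨v, hv⟩ : ∃ v : PowerSeries ℤ, v = PowerSeries.mk
    (fun n => if n = 0 then 0 else 4 ^ (n - 1) * (M : ℤ) ^ (n - 1) * z n) := ⟨_, rfl⟩
  have hv0 : PowerSeries.coeff 0 v = 0 := by
    rw [hv, PowerSeries.coeff_mk]
    simp
  -- the inverse of `1 + 4 v`
  have hunit : IsUnit (1 + 4 * v) := by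
    rw [PowerSeries.isUnit_iff_constantCoeff]
    have h1 : PowerSeries.constantCoeff (1 + 4 * v) = 1 := by
      rw [map_add, map_mul, map_one, ← PowerSeries.coeff_zero_eq_constantCoeff_apply v, hv0]
      simp
    rw [h1]
    exact isUnit_one
  obtain ⟨W, hW⟩ := hunit.exists_right_inv
  obtain ⟨w, hw⟩ : ∃ w : ℕ → ℤ, w = fun n => PowerSeries.coeff n (-(v * W)) := ⟨_, rfl⟩
  have hw0 : w 0 = 0 := by
    rw [hw]
    simp only
    rw [map_neg, PowerSeries.coeff_mul]
    simp [hv0]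
  have hwmk : PowerSeries.mk w = -(v * W) := by
    ext n
    rw [PowerSeries.coeff_mk, hw]
  have hY := Yf_sq w hw0
  obtain ⟨Y, hYd⟩ : ∃ Y : PowerSeries ℤ, Y = PowerSeries.mk (Yf w) := ⟨_, rfl⟩
  rw [← hYd, hwmk] at hY
  have hB : (1 + 2 * Y) ^ 2 * (1 + 4 * v) = 1 := by
    have h1 : (1 + 2 * Y) ^ 2 = 1 + 4 * (Y + Y ^ 2) := by ring
    rw [h1, hY]
    have h2 : (1 + 4 * v) * W = 1 := hW
    have h3 : 1 + 4 * -(v * W) = W := by
      have : W = 1 - 4 * (v * W) := by
        rw [← h2]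
        ring
      rw [this]
      have h4 : 4 * (v * (1 - 4 * (v * W))) = 4 * (v * W) := by rw [← this]
      linear_combination -h4
    rw [h3, mul_comm]
    exact h2
  have hM0 : (M : ℚ) ≠ 0 := by
    exact_mod_cast (by omega : M ≠ 0)
  have h4M : (4 * (M : ℚ)) ≠ 0 := mul_ne_zero (by norm_num) hM0
  obtain ⟨A, hA⟩ : ∃ A : PowerSeries ℚ, A = PowerSeries.rescale (1 / (4 * (M : ℚ)))
    (PowerSeries.map (Int.castRingHom ℚ) (1 + 2 * Y)) := ⟨_, rfl⟩
  obtain ⟨a, ha⟩ : ∃ a : ℕ → ℚ, a = fun n => PowerSeries.coeff n A := ⟨_, rfl⟩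
  have hAa : PowerSeries.mk a = A := by
    ext n
    rw [PowerSeries.coeff_mk, ha]
  have hcoef : ∀ n, a n = (1 / (4 * (M : ℚ))) ^ n * (PowerSeries.coeff n (1 + 2 * Y) : ℤ) := by
    intro n
    rw [ha]
    simp only
    rw [hA, PowerSeries.coeff_rescale, PowerSeries.coeff_map]
    rfl
  have ha0 : a 0 = 1 := by
    rw [hcoef]
    have h1 : PowerSeries.coeff 0 (1 + 2 * Y) = 1 := by
      rw [PowerSeries.coeff_zero_eq_constantCoeff_apply, map_add, map_mul, map_one,
        ← PowerSeries.coeff_zero_eq_constantCoeff_apply Y, hYd, PowerSeries.coeff_mk, Yf_zero]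
      simp
    rw [h1]
    simp
  have hresc : PowerSeries.rescale (1 / (4 * (M : ℚ)))
      (PowerSeries.map (Int.castRingHom ℚ) (1 + 4 * v)) * PowerSeries.C (h.coeff 0) =
        (h : PowerSeries ℚ) := by
    ext n
    rw [mul_comm, PowerSeries.coeff_C_mul, PowerSeries.coeff_rescale, PowerSeries.coeff_map,
      Polynomial.coeff_coe]
    rcases Nat.eq_zero_or_pos n with h0 | hn
    · subst h0
      have h1 : PowerSeries.coeff 0 (1 + 4 * v) = 1 := by
        rw [PowerSeries.coeff_zero_eq_constantCoeff_apply, map_add, map_mul, map_one,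
          ← PowerSeries.coeff_zero_eq_constantCoeff_apply v, hv0]
        simp
      rw [h1]
      simp
    · have h1 : PowerSeries.coeff n (1 + 4 * v) = 4 * (4 ^ (n - 1) * (M : ℤ) ^ (n - 1) * z n) := by
        have h2 : (4 : PowerSeries ℤ) = PowerSeries.C (4 : ℤ) := (map_ofNat PowerSeries.C 4).symm
        rw [map_add, h2, PowerSeries.coeff_C_mul, hv, PowerSeries.coeff_mk,
          if_neg (by omega), PowerSeries.coeff_one, if_neg (by omega), zero_add]
      rw [h1]
      obtain ⟨k, rfl⟩ : ∃ k, n = k + 1 := ⟨n - 1, by omega⟩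
      rw [Nat.add_sub_cancel]
      have h3 := hz (k + 1)
      have h4 : h.coeff (k + 1) = h.coeff 0 * ((z (k + 1) : ℚ) / M) := by
        rw [← h3]
        field_simp
      rw [h4]
      simp only [eq_intCast, Int.cast_mul, Int.cast_pow, Int.cast_ofNat, Int.cast_natCast]
      rw [one_div, inv_pow, mul_pow, pow_succ, pow_succ]
      field_simp
  have hsq : (PowerSeries.mk a) ^ 2 * (h : PowerSeries ℚ) = PowerSeries.C (h.coeff 0) := by
    rw [hAa, ← hresc, ← mul_assoc, hA, ← map_pow, ← map_mul, ← map_pow, ← map_mul, hB, map_one,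
      map_one, one_mul]
  have hsize := size h hh a ha0 hsq c hc
  refine ⟨a, 4 * M * (c + 1), hh, ?_, ha0, hsq, fun n => ?_, fun n => ?_⟩
  · exact Nat.one_le_iff_ne_zero.mpr (by positivity)
  · refine (hsize n).trans (pow_le_pow_left₀ (by positivity) ?_ n)
    have h1 : (1 : ℚ) ≤ 4 * M := by
      have : (1 : ℚ) ≤ M := by exact_mod_cast hM1
      linarith
    push_cast
    have h2 : (0 : ℚ) ≤ (c : ℚ) + 1 := by positivity
    nlinarith
  · refine ⟨((c : ℤ) + 1) ^ n * PowerSeries.coeff n (1 + 2 * Y), ?_⟩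
    rw [hcoef]
    push_cast
    rw [mul_pow, one_div, inv_pow]
    have h1 : (4 * (M : ℚ)) ^ n ≠ 0 := pow_ne_zero _ h4M
    field_simp

end Pool.Agent.HEP
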