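import Pool.Agent.LEG.Targets

set_option autoImplicit false

/-!
# Periods of hyperelliptic curves `y² = h(x) (x - 1/N)`: relations of bounded degree (MP_5d33ca_ag)

Definitions and exact targets. The complete proofs are in `Blueprint.lean.txt`.
`IsG`, `ev`, `Conv`, `Hor`, `T_EVC`, `T_GRING` are those of `Pool.Agent.LEG`.
-/

namespace Pool.Agent.HEP

open Finset Pool.Agent.LEG
open scoped BigOperators Topology

/-! ## A. formal part -/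

/-- `a` is the sequence of coefficients of `(h / h 0) ^ (-1 / 2)`, `C` bounds size and
denominators -/
structure SqI (h : Polynomial ℚ) (a : ℕ → ℚ) (C : ℕ) : Prop where
  ne : h.coeff 0 ≠ 0
  one : 1 ≤ C
  zero : a 0 = 1
  sq : (PowerSeries.mk a) ^ 2 * (h : PowerSeries ℚ) = PowerSeries.C (h.coeff 0)
  size : ∀ n, |a n| ≤ (C : ℚ) ^ n
  int : ∀ n, ∃ x : ℤ, (C : ℚ) ^ n * a n = x

/-- existence -/
def T_SQI : Prop := ∀ h : Polynomial ℚ, h.coeff 0 ≠ 0 → ∃ (a : ℕ → ℚ) (C : ℕ), SqI h a C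

/-- `binom(2n, n) / 4^n` -/
noncomputable def bm (n : ℕ) : ℚ := (Nat.centralBinom n : ℚ) / 4 ^ n

/-- `Q_k = ∑_{j ≤ k} q_{k,j} x^{-j}`, the principal part -/
noncomputable def qk (h : Polynomial ℚ) (a : ℕ → ℚ) (k j : ℕ) : ℚ :=
  (1 / h.coeff 0) * ∑ s ∈ range (k + 1 - j), a s * a (k - j - s) / ((s : ℚ) - k + 1 / 2)

/-- `x^{-k} = (Q_k y)' y + ∑_l r_{k,l} x^l`, where `y² = x h(x)` -/
noncomputable def rr (h : Polynomial ℚ) (a : ℕ → ℚ) (k l : ℕ) : ℚ :=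
  -(1 / 2) * ∑ j ∈ Icc 1 k, qk h a k j * (1 - (j : ℚ) + l) * h.coeff (l + j)

/-- reduction of `x^{-k}` (multiplied by `x^k`) -/
def T_RED : Prop := ∀ (h : Polynomial ℚ) (a : ℕ → ℚ) (C m : ℕ), SqI h a C → h.natDegree = m →
  ∀ k : ℕ, 1 ≤ k → (1 : Polynomial ℚ) =
    ∑ j ∈ Icc 1 k, Polynomial.C (qk h a k j) * Polynomial.X ^ (k - j) *
      (Polynomial.C (1 / 2 - (j : ℚ)) * h +
        Polynomial.C (1 / 2) * Polynomial.X * Polynomial.derivative h) +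
    ∑ l ∈ range m, Polynomial.C (rr h a k l) * Polynomial.X ^ (k + l)

/-- the coefficients of the reduction of `x^M` -/
noncomputable def rho (h : Polynomial ℚ) (a : ℕ → ℚ) (l : ℕ) (M : ℤ) : ℚ :=
  if 0 ≤ M then (if M = (l : ℤ) then 1 else 0) else rr h a (-M).toNat l

/-- the reduction kills the exact forms (from T_RED) -/
def T_KIL : Prop := ∀ (h : Polynomial ℚ) (a : ℕ → ℚ) (C m : ℕ), SqI h a C → h.natDegree = m →
  ∀ j l : ℕ, 1 ≤ j → l < m →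
    ∑ t ∈ range (m + 1), (1 / 2 - (j : ℚ) + t / 2) * h.coeff t * rho h a l ((t : ℤ) - j) = 0

/-- size and denominators of the reductions -/
def T_RB : Prop := ∀ (h : Polynomial ℚ) (a : ℕ → ℚ) (C : ℕ), SqI h a C → ∃ K : ℕ, 1 ≤ K ∧
  (∀ k l, |rr h a k l| ≤ (K : ℚ) ^ (k + 1)) ∧
  ∀ n : ℕ, ∃ d : ℕ, 0 < d ∧ d ≤ K ^ (n + 1) ∧ ∀ k, k ≤ n → ∀ l, ∃ x : ℤ,
    (d : ℚ) * rr h a k l = x

/-- the fundamental solution at `z = 0` -/
noncomputable def fS (h : Polynomial ℚ) (a : ℕ → ℚ) (α l : ℕ) : PowerSeries ℚ :=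
  PowerSeries.mk fun n => bm n * rho h a l ((α : ℤ) - n)

/-- (from T_RB) -/
def T_FG : Prop := ∀ (h : Polynomial ℚ) (a : ℕ → ℚ) (C : ℕ), SqI h a C → ∀ α l, IsG (fS h a α l)

/-- the Gauss-Manin connection, `h(z) W' = A(z) W` -/
noncomputable def AA (h : Polynomial ℚ) (m α i : ℕ) : Polynomial ℚ :=
  Polynomial.C (1 / 2) * (Polynomial.C (((i : ℚ) + 1) * h.coeff (i + 1)) * Polynomial.X ^ α +
    if i < α then ∑ k ∈ range (i + 1), Polynomial.C (h.coeff k) * Polynomial.X ^ (α - 1 - i + k)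
    else -∑ k ∈ Icc (i + 1) m, Polynomial.C (h.coeff k) * Polynomial.X ^ (α + k - 1 - i))

/-- algebraic identity behind the connection -/
def T_ALGID : Prop := ∀ (h : Polynomial ℚ) (m α : ℕ), h.natDegree = m → α < m →
  (∀ (R : Type) [CommRing R] [Algebra ℚ R] (x z : R),
    ∑ i ∈ range m, Polynomial.aeval z (AA h m α i) * x ^ i * (x - z) =
      algebraMap ℚ R (1 / 2) * (Polynomial.aeval z h * x ^ α + z ^ α *
        (Polynomial.aeval x (Polynomial.derivative h) * (x - z) - Polynomial.aeval x h))) ∧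
  ∀ i < m, (AA h m α i).degree < m

/-- the system (from T_KIL, T_ALGID) -/
def T_FODE : Prop := ∀ (h : Polynomial ℚ) (a : ℕ → ℚ) (C m : ℕ), SqI h a C → h.natDegree = m →
  ∀ l : ℕ, l < m → Hor h (fun α i : Fin m => AA h m α i) (fun α : Fin m => fS h a α l)

/-! ## B. Riemann's bilinear relations -/

/-- complete hyperelliptic integrals of `y² = ∏ (x - b i)` between consecutive branch points -/
noncomputable def per {m : ℕ} (b : Fin (m + 1) → ℝ) (a j : Fin m) : ℝ :=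
  ∫ x in (b j.castSucc)..(b j.succ), x ^ (a : ℕ) / Real.sqrt |∏ i, (x - b i)|

/-- the polynomial identity -/
def T_PID : Prop := ∀ (m : ℕ) (P : Polynomial ℝ), P.natDegree ≤ m + 1 → ∀ x y : ℝ,
  (P.derivative.eval x + P.derivative.eval y) / 2 * (x - y) - P.eval x + P.eval y =
    (x - y) ^ 2 * ∑ a ∈ range m, ∑ c ∈ range m, ((a : ℝ) - c) / 2 * P.coeff (a + c + 2) *
      x ^ a * y ^ c

/-- integrability -/
def T_INTB : Prop := ∀ (m : ℕ) (b : Fin m → ℝ), Function.Injective b → ∀ (p q : ℝ) (n : ℕ),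
  IntervalIntegrable (fun x => x ^ n / Real.sqrt |∏ i, (x - b i)|) MeasureTheory.volume p q

/-- the inner integral (from T_INTB) -/
def T_RIN : Prop := ∀ (m : ℕ) (b : Fin (m + 1) → ℝ), StrictMono b → ∀ (P : Polynomial ℝ),
  P = ∏ i, (Polynomial.X - Polynomial.C (b i)) → ∀ (j : Fin m) (y u : ℝ),
  y ∉ Set.Icc (b j.castSucc) (b j.succ) → u ∈ Set.Icc (b j.castSucc) (b j.succ) →
  IntervalIntegrable (fun x => (P.derivative.eval x / 2 * (x - y) - P.eval x) /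
    ((x - y) ^ 2 * Real.sqrt |P.eval x|)) MeasureTheory.volume (b j.castSucc) (b j.succ) ∧
  ∫ x in (b j.castSucc)..u, (P.derivative.eval x / 2 * (x - y) - P.eval x) /
      ((x - y) ^ 2 * Real.sqrt |P.eval x|) =
    (-1) ^ (m - (j : ℕ)) * Real.sqrt |P.eval u| / (u - y)

/-- the limit -/
def T_RLIM : Prop := ∀ (m : ℕ) (b : Fin (m + 1) → ℝ), StrictMono b → ∀ j k : Fin m,
  (k : ℕ) = j + 1 → Filter.Tendsto (fun ε : ℝ => ∫ y in (b k.castSucc)..(b k.succ),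
    Real.sqrt |∏ i, (b j.succ - ε - b i)| /
      ((y - (b j.succ - ε)) * Real.sqrt |∏ i, (y - b i)|)) (𝓝[>] 0) (𝓝 Real.pi)

/-- non-adjacent intervals (from T_PID, T_INTB, T_RIN) -/
def T_RNA : Prop := ∀ (m : ℕ) (b : Fin (m + 1) → ℝ), StrictMono b → ∀ j k : Fin m,
  (j : ℕ) + 1 < k → ∑ a : Fin m, ∑ c : Fin m, (((a : ℕ) : ℝ) - ((c : ℕ) : ℝ)) / 2 *
    (∏ i, (Polynomial.X - Polynomial.C (b i))).coeff ((a : ℕ) + c + 2) *
      per b a j * per b c k = 0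

/-- adjacent intervals (from T_PID, T_INTB, T_RIN, T_RLIM) -/
def T_RAD : Prop := ∀ (m : ℕ) (b : Fin (m + 1) → ℝ), StrictMono b → ∀ j k : Fin m,
  (k : ℕ) = j + 1 → ∑ a : Fin m, ∑ c : Fin m, (((a : ℕ) : ℝ) - ((c : ℕ) : ℝ)) / 2 *
    (∏ i, (Polynomial.X - Polynomial.C (b i))).coeff ((a : ℕ) + c + 2) *
      per b a j * per b c k = -(-1) ^ (m - (j : ℕ)) * Real.pi

/-! ## C. analytic continuation to the upper half plane -/

/-- principal square root -/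
noncomputable def sq (w : ℂ) : ℂ := w ^ (1 / 2 : ℂ)

/-- the upper half plane -/
def HH : Set ℂ := {z | 0 < z.im}

/-- properties of `sq` -/
def T_SQP : Prop := (∀ w : ℂ, sq w * sq w = w) ∧
  (∀ w ∈ Complex.slitPlane, HasDerivAt sq (1 / (2 * sq w)) w ∧ 0 < (sq w).re) ∧
  (∀ w : ℂ, (0 < w.im ∨ (w.im = 0 ∧ w.re < 0)) → sq w = Complex.I * sq (-w)) ∧
  (∀ (c : ℝ) (w : ℂ), 0 ≤ c → sq ((c : ℂ) * w) = (Real.sqrt c : ℂ) * sq w) ∧
  ContinuousOn sq {w : ℂ | 0 ≤ w.im} ∧ (∀ w : ℂ, ‖sq w‖ = Real.sqrt ‖w‖) ∧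
  (∀ x : ℝ, 0 ≤ x → sq (x : ℂ) = (Real.sqrt x : ℂ)) ∧
  (∀ x : ℝ, x ≤ 0 → sq (x : ℂ) = Complex.I * (Real.sqrt (-x) : ℂ)) ∧
  ∀ w : ℂ, w ≠ 0 → sq w ≠ 0

/-- differentiation under the integral sign -/
def T_PAR : Prop := ∀ (U : Set ℂ) (f : ℝ → ℂ → ℂ) (w : ℝ → ℝ) (p q : ℝ), IsOpen U → p ≤ q →
  IntervalIntegrable w MeasureTheory.volume p q →
  (∀ z ∈ U, MeasureTheory.AEStronglyMeasurable (fun s => f s z)
    (MeasureTheory.volume.restrict (Set.Ioc p q))) →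
  (∀ s ∈ Set.Ioo p q, DifferentiableOn ℂ (f s) U) →
  (∀ z0 ∈ U, ∃ δ : ℝ, 0 < δ ∧ ∀ z ∈ Metric.ball z0 δ, ∀ s ∈ Set.Ioo p q, ‖f s z‖ ≤ w s) →
  ∀ z ∈ U, IntervalIntegrable (fun s => f s z) MeasureTheory.volume p q ∧
    IntervalIntegrable (fun s => deriv (f s) z) MeasureTheory.volume p q ∧
    HasDerivAt (fun z => ∫ s in p..q, f s z) (∫ s in p..q, deriv (f s) z) z

/-- the identity theorem, in two situations -/
def T_IDT : Prop := (∀ (f : ℂ → ℂ) (c ρ : ℝ), 0 < ρ → DifferentiableOn ℂ f HH →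
    (∀ z ∈ Metric.ball (c : ℂ) ρ, 0 < z.im → f z = 0) → ∀ z : ℂ, 0 < z.im → f z = 0) ∧
  ∀ (f : ℂ → ℂ) (ρ : ℝ), 0 < ρ → DifferentiableOn ℂ f (Metric.ball 0 ρ) →
    (∀ x : ℝ, |x| < ρ → f x = 0) → ∀ z ∈ Metric.ball (0 : ℂ) ρ, f z = 0

/-- the beta integrals -/
def T_BETA : Prop := ∀ n : ℕ,
  IntervalIntegrable (fun s : ℝ => s ^ n / Real.sqrt (s * (1 - s))) MeasureTheory.volume 0 1 ∧
  ∫ s in (0 : ℝ)..1, s ^ n / Real.sqrt (s * (1 - s)) = Real.pi * (bm n : ℝ)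

/-- `∫_{e_i}^z x^α dx / (√h(x) √(z - x))` -/
noncomputable def DD {m : ℕ} (e : Fin m → ℝ) (α : ℕ) (i : Fin m) (z : ℂ) : ℂ :=
  ∫ s in (0 : ℝ)..1, ((e i : ℂ) + s * (z - e i)) ^ α / ((Real.sqrt (s * (1 - s)) : ℂ) *
    ∏ k ∈ univ.erase i, sq ((e i : ℂ) - e k + s * (z - e i)))

/-- `∫_p^q x^α dx / (√h(x) √(z - x))` on the real axis -/
noncomputable def UI {m : ℕ} (e : Fin m → ℝ) (α : ℕ) (p q : ℝ) (z : ℂ) : ℂ :=
  ∫ x in p..q, (x : ℂ) ^ α / ((∏ k, sq ((x : ℂ) - e k)) * sq (z - x))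

/-- (from T_SQP, T_PAR, T_BETA) -/
def T_DAN : Prop := ∀ (m : ℕ) (e : Fin m → ℝ) (α : ℕ) (i : Fin m), StrictMono e →
  DifferentiableOn ℂ (DD e α i) HH

/-- integrability (from T_SQP, T_INTB) -/
def T_UINT : Prop := ∀ (m : ℕ) (e : Fin m → ℝ) (α : ℕ) (p q : ℝ) (z : ℂ), StrictMono e →
  0 < z.im → IntervalIntegrable (fun x : ℝ => (x : ℂ) ^ α / (∏ k, sq ((x : ℂ) - e k)))
    MeasureTheory.volume p q ∧
  IntervalIntegrable (fun x : ℝ => (x : ℂ) ^ α / ((∏ k, sq ((x : ℂ) - e k)) * sq (z - x)))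
    MeasureTheory.volume p q

/-- (from T_SQP, T_UINT) -/
def T_DU : Prop := ∀ (m : ℕ) (e : Fin m → ℝ) (α : ℕ) (i j : Fin m) (z : ℂ), StrictMono e →
  0 < z.im → DD e α i z - DD e α j z = UI e α (e i) (e j) z

/-- the differential equation for differences (from T_SQP, T_UINT, T_ALGID, T_PAR) -/
def T_UODE : Prop := ∀ (m : ℕ) (h : Polynomial ℚ) (e : Fin m → ℝ) (i j : Fin m) (α : Fin m)
  (z : ℂ), StrictMono e →
  h.map (algebraMap ℚ ℝ) = ∏ k, (Polynomial.X - Polynomial.C (e k)) → 0 < z.im →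
  HasDerivAt (UI e α (e i) (e j)) ((∑ l : Fin m, Polynomial.aeval z (AA h m α l) *
    UI e l (e i) (e j) z) / Polynomial.aeval z h) z

/-- the basic integrals (from T_SQP) -/
def T_J : Prop := ∀ η : ℝ, 0 < η → ∃ (α : ℕ → ℂ → ℂ) (K : ℝ), ∀ n : ℕ,
  DifferentiableOn ℂ (α n) (Metric.ball 0 η) ∧
  (∀ τ ∈ Metric.ball (0 : ℂ) (η / 2), ‖α n τ‖ ≤ K * η ^ n) ∧
  ∀ τ ∈ Metric.ball (0 : ℂ) η, τ ∈ Complex.slitPlane →
    ∫ r in (0 : ℝ)..η, (r : ℂ) ^ n / ((Real.sqrt r : ℂ) * sq (τ + r)) =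
      (-1) ^ (n + 1) * (bm n : ℂ) * τ ^ n * Complex.log τ + (-1) ^ n * α n τ

/-- `∫_c^z F(x) dx / √((x-c)(z-x))` -/
noncomputable def GG (F : ℂ → ℂ) (c : ℝ) (z : ℂ) : ℂ :=
  ∫ s in (0 : ℝ)..1, F ((c : ℂ) + s * (z - c)) / (Real.sqrt (s * (1 - s)) : ℂ)

/-- local expansions (from T_J, T_SQP, T_BETA, T_PAR) -/
def T_LOCF : Prop := ∀ (F : ℂ → ℂ) (c ρ η : ℝ), 0 < η → η < ρ →
  DifferentiableOn ℂ F (Metric.ball (c : ℂ) ρ) →
  DifferentiableOn ℂ (GG F c) (Metric.ball (c : ℂ) ρ) ∧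
  ∃ A1 A2 : ℂ → ℂ, DifferentiableOn ℂ A1 (Metric.ball (c : ℂ) (η / 2)) ∧
    DifferentiableOn ℂ A2 (Metric.ball (c : ℂ) (η / 2)) ∧
    ∀ z ∈ Metric.ball (c : ℂ) (η / 2), 0 < z.im →
      ∫ r in (0 : ℝ)..η, F ((c : ℂ) - r) / (Complex.I * (Real.sqrt r : ℂ) * sq (z - c + r)) =
        A1 z + Complex.I / Real.pi * Complex.log (z - c) * GG F c z ∧
      -∫ r in (0 : ℝ)..η, F ((c : ℂ) + r) / ((Real.sqrt r : ℂ) * sq (z - c - r)) =
        A2 z - Complex.I / Real.pi * Complex.log (z - c) * GG F c z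

/-- a branch of `√∏_{k ≠ i} (x - e_k)` near `e_i` (from T_SQP) -/
def T_BI : Prop := ∀ (m : ℕ) (e : Fin m → ℝ) (i : Fin m), StrictMono e →
  ∃ (ρ : ℝ) (B : ℂ → ℂ), 0 < ρ ∧ DifferentiableOn ℂ B (Metric.ball (e i : ℂ) ρ) ∧
    ∀ x ∈ Metric.ball (e i : ℂ) ρ, B x ≠ 0 ∧
      (0 ≤ x.im → B x = ∏ k ∈ univ.erase i, sq (x - e k))

/-- the logarithmic coefficients -/
noncomputable def cc {m : ℕ} (i j : Fin m) : ℂ :=
  if j < i then Complex.I / Real.pi else if i < j then -(Complex.I / Real.pi) else 0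

/-- (from T_SQP, T_UINT, T_DU, T_LOCF, T_BI, T_PAR) -/
def T_LOCX : Prop := ∀ (m : ℕ) (e : Fin m → ℝ) (i : Fin m), StrictMono e →
  ∃ (ρ : ℝ) (Ah : ℕ → Fin m → ℂ → ℂ) (Gh : ℕ → ℂ → ℂ), 0 < ρ ∧
    (∀ α j, DifferentiableOn ℂ (Ah α j) (Metric.ball (e i : ℂ) ρ)) ∧
    (∀ α, DifferentiableOn ℂ (Gh α) (Metric.ball (e i : ℂ) ρ)) ∧
    ∀ z ∈ Metric.ball (e i : ℂ) ρ, 0 < z.im → ∀ α, DD e α i z = Gh α z ∧
      ∀ j, DD e α j z = Ah α j z + cc i j * Complex.log (z - e i) * Gh α z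

/-- `log` is transcendental over analytic germs -/
def T_LOGT : Prop := ∀ (n : ℕ) (g : ℕ → ℂ → ℂ) (c : ℂ), (∀ k, AnalyticAt ℂ (g k) c) →
  (∀ᶠ y : ℝ in 𝓝[>] (0 : ℝ), ∑ k ∈ range n, g k (c + (y : ℂ) * Complex.I) *
    Complex.log ((y : ℂ) * Complex.I) ^ k = 0) →
  ∀ k < n, ∀ᶠ z in 𝓝 c, g k z = 0

/-- the differential equation (from T_DAN, T_DU, T_UODE, T_LOCX, T_LOGT, T_IDT) -/
def T_DODE : Prop := ∀ (m : ℕ) (h : Polynomial ℚ) (e : Fin m → ℝ), StrictMono e → 2 ≤ m →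
  h.map (algebraMap ℚ ℝ) = ∏ k, (Polynomial.X - Polynomial.C (e k)) →
  ∀ (i α : Fin m) (z : ℂ), 0 < z.im → HasDerivAt (DD e α i)
    ((∑ l : Fin m, Polynomial.aeval z (AA h m α l) * DD e l i z) / Polynomial.aeval z h) z

/-- boundary values (from T_SQP, T_DU, T_UINT, T_INTB) -/
def T_DBV : Prop := ∀ (m : ℕ) (e : Fin m → ℝ), StrictMono e → (∀ i, e i ≠ 0) →
  ∃ (r : Fin (m + 1)) (M0 : Matrix (Fin m) (Fin m) ℂ) (δ : ℝ), 0 < δ ∧
    ∀ x : ℝ, |x| < δ → StrictMono (Fin.insertNth (α := fun _ => ℝ) r x e) ∧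
      ∀ a j : Fin m, Filter.Tendsto
        (fun y : ℝ => ∑ i, DD e a i (x + y * Complex.I) * M0 i j) (𝓝[>] 0)
        (𝓝 (per (Fin.insertNth (α := fun _ => ℝ) r x e) a j : ℂ))

/-! ## D. the period matrix near `0` -/

/-- the data of a family -/
structure HD (m : ℕ) (h : Polynomial ℚ) (e : Fin m → ℝ) (a : ℕ → ℚ) (C : ℕ) : Prop where
  two : 2 ≤ m
  even : Even m
  mono : StrictMono e
  prod : h.map (algebraMap ℚ ℝ) = ∏ k, (Polynomial.X - Polynomial.C (e k))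
  sqi : SqI h a C

/-- complex evaluation -/
noncomputable def evC (f : PowerSeries ℚ) (z : ℂ) : ℂ :=
  ∑' n : ℕ, ((PowerSeries.coeff n f : ℚ) : ℂ) * z ^ n

/-- the value of the fundamental solution -/
noncomputable def Fv (m : ℕ) (h : Polynomial ℚ) (a : ℕ → ℚ) (z : ℂ) : Matrix (Fin m) (Fin m) ℂ :=
  Matrix.of fun α l => evC (fS h a α l) z

/-- the matrix of the functions `DD` -/
noncomputable def Dm {m : ℕ} (e : Fin m → ℝ) (z : ℂ) : Matrix (Fin m) (Fin m) ℂ :=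
  Matrix.of fun α i => DD e α i z

/-- the real period matrix -/
noncomputable def Pm {m : ℕ} (b : Fin (m + 1) → ℝ) : Matrix (Fin m) (Fin m) ℂ :=
  Matrix.of fun a j => (per b a j : ℂ)

/-- complex evaluation of G-functions -/
def T_EVCC : Prop := ∀ f : PowerSeries ℚ, IsG f → ∃ δ : ℝ, 0 < δ ∧
  DifferentiableOn ℂ (evC f) (Metric.ball 0 δ) ∧
  (∀ z ∈ Metric.ball (0 : ℂ) δ, HasDerivAt (evC f) (evC (PowerSeries.derivative ℚ f) z) z) ∧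
  (∀ x : ℝ, |x| < δ → evC f x = (ev f x : ℂ)) ∧
  (∀ (g : PowerSeries ℚ) (p : Polynomial ℚ), IsG g → ∀ᶠ z in 𝓝 (0 : ℂ),
    evC (f + g) z = evC f z + evC g z ∧ evC (f * g) z = evC f z * evC g z ∧
      evC (p : PowerSeries ℚ) z = Polynomial.aeval z p)

/-- the period matrix is `f(z) w₀` (from T_DODE, T_FODE, T_FG, T_DBV, T_EVCC) -/
def T_WF : Prop := ∀ (m : ℕ) (h : Polynomial ℚ) (e : Fin m → ℝ) (a : ℕ → ℚ) (C : ℕ),
  HD m h e a C → ∃ (r : Fin (m + 1)) (C0 M0 : Matrix (Fin m) (Fin m) ℂ) (δ : ℝ), 0 < δ ∧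
    (∀ α l, DifferentiableOn ℂ (fun z => Fv m h a z α l) (Metric.ball 0 δ)) ∧
    Pm (Fin.insertNth (α := fun _ => ℝ) r 0 e) = C0 * M0 ∧
    (∀ z ∈ Metric.ball (0 : ℂ) δ, 0 < z.im → Dm e z = Fv m h a z * C0) ∧
    ∀ x : ℝ, |x| < δ → StrictMono (Fin.insertNth (α := fun _ => ℝ) r x e) ∧
      Pm (Fin.insertNth (α := fun _ => ℝ) r x e) =
        Fv m h a x * Pm (Fin.insertNth (α := fun _ => ℝ) r 0 e)

/-- the de Rham pairing -/
noncomputable def pz (h : Polynomial ℚ) (m : ℕ) (z : ℂ) : Matrix (Fin m) (Fin m) ℂ :=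
  Matrix.of fun a c => (((a : ℕ) : ℂ) - ((c : ℕ) : ℂ)) / 2 *
    ((h.coeff ((a : ℕ) + c + 1) : ℂ) - z * (h.coeff ((a : ℕ) + c + 2) : ℂ))

/-- the chain -/
noncomputable def Ch (m : ℕ) : Matrix (Fin m) (Fin m) ℂ :=
  Matrix.of fun j k => if (k : ℕ) = j + 1 then (-1) ^ ((j : ℕ) + 1)
    else if (j : ℕ) = k + 1 then -(-1) ^ ((k : ℕ) + 1) else 0

/-- bilinear relations in matrix form (from T_RNA, T_RAD) -/
def T_BIL : Prop := ∀ (m : ℕ) (h : Polynomial ℚ) (e : Fin m → ℝ) (r : Fin (m + 1)) (x : ℝ),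
  Even m → h.map (algebraMap ℚ ℝ) = ∏ k, (Polynomial.X - Polynomial.C (e k)) →
  StrictMono (Fin.insertNth (α := fun _ => ℝ) r x e) →
  (Pm (Fin.insertNth (α := fun _ => ℝ) r x e)).transpose * pz h m x *
    Pm (Fin.insertNth (α := fun _ => ℝ) r x e) = (Real.pi : ℂ) • Ch m

/-- the chain matrix is invertible -/
def T_CHD : Prop := ∀ m : ℕ, Even m → (Ch m).det ≠ 0

/-- the Gram matrix on the upper half plane (from T_WF, T_BIL, T_CHD, T_LOCX, T_DAN, T_LOGT, T_IDT) -/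
def T_GRM : Prop := ∀ (m : ℕ) (h : Polynomial ℚ) (e : Fin m → ℝ) (a : ℕ → ℚ) (C : ℕ),
  HD m h e a C → ∃ γ : ℂ, γ ≠ 0 ∧ (Matrix.of (cc : Fin m → Fin m → ℂ)).det ≠ 0 ∧
    ∀ z : ℂ, 0 < z.im → (Dm e z).transpose * pz h m z * Dm e z = γ • Matrix.of cc

/-! ## E. invariance -/

/-- evaluation of a polynomial in `z` and the entries of a matrix -/
noncomputable def evP {m : ℕ} (z : ℂ) (X : Matrix (Fin m) (Fin m) ℂ)
    (Ψ : MvPolynomial (Fin m × Fin m) (Polynomial ℂ)) : ℂ :=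
  MvPolynomial.eval₂ (Polynomial.evalRingHom z) (fun p => X p.1 p.2) Ψ

/-- the derivation `X ↦ X M` -/
noncomputable def dM {m : ℕ} (M : Matrix (Fin m) (Fin m) ℂ) :
    Derivation (Polynomial ℂ) (MvPolynomial (Fin m × Fin m) (Polynomial ℂ))
      (MvPolynomial (Fin m × Fin m) (Polynomial ℂ)) :=
  MvPolynomial.mkDerivation (Polynomial ℂ) fun p =>
    ∑ i, MvPolynomial.C (Polynomial.C (M i p.2)) * MvPolynomial.X (p.1, i)

/-- the logarithm of the monodromy around `e_i` -/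
noncomputable def Ni {m : ℕ} (i : Fin m) : Matrix (Fin m) (Fin m) ℂ :=
  Matrix.of fun a b => if a = i then cc i b else 0

/-- (from T_LOCX, T_LOGT, T_DAN, T_IDT) -/
def T_INV : Prop := ∀ (m : ℕ) (e : Fin m → ℝ)
  (Ψ : MvPolynomial (Fin m × Fin m) (Polynomial ℂ)), StrictMono e →
  (∀ z, 0 < z.im → evP z (Dm e z) Ψ = 0) →
  ∀ i : Fin m, ∀ z, 0 < z.im → evP z (Dm e z) (dM (Ni i) Ψ) = 0

/-- properties of the derivations -/
def T_DER : Prop := ∀ (m : ℕ) (A B : Matrix (Fin m) (Fin m) ℂ) (c : ℂ)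
  (Ψ : MvPolynomial (Fin m × Fin m) (Polynomial ℂ)),
  dM (A + B) Ψ = dM A Ψ + dM B Ψ ∧
  dM (c • A) Ψ = MvPolynomial.C (Polynomial.C c) * dM A Ψ ∧
  dM (A * B - B * A) Ψ = dM A (dM B Ψ) - dM B (dM A Ψ)

/-- the matrix `v vᵀ G` -/
noncomputable def vv {m : ℕ} (G : Matrix (Fin m) (Fin m) ℂ) (v : Fin m → ℂ) :
    Matrix (Fin m) (Fin m) ℂ :=
  Matrix.vecMulVec v v * G

/-- the Lie algebra generated by the `e_i e_iᵀ G` -/
def T_LIE : Prop := ∀ (m : ℕ) (G : Matrix (Fin m) (Fin m) ℂ)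
  (S : Set (Matrix (Fin m) (Fin m) ℂ)), 0 < m → G.transpose = -G → (∀ i j, i ≠ j → G i j ≠ 0) →
  (∀ A ∈ S, ∀ B ∈ S, A + B ∈ S ∧ A * B - B * A ∈ S) → (∀ A ∈ S, ∀ c : ℂ, c • A ∈ S) →
  (∀ i, vv G (Pi.single i 1) ∈ S) → ∀ v, vv G v ∈ S

/-- Taylor formula -/
def T_TAY : Prop := ∀ (m : ℕ) (M X : Matrix (Fin m) (Fin m) ℂ) (z s : ℂ)
  (Ψ : MvPolynomial (Fin m × Fin m) (Polynomial ℂ)), M * M = 0 →
  (∀ k : ℕ, evP z X ((fun Φ => dM M Φ)^[k] Ψ) = 0) → evP z (X * (1 + s • M)) Ψ = 0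

/-- the symplectic group is generated by transvections -/
def T_SPG : Prop := ∀ (m : ℕ) (G g : Matrix (Fin m) (Fin m) ℂ), G.transpose = -G → G.det ≠ 0 →
  g.transpose * G * g = G →
  g ∈ Submonoid.closure {T | ∃ (v : Fin m → ℂ) (s : ℂ), T = 1 + s • vv G v}

/-- invariance under the symplectic group (from T_GRM, T_INV, T_DER, T_LIE, T_TAY, T_SPG) -/
def T_ORB : Prop := ∀ (m : ℕ) (h : Polynomial ℚ) (e : Fin m → ℝ) (a : ℕ → ℚ) (C : ℕ),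
  HD m h e a C → ∀ Ψ : MvPolynomial (Fin m × Fin m) (Polynomial ℂ),
  (∀ z, 0 < z.im → evP z (Dm e z) Ψ = 0) →
  ∀ g : Matrix (Fin m) (Fin m) ℂ,
    g.transpose * Matrix.of (cc : Fin m → Fin m → ℂ) * g = Matrix.of cc →
    ∀ z, 0 < z.im → evP z (Dm e z * g) Ψ = 0

/-! ## F. conclusion -/

/-- Riemann's bilinear relations for `y² = P(x)` -/
def Riem {m : ℕ} (P : Polynomial ℂ) (X : Matrix (Fin m) (Fin m) ℂ) : Prop :=
  ∀ j k : Fin m, j < k → ∑ a : Fin m, ∑ c : Fin m, (((a : ℕ) : ℂ) - ((c : ℕ) : ℂ)) / 2 *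
    P.coeff ((a : ℕ) + c + 2) * X a j * X c k =
      if (k : ℕ) = j + 1 then (-1) ^ ((j : ℕ) + 1) * (Real.pi : ℂ) else 0

/-- a functional relation between the `fS` -/
def Frel (m : ℕ) (h : Polynomial ℚ) (a : ℕ → ℚ)
    (R : MvPolynomial (Fin m × Fin m) (Polynomial ℚ)) : Prop :=
  MvPolynomial.eval₂ (Polynomial.coeToPowerSeries.ringHom) (fun p => fS h a p.1 p.2) R = 0

/-- the polynomial `h(x) (x - z)` -/
noncomputable def PN (h : Polynomial ℚ) (z : ℂ) : Polynomial ℂ :=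
  h.map (algebraMap ℚ ℂ) * (Polynomial.X - Polynomial.C z)

/-- functional relations vanish under Riemann's relations
(from T_ORB, T_GRM, T_WF, T_BIL, T_CHD, T_EVCC, T_FG, T_DAN, T_IDT) -/
def T_FUN : Prop := ∀ (m : ℕ) (h : Polynomial ℚ) (e : Fin m → ℝ) (a : ℕ → ℚ) (C : ℕ),
  HD m h e a C → ∃ (w0 : Matrix (Fin m) (Fin m) ℂ) (N0 : ℕ), w0.det ≠ 0 ∧ 1 ≤ N0 ∧
    ∀ N : ℕ, N0 ≤ N → ∃ b : Fin (m + 1) → ℝ, StrictMono b ∧
      h.map (algebraMap ℚ ℝ) * (Polynomial.X - Polynomial.C (1 / (N : ℝ))) =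
        ∏ i, (Polynomial.X - Polynomial.C (b i)) ∧
      (∀ α j : Fin m, (per b α j : ℂ) =
        ∑ l : Fin m, (ev (fS h a α l) (1 / (N : ℝ)) : ℂ) * w0 l j) ∧
      ∀ R, Frel m h a R → ∀ X : Matrix (Fin m) (Fin m) ℂ, Riem (PN h (1 / (N : ℂ))) X →
        MvPolynomial.eval₂ ((algebraMap ℚ ℂ).comp (Polynomial.evalRingHom (1 / (N : ℚ))))
          (fun p => (X * w0⁻¹) p.1 p.2) R = 0

/-- sorted roots are unique -/
def T_UNI : Prop := ∀ (m : ℕ) (b b' : Fin m → ℝ), StrictMono b → StrictMono b' →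
  ∏ i, (Polynomial.X - Polynomial.C (b i)) = ∏ i, (Polynomial.X - Polynomial.C (b' i)) → b = b'

/-- the variables: the entries of `n` period matrices -/
abbrev Var {n : ℕ} (g : Fin n → ℕ) : Type := (l : Fin n) × (Fin (2 * g l) × Fin (2 * g l))

/-- the period matrices of the curves `y² = h_l(x) (x - 1 / N_l)` -/
def Periods {n : ℕ} {g : Fin n → ℕ} (h : Fin n → Polynomial ℚ) (N : Fin n → ℕ)
    (w : Var g → ℂ) : Prop :=
  ∃ b : ∀ l, Fin (2 * g l + 1) → ℝ, (∀ l, StrictMono (b l) ∧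
    (h l).map (algebraMap ℚ ℝ) * (Polynomial.X - Polynomial.C (1 / (N l : ℝ))) =
      ∏ i, (Polynomial.X - Polynomial.C (b l i))) ∧
    ∀ p : Var g, w p = (per (b p.1) p.2.1 p.2.2 : ℂ)

/-- the periods satisfy a relation of total degree at most `D` over `ℤ[θ]` that does not follow
from Riemann's relations -/
def HasExtra {n k : ℕ} {g : Fin n → ℕ} (D : ℕ) (θ : Fin k → ℂ) (h : Fin n → Polynomial ℚ)
    (N : Fin n → ℕ) : Prop :=
  ∃ (w : Var g → ℂ) (P : MvPolynomial (Fin k ⊕ Var g) ℤ), Periods h N w ∧ P.totalDegree ≤ D ∧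
    MvPolynomial.aeval (Sum.elim θ w) P = 0 ∧
    ∃ X : ∀ l, Matrix (Fin (2 * g l)) (Fin (2 * g l)) ℂ,
      (∀ l, Riem (PN (h l) (1 / (N l : ℂ))) (X l)) ∧
      MvPolynomial.aeval (Sum.elim θ (fun p : Var g => X p.1 p.2.1 p.2.2)) P ≠ 0

/-- the main theorem (from T_FUN, T_UNI, T_SQI, T_FG, T_FODE, T_ALGID and GFam.gfin) -/
def T_FINH : Prop := ∀ (n k D : ℕ) (g : Fin n → ℕ) (h : Fin n → Polynomial ℚ),
  (∀ l, 1 ≤ g l) → (∀ l, (h l).coeff 0 ≠ 0) →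
  (∀ l, ∃ e : Fin (2 * g l) → ℝ, StrictMono e ∧
    (h l).map (algebraMap ℚ ℝ) = ∏ i, (Polynomial.X - Polynomial.C (e i))) →
  ∃ K : ℕ, 1 ≤ K ∧ ∀ (T : ℕ) (θ : Fin k → ℂ), 1 ≤ T →
    (({N : Fin n → ℕ | (∀ l, 1 ≤ N l ∧ N l ≤ T) ∧
      HasExtra (g := g) D θ h N}).ncard : ℝ) ≤ K * (T : ℝ) ^ ((n : ℝ) - 1 / (K : ℝ))

end Pool.Agent.HEP
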